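import Pool.Agent.Lib.MP_3efbeb_nt.ER.SV.SpecM

/-! # MP_3efbeb_nt, ER/SV, module AER (helper20) -/

set_option autoImplicit false

namespace Pool.Agent.Lib.MP_3efbeb_nt.ER.SV

open Finset Filter Topology
open scoped Classical

namespace AERM

lemma len_sqf (a : ℕ) (ha : Squarefree a) : a.primeFactorsList.length = a.primeFactors.card := by
  rw [Nat.primeFactors, List.toFinset_card_of_nodup]
  exact (Nat.squarefree_iff_nodup_primeFactorsList ha.ne_zero).1 ha

end AERM

theorem specAER : SpecAER := by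
  intro θ θ' β s x T m hβ hβ1 hθ hθ2 hx hA
  obtain ⟨a, P, rfl, hP, hZP, ha, hac, hap⟩ := hA
  have hx1 : (1 : ℝ) < x := by exact_mod_cast (by omega : 1 < x)
  have hPbig : (x : ℝ) ^ (1 / 2 : ℝ) < P :=
    lt_of_le_of_lt (Real.rpow_le_rpow_of_exponent_le hx1.le (by linarith)) hZP
  refine ⟨?_, ?_, P, hP, dvd_mul_left P a, ?_⟩
  · rw [(Nat.perm_primeFactorsList_mul ha.ne_zero hP.ne_zero).length_eq, List.length_append,
      AERM.len_sqf a ha, hac, Nat.primeFactorsList_prime hP]
    rfl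
  · intro p hp hd
    rcases (Nat.Prime.dvd_mul hp).1 hd with h | h
    · have h1 := (hap p hp h).1
      have h2 : (x : ℝ) ^ β ≤ p := le_trans (Nat.le_ceil _) (by exact_mod_cast h1)
      exact lt_of_lt_of_le (Real.rpow_lt_rpow_of_exponent_lt hx1 (by linarith)) h2
    · have h1 := (Nat.prime_dvd_prime_iff_eq hp hP).1 h
      rw [h1]
      exact lt_of_le_of_lt (Real.rpow_le_rpow_of_exponent_le hx1.le (by linarith)) hPbig
  · exact lt_of_le_of_lt (Real.rpow_le_rpow_of_exponent_le hx1.le (by linarith)) hZP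

end Pool.Agent.Lib.MP_3efbeb_nt.ER.SV
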