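import Pool.Agent.Lib.MP_3efbeb_nt.ER.SV.SpecP
import Pool.Agent.Lib.MP_3efbeb_nt.DL.AVG

/-!
# AVGB: the average of the singular series over the primes of a class mod `M` (helper80)

The proof of `DL.specAVG` with `bb M b j` instead of `blk M j`.
-/

set_option autoImplicit false

namespace Pool.Agent.Lib.MP_3efbeb_nt.ER.P3

open Finset
open scoped Classical
open Pool.Agent.Lib.MP_3efbeb_nt.DL (hh Del)
open Pool.Agent.Lib.MP_3efbeb_nt.DL.AVGM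

/-- AVGB. -/
theorem specAVGB (h1 : SpecAVG1B) : SpecAVGB := by
  intro S η hη hS
  set a : ℝ := 2 * ((S.card : ℝ) + 1) with ha
  have ha0 : 0 ≤ a := by positivity
  set I : Finset (ℤ × ℤ) := S ×ˢ S with hI
  set N : ℕ := I.card with hN
  set A : ℝ := (1 + a) ^ N - 1 with hA
  have hA0 : 0 ≤ A := by
    have : (1 : ℝ) ≤ (1 + a) ^ N := one_le_pow₀ (by linarith)
    rw [hA]; linarith
  -- the constants for the pairs
  have hex : ∀ x : ℤ × ℤ, ∃ P0 : ℕ, x ∈ I → ∀ M : ℕ, 1 ≤ M → (∀ p : ℕ, p.Prime → ¬ p ∣ M → P0 < p) →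
      ∃ j0 : ℕ, ∀ j : ℕ, j0 ≤ j → ∀ b : ℕ, Nat.Coprime b M → ∀ q ∈ bb M b j,
        ∑ q' ∈ (bb M b j).erase q, (hh A M (x.1 * (q' : ℤ) - x.2 * (q : ℤ)) - 1) ≤
          η * (bb M b j).card := by
    intro x
    by_cases hx : x ∈ I
    · obtain ⟨hx1, hx2⟩ := Finset.mem_product.mp hx
      obtain ⟨P0, hP0⟩ := h1 A η x.1 x.2 hA0 hη (hS _ hx1) (hS _ hx2)
      exact ⟨P0, fun _ => hP0⟩
    · exact ⟨0, fun h => absurd h hx⟩
  choose P0 hP0 using hex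
  refine ⟨∑ x ∈ I, P0 x, fun M hM1 hM => ?_⟩
  have hex2 : ∀ x : ℤ × ℤ, ∃ j0 : ℕ, x ∈ I → ∀ j : ℕ, j0 ≤ j → ∀ b : ℕ, Nat.Coprime b M →
      ∀ q ∈ bb M b j,
        ∑ q' ∈ (bb M b j).erase q, (hh A M (x.1 * (q' : ℤ) - x.2 * (q : ℤ)) - 1) ≤
          η * (bb M b j).card := by
    intro x
    by_cases hx : x ∈ I
    · obtain ⟨j0, hj0⟩ := hP0 x hx M hM1 (fun p hp hpM =>
        lt_of_le_of_lt (Finset.single_le_sum (f := P0) (fun _ _ => Nat.zero_le _) hx) (hM p hp hpM))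
      exact ⟨j0, fun _ => hj0⟩
    · exact ⟨0, fun h => absurd h hx⟩
  choose j0 hj0 using hex2
  refine ⟨∑ x ∈ I, j0 x, fun j hj b hb q hq => ?_⟩
  have hDel : ∀ q' : ℕ, Del S q q' = ∏ x ∈ I, (x.1 * (q' : ℤ) - x.2 * (q : ℤ)) := by
    intro q'
    unfold Del
    rw [hI, Finset.prod_product]
  have hcoef : (2 * ((S.card : ℝ) + 1)) = a := rfl
  rcases I.eq_empty_or_nonempty with hIe | hIne
  · have h2 : ∀ q' ∈ (bb M b j).erase q, hh a M (Del S q q') - 1 = 0 := by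
      intro q' _
      rw [hDel, hIe, Finset.prod_empty]
      simp [hh]
    rw [Finset.sum_congr rfl h2, Finset.sum_const_zero]
    positivity
  · have hNpos : (0 : ℝ) < N := by
      rw [hN]; exact_mod_cast Finset.card_pos.mpr hIne
    have h3 : ∀ q' ∈ (bb M b j).erase q, hh a M (Del S q q') - 1 ≤
        (N : ℝ)⁻¹ * ∑ x ∈ I, (hh A M (x.1 * (q' : ℤ) - x.2 * (q : ℤ)) - 1) := by
      intro q' _
      rw [hDel]
      have h4 := hh_prod_le a ha0 M I (fun x => x.1 * (q' : ℤ) - x.2 * (q : ℤ))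
      have h5 := am_gm I hIne (fun x => hh a M (x.1 * (q' : ℤ) - x.2 * (q : ℤ)))
        (fun x _ => zero_le_one.trans (one_le_hh a ha0 M _))
      have h6 : (N : ℝ)⁻¹ * ∑ x ∈ I, hh a M (x.1 * (q' : ℤ) - x.2 * (q : ℤ)) ^ I.card ≤
          (N : ℝ)⁻¹ * ∑ x ∈ I, hh A M (x.1 * (q' : ℤ) - x.2 * (q : ℤ)) := by
        refine mul_le_mul_of_nonneg_left (Finset.sum_le_sum fun x _ => ?_) (by positivity)
        exact hh_pow_le a ha0 N M _
      have h7 : (N : ℝ)⁻¹ * ∑ x ∈ I, (hh A M (x.1 * (q' : ℤ) - x.2 * (q : ℤ)) - 1) =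
          (N : ℝ)⁻¹ * ∑ x ∈ I, hh A M (x.1 * (q' : ℤ) - x.2 * (q : ℤ)) - 1 := by
        rw [Finset.sum_sub_distrib, Finset.sum_const, nsmul_eq_mul, mul_one, ← hN, mul_sub,
          inv_mul_cancel₀ hNpos.ne']
      rw [h7]
      linarith
    calc ∑ q' ∈ (bb M b j).erase q, (hh a M (Del S q q') - 1)
        ≤ ∑ q' ∈ (bb M b j).erase q,
            (N : ℝ)⁻¹ * ∑ x ∈ I, (hh A M (x.1 * (q' : ℤ) - x.2 * (q : ℤ)) - 1) :=
          Finset.sum_le_sum h3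
      _ = (N : ℝ)⁻¹ * ∑ x ∈ I,
            ∑ q' ∈ (bb M b j).erase q, (hh A M (x.1 * (q' : ℤ) - x.2 * (q : ℤ)) - 1) := by
          rw [← Finset.mul_sum, Finset.sum_comm]
      _ ≤ (N : ℝ)⁻¹ * ∑ _x ∈ I, η * (bb M b j).card := by
          refine mul_le_mul_of_nonneg_left (Finset.sum_le_sum fun x hx => ?_) (by positivity)
          exact hj0 x hx j ((Finset.single_le_sum (f := j0) (fun _ _ => Nat.zero_le _) hx).trans hj)
            b hb q hq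
      _ = η * (bb M b j).card := by
          rw [Finset.sum_const, nsmul_eq_mul, ← hN, ← mul_assoc, inv_mul_cancel₀ hNpos.ne', one_mul]

end Pool.Agent.Lib.MP_3efbeb_nt.ER.P3
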