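import Pool.Agent.Lib.MP_3efbeb_nt.ER.SV.SpecE

/-! # MP_3efbeb_nt, ER/SV, module BIN (helper32) -/

set_option autoImplicit false

namespace Pool.Agent.Lib.MP_3efbeb_nt.ER.SV

open Finset
open scoped Classical

theorem specBIN : SpecBIN := by
  intro u v m l
  unfold om
  rw [← Finset.card_powersetCard]
  congr 1
  ext S
  simp only [Finset.mem_powersetCard, Finset.mem_filter]
  constructor
  · rintro ⟨h, hc⟩
    exact ⟨⟨fun p hp => (Finset.mem_filter.1 (h hp)).1, hc⟩,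
      fun p hp => (Finset.mem_filter.1 (h hp)).2⟩
  · rintro ⟨⟨h, hc⟩, hd⟩
    exact ⟨fun p hp => Finset.mem_filter.2 ⟨h hp, hd p hp⟩, hc⟩

end Pool.Agent.Lib.MP_3efbeb_nt.ER.SV
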