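import Pool.Agent.Lib.MP_3efbeb_nt.ER.SV.SpecP
import Pool.Agent.Lib.PntAP.Main

/-!
# MP_3efbeb_nt, ER/SV, module BLKB: primes `q = b (mod M)` in dyadic blocks
-/

set_option autoImplicit false

namespace Pool.Agent.Lib.MP_3efbeb_nt.ER.P3

open Finset Filter Topology
open scoped Classical

namespace BLKBM

lemma tot_pos {M : ℕ} (hM : 1 ≤ M) : (0 : ℝ) < (M.totient : ℝ) := by
  exact_mod_cast Nat.totient_pos.2 (by omega)

lemma bb_mod (M b j : ℕ) : bb M b j = bb M (b % M) j := by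
  unfold bb
  rw [Nat.mod_mod]

/-- the block as a difference of counting functions -/
lemma bb_eq (M b j : ℕ) [NeZero M] :
    ((bb M b j).card : ℝ) = PntAP.piAP (b : ZMod M) ((1 + 1) * ((2 : ℝ) ^ j)) -
      PntAP.piAP (b : ZMod M) ((2 : ℝ) ^ j) := by
  have h1 : (1 + 1) * ((2 : ℝ) ^ j) = ((2 ^ (j + 1) : ℕ) : ℝ) := by
    push_cast
    ring
  have h2 : (2 : ℝ) ^ j = ((2 ^ j : ℕ) : ℝ) := by push_cast; rfl
  rw [h1, h2]
  unfold PntAP.piAP
  rw [Nat.floor_natCast, Nat.floor_natCast]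
  have hc : ∀ p : ℕ, ((p : ZMod M) = (b : ZMod M)) ↔ (p % M = b % M) := by
    intro p
    exact ZMod.natCast_eq_natCast_iff' p b M
  have hU : (Icc 1 (2 ^ (j + 1))).filter (fun p : ℕ => p.Prime ∧ (p : ZMod M) = (b : ZMod M)) =
      (Icc 1 (2 ^ j)).filter (fun p : ℕ => p.Prime ∧ (p : ZMod M) = (b : ZMod M)) ∪ bb M b j := by
    ext p
    unfold bb
    rw [mem_union, mem_filter, mem_filter, mem_filter, mem_Icc, mem_Icc, mem_Ioc, hc]
    have h3 : 2 ^ j ≤ 2 ^ (j + 1) := Nat.pow_le_pow_right (by norm_num) (by omega)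
    constructor
    · rintro ⟨⟨a, b⟩, c, d⟩
      by_cases h : p ≤ 2 ^ j
      · exact Or.inl ⟨⟨a, h⟩, c, d⟩
      · exact Or.inr ⟨⟨by omega, b⟩, c, d⟩
    · rintro (⟨⟨a, b⟩, c, d⟩ | ⟨⟨a, b⟩, c, d⟩)
      · exact ⟨⟨a, by omega⟩, c, d⟩
      · exact ⟨⟨by omega, b⟩, c, d⟩
  rw [hU, card_union_of_disjoint]
  · push_cast; ring
  · rw [Finset.disjoint_left]
    intro p hp hp'
    unfold bb at hp'
    rw [mem_filter, mem_Icc] at hp
    rw [mem_filter, mem_Ioc] at hp'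
    omega

/-- one class -/
lemma one_class (M : ℕ) (hM : 1 ≤ M) (b : ℕ) : ∃ j0 : ℕ, Nat.Coprime b M → ∀ j : ℕ, j0 ≤ j →
    (2 : ℝ) ^ j / (2 * (M.totient : ℝ) * j) ≤ (bb M b j).card := by
  by_cases hb : Nat.Coprime b M
  swap
  · exact ⟨0, fun h => absurd h hb⟩
  have : NeZero M := ⟨by omega⟩
  have hφ := tot_pos hM
  have hu : IsUnit (b : ZMod M) := (ZMod.isUnit_iff_coprime b M).2 hb
  have h1 := PntAP.pi_ap_interval (q := M) (a := (b : ZMod M)) hu (δ := 1) one_pos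
  have h2 : Real.log 2 / (2 * (M.totient : ℝ)) < 1 / (M.totient : ℝ) := by
    have := Real.log_two_lt_d9
    rw [div_lt_div_iff₀ (by positivity) hφ]
    nlinarith
  have h3 : Tendsto (fun j : ℕ => (2 : ℝ) ^ j) atTop atTop :=
    tendsto_pow_atTop_atTop_of_one_lt (by norm_num)
  have h4 := (h1.comp h3).eventually_const_lt h2
  obtain ⟨j0, hj0⟩ := eventually_atTop.1 h4
  refine ⟨max j0 1, fun _ j hj => ?_⟩
  have h5 := hj0 j ((le_max_left _ _).trans hj)
  have hj1 : 1 ≤ j := (le_max_right _ _).trans hj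
  have hjR : (0 : ℝ) < j := by exact_mod_cast hj1
  simp only [Function.comp_apply] at h5
  rw [← bb_eq, Real.log_pow] at h5
  have hl : 0 < Real.log 2 := Real.log_pos (by norm_num)
  have h2j : (0 : ℝ) < 2 ^ j := by positivity
  rw [div_le_iff₀ (by positivity)]
  rw [div_lt_div_iff₀ (by positivity) h2j] at h5
  have h6 : Real.log 2 * (2 : ℝ) ^ j ≤ Real.log 2 * ((bb M b j).card * (2 * (M.totient : ℝ) * j)) := by
    nlinarith
  exact le_of_mul_le_mul_left h6 hl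

end BLKBM

open BLKBM in
/-- BLKB. -/
theorem specBLKB : SpecBLKB := by
  intro M hM
  choose f hf using one_class M hM
  refine ⟨(range M).sup f, fun j hj b hb => ?_⟩
  rw [bb_mod]
  have hb' : Nat.Coprime (b % M) M := by
    unfold Nat.Coprime at hb ⊢
    rw [← Nat.gcd_rec, Nat.gcd_comm]
    exact hb
  exact hf (b % M) hb' j ((Finset.le_sup (f := f) (mem_range.2 (Nat.mod_lt _ hM))).trans hj)

end Pool.Agent.Lib.MP_3efbeb_nt.ER.P3
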