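import Pool.Agent.Lib.MP_3efbeb_nt.ER.SV.SpecE

/-!
# MP_3efbeb_nt, ER/SV, module BM (helper9): the binomial moments over the windows
-/

set_option autoImplicit false

namespace Pool.Agent.Lib.MP_3efbeb_nt.ER.SV

open Finset Filter Topology
open scoped Classical

noncomputable section

namespace BMM

variable {q K : ℕ}

/-- the boundaries are increasing -/
def Mo (y : ℕ → ℕ) (K : ℕ) : Prop := ∀ j j' : ℕ, j ≤ j' → j' ≤ K → y j ≤ y j'

lemma mem_fam {β : ℕ → ℝ} {x : ℕ} {l : Fin q → Fin K → ℕ} {S : Fin q × Fin K → Finset ℕ} :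
    S ∈ fam β x l ↔ ∀ t, S t ⊆ blk (yb β x t.2) (yb β x (t.2 + 1)) ∧ (S t).card = l t.1 t.2 := by
  unfold fam
  rw [Fintype.mem_piFinset]
  exact forall_congr' (fun t => mem_powersetCard)

lemma mem_blk {u v p : ℕ} (h : p ∈ blk u v) : p.Prime ∧ u ≤ p ∧ p < v := by
  unfold blk at h
  rw [mem_filter, mem_Ico] at h
  exact ⟨h.2, h.1.1, h.1.2⟩

lemma blk_inj {y : ℕ → ℕ} (hy : Mo y K) {j j' : Fin K} {p : ℕ} (h : p ∈ blk (y j) (y (j + 1)))
    (h' : p ∈ blk (y j') (y (j' + 1))) : j = j' := by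
  have h1 := mem_blk h
  have h2 := mem_blk h'
  by_contra hne
  rcases lt_or_gt_of_ne hne with hlt | hlt
  · have h3 : y (j + 1) ≤ y j' := hy _ _ (by exact_mod_cast hlt) j'.2.le
    omega
  · have h3 : y (j' + 1) ≤ y j := hy _ _ (by exact_mod_cast hlt) j.2.le
    omega

section
variable {β : ℕ → ℝ} {x : ℕ} {l : Fin q → Fin K → ℕ} {S : Fin q × Fin K → Finset ℕ}

lemma in_blk (hS : S ∈ fam β x l) {a : Fin q} {j : Fin K} {p : ℕ} (hp : p ∈ S (a, j)) :
    p ∈ blk (yb β x j) (yb β x (j + 1)) := (mem_fam.1 hS (a, j)).1 hp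

lemma dd_dvd_iff (hy : Mo (yb β x) K) (hS : S ∈ fam β x l) (a : Fin q) (m : ℕ) :
    dd S a ∣ m ↔ ∀ j, ∀ p ∈ S (a, j), p ∣ m := by
  constructor
  · intro h j p hp
    refine Dvd.dvd.trans ?_ h
    unfold dd
    exact (dvd_prod_of_mem (fun p : ℕ => p) hp).trans
      (dvd_prod_of_mem (fun j : Fin K => ∏ p ∈ S (a, j), p) (mem_univ j))
  · intro h
    unfold dd
    refine Finset.prod_dvd_of_isRelPrime ?_ ?_
    · intro j _ j' _ hne
      change IsRelPrime (∏ p ∈ S (a, j), p) (∏ p ∈ S (a, j'), p)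
      rw [← Nat.coprime_iff_isRelPrime]
      refine Nat.Coprime.prod_left (fun p hp => Nat.Coprime.prod_right (fun p' hp' => ?_))
      have h1 := in_blk hS hp
      have h2 := in_blk hS hp'
      refine (Nat.coprime_primes (mem_blk h1).1 (mem_blk h2).1).2 ?_
      rintro rfl
      exact hne (blk_inj hy h1 h2)
    · intro j _
      exact Finset.prod_primes_dvd m (fun p hp => (mem_blk (in_blk hS hp)).1.prime) (h j)

lemma coprime_dd (hy : Mo (yb β x) K) (hS : S ∈ fam β x l) (hD : Dis S) {a a' : Fin q}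
    (hne : a ≠ a') : Nat.Coprime (dd S a) (dd S a') := by
  unfold dd
  refine Nat.Coprime.prod_left (fun j _ => Nat.Coprime.prod_left (fun p hp =>
    Nat.Coprime.prod_right (fun j' _ => Nat.Coprime.prod_right (fun p' hp' => ?_))))
  have h1 := in_blk hS hp
  have h2 := in_blk hS hp'
  refine (Nat.coprime_primes (mem_blk h1).1 (mem_blk h2).1).2 ?_
  rintro rfl
  have h3 := blk_inj hy h1 h2
  subst h3
  exact (disjoint_left.1 (hD a a' hne j) hp) hp'

lemma prime_dd (hy : Mo (yb β x) K) (hS : S ∈ fam β x l) {a : Fin q} {p : ℕ} (hp : p.Prime)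
    (h : p ∣ dd S a) : yb β x 0 ≤ p := by
  unfold dd at h
  obtain ⟨j, _, h⟩ := (Prime.dvd_finsetProd_iff hp.prime _).1 h
  obtain ⟨p', hp', h⟩ := (Prime.dvd_finsetProd_iff hp.prime _).1 h
  have h1 := mem_blk (in_blk hS hp')
  have h2 : p = p' := (Nat.prime_dvd_prime_iff_eq hp h1.1).1 h
  rw [h2]
  exact (hy 0 j (Nat.zero_le _) j.2.le).trans h1.2.1

lemma dd_pos (hS : S ∈ fam β x l) (a : Fin q) : 1 ≤ dd S a := by
  unfold dd
  exact Nat.one_le_iff_ne_zero.2 (prod_ne_zero_iff.2 (fun j _ => prod_ne_zero_iff.2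
    (fun p hp => (mem_blk (in_blk hS hp)).1.ne_zero)))

end

/-- the product of the binomial coefficients counts the families -/
lemma prod_choose (hBIN : SpecBIN) {β : ℕ → ℝ} {x : ℕ} (l : Fin q → Fin K → ℕ) (i : Fin q → ℕ) {L M n : ℕ}
    (hy : Mo (yb β x) K) (hi : Function.Injective i) (hiL : ∀ a, i a < L) (hM : M < yb β x 0)
    (hL : L < yb β x 0) (hM1 : 1 ≤ M) :
    (∏ a, ∏ j : Fin K, (om (yb β x j) (yb β x (j + 1)) (n + M * i a)).choose (l a j)) =
      (((fam β x l).filter Dis).filter (fun S => ∀ a, dd S a ∣ n + M * i a)).card := by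
  have h1 : (∏ a, ∏ j : Fin K, (om (yb β x j) (yb β x (j + 1)) (n + M * i a)).choose (l a j)) =
      (Fintype.piFinset (fun t : Fin q × Fin K =>
        ((blk (yb β x t.2) (yb β x (t.2 + 1))).powersetCard (l t.1 t.2)).filter
          (fun S => ∀ p ∈ S, p ∣ n + M * i t.1))).card := by
    rw [Fintype.card_piFinset, Fintype.prod_prod_type]
    refine prod_congr rfl (fun a _ => prod_congr rfl (fun j _ => ?_))
    rw [hBIN]
  rw [h1]
  congr 1
  ext S
  rw [mem_filter, mem_filter, Fintype.mem_piFinset]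
  constructor
  · intro h
    have hS : S ∈ fam β x l := by
      unfold fam
      rw [Fintype.mem_piFinset]
      exact fun t => (mem_filter.1 (h t)).1
    have hd : ∀ (a : Fin q) (j : Fin K), ∀ p ∈ S (a, j), p ∣ n + M * i a :=
      fun a j => (mem_filter.1 (h (a, j))).2
    refine ⟨⟨hS, ?_⟩, fun a => (dd_dvd_iff hy hS a _).2 (hd a)⟩
    intro a a' hne j
    rw [disjoint_left]
    intro p hp hp'
    have h2 := hd a j p hp
    have h3 := hd a' j p hp'
    have h4 := mem_blk (in_blk hS hp)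
    have h5 : yb β x 0 ≤ p := (hy 0 j (Nat.zero_le _) j.2.le).trans h4.2.1
    have h6 : (p : ℤ) ∣ (M : ℤ) * ((i a : ℤ) - i a') := by
      have h7 : (p : ℤ) ∣ ((n + M * i a : ℕ) : ℤ) - ((n + M * i a' : ℕ) : ℤ) :=
        dvd_sub (by exact_mod_cast h2) (by exact_mod_cast h3)
      have h8 : ((n + M * i a : ℕ) : ℤ) - ((n + M * i a' : ℕ) : ℤ) = (M : ℤ) * ((i a : ℤ) - i a') := by
        push_cast
        ring
      rwa [h8] at h7
    rcases (Nat.prime_iff_prime_int.1 h4.1).dvd_or_dvd h6 with h7 | h7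
    · have h8 : (p : ℤ) ≤ M := Int.le_of_dvd (by exact_mod_cast hM1) h7
      have h9 : p ≤ M := by exact_mod_cast h8
      omega
    · have h8 : ((i a : ℤ) - i a') ≠ 0 := by
        intro h0
        exact hne (hi (by exact_mod_cast sub_eq_zero.1 h0))
      have h9 := Int.natAbs_le_of_dvd_ne_zero h7 h8
      have h10 := hiL a
      have h11 := hiL a'
      omega
  · rintro ⟨⟨hS, _⟩, hd⟩ t
    rw [mem_filter]
    refine ⟨?_, ?_⟩
    · have := hS
      unfold fam at this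
      rw [Fintype.mem_piFinset] at this
      exact this t
    · exact (dd_dvd_iff hy hS t.1 _).1 (hd t.1) t.2

/-- exchange of the sums -/
lemma sum_choose (hBIN : SpecBIN) {β : ℕ → ℝ} {x : ℕ} (l : Fin q → Fin K → ℕ) (i : Fin q → ℕ) {L M : ℕ}
    (W : Finset ℕ) (hy : Mo (yb β x) K) (hi : Function.Injective i) (hiL : ∀ a, i a < L)
    (hM : M < yb β x 0) (hL : L < yb β x 0) (hM1 : 1 ≤ M) :
    (∑ n ∈ W, ∏ a, ∏ j : Fin K, ((om (yb β x j) (yb β x (j + 1)) (n + M * i a)).choose (l a j) : ℝ)) =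
      ∑ S ∈ (fam β x l).filter Dis, ((W.filter (fun n => ∀ a, dd S a ∣ n + M * i a)).card : ℝ) := by
  have h1 : ∀ n ∈ W, (∏ a, ∏ j : Fin K,
      ((om (yb β x j) (yb β x (j + 1)) (n + M * i a)).choose (l a j) : ℝ)) =
      ∑ S ∈ (fam β x l).filter Dis, if (∀ a, dd S a ∣ n + M * i a) then (1 : ℝ) else 0 := by
    intro n _
    have h2 := prod_choose hBIN (n := n) l i hy hi hiL hM hL hM1
    rw [← sum_filter, sum_const, nsmul_eq_mul, mul_one, ← h2]
    push_cast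
    rfl
  rw [sum_congr rfl h1, sum_comm]
  refine sum_congr rfl (fun S _ => ?_)
  rw [← sum_filter, sum_const, nsmul_eq_mul, mul_one]


/-- the sum of CW over the families -/
lemma cw_sum (hCW : SpecCW) {β : ℕ → ℝ} {x : ℕ} (l : Fin q → Fin K → ℕ) (i : Fin q → ℕ) {L M B X1 X2 : ℕ}
    (hL1 : 1 ≤ L) (hGM : GM L M) (hX : X1 ≤ X2) (hy : Mo (yb β x) K)
    (hM : M < yb β x 0) (hL : L < yb β x 0) :
    |(∑ S ∈ (fam β x l).filter Dis,
        (((Win M L (yb β x 0) X1 X2).filter (fun n => ∀ a, dd S a ∣ n + M * i a)).card : ℝ)) -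
      ((X2 : ℝ) - X1) / M * V L M (yb β x 0) * ∑ S ∈ (fam β x l).filter Dis, ∏ a, (1 / (dd S a : ℝ))| ≤
    3 * Real.exp (-((B : ℝ) + 6)) * (((X2 : ℝ) - X1) / M * V L M (yb β x 0)) *
      (∑ S ∈ (fam β x l).filter Dis, ∏ a, (1 / (dd S a : ℝ))) +
    ((fam β x l).card : ℝ) * (4 * (yb β x 0 : ℝ) ^ (16 * (19 * L + B + 6) + 33)) := by
  set z := yb β x 0 with hz
  set Y : ℝ := ((X2 : ℝ) - X1) / M * V L M z with hY
  set R : ℝ := 4 * (z : ℝ) ^ (16 * (19 * L + B + 6) + 33) with hR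
  have hR0 : 0 ≤ R := by positivity
  have h1 : ∀ S ∈ (fam β x l).filter Dis,
      |(((Win M L z X1 X2).filter (fun n => ∀ a, dd S a ∣ n + M * i a)).card : ℝ) -
        Y * ∏ a, (1 / (dd S a : ℝ))| ≤
      3 * Real.exp (-((B : ℝ) + 6)) * Y * (∏ a, (1 / (dd S a : ℝ))) + R := by
    intro S hS
    rw [mem_filter] at hS
    have h2 := hCW L (19 * L + B + 6) M z X1 X2 q i (dd S) hL1 (by omega) hGM (by omega) hX
      (fun a => ⟨dd_pos hS.1 a, Nat.coprime_of_dvd (fun p hp h3 h4 => by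
        have h5 := prime_dd hy hS.1 hp h3
        have h6 := Nat.le_of_dvd hGM.1 h4
        omega), fun p hp h3 => prime_dd hy hS.1 hp h3⟩)
      (fun a a' hne => coprime_dd hy hS.1 hS.2 hne)
    have h3 : ((X2 : ℝ) - X1) / (M * ∏ a, (dd S a : ℝ)) * V L M z = Y * ∏ a, (1 / (dd S a : ℝ)) := by
      rw [hY, prod_div_distrib, prod_const_one]
      rw [div_mul_eq_div_mul_one_div]
      ring
    have h4 : (19 * (L : ℝ) - ((19 * L + B + 6 : ℕ) : ℝ)) = -((B : ℝ) + 6) := by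
      push_cast
      ring
    have h5 : 3 * Real.exp (-((B : ℝ) + 6)) * (((X2 : ℝ) - X1) / (M * ∏ a, (dd S a : ℝ))) * V L M z =
        3 * Real.exp (-((B : ℝ) + 6)) * Y * (∏ a, (1 / (dd S a : ℝ))) := by
      rw [mul_assoc (3 * Real.exp (-((B : ℝ) + 6))), h3]
      ring
    rw [h4, h3, h5] at h2
    exact h2
  have h2 : (∑ S ∈ (fam β x l).filter Dis,
        (((Win M L z X1 X2).filter (fun n => ∀ a, dd S a ∣ n + M * i a)).card : ℝ)) -
      Y * ∑ S ∈ (fam β x l).filter Dis, ∏ a, (1 / (dd S a : ℝ)) =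
      ∑ S ∈ (fam β x l).filter Dis,
        ((((Win M L z X1 X2).filter (fun n => ∀ a, dd S a ∣ n + M * i a)).card : ℝ) -
        Y * ∏ a, (1 / (dd S a : ℝ))) := by
    rw [sum_sub_distrib, mul_sum]
  rw [h2]
  refine (abs_sum_le_sum_abs _ _).trans ((sum_le_sum h1).trans ?_)
  rw [sum_add_distrib, ← mul_sum, sum_const, nsmul_eq_mul]
  have h3 : ((((fam β x l).filter Dis).card : ℕ) : ℝ) ≤ ((fam β x l).card : ℝ) := by
    exact_mod_cast card_le_card (filter_subset _ _)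
  have h4 := mul_le_mul_of_nonneg_right h3 hR0
  linarith

lemma yb_le {β : ℕ → ℝ} {x j : ℕ} (hx : 1 ≤ x) (hj : 0 ≤ β j) : (yb β x j : ℝ) ≤ 2 * (x : ℝ) ^ (β j) := by
  unfold yb
  have h1 : (1 : ℝ) ≤ (x : ℝ) ^ (β j) := Real.one_le_rpow (by exact_mod_cast hx) hj
  have h2 := Nat.ceil_lt_add_one (show 0 ≤ (x : ℝ) ^ (β j) by linarith)
  linarith

/-- the number of the families -/
lemma card_fam {β : ℕ → ℝ} {x : ℕ} (l : Fin q → Fin K → ℕ) (hx : 1 ≤ x) (hβ : ∀ j : Fin K, 0 ≤ β (j + 1)) :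
    ((fam β x l).card : ℝ) ≤ (∏ a, ∏ j : Fin K, (2 : ℝ) ^ (l a j)) *
      (x : ℝ) ^ (∑ a, ∑ j : Fin K, β (j + 1) * (l a j : ℝ)) := by
  have hx0 : (0 : ℝ) < x := by exact_mod_cast hx
  unfold fam
  rw [Fintype.card_piFinset, Nat.cast_prod, Fintype.prod_prod_type]
  rw [Real.rpow_sum_of_pos hx0, ← prod_mul_distrib]
  refine prod_le_prod (fun a _ => prod_nonneg (fun j _ => Nat.cast_nonneg _)) (fun a _ => ?_)
  rw [Real.rpow_sum_of_pos hx0, ← prod_mul_distrib]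
  refine prod_le_prod (fun j _ => Nat.cast_nonneg _) (fun j _ => ?_)
  rw [card_powersetCard]
  have h1 : (blk (yb β x j) (yb β x (j + 1))).card ≤ yb β x (j + 1) := by
    unfold blk
    refine (card_filter_le _ _).trans ?_
    rw [Nat.card_Ico]
    omega
  have h2 : ((blk (yb β x j) (yb β x (j + 1))).card.choose (l a j) : ℝ) ≤
      (yb β x (j + 1) : ℝ) ^ (l a j) := by
    have h3 := (Nat.choose_le_pow (blk (yb β x j) (yb β x (j + 1))).card (l a j)).trans
      (Nat.pow_le_pow_left h1 (l a j))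
    exact_mod_cast h3
  refine h2.trans ?_
  have h4 := pow_le_pow_left₀ (Nat.cast_nonneg _) (yb_le (β := β) hx (hβ j)) (l a j)
  refine h4.trans (le_of_eq ?_)
  rw [mul_pow, ← Real.rpow_natCast ((x : ℝ) ^ (β (j + 1))), ← Real.rpow_mul hx0.le]


/-- a power saving beats powers of the logarithm -/
lemma small (γ C η : ℝ) (k : ℕ) (hγ : γ < 1) (hC : 0 < C) (hη : 0 < η) :
    ∀ᶠ x : ℕ in atTop, C * (x : ℝ) ^ γ ≤ η * ((x : ℝ) / Real.log x ^ k) := by
  have h1 := isLittleO_log_rpow_rpow_atTop ((k : ℕ) : ℝ) (show 0 < 1 - γ by linarith)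
  have h2 := (h1.comp_tendsto tendsto_natCast_atTop_atTop).bound (show 0 < η / C by positivity)
  filter_upwards [h2, eventually_ge_atTop 3] with x hx hx3
  have hx0 : (0 : ℝ) < x := by
    have : (3 : ℝ) ≤ x := by exact_mod_cast hx3
    linarith
  have hlog : 0 < Real.log x := Real.log_pos (by
    have : (3 : ℝ) ≤ x := by exact_mod_cast hx3
    linarith)
  simp only [Function.comp, Real.norm_eq_abs] at hx
  rw [abs_of_pos (Real.rpow_pos_of_pos hlog _), abs_of_pos (Real.rpow_pos_of_pos hx0 _),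
    Real.rpow_natCast] at hx
  rw [← mul_div_assoc, le_div_iff₀ (pow_pos hlog k)]
  calc C * (x : ℝ) ^ γ * Real.log x ^ k ≤ C * (x : ℝ) ^ γ * (η / C * (x : ℝ) ^ (1 - γ)) :=
        mul_le_mul_of_nonneg_left hx (by positivity)
    _ = η * ((x : ℝ) ^ γ * (x : ℝ) ^ (1 - γ)) := by
        field_simp
    _ = η * x := by
        rw [← Real.rpow_add hx0, add_sub_cancel, Real.rpow_one]

lemma yb_big {β : ℕ → ℝ} (h : 0 < β 0) (N : ℕ) : ∀ᶠ x : ℕ in atTop, N ≤ yb β x 0 := by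
  have h1 := ((tendsto_rpow_atTop h).comp tendsto_natCast_atTop_atTop).eventually_ge_atTop (N : ℝ)
  filter_upwards [h1] with x hx
  unfold yb
  have h2 : (N : ℝ) ≤ (⌈(x : ℝ) ^ (β 0)⌉₊ : ℝ) := le_trans hx (Nat.le_ceil _)
  exact_mod_cast h2

lemma exp6 (B : ℕ) : 3 * Real.exp (-((B : ℝ) + 6)) ≤ 1 / 100 * Real.exp (-(B : ℝ)) := by
  have h1 : Real.exp (-((B : ℝ) + 6)) = Real.exp (-(B : ℝ)) * Real.exp (-6) := by
    rw [← Real.exp_add]
    congr 1
    ring
  have h2 : Real.exp (-6) ≤ 1 / 300 := by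
    rw [Real.exp_neg, one_div]
    have h3 : (300 : ℝ) ≤ Real.exp 6 := by
      have h4 := Real.exp_one_gt_d9
      have h5 : Real.exp 6 = Real.exp 1 ^ 6 := by
        rw [← Real.exp_nat_mul]
        norm_num
      rw [h5]
      calc (300 : ℝ) ≤ 2.7 ^ 6 := by norm_num
        _ ≤ Real.exp 1 ^ 6 := by
          apply pow_le_pow_left₀ (by norm_num)
          linarith
    exact inv_anti₀ (by norm_num) h3
  rw [h1]
  have h3 := Real.exp_pos (-(B : ℝ))
  nlinarith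

/-- the final estimate -/
lemma final (T N Y E Λ e R : ℝ) (he : 0 < e) (he1 : e ≤ 1) (hΛ : 0 < Λ) (_hE0 : 0 ≤ E) (hR : R ≤ 1 / 100 * e * Λ * N)
    (h1 : |T - Y * E| ≤ 1 / 100 * e * Y * E + R) (h2 : |E - Λ| ≤ 1 / 100 * e * Λ)
    (h3 : |N - Y| ≤ 1 / 10 * e * Y) : |T - N * Λ| ≤ e * N * Λ := by
  have hY : 0 ≤ Y := by
    have h4 := (abs_nonneg _).trans h3
    by_contra hneg
    push Not at hneg
    have : e * Y < 0 := mul_neg_of_pos_of_neg he hneg
    linarith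
  have hE : E ≤ 101 / 100 * Λ := by
    have h4 := (abs_le.1 h2).2
    have h5 : e * Λ ≤ Λ := by nlinarith
    linarith
  have hYN : Y ≤ 10 / 9 * N := by
    have h4 := (abs_le.1 h3).1
    have h5 : e * Y ≤ Y := by nlinarith
    linarith
  have hZ : e * Λ * Y ≤ 10 / 9 * (e * Λ * N) := by
    have h4 := mul_le_mul_of_nonneg_left hYN (by positivity : 0 ≤ e * Λ)
    linarith
  have hZ0 : 0 ≤ e * Λ * Y := by positivity
  have hEY : e * Y * E ≤ 101 / 100 * (e * Λ * Y) := by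
    have h4 := mul_le_mul_of_nonneg_left hE (by positivity : 0 ≤ e * Y)
    linarith
  have h5 : |Y * E - Y * Λ| ≤ 1 / 100 * (e * Λ * Y) := by
    rw [← mul_sub, abs_mul, abs_of_nonneg hY]
    have h4 := mul_le_mul_of_nonneg_left h2 hY
    linarith
  have h6 : |Y * Λ - N * Λ| ≤ 1 / 10 * (e * Λ * Y) := by
    rw [← sub_mul, abs_mul, abs_of_pos hΛ, abs_sub_comm]
    have h4 := mul_le_mul_of_nonneg_right h3 hΛ.le
    linarith
  have h7 : T - N * Λ = (T - Y * E) + (Y * E - Y * Λ) + (Y * Λ - N * Λ) := by ring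
  rw [h7]
  refine (abs_add_le _ _).trans ?_
  have h8 := abs_add_le (T - Y * E) (Y * E - Y * Λ)
  linarith

end BMM

/-- BM. -/
theorem specBM (hCW : SpecCW) (_hVL : SpecVL) (hBIN : SpecBIN) (hES : SpecES) (hDEN : SpecDEN) : SpecBM := by
  intro L B q K M β l i hL1 hGM hK hβ0 hβ hi hiL hlev
  have hpos : ∀ j : ℕ, j ≤ K → 0 < β j := by
    intro j
    induction j with
    | zero => exact fun _ => hβ0
    | succ j ih => exact fun hj => (ih (by omega)).trans (hβ j (by omega))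
  have hmono : ∀ j j' : ℕ, j ≤ j' → j' ≤ K → β j ≤ β j' := by
    intro j j' hjj
    induction j', hjj using Nat.le_induction with
    | base => exact fun _ => le_rfl
    | succ m _ ih => exact fun hm => (ih (by omega)).trans (hβ m (by omega)).le
  have hlog : ∀ j : Fin K, 0 < Real.log (β (j + 1) / β j) := by
    intro j
    exact Real.log_pos ((one_lt_div (hpos j j.2.le)).2 (hβ j j.2))
  set Λ : ℝ := ∏ a, ∏ j : Fin K, Real.log (β (j + 1) / β j) ^ l a j / ((l a j).factorial : ℝ) with hΛdef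
  have hΛ : 0 < Λ := prod_pos (fun a _ => prod_pos (fun j _ => div_pos (pow_pos (hlog j) _)
    (by exact_mod_cast Nat.factorial_pos _)))
  set e : ℝ := Real.exp (-(B : ℝ)) with hedef
  have he : 0 < e := Real.exp_pos _
  have he1 : e ≤ 1 := by
    rw [hedef, Real.exp_le_one_iff]
    have : (0 : ℝ) ≤ B := Nat.cast_nonneg _
    linarith
  set σ : ℝ := ∑ a, ∑ j : Fin K, β (j + 1) * (l a j : ℝ) with hσ
  have hσ0 : 0 ≤ σ := sum_nonneg (fun a _ => sum_nonneg (fun j _ =>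
    mul_nonneg (hpos _ j.2).le (Nat.cast_nonneg _)))
  set b : ℕ := 16 * (19 * L + B + 6) + 33 with hb
  have hbl : ((b : ℕ) : ℝ) ≤ lev L B := by
    rw [hb]
    unfold lev
    push_cast
    linarith
  have hγ : β 0 * (b : ℝ) + σ < 1 := by
    have := mul_le_mul_of_nonneg_left hbl hβ0.le
    linarith
  have hlev0 : β 0 * lev L B < 1 := by linarith
  obtain ⟨x1, hx1⟩ := hDEN L B M (β 0) hL1 hGM hβ0 hlev0
  have hE := Metric.tendsto_nhds.1 (hES q K β l (fun j => ⟨hpos j j.2.le, hβ j j.2⟩))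
    (1 / 100 * e * Λ) (by positivity)
  have hS := BMM.small (β 0 * (b : ℝ) + σ)
    ((∏ a, ∏ j : Fin K, (2 : ℝ) ^ (l a j)) * (4 * 2 ^ b)) (1 / 100 * e * Λ) (L + 1) hγ
    (mul_pos (prod_pos (fun a _ => prod_pos (fun j _ => by positivity))) (by positivity)) (by positivity)
  obtain ⟨x0, h0⟩ := eventually_atTop.1 (hE.and (hS.and ((BMM.yb_big hβ0 (M + L + 2)).and
    (eventually_ge_atTop (max x1 1)))))
  refine ⟨x0, fun x hx X1 X2 hR => ?_⟩
  obtain ⟨h1, h2, h3, h4⟩ := h0 x hx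
  have hxx1 : x1 ≤ x := (le_max_left _ _).trans h4
  have hx1' : 1 ≤ x := (le_max_right _ _).trans h4
  have hx0 : (0 : ℝ) < x := by exact_mod_cast hx1'
  have hy : BMM.Mo (yb β x) K := by
    intro j j' hjj hj'
    unfold yb
    exact Nat.ceil_mono (Real.rpow_le_rpow_of_exponent_le (by exact_mod_cast hx1') (hmono j j' hjj hj'))
  obtain ⟨hD1, hD2⟩ := hx1 x hxx1 X1 X2 hR
  rw [BMM.sum_choose hBIN l i _ hy hi hiL (by omega) (by omega) hGM.1]
  have hc := BMM.cw_sum hCW l i (B := B) hL1 hGM hR.1 hy (by omega) (by omega)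
  rw [Real.dist_eq] at h1
  have hcf := BMM.card_fam (β := β) (x := x) l hx1' (fun j => (hpos _ j.2).le)
  have hRb : ((fam β x l).card : ℝ) * (4 * (yb β x 0 : ℝ) ^ b) ≤
      1 / 100 * e * Λ * ((Win M L (yb β x 0) X1 X2).card : ℝ) := by
    have h5 : (4 * (yb β x 0 : ℝ) ^ b) ≤ 4 * 2 ^ b * (x : ℝ) ^ (β 0 * (b : ℝ)) := by
      have h6 := pow_le_pow_left₀ (Nat.cast_nonneg _) (BMM.yb_le (β := β) (j := 0) hx1' hβ0.le) b
      rw [mul_pow, ← Real.rpow_natCast ((x : ℝ) ^ (β 0)), ← Real.rpow_mul hx0.le] at h6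
      linarith
    have h6 : ((fam β x l).card : ℝ) * (4 * (yb β x 0 : ℝ) ^ b) ≤
        ((∏ a, ∏ j : Fin K, (2 : ℝ) ^ (l a j)) * (x : ℝ) ^ σ) *
          (4 * 2 ^ b * (x : ℝ) ^ (β 0 * (b : ℝ))) :=
      mul_le_mul hcf h5 (by positivity) ((Nat.cast_nonneg _).trans hcf)
    refine h6.trans ?_
    have h7 : ((∏ a, ∏ j : Fin K, (2 : ℝ) ^ (l a j)) * (x : ℝ) ^ σ) *
          (4 * 2 ^ b * (x : ℝ) ^ (β 0 * (b : ℝ))) =
        ((∏ a, ∏ j : Fin K, (2 : ℝ) ^ (l a j)) * (4 * 2 ^ b)) * (x : ℝ) ^ (β 0 * (b : ℝ) + σ) := by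
      rw [Real.rpow_add hx0]
      ring
    rw [h7]
    refine h2.trans ?_
    exact mul_le_mul_of_nonneg_left hD2 (by positivity)
  have hE0 : 0 ≤ ∑ S ∈ (fam β x l).filter Dis, ∏ a, (1 / (dd S a : ℝ)) :=
    sum_nonneg (fun S _ => prod_nonneg (fun a _ => by positivity))
  have hY0 : 0 ≤ ((X2 : ℝ) - X1) / M * V L M (yb β x 0) := by
    have h5 := (abs_nonneg _).trans hD1
    by_contra hneg
    push Not at hneg
    have h6 : e * (((X2 : ℝ) - X1) / M * V L M (yb β x 0)) < 0 := mul_neg_of_pos_of_neg he hneg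
    have h7 : 1 / 10 * e * (((X2 : ℝ) - X1) / M * V L M ⌈(x : ℝ) ^ β 0⌉₊) < 0 := by
      have h8 : yb β x 0 = ⌈(x : ℝ) ^ β 0⌉₊ := rfl
      rw [h8] at h6
      linarith
    linarith
  have hfin := BMM.final _ ((Win M L (yb β x 0) X1 X2).card : ℝ) (((X2 : ℝ) - X1) / M * V L M (yb β x 0))
    (∑ S ∈ (fam β x l).filter Dis, ∏ a, (1 / (dd S a : ℝ))) Λ e
    (((fam β x l).card : ℝ) * (4 * (yb β x 0 : ℝ) ^ b)) he he1 hΛ hE0 hRb
    (hc.trans (by
      have h5 := mul_le_mul_of_nonneg_right (mul_le_mul_of_nonneg_right (BMM.exp6 B) hY0) hE0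
      have h6 : 1 / 100 * Real.exp (-(B : ℝ)) * (((X2 : ℝ) - X1) / M * V L M (yb β x 0)) *
          (∑ S ∈ (fam β x l).filter Dis, ∏ a, (1 / (dd S a : ℝ))) =
        1 / 100 * e * (((X2 : ℝ) - X1) / M * V L M (yb β x 0)) *
          (∑ S ∈ (fam β x l).filter Dis, ∏ a, (1 / (dd S a : ℝ))) := by rw [hedef]
      rw [← h6, hb]
      linarith)) h1.le hD1
  exact hfin

end

end Pool.Agent.Lib.MP_3efbeb_nt.ER.SV
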