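import Pool.Agent.Lib.MP_3efbeb_nt.ER.SV.SpecM

/-!
# MP_3efbeb_nt, ER/SV: module BON (helper99), the Bonferroni sums
-/

set_option autoImplicit false

namespace Pool.Agent.Lib.MP_3efbeb_nt.ER.SV

open Finset Filter Topology
open scoped Classical

noncomputable section

namespace BONM

/-- `∑_{i ≤ J} (-1)^i C(n+1,i) = (-1)^J C(n,J)` over the reals -/
lemma alt (n J : ℕ) : ∑ i ∈ range (J + 1), (-1 : ℝ) ^ i * ((n + 1).choose i : ℝ) =
    (-1 : ℝ) ^ J * (n.choose J : ℝ) := by
  induction J with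
  | zero => simp
  | succ J ih =>
    rw [Finset.sum_range_succ, ih, Nat.choose_succ_succ, pow_succ]
    push_cast
    ring

/-- the sum over `l ≤ s + J` as a sum over `i ≤ J` -/
lemma bon_eq (s J w : ℕ) : bon s J w =
    (w.choose s : ℝ) * ∑ i ∈ range (J + 1), (-1 : ℝ) ^ i * ((w - s).choose i : ℝ) := by
  have h1 : bon s J w = ∑ i ∈ range (J + 1), cb s J (s + i) * (w.choose (s + i) : ℝ) := by
    unfold bon pol
    rw [show s + J + 1 = s + (J + 1) by omega, Finset.sum_range_add]
    have h0 : ∑ l ∈ range s, cb s J l * (w.choose l : ℝ) = 0 := by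
      refine Finset.sum_eq_zero (fun l hl => ?_)
      have : ¬ (s ≤ l ∧ l ≤ s + J) := by
        have := mem_range.1 hl
        omega
      simp [cb, this]
    rw [h0, zero_add]
  rw [h1, Finset.mul_sum]
  refine Finset.sum_congr rfl (fun i hi => ?_)
  have hi' : i ≤ J := by
    have := mem_range.1 hi
    omega
  have hc : cb s J (s + i) = (-1 : ℝ) ^ i * ((s + i).choose s : ℝ) := by
    have : s ≤ s + i ∧ s + i ≤ s + J := by omega
    unfold cb
    rw [if_pos this]
    congr 2
    omega
  have hm : (w.choose (s + i) : ℝ) * ((s + i).choose s : ℝ) =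
      (w.choose s : ℝ) * ((w - s).choose i : ℝ) := by
    have := Nat.choose_mul (n := w) (k := s + i) (s := s) (by omega)
    rw [show s + i - s = i by omega] at this
    exact_mod_cast this
  rw [hc]
  calc (-1 : ℝ) ^ i * ((s + i).choose s : ℝ) * (w.choose (s + i) : ℝ)
      = (-1 : ℝ) ^ i * ((w.choose (s + i) : ℝ) * ((s + i).choose s : ℝ)) := by ring
    _ = (w.choose s : ℝ) * ((-1 : ℝ) ^ i * ((w - s).choose i : ℝ)) := by rw [hm]; ring

end BONM

open BONM in
/-- module BON -/
theorem specBON : SpecBON := by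
  intro s J w hJ
  rw [bon_eq]
  split_ifs with h1 h2
  · rw [Nat.choose_eq_zero_of_lt h1]
    simp
  · subst h2
    rw [Nat.choose_self, Nat.sub_self, Finset.sum_range_succ']
    have : ∑ k ∈ range J, (-1 : ℝ) ^ (k + 1) * ((Nat.choose 0 (k + 1) : ℕ) : ℝ) = 0 :=
      Finset.sum_eq_zero (fun k _ => by simp)
    rw [this]
    simp
  · have h3 : w - s = (w - s - 1) + 1 := by omega
    have := alt (w - s - 1) J
    rw [← h3] at this
    rw [this, hJ.neg_one_pow, one_mul]

end

end Pool.Agent.Lib.MP_3efbeb_nt.ER.SV
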