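import Pool.Agent.Lib.MP_3efbeb_nt.ER.SV.SpecP
import Pool.Agent.Lib.MP_3efbeb_nt.DL.C12

/-! # MP_3efbeb_nt, ER/SV, module C1U (helper32): counts of rough tuples, explicit level -/

set_option autoImplicit false

namespace Pool.Agent.Lib.MP_3efbeb_nt.ER.P3

open Finset
open scoped Classical
open Pool.Agent.Lib.MP_3efbeb_nt.DL (PR Rgh W1 W2 VV VQ cq Good Del Lam)
open Pool.Agent.Lib.MP_3efbeb_nt.DL.C12M

theorem specC1U : SpecC1U := by
  intro S b M r z d Y hb hG hz hd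
  have h := Pool.Agent.Lib.MP_3efbeb_nt.ER.specCNTU (S.card + 1) b M r z 0 Y (a1 S d) (c1 S) hb
    hG.1 hz (Nat.zero_le _) (fun p hp hpM => (hG.2 p hp hpM).1.le) ?_
  · have hI : Ioc 0 Y = Icc 1 Y := by
      ext y
      simp only [mem_Ioc, mem_Icc]
      omega
    rw [hI, ← W1_eq] at h
    have h2 : ∏ p ∈ PR M z, (1 - (DL.nu (a1 S d) (c1 S) p : ℝ) / p) = VV (S.card + 1) M z := by
      unfold VV
      refine Finset.prod_congr rfl fun p hp => ?_
      obtain ⟨hpz, hpp, hpM⟩ : p < z ∧ p.Prime ∧ ¬ p ∣ M := by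
        simpa [PR] using hp
      rw [nu_C1 S d p hpp (hd p hpp hpz hpM) (hG.2 p hpp hpM).2.1 (hG.2 p hpp hpM).2.2]
    rw [h2] at h
    have h3 : ((Y : ℝ) - ((0 : ℕ) : ℝ)) = Y := by simp
    rw [h3] at h
    have h4 : (19 : ℝ) * ((S.card : ℝ) + 1) = 19 * ((S.card + 1 : ℕ) : ℝ) := by push_cast; ring
    rw [h4, ← mul_assoc]
    exact h
  · intro p hp hpz hpM
    rw [Fin.forall_fin_succ]
    refine ⟨?_, fun i => ?_⟩
    · rintro ⟨h, -⟩
      simp only [a1, Fin.cons_zero] at h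
      exact hp.one_lt.ne' (by exact_mod_cast Int.eq_one_of_dvd_one (by positivity) h)
    · rintro ⟨h, -⟩
      simp only [a1, Fin.cons_succ] at h
      exact hd p hp hpz hpM h

end Pool.Agent.Lib.MP_3efbeb_nt.ER.P3
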