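import Pool.Agent.Lib.MP_3efbeb_nt.ER.SV.SpecP
import Pool.Agent.Lib.MP_3efbeb_nt.DL.C12

/-! # MP_3efbeb_nt, ER/SV, module C2U (helper32): counts of rough tuples, two multipliers, explicit level -/

set_option autoImplicit false

namespace Pool.Agent.Lib.MP_3efbeb_nt.ER.P3

open Finset
open scoped Classical
open Pool.Agent.Lib.MP_3efbeb_nt.DL (PR Rgh W1 W2 VV VQ cq Good Del Lam)
open Pool.Agent.Lib.MP_3efbeb_nt.DL.C12M

theorem specC2U : SpecC2U := by
  intro S b M r z d d' Y hb hG hz hd hd' hDel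
  set k : ℝ := (S.card : ℝ) + 1 with hk
  have hk1 : 1 ≤ k := by rw [hk]; linarith [Nat.cast_nonneg (α := ℝ) S.card]
  have h := Pool.Agent.Lib.MP_3efbeb_nt.ER.specCNTU (S.card + S.card + 1) b M r z 0 Y (a2 S d d') (c2 S)
    (by omega) hG.1 hz (Nat.zero_le _) (fun p hp hpM => by have := (hG.2 p hp hpM).1; omega) ?_
  · have hI : Ioc 0 Y = Icc 1 Y := by
      ext y
      simp only [mem_Ioc, mem_Icc]
      omega
    have h3Y : ((Y : ℝ) - ((0 : ℕ) : ℝ)) = Y := by simp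
    rw [hI, ← W2_eq, h3Y] at h
    have hmem : ∀ p ∈ PR M z, p < z ∧ p.Prime ∧ ¬ p ∣ M := by
      intro p hp; simpa [PR] using hp
    have hp2k : ∀ p ∈ PR M z, 2 * k ≤ (p : ℝ) := by
      intro p hp
      obtain ⟨_, hpp, hpM⟩ := hmem p hp
      have h1 : 2 * (S.card + 1) ≤ p := by have := (hG.2 p hpp hpM).1; omega
      have h2 : ((2 * (S.card + 1) : ℕ) : ℝ) ≤ (p : ℝ) := by exact_mod_cast h1
      push_cast at h2
      rw [hk]; exact h2
    -- the local bound
    have hloc : ∀ p ∈ PR M z, 1 - (DL.nu (a2 S d d') (c2 S) p : ℝ) / p ≤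
        (1 - 1 / (p : ℝ)) * ((1 - k / p) / (1 - 1 / (p : ℝ))) ^ 2 *
          (if (p : ℤ) ∣ Del S d d' then (1 + 2 * k / p) else 1) := by
      intro p hp
      obtain ⟨hpz, hpp, hpM⟩ := hmem p hp
      have hpp0 : (0 : ℝ) < p := by exact_mod_cast hpp.pos
      have hnd : ¬ (p : ℤ) ∣ d := hd p hpp hpz hpM
      have hnd' : ¬ (p : ℤ) ∣ d' := hd' p hpp hpz hpM
      split_ifs with hdv
      · have h1 : S.card + 1 ≤ DL.nu (a2 S d d') (c2 S) p := by
          rw [← nu_C1 S d p hpp hnd (hG.2 p hpp hpM).2.1 (hG.2 p hpp hpM).2.2]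
          exact nu_C2_ge S d d' p
        have h2 : k ≤ (DL.nu (a2 S d d') (c2 S) p : ℝ) := by rw [hk]; exact_mod_cast h1
        have h3 : k / p ≤ (DL.nu (a2 S d d') (c2 S) p : ℝ) / p := by gcongr
        linarith [local2 k p hk1 (hp2k p hp)]
      · rw [mul_one, nu_C2_eq S d d' p hpp hnd hnd' (hG.2 p hpp hpM).2.1 (hG.2 p hpp hpM).2.2 hdv]
        have h4 : ((S.card + S.card + 1 : ℕ) : ℝ) = 2 * k - 1 := by rw [hk]; push_cast; ring
        rw [h4]
        exact local1 k p hk1 (hp2k p hp)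
    have hnn : ∀ p ∈ PR M z, 0 ≤ 1 - (DL.nu (a2 S d d') (c2 S) p : ℝ) / p := by
      intro p hp
      obtain ⟨hpz, hpp, hpM⟩ := hmem p hp
      have hpp0 : (0 : ℝ) < p := by exact_mod_cast hpp.pos
      rw [sub_nonneg, div_le_one hpp0]
      exact_mod_cast nu_le _ _ _ p
    have hprod : ∏ p ∈ PR M z, (1 - (DL.nu (a2 S d d') (c2 S) p : ℝ) / p) ≤
        VV 1 M z * VQ S M z ^ 2 * DL.hh (2 * (S.card + 1)) M (Del S d d') := by
      refine (Finset.prod_le_prod hnn hloc).trans ?_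
      rw [Finset.prod_mul_distrib, Finset.prod_mul_distrib, Finset.prod_pow, Finset.prod_div_distrib]
      have hV1 : ∏ p ∈ PR M z, (1 - 1 / (p : ℝ)) = VV 1 M z := by unfold VV; simp
      have hVk : ∏ p ∈ PR M z, (1 - k / (p : ℝ)) = VV (S.card + 1) M z := by
        unfold VV; rw [hk]; push_cast; rfl
      rw [hV1, hVk]
      have h0 : 0 ≤ VV 1 M z * VQ S M z ^ 2 := by
        refine mul_nonneg ?_ (sq_nonneg _)
        rw [← hV1]
        refine Finset.prod_nonneg fun p hp => ?_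
        have := (hmem p hp).2.1.pos
        have h5 : (1 : ℝ) ≤ p := by exact_mod_cast this
        rw [sub_nonneg, div_le_one (by linarith)]; exact h5
      refine mul_le_mul_of_nonneg_left ?_ h0
      rw [← Finset.prod_filter]
      unfold DL.hh
      rw [hk]
      refine prod_le_of_subset _ _ (fun p : ℕ => 1 + 2 * ((S.card : ℝ) + 1) / (p : ℝ)) ?_ ?_
      · intro p hp
        obtain ⟨hp1, hp2⟩ := Finset.mem_filter.mp hp
        obtain ⟨hpz, hpp, hpM⟩ := hmem p hp1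
        refine Finset.mem_filter.mpr ⟨Nat.mem_primeFactors.mpr ⟨hpp, ?_, ?_⟩, hpM⟩
        · exact Int.natCast_dvd.mp hp2
        · exact Int.natAbs_ne_zero.mpr hDel
      · intro p _
        have : 0 ≤ 2 * ((S.card : ℝ) + 1) / (p : ℝ) := by positivity
        linarith
    have h19 : (19 : ℝ) * ((S.card + S.card + 1 : ℕ) : ℝ) = 19 * (2 * (S.card : ℝ) + 1) := by
      push_cast; ring
    rw [h19] at h
    set e : ℝ := 3 * Real.exp (19 * (2 * (S.card : ℝ) + 1) - b) with he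
    have he0 : 0 ≤ e := by rw [he]; positivity
    have hexp : 0 ≤ (1 + e) * ((Y : ℝ) / M) := by positivity
    have h7 := (abs_le.mp h).2
    have h8 := mul_le_mul_of_nonneg_left hprod hexp
    calc ((W2 M r z S d d' Y).card : ℝ)
        ≤ (1 + e) * ((Y : ℝ) / M) *
            (∏ p ∈ PR M z, (1 - (DL.nu (a2 S d d') (c2 S) p : ℝ) / p)) + 4 * (z : ℝ) ^ (16 * b + 33) := by
          linarith
      _ ≤ _ := by linarith
  · intro p hp hpz hpM i h
    exact a2_unit S d d' p hp (hd p hp hpz hpM) (hd' p hp hpz hpM) i h.1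


end Pool.Agent.Lib.MP_3efbeb_nt.ER.P3
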