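import Pool.Agent.Lib.MP_3efbeb_nt.ER.SV.SpecE

/-!
# MP_3efbeb_nt, ER/SV, module CW (helper24): the windows with given divisors
-/

set_option autoImplicit false

namespace Pool.Agent.Lib.MP_3efbeb_nt.ER.SV

open Finset
open scoped Classical

namespace CWM

/-- the number of the classes -/
lemma nu_eq {L M p : ℕ} (hp : p.Prime) (hpM : ¬ p ∣ M) (hL : L ≤ p) :
    DL.nu (fun _ : Fin L => (1 : ℤ)) (fun t : Fin L => ((M * (t : ℕ) : ℕ) : ℤ)) p = L := by
  unfold DL.nu
  have hp1 : 1 ≤ p := hp.one_le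
  have key : ∀ t : ℕ, p ∣ ((p - 1) * (M * t)) % p + M * t := by
    intro t
    have h1 : ((p - 1) * (M * t)) % p + M * t ≡ (p - 1) * (M * t) + M * t [MOD p] :=
      (Nat.mod_modEq _ _).add_right _
    have h2 : (p - 1) * (M * t) + M * t = p * (M * t) := by
      obtain ⟨r, rfl⟩ : ∃ r, p = r + 1 := ⟨p - 1, by omega⟩
      rw [Nat.add_sub_cancel]
      ring
    rw [h2] at h1
    exact (Nat.modEq_zero_iff_dvd.1 (h1.trans (Nat.modEq_zero_iff_dvd.2 (dvd_mul_right _ _))))
  have hconv : ∀ y t : ℕ, (p : ℤ) ∣ 1 * (y : ℤ) + ((M * t : ℕ) : ℤ) ↔ p ∣ y + M * t := by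
    intro y t
    rw [one_mul, ← Nat.cast_add, Int.natCast_dvd_natCast]
  have h : (univ : Finset (Fin L)).card = ((range p).filter
      (fun y : ℕ => ∃ i : Fin L, (p : ℤ) ∣ 1 * (y : ℤ) + ((M * (i : ℕ) : ℕ) : ℤ))).card := by
    refine card_bij (fun t _ => ((p - 1) * (M * (t : ℕ))) % p) ?_ ?_ ?_
    · intro t _
      rw [mem_filter, mem_range]
      exact ⟨Nat.mod_lt _ hp.pos, t, (hconv _ _).2 (key t)⟩
    · intro t _ t' _ he
      have h1 := key t
      have h2 := key t'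
      rw [← he] at h2
      have h3 : (p : ℤ) ∣ (M : ℤ) * ((t : ℕ) - (t' : ℕ) : ℤ) := by
        have h1' : (p : ℤ) ∣ (((p - 1) * (M * (t : ℕ))) % p : ℕ) + ((M * (t : ℕ) : ℕ) : ℤ) := by
          exact_mod_cast h1
        have h2' : (p : ℤ) ∣ (((p - 1) * (M * (t : ℕ))) % p : ℕ) + ((M * (t' : ℕ) : ℕ) : ℤ) := by
          exact_mod_cast h2
        have h4 := dvd_sub h1' h2'
        have e : (((p - 1) * (M * (t : ℕ))) % p : ℕ) + ((M * (t : ℕ) : ℕ) : ℤ) -
            ((((p - 1) * (M * (t : ℕ))) % p : ℕ) + ((M * (t' : ℕ) : ℕ) : ℤ)) =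
            (M : ℤ) * ((t : ℕ) - (t' : ℕ) : ℤ) := by
          push_cast
          ring
        rwa [e] at h4
      have h5 : (p : ℤ) ∣ ((t : ℕ) - (t' : ℕ) : ℤ) := by
        rcases (Nat.prime_iff_prime_int.1 hp).dvd_or_dvd h3 with h | h
        · exact absurd (Int.natCast_dvd_natCast.1 h) hpM
        · exact h
      have h6 : ((t : ℕ) - (t' : ℕ) : ℤ) = 0 := by
        apply Int.eq_zero_of_abs_lt_dvd h5
        have ht := t.2
        have ht' := t'.2
        rw [abs_lt]
        constructor <;> omega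
      apply Fin.ext
      omega
    · intro y hy
      rw [mem_filter, mem_range] at hy
      obtain ⟨hyp, t, ht⟩ := hy
      refine ⟨t, mem_univ _, ?_⟩
      have h1 := key t
      have h2 := (hconv y t).1 ht
      have h3 : (((p - 1) * (M * (t : ℕ))) % p) + M * (t : ℕ) ≡ y + M * (t : ℕ) [MOD p] :=
        (Nat.modEq_zero_iff_dvd.2 h1).trans (Nat.modEq_zero_iff_dvd.2 h2).symm
      have h4 := Nat.ModEq.add_right_cancel' _ h3
      exact Nat.ModEq.eq_of_lt_of_lt h4 (Nat.mod_lt _ hp.pos) hyp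
  rw [← h, card_univ, Fintype.card_fin]

/-- the Chinese remainder theorem -/
lemma crt {q M : ℕ} (i D : Fin q → ℕ) (hM : 1 ≤ M) (hD : ∀ a, 1 ≤ D a ∧ Nat.Coprime (D a) M)
    (hDD : ∀ a a', a ≠ a' → Nat.Coprime (D a) (D a')) :
    ∃ r : ℕ, ∀ n : ℕ, (n % M = 1 % M ∧ ∀ a, D a ∣ n + M * i a) ↔ n % (M * ∏ a, D a) = r % (M * ∏ a, D a) := by
  let s : Option (Fin q) → ℕ := fun o => o.elim M D
  let w : Option (Fin q) → ℕ := fun o => o.elim 1 (fun a => (D a - 1) * (M * i a))
  have hs : ∀ o ∈ (univ : Finset (Option (Fin q))), s o ≠ 0 := by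
    intro o _
    cases o with
    | none => exact Nat.pos_iff_ne_zero.1 hM
    | some a => exact Nat.pos_iff_ne_zero.1 (hD a).1
  have hpp : Set.Pairwise (↑(univ : Finset (Option (Fin q)))) (Function.onFun Nat.Coprime s) := by
    intro o _ o' _ hne
    show Nat.Coprime (s o) (s o')
    cases o with
    | none =>
      cases o' with
      | none => exact absurd rfl hne
      | some a => exact (hD a).2.symm
    | some a =>
      cases o' with
      | none => exact (hD a).2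
      | some a' => exact hDD a a' (fun h => hne (by rw [h]))
  obtain ⟨r, hr⟩ := Nat.chineseRemainderOfFinset w s univ hs hpp
  have hr0 : r ≡ 1 [MOD M] := hr none (mem_univ _)
  have hra : ∀ a, r ≡ (D a - 1) * (M * i a) [MOD D a] := fun a => hr (some a) (mem_univ _)
  have hdvd : ∀ (n : ℕ) (a : Fin q), D a ∣ n + M * i a ↔ n ≡ r [MOD D a] := by
    intro n a
    have h1 : (D a - 1) * (M * i a) + M * i a = D a * (M * i a) := by
      obtain ⟨e, he⟩ : ∃ e, D a = e + 1 := ⟨D a - 1, by have := (hD a).1; omega⟩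
      rw [he, Nat.add_sub_cancel]
      ring
    have h2 : D a ∣ n + M * i a ↔ n + M * i a ≡ (D a - 1) * (M * i a) + M * i a [MOD D a] := by
      rw [h1, ← Nat.modEq_zero_iff_dvd]
      constructor
      · intro h
        exact h.trans (Nat.modEq_zero_iff_dvd.2 (dvd_mul_right _ _)).symm
      · intro h
        exact h.trans (Nat.modEq_zero_iff_dvd.2 (dvd_mul_right _ _))
    rw [h2]
    constructor
    · intro h
      exact (Nat.ModEq.add_right_cancel' _ h).trans (hra a).symm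
    · intro h
      exact (h.trans (hra a)).add_right _
  refine ⟨r, fun n => ?_⟩
  have hco : Nat.Coprime M (∏ a, D a) := Nat.Coprime.prod_right fun a _ => (hD a).2.symm
  have h3 : n % (M * ∏ a, D a) = r % (M * ∏ a, D a) ↔ n ≡ r [MOD M] ∧ n ≡ r [MOD ∏ a, D a] :=
    (Nat.modEq_and_modEq_iff_modEq_mul hco).symm
  rw [h3]
  have h4 : n % M = 1 % M ↔ n ≡ r [MOD M] :=
    ⟨fun h => Nat.ModEq.trans h hr0.symm, fun h => Nat.ModEq.trans h hr0⟩
  rw [h4]
  refine and_congr_right fun _ => ?_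
  constructor
  · intro h
    rw [Nat.modEq_iff_dvd]
    push_cast
    refine Finset.prod_dvd_of_coprime ?_ ?_
    · intro a _ a' _ hne
      exact Nat.isCoprime_iff_coprime.2 (hDD a a' hne)
    · intro a _
      exact Nat.modEq_iff_dvd.1 ((hdvd n a).1 (h a))
  · intro h a
    rw [hdvd]
    exact h.of_dvd (Finset.dvd_prod_of_mem _ (mem_univ a))

end CWM

open CWM in
/-- CW. -/
theorem specCW : SpecCW := by
  intro L b M z X1 X2 q i D hL hb hG hz hX hD hDD
  obtain ⟨r, hr⟩ := crt i D hG.1 (fun a => ⟨(hD a).1, (hD a).2.1⟩) hDD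
  set P : ℕ := ∏ a, D a with hP
  have hP1 : 1 ≤ P := by
    rw [hP]
    exact Nat.one_le_iff_ne_zero.2 (prod_ne_zero_iff.2 fun a _ => Nat.one_le_iff_ne_zero.1 (hD a).1)
  have hMP : 1 ≤ M * P := Nat.mul_pos hG.1 hP1
  have hpM : ∀ p : ℕ, p.Prime → p < z → (p ∣ M * P ↔ p ∣ M) := by
    intro p hp hpz
    constructor
    · intro h
      rcases hp.dvd_mul.1 h with h | h
      · exact h
      · exfalso
        rw [hP, hp.prime.dvd_finsetProd_iff] at h
        obtain ⟨a, -, ha⟩ := h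
        have := (hD a).2.2 p hp ha
        omega
    · intro h
      exact h.mul_right P
  have h := specCNTU L b (M * P) r z X1 X2 (fun _ : Fin L => (1 : ℤ)) (fun t : Fin L => ((M * (t : ℕ) : ℕ) : ℤ)) hb
    hMP hz hX
    (fun p hp hpMP => by
      have h1 : ¬ p ∣ M := fun h => hpMP (h.mul_right P)
      by_contra h2
      exact h1 (hG.2 p hp (by omega)))
    (fun p hp _ _ t hh => by
      have h1 := Int.natCast_dvd_natCast.1 (show (p : ℤ) ∣ ((1 : ℕ) : ℤ) by exact_mod_cast hh.1)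
      exact hp.one_lt.ne' (Nat.dvd_one.1 h1))
  have e1 : (Ioc X1 X2).filter (fun y : ℕ => y % (M * P) = r % (M * P) ∧
      ∀ t : Fin L, DL.Rgh (M * P) z ((fun _ : Fin L => (1 : ℤ)) t * (y : ℤ) +
        (fun t : Fin L => ((M * (t : ℕ) : ℕ) : ℤ)) t)) =
      (Win M L z X1 X2).filter (fun n => ∀ a, D a ∣ n + M * i a) := by
    unfold Win
    ext y
    simp only [mem_filter]
    rw [← hr y]
    have hR : (∀ t : Fin L, DL.Rgh (M * P) z (1 * (y : ℤ) + ((M * (t : ℕ) : ℕ) : ℤ))) ↔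
        ∀ t < L, ∀ p : ℕ, p.Prime → p < z → ¬ p ∣ M → ¬ p ∣ y + M * t := by
      unfold DL.Rgh
      constructor
      · intro h t ht p hp hpz hpm hd
        refine h ⟨t, ht⟩ p hp hpz (fun h' => hpm ((hpM p hp hpz).1 h')) ?_
        rw [one_mul, ← Nat.cast_add, Int.natCast_dvd_natCast]
        exact hd
      · intro h t p hp hpz hpm hd
        rw [one_mul, ← Nat.cast_add, Int.natCast_dvd_natCast] at hd
        exact h t t.2 p hp hpz (fun h' => hpm ((hpM p hp hpz).2 h')) hd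
    rw [hR]
    tauto
  have e2 : ∏ p ∈ DL.PR (M * P) z, (1 - (DL.nu (fun _ : Fin L => (1 : ℤ))
      (fun t : Fin L => ((M * (t : ℕ) : ℕ) : ℤ)) p : ℝ) / p) = V L M z := by
    unfold V
    have hset : DL.PR (M * P) z = (range z).filter (fun p => p.Prime ∧ ¬ p ∣ M) := by
      unfold DL.PR
      ext p
      simp only [mem_filter, mem_range]
      constructor
      · rintro ⟨h1, h2, h3⟩
        exact ⟨h1, h2, fun h' => h3 ((hpM p h2 h1).2 h')⟩
      · rintro ⟨h1, h2, h3⟩
        exact ⟨h1, h2, fun h' => h3 ((hpM p h2 h1).1 h')⟩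
    rw [hset]
    refine prod_congr rfl fun p hp => ?_
    rw [mem_filter] at hp
    rw [nu_eq hp.2.1 hp.2.2]
    by_contra h2
    exact hp.2.2 (hG.2 p hp.2.1 (by omega))
  rw [e1, e2] at h
  have e3 : ((M * P : ℕ) : ℝ) = M * ∏ a, (D a : ℝ) := by
    rw [hP]
    push_cast
    rfl
  rw [e3] at h
  exact h

end Pool.Agent.Lib.MP_3efbeb_nt.ER.SV
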