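import Pool.Agent.Lib.MP_3efbeb_nt.ER.SV.SpecE

/-!
# MP_3efbeb_nt, ER/SV, module DEN (helper15): the number of the windows
-/

set_option autoImplicit false

namespace Pool.Agent.Lib.MP_3efbeb_nt.ER.SV

open Finset Filter Topology
open scoped Classical

/-- DEN. -/
theorem specDEN (hCW : SpecCW) (hVL : SpecVL) : SpecDEN := by
  intro L B M β hL hG hβ hlev
  obtain ⟨c, hc, hV⟩ := hVL L M hG
  have hMR : (0 : ℝ) < M := by exact_mod_cast hG.1
  obtain ⟨b, hb⟩ : ∃ b : ℕ, b = 19 * L + B + 6 := ⟨_, rfl⟩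
  obtain ⟨A, hA⟩ : ∃ A : ℕ, A = 16 * b + 33 := ⟨_, rfl⟩
  have hA140 : (A : ℝ) ≤ lev L B := by
    rw [hA, hb]
    unfold lev
    push_cast
    linarith
  have hlevpos : (140 : ℝ) ≤ lev L B := by
    unfold lev
    have h1 : (0 : ℝ) ≤ L := Nat.cast_nonneg L
    have h2 : (0 : ℝ) ≤ B := Nat.cast_nonneg B
    linarith
  -- the exponent of the error
  obtain ⟨η, hη, hηA⟩ : ∃ η : ℝ, 0 < η ∧ β * A ≤ 1 - η := by
    refine ⟨1 - β * lev L B, by linarith, ?_⟩
    have := mul_le_mul_of_nonneg_left hA140 hβ.le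
    linarith
  have heB : 0 < Real.exp (-(B : ℝ)) := Real.exp_pos _
  have heB1 : Real.exp (-(B : ℝ)) ≤ 1 := Real.exp_le_one_iff.2 (by
    have : (0 : ℝ) ≤ B := Nat.cast_nonneg B
    linarith)
  have hL2 : 3 * Real.exp (19 * L - b) ≤ 1 / 20 * Real.exp (-(B : ℝ)) := by
    have e1 : (19 : ℝ) * L - b = -(B : ℝ) + -6 := by
      rw [hb]
      push_cast
      ring
    rw [e1, Real.exp_add]
    have h2 : (60 : ℝ) ≤ Real.exp 6 := by
      have h3 := Real.exp_one_gt_d9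
      have h4 : Real.exp 6 = Real.exp 1 ^ 6 := by rw [← Real.exp_nat_mul]; norm_num
      rw [h4]
      calc (60 : ℝ) ≤ 2 ^ 6 := by norm_num
        _ ≤ Real.exp 1 ^ 6 := pow_le_pow_left₀ (by norm_num) (by linarith) 6
    have h3 : Real.exp (-6) ≤ 1 / 60 := by
      rw [Real.exp_neg, inv_eq_one_div]
      exact one_div_le_one_div_of_le (by norm_num) h2
    nlinarith
  -- size conditions
  have hlog : Tendsto (fun x : ℕ => Real.log x) atTop atTop :=
    Real.tendsto_log_atTop.comp tendsto_natCast_atTop_atTop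
  set c1 : ℝ := 1 / 4 / M * c / 2 ^ L with hc1
  have hc1p : 0 < c1 := by positivity
  set ε : ℝ := 1 / 20 * Real.exp (-(B : ℝ)) * c1 with hε
  have hεp : 0 < ε := by positivity
  have E1 := hlog.eventually_ge_atTop (2 / c1)
  have E2 := hlog.eventually_ge_atTop 1
  have E3 : ∀ᶠ x : ℕ in atTop, 4 * 2 ^ A * (x : ℝ) ^ (1 - η) * Real.log x ^ L ≤ ε * x := by
    have h1 := isLittleO_log_rpow_rpow_atTop ((L : ℕ) : ℝ) hη
    have h2 := h1.def (show (0 : ℝ) < ε * (4 * 2 ^ A)⁻¹ by positivity)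
    have h3 : ∀ᶠ x : ℕ in atTop, ‖Real.log (x : ℝ) ^ ((L : ℕ) : ℝ)‖ ≤ ε * (4 * 2 ^ A)⁻¹ * ‖(x : ℝ) ^ η‖ :=
      tendsto_natCast_atTop_atTop.eventually h2
    filter_upwards [h3, eventually_ge_atTop 1] with x hx hx1
    have hx0 : (0 : ℝ) < x := by exact_mod_cast hx1
    have hl0 : 0 ≤ Real.log x := Real.log_nonneg (by exact_mod_cast hx1)
    rw [Real.rpow_natCast, Real.norm_of_nonneg (by positivity), Real.norm_of_nonneg (by positivity)] at hx
    calc 4 * 2 ^ A * (x : ℝ) ^ (1 - η) * Real.log x ^ L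
        ≤ 4 * 2 ^ A * (x : ℝ) ^ (1 - η) * (ε * (4 * 2 ^ A)⁻¹ * (x : ℝ) ^ η) :=
          mul_le_mul_of_nonneg_left hx (by positivity)
      _ = ε * ((x : ℝ) ^ (1 - η) * (x : ℝ) ^ η) := by
          field_simp
      _ = ε * x := by
          rw [← Real.rpow_add hx0]
          norm_num
  have E4 : ∀ᶠ x : ℕ in atTop, 2 ≤ (x : ℝ) ^ β :=
    ((tendsto_rpow_atTop hβ).comp tendsto_natCast_atTop_atTop).eventually_ge_atTop 2
  obtain ⟨x0, hx0⟩ := eventually_atTop.1 ((E1.and E2).and (E3.and (E4.and (eventually_ge_atTop 2))))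
  refine ⟨x0, fun x hx X1 X2 hR => ?_⟩
  obtain ⟨⟨k1, k2⟩, k3, k4, k5⟩ := hx0 x hx
  obtain ⟨hX12, hX2x, hX4⟩ := hR
  have hxR : (0 : ℝ) < x := by exact_mod_cast (by omega : 0 < x)
  have hx1 : (1 : ℝ) ≤ x := by exact_mod_cast (by omega : 1 ≤ x)
  have hl : 0 < Real.log x := by linarith
  set z : ℕ := ⌈(x : ℝ) ^ β⌉₊ with hz
  have hz2 : 2 ≤ z := by
    have h1 : (2 : ℝ) ≤ z := k4.trans (Nat.le_ceil _)
    exact_mod_cast h1
  have hzle : (z : ℝ) ≤ 2 * (x : ℝ) ^ β := by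
    have := Nat.ceil_lt_add_one (show 0 ≤ (x : ℝ) ^ β by positivity)
    linarith
  have hY : (x : ℝ) / 4 ≤ (X2 : ℝ) - X1 := by
    have h1 : (x : ℝ) ≤ ((4 * (X2 - X1) : ℕ) : ℝ) := by exact_mod_cast hX4
    rw [Nat.cast_mul, Nat.cast_sub hX12] at h1
    push_cast at h1
    linarith
  have hcnt := hCW L b M z X1 X2 0 (fun _ => 0) (fun _ => 1) hL (by omega) hG hz2 hX12
    (fun a => a.elim0) (fun a => a.elim0)
  have e0 : (Win M L z X1 X2).filter (fun n => ∀ a : Fin 0, (fun _ : Fin 0 => 1) a ∣ n + M * (fun _ : Fin 0 => 0) a) =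
      Win M L z X1 X2 := by
    rw [Finset.filter_eq_self]
    exact fun n _ a => a.elim0
  rw [e0, ← hA] at hcnt
  simp only [Finset.univ_eq_empty, Finset.prod_empty, mul_one] at hcnt
  obtain ⟨hVz, hV1⟩ := hV z hz2
  have hlogz : 0 < Real.log z := Real.log_pos (by exact_mod_cast (by omega : 1 < z))
  have hlogzx : Real.log z ≤ 2 * Real.log x := by
    have h1 : (z : ℝ) ≤ (x : ℝ) * x := by
      have hβ1 : β ≤ 1 := by nlinarith
      have h3 : (x : ℝ) ^ β ≤ x := by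
        calc (x : ℝ) ^ β ≤ (x : ℝ) ^ (1 : ℝ) := Real.rpow_le_rpow_of_exponent_le hx1 hβ1
          _ = x := Real.rpow_one _
      have h4 : (2 : ℝ) ≤ x := by exact_mod_cast k5
      nlinarith
    calc Real.log z ≤ Real.log ((x : ℝ) * x) := Real.log_le_log (by positivity) h1
      _ = 2 * Real.log x := by rw [Real.log_mul hxR.ne' hxR.ne']; ring
  -- the main term
  have hVx : c / (2 * Real.log x) ^ L ≤ V L M z := by
    refine le_trans ?_ hVz
    exact div_le_div_of_nonneg_left hc.le (by positivity) (pow_le_pow_left₀ hlogz.le hlogzx L)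
  have hV0 : 0 ≤ V L M z := le_trans (by positivity) hVx
  set T : ℝ := ((X2 : ℝ) - X1) / M * V L M z with hT
  have hYn : 0 ≤ ((X2 : ℝ) - X1) / M := div_nonneg (le_trans (by positivity) hY) hMR.le
  have hmain0 : c1 * ((x : ℝ) / Real.log x ^ L) ≤ T := by
    have h1 : x / 4 / M * (c / (2 * Real.log x) ^ L) ≤ T := by
      refine mul_le_mul ?_ hVx (by positivity) hYn
      exact div_le_div_of_nonneg_right hY hMR.le
    refine le_trans (le_of_eq ?_) h1
    rw [hc1, mul_pow]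
    field_simp
  have hT0 : 0 ≤ T := mul_nonneg hYn hV0
  have hmain : 2 * ((x : ℝ) / Real.log x ^ (L + 1)) ≤ T := by
    refine le_trans ?_ hmain0
    rw [pow_succ, ← div_div]
    have h3 : 2 ≤ c1 * Real.log x := by
      have := mul_le_mul_of_nonneg_left k1 hc1p.le
      have e1 : c1 * (2 / c1) = 2 := by field_simp
      linarith
    rw [← mul_div_assoc, div_le_iff₀ hl]
    calc 2 * ((x : ℝ) / Real.log x ^ L) ≤ (c1 * Real.log x) * ((x : ℝ) / Real.log x ^ L) :=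
          mul_le_mul_of_nonneg_right h3 (by positivity)
      _ = _ := by ring
  -- the error
  have herr : 4 * (z : ℝ) ^ A ≤ 1 / 20 * Real.exp (-(B : ℝ)) * T := by
    have h0 : 4 * (z : ℝ) ^ A ≤ ε * ((x : ℝ) / Real.log x ^ L) := by
      rw [← mul_div_assoc, le_div_iff₀ (by positivity)]
      refine le_trans (mul_le_mul_of_nonneg_right ?_ (by positivity)) k3
      have h1 : (z : ℝ) ^ A ≤ 2 ^ A * (x : ℝ) ^ (1 - η) := by
        calc (z : ℝ) ^ A ≤ (2 * (x : ℝ) ^ β) ^ A := pow_le_pow_left₀ (by positivity) hzle A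
          _ = 2 ^ A * (x : ℝ) ^ (β * A) := by
              rw [mul_pow, Real.rpow_mul hxR.le, Real.rpow_natCast]
          _ ≤ 2 ^ A * (x : ℝ) ^ (1 - η) :=
              mul_le_mul_of_nonneg_left (Real.rpow_le_rpow_of_exponent_le hx1 hηA) (by positivity)
      linarith
    refine h0.trans ?_
    rw [hε, mul_assoc]
    exact mul_le_mul_of_nonneg_left hmain0 (by positivity)
  have h6 : 3 * Real.exp (19 * L - b) * (((X2 : ℝ) - X1) / M) * V L M z ≤ 1 / 20 * Real.exp (-(B : ℝ)) * T := by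
    rw [mul_assoc]
    exact mul_le_mul_of_nonneg_right hL2 hT0
  have h7 : |((Win M L z X1 X2).card : ℝ) - T| ≤ 1 / 10 * Real.exp (-(B : ℝ)) * T := by
    refine hcnt.trans ?_
    linarith
  refine ⟨h7, ?_⟩
  have h8 := (abs_le.1 h7).1
  have h9 : 1 / 10 * Real.exp (-(B : ℝ)) * T ≤ 1 / 10 * T := by
    refine mul_le_mul_of_nonneg_right ?_ hT0
    linarith
  linarith

end Pool.Agent.Lib.MP_3efbeb_nt.ER.SV
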