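import Pool.Agent.Lib.MP_3efbeb_nt.ER.SV.SpecE

/-!
# MP_3efbeb_nt, ER/SV, module ES (helper33, spare copy): sums over families with disjoint sets
-/

set_option autoImplicit false

namespace Pool.Agent.Lib.MP_3efbeb_nt.ER.SV

open Finset Filter Topology
open scoped Classical

noncomputable section

namespace ESHM

variable {q K : ℕ}

theorem sum_biUnion_le {α ι : Type*} [DecidableEq α] [DecidableEq ι] (s : Finset ι) (t : ι → Finset α) (f : α → ℝ)
    (hf : ∀ x, 0 ≤ f x) : ∑ x ∈ s.biUnion t, f x ≤ ∑ i ∈ s, ∑ x ∈ t i, f x := by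
  induction s using Finset.induction_on with
  | empty => simp
  | insert i s hi ih =>
    rw [biUnion_insert, sum_insert hi]
    have h1 : ∑ x ∈ t i ∪ s.biUnion t, f x ≤ ∑ x ∈ t i, f x + ∑ x ∈ s.biUnion t, f x := by
      rw [← sum_union_inter]
      have : 0 ≤ ∑ x ∈ t i ∩ s.biUnion t, f x := sum_nonneg fun x _ => hf x
      linarith
    linarith

/-- weight of a set of primes -/
def wt (A : Finset ℕ) : ℝ := ∏ p ∈ A, 1 / (p : ℝ)

theorem wt_nonneg (A : Finset ℕ) : 0 ≤ wt A := Finset.prod_nonneg fun p _ => by positivity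

theorem prod_dd (S : Fin q × Fin K → Finset ℕ) : ∏ a, (1 / (dd S a : ℝ)) = ∏ t, wt (S t) := by
  rw [Fintype.prod_prod_type]
  refine Finset.prod_congr rfl fun a _ => ?_
  unfold dd wt
  push_cast
  rw [one_div, ← Finset.prod_inv_distrib]
  refine Finset.prod_congr rfl fun j _ => ?_
  rw [← Finset.prod_inv_distrib]
  exact Finset.prod_congr rfl fun p _ => (one_div _).symm

theorem sum_powerset_le (B : Finset ℕ) : ∑ A ∈ B.powerset, wt A ≤ Real.exp (∑ p ∈ B, 1 / (p : ℝ)) := by
  have h : ∑ A ∈ B.powerset, wt A = ∏ p ∈ B, (1 + 1 / (p : ℝ)) := by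
    rw [Finset.prod_one_add]
    rfl
  rw [h, Real.exp_sum]
  refine Finset.prod_le_prod (fun p _ => by positivity) fun p _ => ?_
  have := Real.add_one_le_exp (1 / (p : ℝ))
  linarith

theorem sum_mem_le (B : Finset ℕ) {p : ℕ} (hp : p ∈ B) :
    ∑ A ∈ B.powerset.filter (fun A => p ∈ A), wt A ≤ 1 / (p : ℝ) * Real.exp (∑ p ∈ B, 1 / (p : ℝ)) := by
  have h1 : ∑ A ∈ B.powerset.filter (fun A => p ∈ A), wt A = ∑ A ∈ (B.erase p).powerset, 1 / (p : ℝ) * wt A := by
    symm
    refine Finset.sum_bij (fun A _ => insert p A) ?_ ?_ ?_ ?_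
    · intro A hA
      rw [mem_powerset] at hA
      rw [mem_filter, mem_powerset]
      refine ⟨?_, mem_insert_self _ _⟩
      intro x hx
      rcases mem_insert.1 hx with rfl | hx
      · exact hp
      · exact mem_of_mem_erase (hA hx)
    · intro A hA A' hA' h
      rw [mem_powerset] at hA hA'
      have h1 : p ∉ A := fun h => (mem_erase.1 (hA h)).1 rfl
      have h2 : p ∉ A' := fun h => (mem_erase.1 (hA' h)).1 rfl
      rw [← erase_insert h1, h, erase_insert h2]
    · intro A hA
      rw [mem_filter, mem_powerset] at hA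
      refine ⟨A.erase p, ?_, insert_erase hA.2⟩
      rw [mem_powerset]
      exact erase_subset_erase p hA.1
    · intro A hA
      rw [mem_powerset] at hA
      have h1 : p ∉ A := fun h => (mem_erase.1 (hA h)).1 rfl
      unfold wt
      rw [prod_insert h1]
  rw [h1, ← Finset.mul_sum]
  refine mul_le_mul_of_nonneg_left ?_ (by positivity)
  refine (sum_powerset_le _).trans (Real.exp_le_exp.2 ?_)
  exact sum_le_sum_of_subset_of_nonneg (erase_subset _ _) fun _ _ _ => by positivity

/-- families with a common prime at two places -/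
theorem pair_le (Bk : Fin q × Fin K → Finset ℕ) (l : Fin q → Fin K → ℕ) (C : ℝ) (hC : 1 ≤ C)
    (hB : ∀ t, Real.exp (∑ p ∈ Bk t, 1 / (p : ℝ)) ≤ C) {a a' : Fin q} (haa : a ≠ a') (j : Fin K) {p : ℕ}
    (hp : p ∈ Bk (a, j)) (hp' : p ∈ Bk (a', j)) :
    ∑ S ∈ (Fintype.piFinset (fun t => (Bk t).powersetCard (l t.1 t.2))).filter
        (fun S => p ∈ S (a, j) ∧ p ∈ S (a', j)), ∏ t, wt (S t)
      ≤ 1 / (p : ℝ) * (1 / (p : ℝ)) * C ^ (q * K) := by
  set F : Fin q × Fin K → Finset (Finset ℕ) := fun t =>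
    if t = (a, j) ∨ t = (a', j) then (Bk t).powerset.filter (fun A => p ∈ A) else (Bk t).powerset with hF
  have hsub : (Fintype.piFinset (fun t => (Bk t).powersetCard (l t.1 t.2))).filter
        (fun S => p ∈ S (a, j) ∧ p ∈ S (a', j)) ⊆ Fintype.piFinset F := by
    intro S hS
    rw [mem_filter, Fintype.mem_piFinset] at hS
    rw [Fintype.mem_piFinset]
    intro t
    have h1 := (mem_powersetCard.1 (hS.1 t)).1
    rw [hF]
    simp only
    split_ifs with h
    · rw [mem_filter, mem_powerset]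
      refine ⟨h1, ?_⟩
      rcases h with rfl | rfl
      · exact hS.2.1
      · exact hS.2.2
    · exact mem_powerset.2 h1
  have hne : ((a, j) : Fin q × Fin K) ≠ (a', j) := fun h => haa (Prod.ext_iff.1 h).1
  calc ∑ S ∈ (Fintype.piFinset (fun t => (Bk t).powersetCard (l t.1 t.2))).filter
        (fun S => p ∈ S (a, j) ∧ p ∈ S (a', j)), ∏ t, wt (S t)
      ≤ ∑ S ∈ Fintype.piFinset F, ∏ t, wt (S t) :=
        sum_le_sum_of_subset_of_nonneg hsub fun S _ _ => prod_nonneg fun t _ => wt_nonneg _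
    _ = ∏ t, ∑ A ∈ F t, wt A := (Finset.prod_univ_sum F (fun _ A => wt A)).symm
    _ ≤ ∏ t, ((if t = (a, j) then 1 / (p : ℝ) else 1) * (if t = (a', j) then 1 / (p : ℝ) else 1) * C) := by
        refine Finset.prod_le_prod (fun t _ => sum_nonneg fun A _ => wt_nonneg _) fun t _ => ?_
        rw [hF]
        simp only
        by_cases h1 : t = (a, j)
        · have h2 : t ≠ (a', j) := by rw [h1]; exact hne
          rw [if_pos (Or.inl h1), if_pos h1, if_neg h2, mul_one]
          rw [h1]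
          exact (sum_mem_le _ hp).trans (mul_le_mul_of_nonneg_left (hB _) (by positivity))
        · by_cases h2 : t = (a', j)
          · rw [if_pos (Or.inr h2), if_neg h1, if_pos h2, one_mul]
            rw [h2]
            exact (sum_mem_le _ hp').trans (mul_le_mul_of_nonneg_left (hB _) (by positivity))
          · rw [if_neg (not_or.2 ⟨h1, h2⟩), if_neg h1, if_neg h2, one_mul, one_mul]
            exact (sum_powerset_le _).trans (hB _)
    _ = 1 / (p : ℝ) * (1 / (p : ℝ)) * C ^ (q * K) := by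
        rw [Finset.prod_mul_distrib, Finset.prod_mul_distrib, Finset.prod_ite_eq' univ (a, j),
          Finset.prod_ite_eq' univ (a', j), if_pos (mem_univ _), if_pos (mem_univ _), Finset.prod_const,
          card_univ, Fintype.card_prod, Fintype.card_fin, Fintype.card_fin]

theorem tend_yb (b : ℝ) (hb : 0 < b) : Tendsto (fun x : ℕ => ⌈(x : ℝ) ^ b⌉₊) atTop atTop := by
  have h1 : Tendsto (fun x : ℕ => (x : ℝ) ^ b) atTop atTop :=
    (tendsto_rpow_atTop hb).comp tendsto_natCast_atTop_atTop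
  exact tendsto_nat_ceil_atTop.comp h1

end ESHM

open ESHM in
/-- ES. -/
theorem specESH (hMER : SpecMER) (hESY : SpecESY) : SpecES := by
  intro q K β l hβ
  set lam : Fin K → ℝ := fun j => Real.log (β (j + 1) / β j) with hlam
  have hSp : ∀ j : Fin K, Tendsto (fun x : ℕ => Sp (yb β x j) (yb β x (j + 1))) atTop (𝓝 (lam j)) := by
    intro j
    exact hMER (β j) (β (j + 1)) (hβ j).1 (hβ j).2
  have hyb : ∀ j : Fin K, Tendsto (fun x : ℕ => yb β x j) atTop atTop := fun j => tend_yb _ (hβ j).1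
  have he : ∀ (j : Fin K) (n : ℕ), Tendsto (fun x : ℕ => ∑ S ∈ (blk (yb β x j) (yb β x (j + 1))).powersetCard n,
      wt S) atTop (𝓝 (lam j ^ n / (n.factorial : ℝ))) := fun j n =>
    hESY (fun x => yb β x j) (fun x => yb β x (j + 1)) (lam j) (hyb j) (hSp j) n
  -- the whole family
  have htot : Tendsto (fun x : ℕ => ∑ S ∈ fam β x l, ∏ t, wt (S t)) atTop
      (𝓝 (∏ a, ∏ j : Fin K, lam j ^ l a j / ((l a j).factorial : ℝ))) := by
    have h1 : ∀ x : ℕ, ∑ S ∈ fam β x l, ∏ t, wt (S t) =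
        ∏ t : Fin q × Fin K, ∑ S ∈ (blk (yb β x t.2) (yb β x (t.2 + 1))).powersetCard (l t.1 t.2), wt S := by
      intro x
      exact (Finset.prod_univ_sum (fun t : Fin q × Fin K =>
        (blk (yb β x t.2) (yb β x (t.2 + 1))).powersetCard (l t.1 t.2)) (fun _ A => wt A)).symm
    have h2 : (∏ a, ∏ j : Fin K, lam j ^ l a j / ((l a j).factorial : ℝ)) =
        ∏ t : Fin q × Fin K, lam t.2 ^ l t.1 t.2 / ((l t.1 t.2).factorial : ℝ) := by
      rw [Fintype.prod_prod_type]
    rw [h2]
    simp only [h1]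
    exact tendsto_finset_prod _ fun t _ => he t.2 (l t.1 t.2)
  -- the bad families
  obtain ⟨C, hC1, hC⟩ : ∃ C : ℝ, 1 ≤ C ∧ ∀ᶠ x : ℕ in atTop, ∀ j : Fin K,
      Real.exp (Sp (yb β x j) (yb β x (j + 1))) ≤ C ∧ Sp (yb β x j) (yb β x (j + 1)) ≤ C := by
    refine ⟨∑ j : Fin K, (Real.exp (lam j + 1) + (|lam j| + 1)) + 1, ?_, ?_⟩
    · have : 0 ≤ ∑ j : Fin K, (Real.exp (lam j + 1) + (|lam j| + 1)) :=
        sum_nonneg fun j _ => by positivity
      linarith
    · rw [Filter.eventually_all]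
      intro j
      have h1 : ∀ᶠ x : ℕ in atTop, Sp (yb β x j) (yb β x (j + 1)) < lam j + 1 :=
        (hSp j).eventually_lt_const (by linarith)
      filter_upwards [h1] with x hx
      have h2 : Real.exp (lam j + 1) + (|lam j| + 1) ≤ ∑ j : Fin K, (Real.exp (lam j + 1) + (|lam j| + 1)) :=
        Finset.single_le_sum (f := fun j : Fin K => Real.exp (lam j + 1) + (|lam j| + 1))
          (fun j _ => by positivity) (mem_univ j)
      have h3 := Real.exp_le_exp.2 hx.le
      have h4 := le_abs_self (lam j)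
      have h5 := abs_nonneg (lam j)
      have h6 := Real.exp_pos (lam j + 1)
      constructor <;> linarith
  have hbad : Tendsto (fun x : ℕ => ∑ S ∈ (fam β x l).filter (fun S => ¬ Dis S), ∏ t, wt (S t)) atTop (𝓝 0) := by
    have hlim : Tendsto (fun x : ℕ => ∑ a : Fin q, ∑ a' : Fin q, ∑ j : Fin K,
        (1 / (yb β x j : ℝ)) * C * C ^ (q * K)) atTop (𝓝 0) := by
      have h0 : (0 : ℝ) = ∑ a : Fin q, ∑ a' : Fin q, ∑ j : Fin K, (0 : ℝ) := by simp
      rw [h0]
      refine tendsto_finset_sum _ fun a _ => tendsto_finset_sum _ fun a' _ => tendsto_finset_sum _ fun j _ => ?_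
      have h1 : Tendsto (fun x : ℕ => 1 / (yb β x j : ℝ)) atTop (𝓝 0) :=
        tendsto_const_nhds.div_atTop (tendsto_natCast_atTop_atTop.comp (hyb j))
      have := (h1.mul_const C).mul_const (C ^ (q * K))
      simpa using this
    refine squeeze_zero' (Eventually.of_forall fun x => sum_nonneg fun S _ => prod_nonneg fun t _ => wt_nonneg _)
      ?_ hlim
    have hpos : ∀ᶠ x : ℕ in atTop, ∀ j : Fin K, 1 ≤ yb β x j := by
      rw [Filter.eventually_all]
      exact fun j => (hyb j).eventually_ge_atTop 1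
    filter_upwards [hC, hpos] with x hx hx1
    have hB : ∀ t : Fin q × Fin K, Real.exp (∑ p ∈ blk (yb β x t.2) (yb β x (t.2 + 1)), 1 / (p : ℝ)) ≤ C :=
      fun t => (hx t.2).1
    have hcover : (fam β x l).filter (fun S => ¬ Dis S) ⊆
        (univ : Finset (Fin q)).biUnion fun a => (univ : Finset (Fin q)).biUnion fun a' =>
          (univ : Finset (Fin K)).biUnion fun j => (blk (yb β x j) (yb β x (j + 1))).biUnion fun p =>
            if a ≠ a' then (fam β x l).filter (fun S => p ∈ S (a, j) ∧ p ∈ S (a', j)) else ∅ := by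
      intro S hS
      rw [mem_filter] at hS
      obtain ⟨hSf, hd⟩ := hS
      unfold Dis at hd
      push_neg at hd
      obtain ⟨a, a', haa, j, hj⟩ := hd
      rw [Finset.not_disjoint_iff] at hj
      obtain ⟨p, hp1, hp2⟩ := hj
      have hpb : p ∈ blk (yb β x j) (yb β x (j + 1)) := by
        have := Fintype.mem_piFinset.1 hSf (a, j)
        exact (mem_powersetCard.1 this).1 hp1
      simp only [mem_biUnion, mem_univ, true_and]
      refine ⟨a, a', j, p, hpb, ?_⟩
      rw [if_pos haa, mem_filter]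
      exact ⟨hSf, hp1, hp2⟩
    have hw : ∀ S : Fin q × Fin K → Finset ℕ, 0 ≤ ∏ t, wt (S t) := fun S => prod_nonneg fun t _ => wt_nonneg _
    refine (sum_le_sum_of_subset_of_nonneg hcover fun S _ _ => hw S).trans ?_
    refine (sum_biUnion_le _ _ _ hw).trans ?_
    refine sum_le_sum fun a _ => ?_
    refine (sum_biUnion_le _ _ _ hw).trans ?_
    refine sum_le_sum fun a' _ => ?_
    refine (sum_biUnion_le _ _ _ hw).trans ?_
    refine sum_le_sum fun j _ => ?_
    refine (sum_biUnion_le _ _ _ hw).trans ?_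
    have hyp : (0 : ℝ) < yb β x j := by
      have := hx1 j
      exact_mod_cast this
    have hone : ∀ p ∈ blk (yb β x j) (yb β x (j + 1)),
        ∑ S ∈ (if a ≠ a' then (fam β x l).filter (fun S => p ∈ S (a, j) ∧ p ∈ S (a', j)) else ∅), ∏ t, wt (S t)
          ≤ (1 / (yb β x j : ℝ)) * C ^ (q * K) * (1 / (p : ℝ)) := by
      intro p hp
      have hpge : (yb β x j : ℝ) ≤ p := by
        have := (mem_Ico.1 (mem_filter.1 hp).1).1
        exact_mod_cast this
      have hp0 : (0 : ℝ) < p := hyp.trans_le hpge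
      split_ifs with haa
      · have h1 := pair_le (fun t : Fin q × Fin K => blk (yb β x t.2) (yb β x (t.2 + 1))) l C hC1 hB haa j
          (p := p) hp hp
        refine h1.trans ?_
        have h2 : 1 / (p : ℝ) ≤ 1 / (yb β x j : ℝ) := one_div_le_one_div_of_le hyp hpge
        have h3 : (0 : ℝ) ≤ 1 / (p : ℝ) := by positivity
        have h4 : (0 : ℝ) ≤ C ^ (q * K) := by positivity
        calc 1 / (p : ℝ) * (1 / (p : ℝ)) * C ^ (q * K) ≤ 1 / (yb β x j : ℝ) * (1 / (p : ℝ)) * C ^ (q * K) := by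
              gcongr
          _ = _ := by ring
      · rw [sum_empty]
        positivity
    refine (sum_le_sum hone).trans ?_
    rw [← Finset.mul_sum]
    have h5 : ∑ p ∈ blk (yb β x j) (yb β x (j + 1)), 1 / (p : ℝ) ≤ C := (hx j).2
    have h6 : 0 ≤ 1 / (yb β x j : ℝ) * C ^ (q * K) := by positivity
    calc 1 / (yb β x j : ℝ) * C ^ (q * K) * ∑ p ∈ blk (yb β x j) (yb β x (j + 1)), 1 / (p : ℝ)
        ≤ 1 / (yb β x j : ℝ) * C ^ (q * K) * C := mul_le_mul_of_nonneg_left h5 h6
      _ = _ := by ring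
  have hfin : Tendsto (fun x : ℕ => ∑ S ∈ fam β x l, ∏ t, wt (S t)
      - ∑ S ∈ (fam β x l).filter (fun S => ¬ Dis S), ∏ t, wt (S t)) atTop
      (𝓝 (∏ a, ∏ j : Fin K, lam j ^ l a j / ((l a j).factorial : ℝ))) := by
    have := htot.sub hbad
    rwa [sub_zero] at this
  refine hfin.congr fun x => ?_
  rw [← Finset.sum_filter_add_sum_filter_not (fam β x l) Dis, add_sub_cancel_right]
  exact Finset.sum_congr rfl fun S _ => (prod_dd S).symm

end

end Pool.Agent.Lib.MP_3efbeb_nt.ER.SV
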