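import Pool.Agent.Lib.MP_3efbeb_nt.ER.SV.SpecE

/-!
# MP_3efbeb_nt, ER/SV, module ESY (helper50): elementary symmetric sums
-/

set_option autoImplicit false

namespace Pool.Agent.Lib.MP_3efbeb_nt.ER.SV

open Finset Filter Topology
open scoped Classical

noncomputable section

namespace ESYM

/-- the double counting -/
theorem dc (B : Finset ℕ) (f : ℕ → ℝ) (l : ℕ) :
    ∑ S ∈ B.powersetCard l, ∑ p ∈ B \ S, (∏ q ∈ S, f q) * f p =
      ((l : ℝ) + 1) * ∑ T ∈ B.powersetCard (l + 1), ∏ q ∈ T, f q := by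
  have h1 : ((l : ℝ) + 1) * ∑ T ∈ B.powersetCard (l + 1), ∏ q ∈ T, f q =
      ∑ T ∈ B.powersetCard (l + 1), ∑ _p ∈ T, ∏ q ∈ T, f q := by
    rw [mul_sum]
    apply sum_congr rfl
    intro T hT
    rw [sum_const, (mem_powersetCard.mp hT).2, nsmul_eq_mul]
    push_cast
    ring
  rw [h1, sum_sigma', sum_sigma']
  refine sum_bij' (fun x _ => ⟨insert x.2 x.1, x.2⟩) (fun x _ => ⟨x.1.erase x.2, x.2⟩) ?_ ?_ ?_ ?_ ?_
  · rintro ⟨S, p⟩ h
    simp only [mem_sigma, mem_powersetCard, Finset.mem_sdiff] at h ⊢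
    obtain ⟨⟨h1, h2⟩, h3, h4⟩ := h
    refine ⟨⟨?_, ?_⟩, mem_insert_self _ _⟩
    · exact insert_subset h3 h1
    · rw [card_insert_of_notMem h4, h2]
  · rintro ⟨T, p⟩ h
    simp only [mem_sigma, mem_powersetCard, Finset.mem_sdiff] at h ⊢
    obtain ⟨⟨h1, h2⟩, h3⟩ := h
    refine ⟨⟨(erase_subset _ _).trans h1, ?_⟩, h1 h3, notMem_erase _ _⟩
    rw [card_erase_of_mem h3, h2]
    rfl
  · rintro ⟨S, p⟩ h
    simp only [mem_sigma, mem_powersetCard, Finset.mem_sdiff] at h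
    simp only [Sigma.mk.injEq, heq_eq_eq, and_true]
    exact erase_insert h.2.2
  · rintro ⟨T, p⟩ h
    simp only [mem_sigma, mem_powersetCard] at h
    simp only [Sigma.mk.injEq, heq_eq_eq, and_true]
    exact insert_erase h.2
  · rintro ⟨S, p⟩ h
    simp only [mem_sigma, mem_powersetCard, Finset.mem_sdiff] at h
    simp only
    rw [prod_insert h.2.2, mul_comm]

/-- Newton's identity with the remainder -/
theorem newton (B : Finset ℕ) (f : ℕ → ℝ) (l : ℕ) :
    (∑ p ∈ B, f p) * ∑ S ∈ B.powersetCard l, ∏ q ∈ S, f q =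
      ((l : ℝ) + 1) * (∑ T ∈ B.powersetCard (l + 1), ∏ q ∈ T, f q) +
        ∑ S ∈ B.powersetCard l, (∏ q ∈ S, f q) * ∑ p ∈ S, f p := by
  rw [← dc, ← sum_add_distrib, mul_sum]
  apply sum_congr rfl
  intro S hS
  have hSB := (mem_powersetCard.mp hS).1
  rw [← mul_sum, ← mul_add, sum_sdiff hSB, mul_comm]

theorem rem_le (u v l : ℕ) (hu : 1 ≤ u) :
    0 ≤ ∑ S ∈ (blk u v).powersetCard l, (∏ q ∈ S, 1 / (q : ℝ)) * ∑ p ∈ S, 1 / (p : ℝ) ∧
    ∑ S ∈ (blk u v).powersetCard l, (∏ q ∈ S, 1 / (q : ℝ)) * ∑ p ∈ S, 1 / (p : ℝ) ≤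
      ((l : ℝ) * (1 / (u : ℝ))) * ∑ S ∈ (blk u v).powersetCard l, ∏ q ∈ S, 1 / (q : ℝ) := by
  have hpos : ∀ S : Finset ℕ, 0 ≤ ∏ q ∈ S, 1 / (q : ℝ) := fun S =>
    prod_nonneg (fun q _ => by positivity)
  refine ⟨sum_nonneg (fun S _ => mul_nonneg (hpos S) (sum_nonneg (fun p _ => by positivity))), ?_⟩
  rw [mul_sum]
  apply sum_le_sum
  intro S hS
  obtain ⟨h1, h2⟩ := mem_powersetCard.mp hS
  rw [mul_comm]
  apply mul_le_mul_of_nonneg_right _ (hpos S)
  rw [← h2, ← nsmul_eq_mul]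
  apply sum_le_card_nsmul
  intro p hp
  have h3 := h1 hp
  simp only [blk, mem_filter, mem_Ico] at h3
  have hu' : (0 : ℝ) < u := by exact_mod_cast hu
  have h4 : (u : ℝ) ≤ p := by exact_mod_cast h3.1.1
  exact one_div_le_one_div_of_le hu' h4

end ESYM

open ESYM in
theorem specESY : SpecESY := by
  intro u v lam hu hσ l
  induction l with
  | zero =>
    simp
  | succ l ih =>
    set E : ℕ → ℕ → ℝ := fun l x => ∑ S ∈ (blk (u x) (v x)).powersetCard l, ∏ p ∈ S, 1 / (p : ℝ)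
      with hE
    set R : ℕ → ℝ := fun x => ∑ S ∈ (blk (u x) (v x)).powersetCard l,
      (∏ q ∈ S, 1 / (q : ℝ)) * ∑ p ∈ S, 1 / (p : ℝ) with hR
    have hnew : ∀ x, E (l + 1) x = (Sp (u x) (v x) * E l x - R x) / ((l : ℝ) + 1) := by
      intro x
      have h := newton (blk (u x) (v x)) (fun p => 1 / (p : ℝ)) l
      have hl : ((l : ℝ) + 1) ≠ 0 := by positivity
      rw [eq_div_iff hl]
      simp only [hE, hR, Sp]
      linarith
    have hRt : Tendsto R atTop (𝓝 0) := by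
      have h1 : Tendsto (fun x => ((l : ℝ) * (1 / (u x : ℝ))) * E l x) atTop (𝓝 0) := by
        have h2 : Tendsto (fun x => (1 / (u x : ℝ))) atTop (𝓝 0) := by
          have := (tendsto_one_div_atTop_nhds_zero_nat (𝕜 := ℝ)).comp hu
          exact this
        have h3 := (h2.const_mul (l : ℝ)).mul ih
        rw [mul_zero, zero_mul] at h3
        exact h3
      have hev : ∀ᶠ x in atTop, 1 ≤ u x := hu.eventually_ge_atTop 1
      refine tendsto_of_tendsto_of_tendsto_of_le_of_le' tendsto_const_nhds h1 ?_ ?_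
      · filter_upwards [hev] with x hx
        exact (rem_le (u x) (v x) l hx).1
      · filter_upwards [hev] with x hx
        exact (rem_le (u x) (v x) l hx).2
    have h5 : Tendsto (fun x => (Sp (u x) (v x) * E l x - R x) / ((l : ℝ) + 1)) atTop
        (𝓝 ((lam * (lam ^ l / (l.factorial : ℝ)) - 0) / ((l : ℝ) + 1))) :=
      ((hσ.mul ih).sub hRt).div_const _
    have h6 : (lam * (lam ^ l / (l.factorial : ℝ)) - 0) / ((l : ℝ) + 1) =
        lam ^ (l + 1) / ((l + 1).factorial : ℝ) := by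
      rw [Nat.factorial_succ]
      push_cast
      have hl : ((l : ℝ) + 1) ≠ 0 := by positivity
      have hf : (l.factorial : ℝ) ≠ 0 := by positivity
      field_simp
      ring
    rw [h6] at h5
    refine h5.congr (fun x => ?_)
    rw [← hnew x]

end

end Pool.Agent.Lib.MP_3efbeb_nt.ER.SV
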