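import Pool.Agent.Lib.MP_3efbeb_nt.ER.SV.SpecM

/-! # MP_3efbeb_nt, ER/SV, module HH (helper20) -/

set_option autoImplicit false

namespace Pool.Agent.Lib.MP_3efbeb_nt.ER.SV

open Finset Filter Topology
open scoped Classical

namespace HHM

lemma be_mono (κ : ℝ) (s i j : ℕ) (hκ : 0 < κ) (hi : 1 ≤ i) (hij : i ≤ j) : be κ s i ≤ be κ s j := by
  unfold be
  rw [if_neg (by omega), if_neg (by omega)]
  have h0 : (0 : ℝ) ≤ κ / s := by positivity
  exact mul_le_mul_of_nonneg_left (pow_le_pow_right₀ (by norm_num) (by omega)) h0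

lemma yb_mono (κ : ℝ) (s x i j : ℕ) (hκ : 0 < κ) (hx : 1 ≤ x) (hi : 1 ≤ i) (hij : i ≤ j) :
    yb (be κ s) x i ≤ yb (be κ s) x j := by
  unfold yb
  exact Nat.ceil_mono (Real.rpow_le_rpow_of_exponent_le (by exact_mod_cast hx) (be_mono κ s i j hκ hi hij))

/-- each factor is a Bonferroni sum -/
lemma fac (s J K j w : ℕ) : pol (dg s J K j) (cc s J K j) w =
    if j = 0 then bon s J w else bon 0 (2 * (K + 1 - j)) w := by
  unfold dg cc bon
  split_ifs with h
  · rfl
  · rw [Nat.zero_add]

end HHM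

theorem specHH (hBNB : SpecBNB) : SpecHH := by
  intro κ s J K x m hκ hs hx hJ
  constructor
  · unfold hh
    refine Finset.prod_nonneg fun j _ => ?_
    rw [HHM.fac]
    split_ifs with h
    · exact (hBNB s J _ hJ).1
    · exact (hBNB 0 (2 * (K + 1 - j)) _ (even_two_mul _)).1
  · intro Z hZ hA
    obtain ⟨a, P, rfl, hP, hZP, ha, hac, hap⟩ := hA
    have ha0 : a ≠ 0 := ha.ne_zero
    have hbig : yb (be κ s) x (K + 1) < P := by exact_mod_cast lt_of_le_of_lt hZ hZP
    unfold hh
    refine Finset.prod_eq_one fun j hj => ?_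
    have hjK : j < K + 1 := Finset.mem_range.1 hj
    have hy : yb (be κ s) x (j + 1) ≤ yb (be κ s) x (K + 1) :=
      HHM.yb_mono κ s x (j + 1) (K + 1) hκ hx (by omega) (by omega)
    rw [HHM.fac]
    split_ifs with h
    · subst h
      have hom : om (yb (be κ s) x 0) (yb (be κ s) x (0 + 1)) (a * P) = s := by
        refine Eq.trans ?_ hac
        unfold om blk
        congr 1
        ext p
        simp only [Finset.mem_filter, Finset.mem_Ico, Nat.mem_primeFactors]
        constructor
        · rintro ⟨⟨⟨h1, h2⟩, hp⟩, hd⟩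
          refine ⟨hp, ?_, ha0⟩
          rcases (Nat.Prime.dvd_mul hp).1 hd with h3 | h3
          · exact h3
          · have := (Nat.prime_dvd_prime_iff_eq hp hP).1 h3
            omega
        · rintro ⟨hp, hd, _⟩
          exact ⟨⟨hap p hp hd, hp⟩, dvd_mul_of_dvd_left hd P⟩
      rw [hom]
      exact (hBNB s J s hJ).2.1
    · have hom : om (yb (be κ s) x j) (yb (be κ s) x (j + 1)) (a * P) = 0 := by
        unfold om blk
        rw [Finset.card_eq_zero, Finset.filter_eq_empty_iff]
        intro p hp hd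
        simp only [Finset.mem_filter, Finset.mem_Ico] at hp
        obtain ⟨⟨h1, h2⟩, hp⟩ := hp
        rcases (Nat.Prime.dvd_mul hp).1 hd with h3 | h3
        · have h4 := (hap p hp h3).2
          have h5 : yb (be κ s) x 1 ≤ yb (be κ s) x j := HHM.yb_mono κ s x 1 j hκ hx le_rfl (by omega)
          omega
        · have := (Nat.prime_dvd_prime_iff_eq hp hP).1 h3
          omega
      rw [hom]
      exact (hBNB 0 (2 * (K + 1 - j)) 0 (even_two_mul _)).2.1

end Pool.Agent.Lib.MP_3efbeb_nt.ER.SV
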