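import Pool.Agent.Lib.MP_3efbeb_nt.ER.SV.SpecP

/-!
# MP_3efbeb_nt, ER/SV, group P, module INJ (helper9): the map `(q, m) ↦ q m - M i`
-/

set_option autoImplicit false

namespace Pool.Agent.Lib.MP_3efbeb_nt.ER.P3

open Finset Filter Topology
open scoped Classical
open Pool.Agent.Lib.MP_3efbeb_nt.DL (PR Rgh W1 W2 VV VQ cq Good Del Lam)

noncomputable section

namespace INJM

lemma mem_QA {J1 J2 q : ℕ} (h : q ∈ QA J1 J2) : q.Prime ∧ 2 ^ J1 < q ∧ q ≤ 2 ^ J2 := by
  unfold QA at h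
  rw [mem_filter, mem_Ioc] at h
  exact ⟨h.2, h.1.1, h.1.2⟩

/-- the prime factors of `m` are large -/
lemma prime_Am {u J T X m p : ℕ} {Z : ℝ} (hT : 2 ^ (3 * J) < T) (hZ : (T : ℝ) ≤ Z) (hm : m ∈ Am u J T Z X)
    (hp : p.Prime) (hd : p ∣ m) : 2 ^ (3 * J) + 1 ≤ p := by
  unfold Am at hm
  rw [mem_filter] at hm
  obtain ⟨a, P, h1, h2, h3, _, _, h6⟩ := hm.2
  rw [h1] at hd
  rcases hp.dvd_mul.1 hd with h | h
  · exact (h6 p hp h).1
  · have h7 : p = P := (Nat.prime_dvd_prime_iff_eq hp h2).1 h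
    rw [h7]
    have h8 : (T : ℝ) < P := lt_of_le_of_lt hZ h3
    have h9 : T < P := by exact_mod_cast h8
    omega

lemma pow_le (J : ℕ) : 2 ^ J ≤ 2 ^ (3 * J) := Nat.pow_le_pow_right (by norm_num) (by omega)

/-- `q m` has the form AA -/
lemma aa {s J z T q m X : ℕ} {Z : ℝ} (hs : 1 ≤ s) (hz : z ≤ 2 ^ J) (hT : 2 ^ (3 * J) < T)
    (hm : m ∈ Am (s - 1) J T Z X) (hq : q ∈ QA J (3 * J)) : SV.AA s z T Z (q * m) := by
  obtain ⟨hq1, hq2, hq3⟩ := mem_QA hq
  unfold Am at hm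
  rw [mem_filter] at hm
  obtain ⟨a, P, h1, h2, h3, h4, h5, h6⟩ := hm.2
  have hpl := pow_le J
  have hqa : ¬ q ∣ a := by
    intro h
    have := (h6 q hq1 h).1
    omega
  have hco : Nat.Coprime q a := (Nat.Prime.coprime_iff_not_dvd hq1).2 hqa
  refine ⟨q * a, P, ?_, h2, h3, ?_, ?_, ?_⟩
  · rw [h1]
    ring
  · rw [Nat.squarefree_mul hco]
    exact ⟨hq1.prime.squarefree, h4⟩
  · rw [hco.primeFactors_mul, card_union_of_disjoint hco.disjoint_primeFactors, h5, hq1.primeFactors,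
      card_singleton]
    omega
  · intro p hp h
    rcases hp.dvd_mul.1 h with h | h
    · have h7 : p = q := (Nat.prime_dvd_prime_iff_eq hp hq1).1 h
      rw [h7]
      omega
    · have h7 := h6 p hp h
      omega

end INJM

open INJM in
/-- INJ. -/
theorem specINJ : SpecINJ := by
  intro s J z T X1 X2 M L i Z hs hi hz hT hZ
  rw [← card_sigma]
  have hpl := pow_le J
  have hmem : ∀ x ∈ (Am (s - 1) J T Z (X2 + M * i)).sigma (fun m =>
      (QA J (3 * J)).filter (fun q => X1 + M * i < q * m ∧ q * m ≤ X2 + M * i ∧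
        (q * m) % M = 1 % M ∧ cq M z (MS M (Sh L i)) q m)),
      x.1 ∈ Am (s - 1) J T Z (X2 + M * i) ∧ x.2 ∈ QA J (3 * J) ∧ X1 + M * i < x.2 * x.1 ∧
      x.2 * x.1 ≤ X2 + M * i ∧ (x.2 * x.1) % M = 1 % M ∧ cq M z (MS M (Sh L i)) x.2 x.1 := by
    intro x hx
    rw [mem_sigma, mem_filter] at hx
    exact ⟨hx.1, hx.2.1, hx.2.2⟩
  refine card_le_card_of_injOn (fun x => x.2 * x.1 - M * i) ?_ ?_
  · intro x hx
    obtain ⟨h1, h2, h3, h4, h5, h6⟩ := hmem x (mem_coe.1 hx)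
    obtain ⟨hq1, hq2, hq3⟩ := mem_QA h2
    have hn : x.2 * x.1 - M * i + M * i = x.2 * x.1 := by omega
    rw [mem_coe]
    dsimp only
    rw [mem_filter]
    refine ⟨?_, ?_⟩
    · unfold SV.Win
      rw [mem_filter, mem_Ioc]
      refine ⟨⟨by omega, by omega⟩, ?_, ?_⟩
      · have h7 : (x.2 * x.1 - M * i + M * i) % M = (x.2 * x.1 - M * i) % M :=
          Nat.add_mul_mod_self_left _ _ _
        rw [hn] at h7
        rw [← h7, h5]
      · intro i' hi' p hp hpz hpM hd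
        by_cases he : i' = i
        · rw [he, hn] at hd
          rcases hp.dvd_mul.1 hd with h | h
          · have h7 : p = x.2 := (Nat.prime_dvd_prime_iff_eq hp hq1).1 h
            omega
          · have h7 := prime_Am hT hZ h1 hp h
            omega
        · have h7 : (M : ℤ) * ((i' : ℤ) - i) ∈ MS M (Sh L i) := by
            unfold MS Sh
            refine mem_image_of_mem _ ?_
            exact mem_image_of_mem (fun i' : ℕ => (i' : ℤ) - i) (mem_erase.2 ⟨he, mem_range.2 hi'⟩)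
          have h8 := h6 _ h7 p hp hpz hpM
          apply h8
          have h9 : ((x.2 * x.1 - M * i + M * i' : ℕ) : ℤ) =
              (x.2 : ℤ) * x.1 + (M : ℤ) * ((i' : ℤ) - i) := by
            have h10 : ((x.2 * x.1 - M * i : ℕ) : ℤ) + M * i = (x.2 : ℤ) * x.1 := by exact_mod_cast hn
            push_cast at h10 ⊢
            linarith
          rw [← h9]
          exact_mod_cast hd
    · rw [hn]
      exact aa hs hz hT h1 h2
  · intro x hx y hy hxy
    obtain ⟨h1, h2, h3, _⟩ := hmem x (mem_coe.1 hx)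
    obtain ⟨h1', h2', h3', _⟩ := hmem y (mem_coe.1 hy)
    obtain ⟨hq1, hq2, hq3⟩ := mem_QA h2
    obtain ⟨hq1', hq2', hq3'⟩ := mem_QA h2'
    have he : x.2 * x.1 = y.2 * y.1 := by
      have h4 : x.2 * x.1 - M * i = y.2 * y.1 - M * i := hxy
      omega
    have h5 : x.2 = y.2 := by
      have h6 : x.2 ∣ y.2 * y.1 := ⟨x.1, he.symm⟩
      rcases hq1.dvd_mul.1 h6 with h | h
      · exact (Nat.prime_dvd_prime_iff_eq hq1 hq1').1 h
      · have h7 := prime_Am hT hZ h1' hq1 h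
        omega
    rw [h5] at he
    have h6 : x.1 = y.1 := Nat.eq_of_mul_eq_mul_left hq1'.pos he
    exact Sigma.ext h6 (heq_of_eq h5)

end

end Pool.Agent.Lib.MP_3efbeb_nt.ER.P3
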