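import Pool.Agent.Lib.MP_3efbeb_nt.ER.SV.SpecM

/-!
# MP_3efbeb_nt, ER/SV/LEV: the levels of the blocks
-/

set_option autoImplicit false

namespace Pool.Agent.Lib.MP_3efbeb_nt.ER.SV

open Finset

namespace LEVM

theorem geo (K : ℕ) : ∑ j ∈ range K, (2 : ℝ) ^ (j + 1) = 2 ^ (K + 1) - 2 := by
  induction K with
  | zero => simp
  | succ K ih => rw [sum_range_succ, ih]; ring

theorem aux (K : ℕ) :
    ∑ j ∈ range K, (2 : ℝ) ^ (j + 1) * ((K : ℝ) - j) = 2 ^ (K + 2) - 2 * K - 4 := by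
  induction K with
  | zero => norm_num
  | succ K ih =>
    have h : ∀ j ∈ range K, (2 : ℝ) ^ (j + 1) * (((K + 1 : ℕ) : ℝ) - j) =
        2 ^ (j + 1) * ((K : ℝ) - j) + 2 ^ (j + 1) := by
      intro j _
      push_cast
      ring
    rw [sum_range_succ, sum_congr rfl h, sum_add_distrib, ih, geo]
    push_cast
    ring

end LEVM

open LEVM in
theorem specLEV : SpecLEV := by
  intro Q s K κ ε hκ hs hε
  have hs0 : (0 : ℝ) < s := by exact_mod_cast hs
  rw [sum_range_succ']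
  have h0 : be κ s (0 + 1) * (dg s (16 * 4 ^ Q * s) K 0 : ℝ) = κ * (1 + 16 * 4 ^ Q) := by
    unfold be dg
    simp only [zero_add, one_ne_zero, if_false, if_true, Nat.sub_self, pow_zero, mul_one]
    push_cast
    field_simp
  have h1 : ∀ j ∈ range K, be κ s (j + 1 + 1) * (dg s (16 * 4 ^ Q * s) K (j + 1) : ℝ) =
      2 * (κ / s) * (2 ^ (j + 1) * ((K : ℝ) - j)) := by
    intro j hj
    have hj' : j ≤ K := (mem_range.mp hj).le
    have e1 : K + 1 - (j + 1) = K - j := by omega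
    unfold be dg
    rw [if_neg (by omega), if_neg (by omega), e1, Nat.add_sub_cancel]
    push_cast [Nat.cast_sub hj']
    ring
  rw [h0, sum_congr rfl h1, ← mul_sum, aux]
  have hK : 2 * (κ / s) * ((2 : ℝ) ^ (K + 2) - 2 * K - 4) ≤ 8 * (κ / s * 2 ^ K) := by
    have hk : 0 < κ / s := div_pos hκ hs0
    have hK0 : (0 : ℝ) ≤ K := Nat.cast_nonneg K
    have e : 2 * (κ / s) * ((2 : ℝ) ^ (K + 2) - 2 * K - 4) =
        8 * (κ / s * 2 ^ K) - 2 * (κ / s) * (2 * K + 4) := by ring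
    rw [e]
    have : 0 ≤ 2 * (κ / s) * (2 * (K : ℝ) + 4) := by positivity
    linarith
  linarith

end Pool.Agent.Lib.MP_3efbeb_nt.ER.SV
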