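import Pool.Agent.Lib.MP_3efbeb_nt.ER.SV.SpecM

/-!
# MP_3efbeb_nt, ER/SV, module M1 (helper41): the means of the products of the normalised majorant at distinct positions
-/

set_option autoImplicit false

namespace Pool.Agent.Lib.MP_3efbeb_nt.ER.SV

open Finset
open scoped Classical

noncomputable section

namespace M1M

theorem be_zero (κ : ℝ) (s : ℕ) : be κ s 0 = κ / s * Real.exp (-(s : ℝ)) := by
  unfold be; rw [if_pos rfl]

theorem be_succ (κ : ℝ) (s j : ℕ) : be κ s (j + 1) = κ / s * 2 ^ j := by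
  unfold be; rw [if_neg (Nat.succ_ne_zero j), Nat.add_sub_cancel]

theorem be_pos {κ : ℝ} {s : ℕ} (hκ : 0 < κ) (hs : 1 ≤ s) (j : ℕ) : 0 < be κ s j := by
  have hs0 : (0 : ℝ) < s := by exact_mod_cast hs
  rcases j with _ | j
  · rw [be_zero]; positivity
  · rw [be_succ]; positivity

theorem be_lt {κ : ℝ} {s : ℕ} (hκ : 0 < κ) (hs : 1 ≤ s) (j : ℕ) : be κ s j < be κ s (j + 1) := by
  have hs0 : (0 : ℝ) < s := by exact_mod_cast hs
  have hd : 0 < κ / s := by positivity
  rcases j with _ | j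
  · rw [be_zero, be_succ, pow_zero]
    have h1 : Real.exp (-(s : ℝ)) < 1 := by
      rw [Real.exp_lt_one_iff]
      linarith
    exact mul_lt_mul_of_pos_left h1 hd
  · rw [be_succ, be_succ]
    apply mul_lt_mul_of_pos_left _ hd
    exact pow_lt_pow_right₀ one_lt_two (Nat.lt_succ_self j)

theorem log_be {κ : ℝ} {s : ℕ} (hκ : 0 < κ) (hs : 1 ≤ s) (j : ℕ) :
    Real.log (be κ s (j + 1) / be κ s j) = la s j := by
  have hs0 : (0 : ℝ) < s := by exact_mod_cast hs
  have hd : κ / s ≠ 0 := by positivity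
  rcases j with _ | j
  · have h1 : be κ s (0 + 1) / be κ s 0 = Real.exp s := by
      rw [be_zero, be_succ, pow_zero, Real.exp_neg]
      have : Real.exp (s : ℝ) ≠ 0 := Real.exp_ne_zero _
      field_simp
    rw [h1, Real.log_exp]
    unfold la
    rw [if_pos rfl]
  · have h1 : be κ s (j + 1 + 1) / be κ s (j + 1) = 2 := by
      rw [be_succ, be_succ, pow_succ]
      field_simp
    rw [h1]
    unfold la
    rw [if_neg (Nat.succ_ne_zero j)]

theorem la_nonneg (s j : ℕ) : 0 ≤ la s j := by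
  unfold la
  split_ifs
  · exact Nat.cast_nonneg _
  · exact Real.log_nonneg (by norm_num)

theorem cb_le (s J l : ℕ) : |cb s J l| ≤ 8 ^ l := by
  unfold cb
  split_ifs with h
  · rw [abs_mul, abs_pow, abs_neg, abs_one, one_pow, one_mul, abs_of_nonneg (Nat.cast_nonneg _ : (0 : ℝ) ≤ (l.choose s : ℝ))]
    calc (l.choose s : ℝ) ≤ ((2 ^ l : ℕ) : ℝ) := by exact_mod_cast Nat.choose_le_two_pow l s
      _ = 2 ^ l := by push_cast; ring
      _ ≤ 8 ^ l := pow_le_pow_left₀ (by norm_num) (by norm_num) l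
  · rw [abs_zero]; positivity

theorem cc_le (s J0 K j l : ℕ) : |cc s J0 K j l| ≤ 8 ^ l := by
  unfold cc
  split_ifs
  · exact cb_le _ _ _
  · exact cb_le _ _ _

theorem exp_log : Real.exp (8 * Real.log 2) = 2 ^ 8 := by
  rw [show (8 : ℝ) * Real.log 2 = ((8 : ℕ) : ℝ) * Real.log 2 by norm_num, Real.exp_nat_mul, Real.exp_log two_pos]

/-- the product of the `PA` -/
theorem PAT_le (hPAB : SpecPAB) (s J0 K : ℕ) :
    0 ≤ ∏ j ∈ range (K + 1), PA (la s j) (dg s J0 K j) (cc s J0 K j) ∧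
    ∏ j ∈ range (K + 1), PA (la s j) (dg s J0 K j) (cc s J0 K j) ≤ Real.exp (8 * s) * 2 ^ (8 * K) := by
  have h : ∀ j, PA (la s j) (dg s J0 K j) (cc s J0 K j) ≤ Real.exp (8 * la s j) ∧
      0 ≤ PA (la s j) (dg s J0 K j) (cc s J0 K j) := by
    intro j
    have := hPAB (la s j) 8 (dg s J0 K j) (cc s J0 K j) (la_nonneg s j) (by norm_num) (cc_le s J0 K j)
    exact ⟨this.1, this.2.1⟩
  refine ⟨prod_nonneg fun j _ => (h j).2, ?_⟩
  calc ∏ j ∈ range (K + 1), PA (la s j) (dg s J0 K j) (cc s J0 K j)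
      ≤ ∏ j ∈ range (K + 1), Real.exp (8 * la s j) := prod_le_prod (fun j _ => (h j).2) fun j _ => (h j).1
    _ = Real.exp (8 * s) * 2 ^ (8 * K) := by
        rw [prod_range_succ']
        have h0 : la s 0 = s := by unfold la; rw [if_pos rfl]
        have h1 : ∀ j, la s (j + 1) = Real.log 2 := by intro j; unfold la; rw [if_neg (Nat.succ_ne_zero j)]
        simp only [h0, h1, exp_log]
        rw [prod_const, card_range, mul_comm, ← pow_mul]

end M1M

open M1M in
/-- M1 -/
theorem specM1 (hMEAN : SpecMEAN) (hPAB : SpecPAB) : SpecM1 := by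
  intro Q s K N M κ ε hP hGM
  haveI : NeZero N := ⟨hP.hN.ne_zero⟩
  set J0 : ℕ := 16 * 4 ^ Q * s with hJ0
  set L : ℕ := (N + 1) / 2 with hL
  have hN3 := hP.hN3
  have hLN : L ≤ N := by omega
  have hL1 : 1 ≤ L := by omega
  have hGL : GM L M := ⟨hGM.1, fun p hp hpL => hGM.2 p hp (by omega)⟩
  have hMh0 : 0 < Mh s J0 K := hP.hM0
  have hMh1 : Mh s J0 K ≤ 1 := hP.hM
  have key : ∀ T : Finset (ZMod N), ∃ x0 : ℕ, ∀ x : ℕ, x0 ≤ x → ∀ X1 X2 : ℕ, Rg x X1 X2 → T.card ≤ Q →
      |(∑ n ∈ Win M L (yb (be κ s) x 0) X1 X2, ∏ i ∈ T, nn κ s J0 K M N x n i)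
        - (Win M L (yb (be κ s) x 0) X1 X2).card|
      ≤ (Win M L (yb (be κ s) x 0) X1 X2).card / Real.sqrt N := by
    intro T
    by_cases hTQ : T.card ≤ Q
    swap
    · exact ⟨0, fun x _ X1 X2 _ h => absurd h hTQ⟩
    set T' : Finset (ZMod N) := T.filter (fun i => 2 * i.val < N) with hT'
    set q : ℕ := T'.card with hq
    have hqQ : q ≤ Q := (card_le_card (filter_subset _ _)).trans hTQ
    let e : Fin q ≃ T' := T'.equivFin.symm
    let i : Fin q → ℕ := fun a => (e a : ZMod N).val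
    have hinj : Function.Injective i := by
      intro a b hab
      have h1 : (e a : ZMod N) = (e b : ZMod N) := ZMod.val_injective N hab
      exact e.injective (Subtype.ext h1)
    have hiL : ∀ a, i a < L := by
      intro a
      have h1 : 2 * (e a : ZMod N).val < N := (mem_filter.mp (e a).2).2
      show (e a : ZMod N).val < L
      omega
    have hlevel : be κ s 0 * lev L N + ∑ _a : Fin q, ∑ j : Fin (K + 1), be κ s (j + 1) * (dg s J0 K j : ℝ) < 1 := by
      have h1 : be κ s 0 * lev L N ≤ be κ s 0 * lev N N := by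
        apply mul_le_mul_of_nonneg_left _ (be_pos hP.hκ hP.hs 0).le
        unfold lev
        have : (L : ℝ) ≤ N := by exact_mod_cast hLN
        linarith
      have h2 : ∑ _a : Fin q, ∑ j : Fin (K + 1), be κ s (j + 1) * (dg s J0 K j : ℝ)
          ≤ Q * ∑ j ∈ range (K + 1), be κ s (j + 1) * (dg s J0 K j : ℝ) := by
        rw [sum_const, card_univ, Fintype.card_fin, nsmul_eq_mul,
          ← sum_range (fun j => be κ s (j + 1) * (dg s J0 K j : ℝ))]
        apply mul_le_mul_of_nonneg_right (by exact_mod_cast hqQ)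
        exact sum_nonneg fun j _ => mul_nonneg (be_pos hP.hκ hP.hs _).le (Nat.cast_nonneg _)
      have h3 := hP.hlev
      linarith
    obtain ⟨x0, hx0⟩ := hMEAN L N q (K + 1) M (be κ s) (fun _ j => dg s J0 K j) (fun _ j => cc s J0 K j) i hL1 hGL
      (Nat.succ_le_succ (Nat.zero_le K)) (be_pos hP.hκ hP.hs 0) (fun j _ => be_lt hP.hκ hP.hs j) hinj hiL hlevel
    refine ⟨x0, fun x hx X1 X2 hR _ => ?_⟩
    have h1 := hx0 x hx X1 X2 hR
    set W : Finset ℕ := Win M L (yb (be κ s) x 0) X1 X2 with hW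
    set PAT : ℝ := ∏ j ∈ range (K + 1), PA (la s j) (dg s J0 K j) (cc s J0 K j) with hPAT
    obtain ⟨hPAT0, hPAT1⟩ := PAT_le hPAB s J0 K
    -- the products
    have hprod : ∀ n, ∏ l ∈ T, nn κ s J0 K M N x n l = (∏ a, hh κ s J0 K x (n + M * i a)) / (Mh s J0 K) ^ q := by
      intro n
      have h2 : ∏ l ∈ T, nn κ s J0 K M N x n l = ∏ l ∈ T', (hh κ s J0 K x (n + M * l.val) / Mh s J0 K) := by
        rw [hT', prod_filter]
        refine prod_congr rfl fun l _ => ?_
        unfold nn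
        rfl
      have h3 : ∏ l ∈ T', (hh κ s J0 K x (n + M * l.val) / Mh s J0 K)
          = ∏ a : Fin q, (hh κ s J0 K x (n + M * i a) / Mh s J0 K) := by
        rw [← prod_coe_sort T' (fun l => hh κ s J0 K x (n + M * l.val) / Mh s J0 K)]
        exact (Equiv.prod_comp e (fun l : T' => hh κ s J0 K x (n + M * (l : ZMod N).val) / Mh s J0 K)).symm
      rw [h2, h3, prod_div_distrib, prod_const, card_univ, Fintype.card_fin]
    have hhh : ∀ n a, hh κ s J0 K x (n + M * i a) = ∏ j : Fin (K + 1), pol (dg s J0 K j) (cc s J0 K j)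
        (om (yb (be κ s) x j) (yb (be κ s) x (j + 1)) (n + M * i a)) := by
      intro n a
      unfold hh
      rw [prod_range]
    have hPE : ∏ _a : Fin q, ∏ j : Fin (K + 1), PE (Real.log (be κ s (j + 1) / be κ s j)) (dg s J0 K j) (cc s J0 K j)
        = (Mh s J0 K) ^ q := by
      have h2 : ∏ j : Fin (K + 1), PE (Real.log (be κ s (j + 1) / be κ s j)) (dg s J0 K j) (cc s J0 K j)
          = Mh s J0 K := by
        unfold Mh
        rw [prod_range]
        refine prod_congr rfl fun j _ => ?_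
        rw [log_be hP.hκ hP.hs]
      rw [h2, prod_const, card_univ, Fintype.card_fin]
    have hPA : ∏ _a : Fin q, ∏ j : Fin (K + 1), PA (Real.log (be κ s (j + 1) / be κ s j)) (dg s J0 K j) (cc s J0 K j)
        = PAT ^ q := by
      have h2 : ∏ j : Fin (K + 1), PA (Real.log (be κ s (j + 1) / be κ s j)) (dg s J0 K j) (cc s J0 K j)
          = PAT := by
        rw [hPAT, prod_range]
        refine prod_congr rfl fun j _ => ?_
        rw [log_be hP.hκ hP.hs]
      rw [h2, prod_const, card_univ, Fintype.card_fin]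
    rw [hPE, hPA] at h1
    simp only [← hhh] at h1
    have hMq : 0 < (Mh s J0 K) ^ q := by positivity
    have hMq1 : (Mh s J0 K) ^ q ≠ 0 := hMq.ne'
    have h4 : (∑ n ∈ W, ∏ l ∈ T, nn κ s J0 K M N x n l) - (W.card : ℝ)
        = ((∑ n ∈ W, ∏ a, hh κ s J0 K x (n + M * i a)) - (W.card : ℝ) * (Mh s J0 K) ^ q) / (Mh s J0 K) ^ q := by
      simp only [hprod]
      rw [← sum_div, sub_div, mul_div_assoc, div_self hMq1, mul_one]
    rw [h4, abs_div, abs_of_pos hMq, div_le_iff₀ hMq]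
    refine h1.trans ?_
    -- the constants
    set Y : ℝ := Real.exp (8 * s) * 2 ^ (8 * K) * (Mh s J0 K)⁻¹ with hY
    have hinv1 : 1 ≤ (Mh s J0 K)⁻¹ := (one_le_inv₀ hMh0).mpr hMh1
    have hY1 : 1 ≤ Y := by
      have h5 : (1 : ℝ) ≤ Real.exp (8 * s) := by
        exact Real.one_le_exp (by positivity)
      have h6 : (1 : ℝ) ≤ 2 ^ (8 * K) := one_le_pow₀ (by norm_num)
      calc (1 : ℝ) = 1 * 1 * 1 := by norm_num
        _ ≤ Y := by
            rw [hY]
            gcongr
    have h7 : PAT ^ q ≤ Y ^ q * (Mh s J0 K) ^ q := by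
      rw [← mul_pow]
      apply pow_le_pow_left₀ hPAT0
      rw [hY, mul_assoc, inv_mul_cancel₀ hMh0.ne', mul_one]
      exact hPAT1
    have h8 : Real.exp (-(N : ℝ)) * Y ^ q ≤ 1 / Real.sqrt N := by
      refine le_trans ?_ hP.h1
      exact mul_le_mul_of_nonneg_left (pow_le_pow_right₀ hY1 hqQ) (Real.exp_pos _).le
    calc Real.exp (-(N : ℝ)) * W.card * PAT ^ q
        ≤ Real.exp (-(N : ℝ)) * W.card * (Y ^ q * (Mh s J0 K) ^ q) := mul_le_mul_of_nonneg_left h7 (by positivity)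
      _ = (Real.exp (-(N : ℝ)) * Y ^ q) * (W.card * (Mh s J0 K) ^ q) := by ring
      _ ≤ (1 / Real.sqrt N) * (W.card * (Mh s J0 K) ^ q) := mul_le_mul_of_nonneg_right h8 (by positivity)
      _ = W.card / Real.sqrt N * (Mh s J0 K) ^ q := by ring
  choose x0 hx0 using key
  refine ⟨univ.sup x0, fun x hx X1 X2 hR T hT => ?_⟩
  exact hx0 T x ((Finset.le_sup (mem_univ T)).trans hx) X1 X2 hR hT

end

end Pool.Agent.Lib.MP_3efbeb_nt.ER.SV
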