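import Pool.Agent.Lib.MP_3efbeb_nt.ER.SV.SpecM

/-!
# ER/SV, module M2: the moments of the majorant with repetitions
-/

set_option autoImplicit false

namespace Pool.Agent.Lib.MP_3efbeb_nt.ER.SV

open Finset Filter Topology
open scoped Classical

noncomputable section

namespace M2M

theorem be_pos {κ : ℝ} (hκ : 0 < κ) {s : ℕ} (hs : 1 ≤ s) (j : ℕ) : 0 < be κ s j := by
  have hs' : (0 : ℝ) < s := by exact_mod_cast hs
  unfold be
  split_ifs <;> positivity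

theorem be_zero (κ : ℝ) (s : ℕ) : be κ s 0 = κ / s * Real.exp (-(s : ℝ)) := by simp [be]

theorem be_succ (κ : ℝ) (s j : ℕ) : be κ s (j + 1) = κ / s * 2 ^ j := by simp [be]

theorem log_be {κ : ℝ} (hκ : 0 < κ) {s : ℕ} (hs : 1 ≤ s) (j : ℕ) :
    Real.log (be κ s (j + 1) / be κ s j) = la s j := by
  have hs' : (0 : ℝ) < s := by exact_mod_cast hs
  have hk : κ / s ≠ 0 := by positivity
  cases j with
  | zero =>
    rw [be_succ, be_zero, mul_div_mul_left _ _ hk, pow_zero, la, if_pos rfl, one_div,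
      ← Real.exp_neg, neg_neg, Real.log_exp]
  | succ j =>
    rw [be_succ, be_succ, mul_div_mul_left _ _ hk, la, if_neg (Nat.succ_ne_zero j), pow_succ]
    congr 1
    field_simp

theorem be_lt {κ : ℝ} (hκ : 0 < κ) {s : ℕ} (hs : 1 ≤ s) (j : ℕ) : be κ s j < be κ s (j + 1) := by
  have hs' : (0 : ℝ) < s := by exact_mod_cast hs
  have hk : 0 < κ / s := by positivity
  cases j with
  | zero =>
    rw [be_succ, be_zero, pow_zero]
    have : Real.exp (-(s : ℝ)) < 1 := by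
      rw [Real.exp_lt_one_iff]; linarith
    exact mul_lt_mul_of_pos_left this hk
  | succ j =>
    rw [be_succ, be_succ]
    exact mul_lt_mul_of_pos_left (pow_lt_pow_right₀ (by norm_num) (Nat.lt_succ_self j)) hk

def sj (s j : ℕ) : ℕ := if j = 0 then s else 0

def Jj (J K j : ℕ) : ℕ := if j = 0 then J else 2 * (K + 1 - j)

theorem dg_eq (s J K j : ℕ) : dg s J K j = sj s j + Jj J K j := by
  unfold dg sj Jj
  split_ifs <;> simp

theorem cc_eq (s J K j : ℕ) : cc s J K j = cb (sj s j) (Jj J K j) := by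
  unfold cc sj Jj
  split_ifs <;> rfl

theorem pol_eq_bon (s J K j w : ℕ) :
    pol (dg s J K j) (cc s J K j) w = bon (sj s j) (Jj J K j) w := by
  rw [dg_eq, cc_eq]; rfl

theorem even_Jj {J : ℕ} (hJ : Even J) (K j : ℕ) : Even (Jj J K j) := by
  unfold Jj
  split_ifs
  · exact hJ
  · exact even_two_mul _

theorem hh_eq (κ : ℝ) (s J K x m : ℕ) : hh κ s J K x m =
    ∏ j : Fin (K + 1), bon (sj s j) (Jj J K j)
      (om (yb (be κ s) x j) (yb (be κ s) x ((j : ℕ) + 1)) m) := by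
  unfold hh
  rw [Finset.prod_range]
  exact Finset.prod_congr rfl fun j _ => pol_eq_bon s J K j _

theorem GM_mono {N L M : ℕ} (hL : L ≤ N) (h : GM N M) : GM L M :=
  ⟨h.1, fun p hp hpl => h.2 p hp (by omega)⟩

theorem lev_mono {L N : ℕ} (h : L ≤ N) (B : ℕ) : lev L B ≤ lev N B := by
  have h' : (L : ℝ) ≤ N := by exact_mod_cast h
  unfold lev
  linarith

/-- A product over `Fin (K + 1)` with a different bound for `j = 0`. -/
theorem prod_le {K : ℕ} (f : Fin (K + 1) → ℝ) (a b : ℝ) (h0 : ∀ j, 0 ≤ f j) (ha : f 0 ≤ a)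
    (hb : ∀ j : Fin K, f j.succ ≤ b) : ∏ j, f j ≤ a * b ^ K := by
  rw [Fin.prod_univ_succ]
  have h1 : ∏ j : Fin K, f j.succ ≤ ∏ _j : Fin K, b :=
    Finset.prod_le_prod (fun j _ => h0 _) (fun j _ => hb j)
  rw [Finset.prod_const, Finset.card_univ, Fintype.card_fin] at h1
  exact mul_le_mul ha h1 (Finset.prod_nonneg fun j _ => h0 _) ((h0 0).trans ha)

theorem prod_le_pow {q Q : ℕ} (hq : q ≤ Q) (f : Fin q → ℝ) (a : ℝ) (ha : 1 ≤ a)
    (h0 : ∀ j, 0 ≤ f j) (h : ∀ j, f j ≤ a) : ∏ j, f j ≤ a ^ Q := by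
  have h1 : ∏ j : Fin q, f j ≤ ∏ _j : Fin q, a :=
    Finset.prod_le_prod (fun j _ => h0 _) (fun j _ => h j)
  rw [Finset.prod_const, Finset.card_univ, Fintype.card_fin] at h1
  exact h1.trans (pow_le_pow_right₀ ha hq)

/-- The mean of the product of powers at fixed positions. -/
theorem fixed (hMEAN : SpecMEAN) (hPAB : SpecPAB) (hNWT : SpecNWT) (hPM0 : SpecPM0)
    (hPMT : SpecPMT) (Q s K N M : ℕ) (κ ε : ℝ) (hP : Par Q κ ε s K N) (hM : GM N M) (q : ℕ)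
    (i e : Fin q → ℕ) (hi : Function.Injective i) (hiL : ∀ a, i a < (N + 1) / 2)
    (he : ∀ a, 1 ≤ e a) (heQ : ∑ a, e a ≤ Q) :
    ∃ x0 : ℕ, ∀ x : ℕ, x0 ≤ x → ∀ X1 X2 : ℕ, Rg x X1 X2 →
    ∑ n ∈ Win M ((N + 1) / 2) (yb (be κ s) x 0) X1 X2,
      ∏ a, hh κ s (16 * 4 ^ Q * s) K x (n + M * i a) ^ e a ≤
    (Win M ((N + 1) / 2) (yb (be κ s) x 0) X1 X2).card *
      ((2 * 2 ^ (K * 4 ^ Q)) ^ Q
        + Real.exp (-(N : ℝ)) * (Real.exp (2 * 4 ^ Q * s) * 2 ^ (2 * 4 ^ Q * K)) ^ Q) := by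
  have hJ : Even (16 * 4 ^ Q * s) := by
    rw [show 16 * 4 ^ Q * s = 2 * (8 * 4 ^ Q * s) by ring]
    exact even_two_mul _
  have heQ' : ∀ a, e a ≤ Q := fun a =>
    (Finset.single_le_sum (f := e) (fun _ _ => Nat.zero_le _) (Finset.mem_univ a)).trans heQ
  have hqQ : q ≤ Q := by
    have h1 : ∑ _a : Fin q, 1 ≤ ∑ a, e a := Finset.sum_le_sum fun a _ => he a
    simp only [Finset.sum_const, Finset.card_univ, Fintype.card_fin, smul_eq_mul, mul_one] at h1
    exact h1.trans heQ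
  -- the coefficients of the powers
  have hc : ∀ (a : Fin q) (j : Fin (K + 1)), ∃ c : ℕ → ℝ,
      (∀ w, bon (sj s j) (Jj (16 * 4 ^ Q * s) K j) w ^ e a =
        pol (e a * (sj s j + Jj (16 * 4 ^ Q * s) K j)) c w) ∧ ∀ l, |c l| ≤ (2 * 4 ^ e a) ^ l :=
    fun a j => hNWT _ _ _ (he a) (even_Jj hJ K j)
  choose c hc1 hc2 using hc
  have hκ := hP.hκ
  have hs := hP.hs
  have hs' : (0 : ℝ) < s := by exact_mod_cast hs
  have hN3 := hP.hN3
  have hLN : (N + 1) / 2 ≤ N := by omega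
  -- MEAN
  obtain ⟨x0, hx0⟩ := hMEAN ((N + 1) / 2) N q (K + 1) M (be κ s)
    (fun a j => e a * (sj s j + Jj (16 * 4 ^ Q * s) K j)) c i (by omega) (GM_mono hLN hM)
    (by omega) (be_pos hκ hs 0) (fun j _ => be_lt hκ hs j) hi hiL (by
      have h1 : be κ s 0 * lev ((N + 1) / 2) N ≤ be κ s 0 * lev N N :=
        mul_le_mul_of_nonneg_left (lev_mono hLN N) (be_pos hκ hs 0).le
      have h2 : ∑ a, ∑ j : Fin (K + 1), be κ s (j + 1) *
          ((e a * (sj s j + Jj (16 * 4 ^ Q * s) K j) : ℕ) : ℝ) ≤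
          Q * ∑ j ∈ range (K + 1), be κ s (j + 1) * (dg s (16 * 4 ^ Q * s) K j : ℝ) := by
        have h3 : ∀ a : Fin q, ∑ j : Fin (K + 1), be κ s (j + 1) *
            ((e a * (sj s j + Jj (16 * 4 ^ Q * s) K j) : ℕ) : ℝ) =
            e a * ∑ j ∈ range (K + 1), be κ s (j + 1) * (dg s (16 * 4 ^ Q * s) K j : ℝ) := by
          intro a
          rw [Finset.sum_range, Finset.mul_sum]
          refine Finset.sum_congr rfl fun j _ => ?_
          rw [dg_eq]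
          push_cast
          ring
        rw [Finset.sum_congr rfl fun a _ => h3 a, ← Finset.sum_mul]
        have h4 : (∑ a, (e a : ℝ)) ≤ Q := by exact_mod_cast heQ
        refine mul_le_mul_of_nonneg_right h4 (Finset.sum_nonneg fun j _ => ?_)
        have := be_pos hκ hs (j + 1)
        positivity
      have h5 := hP.hlev
      linarith)
  refine ⟨x0, fun x hx X1 X2 hR => ?_⟩
  have hm := hx0 x hx X1 X2 hR
  -- rewrite the sum
  have hsum : ∑ n ∈ Win M ((N + 1) / 2) (yb (be κ s) x 0) X1 X2,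
      ∏ a, hh κ s (16 * 4 ^ Q * s) K x (n + M * i a) ^ e a =
      ∑ n ∈ Win M ((N + 1) / 2) (yb (be κ s) x 0) X1 X2, ∏ a, ∏ j : Fin (K + 1),
        pol (e a * (sj s j + Jj (16 * 4 ^ Q * s) K j)) (c a j)
          (om (yb (be κ s) x j) (yb (be κ s) x (j + 1)) (n + M * i a)) := by
    refine Finset.sum_congr rfl fun n _ => Finset.prod_congr rfl fun a _ => ?_
    rw [hh_eq, ← Finset.prod_pow]
    exact Finset.prod_congr rfl fun j _ => hc1 a j _
  rw [hsum]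
  -- bounds for the main terms
  have hPE : ∀ (a : Fin q) (j : Fin (K + 1)),
      0 ≤ PE (Real.log (be κ s (j + 1) / be κ s j))
        (e a * (sj s j + Jj (16 * 4 ^ Q * s) K j)) (c a j) ∧
      (j = 0 → PE (Real.log (be κ s (j + 1) / be κ s j))
        (e a * (sj s j + Jj (16 * 4 ^ Q * s) K j)) (c a j) ≤ 2) ∧
      (j ≠ 0 → PE (Real.log (be κ s (j + 1) / be κ s j))
        (e a * (sj s j + Jj (16 * 4 ^ Q * s) K j)) (c a j) ≤ 2 ^ 4 ^ e a) := by
    intro a j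
    rw [log_be hκ hs]
    rcases Fin.eq_zero_or_eq_succ j with rfl | ⟨j', rfl⟩
    · have h1 := (hPM0 Q s (16 * 4 ^ Q * s) hP.hQ hs hJ le_rfl).2 (e a)
        (e a * (sj s ((0 : Fin (K + 1)) : ℕ) + Jj (16 * 4 ^ Q * s) K ((0 : Fin (K + 1)) : ℕ)))
        (c a 0) (he a) (heQ' a) (fun w => by
          have h2 := hc1 a 0 w
          have h3 : sj s ((0 : Fin (K + 1)) : ℕ) = s := rfl
          have h4 : Jj (16 * 4 ^ Q * s) K ((0 : Fin (K + 1)) : ℕ) = 16 * 4 ^ Q * s := rfl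
          rw [h3, h4] at h2 ⊢
          exact h2)
      have h5 : la s ((0 : Fin (K + 1)) : ℕ) = s := rfl
      rw [h5]
      exact ⟨h1.1, fun _ => h1.2, fun h => absurd rfl h⟩
    · have hj0 : ((Fin.succ j' : Fin (K + 1)) : ℕ) = (j' : ℕ) + 1 := rfl
      have h3 : sj s ((Fin.succ j' : Fin (K + 1)) : ℕ) = 0 := by rw [hj0]; rfl
      have h4 : Jj (16 * 4 ^ Q * s) K ((Fin.succ j' : Fin (K + 1)) : ℕ) = 2 * (K - j') := by
        rw [hj0]
        unfold Jj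
        rw [if_neg (Nat.succ_ne_zero _)]
        congr 1
        omega
      have h5 : la s ((Fin.succ j' : Fin (K + 1)) : ℕ) = Real.log 2 := by rw [hj0]; rfl
      have h1 := (hPMT (K - j') (by omega)).2 (e a)
        (e a * (sj s ((Fin.succ j' : Fin (K + 1)) : ℕ) +
          Jj (16 * 4 ^ Q * s) K ((Fin.succ j' : Fin (K + 1)) : ℕ)))
        (c a (Fin.succ j')) (he a) (fun w => by
          have h2 := hc1 a (Fin.succ j') w
          rw [h3, h4] at h2 ⊢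
          exact h2)
      rw [h5]
      exact ⟨h1.1, fun h => absurd h (Fin.succ_ne_zero j'), fun _ => h1.2⟩
  have h2pow : ∀ a : Fin q, (2 : ℝ) ^ 4 ^ e a ≤ 2 ^ 4 ^ Q := fun a =>
    pow_le_pow_right₀ (by norm_num) (pow_le_pow_right₀ (by norm_num) (heQ' a))
  have hPE1 : ∏ a, ∏ j : Fin (K + 1), PE (Real.log (be κ s (j + 1) / be κ s j))
      (e a * (sj s j + Jj (16 * 4 ^ Q * s) K j)) (c a j) ≤ (2 * 2 ^ (K * 4 ^ Q)) ^ Q := by
    refine prod_le_pow hqQ _ _ ?_ (fun a => Finset.prod_nonneg fun j _ => (hPE a j).1) ?_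
    · have : (1 : ℝ) ≤ 2 ^ (K * 4 ^ Q) := one_le_pow₀ (by norm_num)
      linarith
    · intro a
      have h1 := prod_le (fun j : Fin (K + 1) => PE (Real.log (be κ s (j + 1) / be κ s j))
        (e a * (sj s j + Jj (16 * 4 ^ Q * s) K j)) (c a j)) 2 (2 ^ 4 ^ Q)
        (fun j => (hPE a j).1) ((hPE a 0).2.1 rfl)
        (fun j => ((hPE a j.succ).2.2 (Fin.succ_ne_zero j)).trans (h2pow a))
      rw [← pow_mul, mul_comm (4 ^ Q) K] at h1
      exact h1
  have hPA : ∀ (a : Fin q) (j : Fin (K + 1)),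
      0 ≤ PA (Real.log (be κ s (j + 1) / be κ s j))
        (e a * (sj s j + Jj (16 * 4 ^ Q * s) K j)) (c a j) ∧
      PA (Real.log (be κ s (j + 1) / be κ s j))
        (e a * (sj s j + Jj (16 * 4 ^ Q * s) K j)) (c a j) ≤
        Real.exp (2 * 4 ^ Q * la s j) := by
    intro a j
    rw [log_be hκ hs]
    have hla : 0 ≤ la s j := by
      unfold la
      split_ifs
      · positivity
      · exact Real.log_nonneg (by norm_num)
    have h1 := hPAB (la s j) (2 * 4 ^ Q) (e a * (sj s j + Jj (16 * 4 ^ Q * s) K j)) (c a j) hla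
      (by positivity) (fun l => (hc2 a j l).trans (by
        have h2 : (4 : ℝ) ^ e a ≤ 4 ^ Q := pow_le_pow_right₀ (by norm_num) (heQ' a)
        gcongr))
    exact ⟨h1.2.1, h1.1⟩
  have hPA1 : ∏ a, ∏ j : Fin (K + 1), PA (Real.log (be κ s (j + 1) / be κ s j))
      (e a * (sj s j + Jj (16 * 4 ^ Q * s) K j)) (c a j) ≤
      (Real.exp (2 * 4 ^ Q * s) * 2 ^ (2 * 4 ^ Q * K)) ^ Q := by
    refine prod_le_pow hqQ _ _ ?_ (fun a => Finset.prod_nonneg fun j _ => (hPA a j).1) ?_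
    · have h1 : (1 : ℝ) ≤ 2 ^ (2 * 4 ^ Q * K) := one_le_pow₀ (by norm_num)
      have h2 : (1 : ℝ) ≤ Real.exp (2 * 4 ^ Q * s) := Real.one_le_exp (by positivity)
      exact one_le_mul_of_one_le_of_one_le h2 h1
    · intro a
      have h1 := prod_le (fun j : Fin (K + 1) => PA (Real.log (be κ s (j + 1) / be κ s j))
        (e a * (sj s j + Jj (16 * 4 ^ Q * s) K j)) (c a j)) (Real.exp (2 * 4 ^ Q * s))
        (2 ^ (2 * 4 ^ Q)) (fun j => (hPA a j).1) ((hPA a 0).2) (fun j => by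
          refine ((hPA a j.succ).2).trans (le_of_eq ?_)
          have h5 : la s ((Fin.succ j : Fin (K + 1)) : ℕ) = Real.log 2 := rfl
          rw [h5]
          have h6 : (2 * 4 ^ Q * Real.log 2 : ℝ) = ((2 * 4 ^ Q : ℕ) : ℝ) * Real.log 2 := by
            push_cast; ring
          rw [h6, Real.exp_nat_mul, Real.exp_log (by norm_num)])
      rw [← pow_mul] at h1
      exact h1
  -- conclusion
  have hcard : (0 : ℝ) ≤ (Win M ((N + 1) / 2) (yb (be κ s) x 0) X1 X2).card := by positivity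
  have h6 := (abs_le.mp hm).2
  have h7 : (Win M ((N + 1) / 2) (yb (be κ s) x 0) X1 X2).card *
      ∏ a, ∏ j : Fin (K + 1), PE (Real.log (be κ s (j + 1) / be κ s j))
        (e a * (sj s j + Jj (16 * 4 ^ Q * s) K j)) (c a j) ≤
      (Win M ((N + 1) / 2) (yb (be κ s) x 0) X1 X2).card * (2 * 2 ^ (K * 4 ^ Q)) ^ Q :=
    mul_le_mul_of_nonneg_left hPE1 hcard
  have h8 : Real.exp (-(N : ℝ)) * (Win M ((N + 1) / 2) (yb (be κ s) x 0) X1 X2).card *
      ∏ a, ∏ j : Fin (K + 1), PA (Real.log (be κ s (j + 1) / be κ s j))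
        (e a * (sj s j + Jj (16 * 4 ^ Q * s) K j)) (c a j) ≤
      Real.exp (-(N : ℝ)) * (Win M ((N + 1) / 2) (yb (be κ s) x 0) X1 X2).card *
        (Real.exp (2 * 4 ^ Q * s) * 2 ^ (2 * 4 ^ Q * K)) ^ Q :=
    mul_le_mul_of_nonneg_left hPA1 (by positivity)
  have h9 : (Win M ((N + 1) / 2) (yb (be κ s) x 0) X1 X2).card *
      ((2 * 2 ^ (K * 4 ^ Q)) ^ Q
        + Real.exp (-(N : ℝ)) * (Real.exp (2 * 4 ^ Q * s) * 2 ^ (2 * 4 ^ Q * K)) ^ Q) =
      (Win M ((N + 1) / 2) (yb (be κ s) x 0) X1 X2).card * (2 * 2 ^ (K * 4 ^ Q)) ^ Q +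
      Real.exp (-(N : ℝ)) * (Win M ((N + 1) / 2) (yb (be κ s) x 0) X1 X2).card *
        (Real.exp (2 * 4 ^ Q * s) * 2 ^ (2 * 4 ^ Q * K)) ^ Q := by ring
  rw [h9]
  linarith

end M2M

open M2M in
theorem specM2 (hMEAN : SpecMEAN) (hPAB : SpecPAB) (hNWT : SpecNWT) (hPM0 : SpecPM0)
    (hPMT : SpecPMT) (_hBNB : SpecBNB) : SpecM2 := by
  intro Q s K N M κ ε _ hP hM
  -- one function `m`
  have hone : ∀ m : ZMod N → ℕ, ∑ i, m i ≤ Q → ∃ x0 : ℕ, ∀ x : ℕ, x0 ≤ x → ∀ X1 X2 : ℕ,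
      Rg x X1 X2 →
      ∑ n ∈ Win M ((N + 1) / 2) (yb (be κ s) x 0) X1 X2,
        ∏ i, nn κ s (16 * 4 ^ Q * s) K M N x n i ^ m i
      ≤ (N : ℝ) ^ (1 / 4 : ℝ) * (Win M ((N + 1) / 2) (yb (be κ s) x 0) X1 X2).card := by
    intro m hm
    set T : Finset (ZMod N) := Finset.univ.filter fun i => 2 * i.val < N ∧ 0 < m i with hT
    have hTm : ∀ i, i ∈ T ↔ 2 * i.val < N ∧ 0 < m i := fun i => by
      rw [hT, Finset.mem_filter]
      exact ⟨fun h => h.2, fun h => ⟨Finset.mem_univ i, h⟩⟩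
    let en : Fin T.card ≃ T := T.equivFin.symm
    have hi : Function.Injective fun a : Fin T.card => ((en a : ZMod N)).val := by
      intro a b hab
      have h1 : ((en a : ZMod N)) = (en b : ZMod N) := ZMod.val_injective N hab
      exact en.injective (Subtype.ext h1)
    have hmemT : ∀ a : Fin T.card, 2 * ((en a : ZMod N)).val < N ∧ 0 < m (en a) := fun a =>
      (hTm _).mp (en a).2
    have hprodT : ∀ (f : ZMod N → ℝ), ∏ a : Fin T.card, f (en a) = ∏ i ∈ T, f i := by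
      intro f
      rw [← Finset.prod_coe_sort T f]
      exact Fintype.prod_equiv en _ _ fun _ => rfl
    have hsumT : ∑ a : Fin T.card, m (en a) = ∑ i ∈ T, m i := by
      rw [← Finset.sum_coe_sort T m]
      exact Fintype.sum_equiv en _ _ fun _ => rfl
    have heQ : ∑ a : Fin T.card, m (en a) ≤ Q := by
      rw [hsumT]
      exact (Finset.sum_le_sum_of_subset (Finset.subset_univ T)).trans hm
    obtain ⟨x0, hx0⟩ := fixed hMEAN hPAB hNWT hPM0 hPMT Q s K N M κ ε hP hM T.card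
      (fun a => ((en a : ZMod N)).val) (fun a => m (en a)) hi
      (fun a => by have := (hmemT a).1; show ((en a : ZMod N)).val < (N + 1) / 2; omega)
      (fun a => (hmemT a).2) heQ
    refine ⟨x0, fun x hx X1 X2 hR => ?_⟩
    have h0 := hx0 x hx X1 X2 hR
    have hM0 := hP.hM0
    have hinv : 1 ≤ (Mh s (16 * 4 ^ Q * s) K)⁻¹ := (one_le_inv₀ hM0).mpr hP.hM
    have hprod : ∀ n, ∏ i, nn κ s (16 * 4 ^ Q * s) K M N x n i ^ m i =
        ((Mh s (16 * 4 ^ Q * s) K)⁻¹) ^ (∑ a : Fin T.card, m (en a)) *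
          ∏ a : Fin T.card, hh κ s (16 * 4 ^ Q * s) K x (n + M * ((en a : ZMod N)).val) ^
            m (en a) := by
      intro n
      have h1 : ∏ i, nn κ s (16 * 4 ^ Q * s) K M N x n i ^ m i =
          ∏ i ∈ T, nn κ s (16 * 4 ^ Q * s) K M N x n i ^ m i := by
        symm
        refine Finset.prod_subset (Finset.subset_univ T) fun i _ hiT => ?_
        have h2 : ¬ (2 * i.val < N ∧ 0 < m i) := fun h => hiT ((hTm i).mpr h)
        rw [not_and_or, not_lt, not_lt] at h2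
        rcases h2 with h2 | h2
        · unfold nn
          rw [if_neg (by omega), one_pow]
        · rw [Nat.le_zero.mp h2, pow_zero]
      have h3 : ∏ i ∈ T, nn κ s (16 * 4 ^ Q * s) K M N x n i ^ m i =
          ∏ i ∈ T, (((Mh s (16 * 4 ^ Q * s) K)⁻¹) ^ m i *
            hh κ s (16 * 4 ^ Q * s) K x (n + M * i.val) ^ m i) := by
        refine Finset.prod_congr rfl fun i hiT => ?_
        have hiT' := (hTm i).mp hiT
        unfold nn
        rw [if_pos hiT'.1, div_eq_inv_mul, mul_pow]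
      rw [h1, h3, Finset.prod_mul_distrib, Finset.prod_pow_eq_pow_sum, hsumT,
        hprodT (fun i => hh κ s (16 * 4 ^ Q * s) K x (n + M * i.val) ^ m i)]
    rw [Finset.sum_congr rfl fun n _ => hprod n, ← Finset.mul_sum]
    have hcard : (0 : ℝ) ≤ (Win M ((N + 1) / 2) (yb (be κ s) x 0) X1 X2).card := by positivity
    have hB : (0 : ℝ) ≤ (2 * 2 ^ (K * 4 ^ Q)) ^ Q
        + Real.exp (-(N : ℝ)) * (Real.exp (2 * 4 ^ Q * s) * 2 ^ (2 * 4 ^ Q * K)) ^ Q := by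
      positivity
    calc ((Mh s (16 * 4 ^ Q * s) K)⁻¹) ^ (∑ a : Fin T.card, m (en a)) *
          ∑ n ∈ Win M ((N + 1) / 2) (yb (be κ s) x 0) X1 X2,
            ∏ a : Fin T.card, hh κ s (16 * 4 ^ Q * s) K x (n + M * ((en a : ZMod N)).val) ^
              m (en a)
        ≤ ((Mh s (16 * 4 ^ Q * s) K)⁻¹) ^ (∑ a : Fin T.card, m (en a)) *
          ((Win M ((N + 1) / 2) (yb (be κ s) x 0) X1 X2).card * ((2 * 2 ^ (K * 4 ^ Q)) ^ Q
            + Real.exp (-(N : ℝ)) * (Real.exp (2 * 4 ^ Q * s) * 2 ^ (2 * 4 ^ Q * K)) ^ Q)) :=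
          mul_le_mul_of_nonneg_left h0 (by positivity)
      _ ≤ ((Mh s (16 * 4 ^ Q * s) K)⁻¹) ^ Q *
          ((Win M ((N + 1) / 2) (yb (be κ s) x 0) X1 X2).card * ((2 * 2 ^ (K * 4 ^ Q)) ^ Q
            + Real.exp (-(N : ℝ)) * (Real.exp (2 * 4 ^ Q * s) * 2 ^ (2 * 4 ^ Q * K)) ^ Q)) :=
          mul_le_mul_of_nonneg_right (pow_le_pow_right₀ hinv heQ) (mul_nonneg hcard hB)
      _ = (((Mh s (16 * 4 ^ Q * s) K)⁻¹) ^ Q * ((2 * 2 ^ (K * 4 ^ Q)) ^ Q
            + Real.exp (-(N : ℝ)) * (Real.exp (2 * 4 ^ Q * s) * 2 ^ (2 * 4 ^ Q * K)) ^ Q)) *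
          (Win M ((N + 1) / 2) (yb (be κ s) x 0) X1 X2).card := by ring
      _ ≤ (N : ℝ) ^ (1 / 4 : ℝ) * (Win M ((N + 1) / 2) (yb (be κ s) x 0) X1 X2).card :=
          mul_le_mul_of_nonneg_right hP.h2 hcard
  -- all functions `m` at once
  have hall : ∀ m' : ZMod N → Fin (Q + 1), ∃ x0 : ℕ, (∑ i, (m' i : ℕ) ≤ Q → ∀ x : ℕ, x0 ≤ x →
      ∀ X1 X2 : ℕ, Rg x X1 X2 →
      ∑ n ∈ Win M ((N + 1) / 2) (yb (be κ s) x 0) X1 X2,
        ∏ i, nn κ s (16 * 4 ^ Q * s) K M N x n i ^ (m' i : ℕ)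
      ≤ (N : ℝ) ^ (1 / 4 : ℝ) * (Win M ((N + 1) / 2) (yb (be κ s) x 0) X1 X2).card) := by
    intro m'
    by_cases hm : ∑ i, (m' i : ℕ) ≤ Q
    · obtain ⟨x0, hx0⟩ := hone (fun i => (m' i : ℕ)) hm
      exact ⟨x0, fun _ => hx0⟩
    · exact ⟨0, fun h => absurd h hm⟩
  choose X hX using hall
  refine ⟨∑ m', X m', fun x hx X1 X2 hR m hm => ?_⟩
  have hmi : ∀ i, m i < Q + 1 := fun i => Nat.lt_succ_of_le
    ((Finset.single_le_sum (f := m) (fun _ _ => Nat.zero_le _) (Finset.mem_univ i)).trans hm)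
  have h1 := hX (fun i => ⟨m i, hmi i⟩) hm x
    ((Finset.single_le_sum (f := X) (fun _ _ => Nat.zero_le _) (Finset.mem_univ _)).trans hx)
    X1 X2 hR
  exact h1

end

end Pool.Agent.Lib.MP_3efbeb_nt.ER.SV
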