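import Pool.Agent.Lib.MP_3efbeb_nt.ER.SV.SpecE

/-!
# MP_3efbeb_nt, ER/SV, module MEAN (helper24): the means of the block polynomials
-/

set_option autoImplicit false

namespace Pool.Agent.Lib.MP_3efbeb_nt.ER.SV

open Finset Filter Topology
open scoped Classical

namespace MEANM

variable {q K : ℕ}

/-- the families of degrees -/
noncomputable def G (u : Fin q → Fin K → ℕ) : Finset (Fin q × Fin K → ℕ) :=
  Fintype.piFinset (fun t => range (u t.1 t.2 + 1))

/-- expansion of a product of sums -/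
lemma expand (u : Fin q → Fin K → ℕ) (F : Fin q → Fin K → ℕ → ℝ) :
    ∏ a, ∏ j, ∑ l ∈ range (u a j + 1), F a j l = ∑ l ∈ G u, ∏ a, ∏ j, F a j (l (a, j)) := by
  have h1 : ∏ a, ∏ j, ∑ l ∈ range (u a j + 1), F a j l =
      ∏ t : Fin q × Fin K, ∑ l ∈ range (u t.1 t.2 + 1), F t.1 t.2 l := by
    rw [Fintype.prod_prod_type]
  rw [h1, Finset.prod_univ_sum]
  refine sum_congr rfl fun l _ => ?_
  rw [Fintype.prod_prod_type]

end MEANM

open MEANM in
/-- MEAN. -/
theorem specMEAN (hBM : SpecBM) : SpecMEAN := by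
  intro L B q K M β u c i hL hG hK hβ0 hβ hi hiL hlev
  have hβpos : ∀ j ≤ K, 0 < β j := by
    intro j
    induction j with
    | zero => intro _; exact hβ0
    | succ j ih => intro hj; exact (ih (by omega)).trans (hβ j (by omega))
  -- the bound for every family of degrees, eventually
  have hev : ∀ᶠ x : ℕ in atTop, ∀ l ∈ G u, ∀ X1 X2 : ℕ, Rg x X1 X2 →
      |(∑ n ∈ Win M L (yb β x 0) X1 X2, ∏ a, ∏ j : Fin K,
            ((om (yb β x j) (yb β x (j + 1)) (n + M * i a)).choose (l (a, j)) : ℝ))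
          - (Win M L (yb β x 0) X1 X2).card *
            ∏ a, ∏ j : Fin K, Real.log (β (j + 1) / β j) ^ l (a, j) / ((l (a, j)).factorial : ℝ)|
        ≤ Real.exp (-(B : ℝ)) * (Win M L (yb β x 0) X1 X2).card *
            ∏ a, ∏ j : Fin K, Real.log (β (j + 1) / β j) ^ l (a, j) / ((l (a, j)).factorial : ℝ) := by
    rw [Filter.eventually_all_finset]
    intro l hl
    have hle : ∀ a j, l (a, j) ≤ u a j := by
      intro a j
      unfold G at hl
      rw [Fintype.mem_piFinset] at hl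
      have h1 : l (a, j) ∈ range (u a j + 1) := hl (a, j)
      rw [mem_range] at h1
      omega
    have hlev' : β 0 * lev L B + ∑ a, ∑ j : Fin K, β (j + 1) * (l (a, j) : ℝ) < 1 := by
      refine lt_of_le_of_lt ?_ hlev
      refine add_le_add (le_refl _) (sum_le_sum fun a _ => sum_le_sum fun j _ => ?_)
      have h1 : (l (a, j) : ℝ) ≤ u a j := by exact_mod_cast hle a j
      exact mul_le_mul_of_nonneg_left h1 (hβpos _ j.2).le
    obtain ⟨x0, hx0⟩ := hBM L B q K M β (fun a j => l (a, j)) i hL hG hK hβ0 hβ hi hiL hlev'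
    exact eventually_atTop.2 ⟨x0, hx0⟩
  obtain ⟨x0, hx0⟩ := eventually_atTop.1 hev
  refine ⟨x0, fun x hx X1 X2 hR => ?_⟩
  have h := fun l hl => hx0 x hx l hl X1 X2 hR
  set W : Finset ℕ := Win M L (yb β x 0) X1 X2 with hW
  -- main sum
  have e1 : (∑ n ∈ W, ∏ a, ∏ j : Fin K, pol (u a j) (c a j) (om (yb β x j) (yb β x (j + 1)) (n + M * i a))) =
      ∑ l ∈ G u, (∏ a, ∏ j, c a j (l (a, j))) * ∑ n ∈ W, ∏ a, ∏ j : Fin K,
        ((om (yb β x j) (yb β x (j + 1)) (n + M * i a)).choose (l (a, j)) : ℝ) := by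
    have h1 : ∀ n ∈ W, (∏ a, ∏ j : Fin K, pol (u a j) (c a j) (om (yb β x j) (yb β x (j + 1)) (n + M * i a))) =
        ∑ l ∈ G u, (∏ a, ∏ j, c a j (l (a, j))) * ∏ a, ∏ j : Fin K,
          ((om (yb β x j) (yb β x (j + 1)) (n + M * i a)).choose (l (a, j)) : ℝ) := by
      intro n _
      unfold pol
      rw [expand u (fun a j l => c a j l * ((om (yb β x j) (yb β x (j + 1)) (n + M * i a)).choose l : ℝ))]
      refine sum_congr rfl fun l _ => ?_
      simp only [prod_mul_distrib]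
    rw [sum_congr rfl h1, sum_comm]
    refine sum_congr rfl fun l _ => ?_
    rw [mul_sum]
  have e2 : ∏ a, ∏ j : Fin K, PE (Real.log (β (j + 1) / β j)) (u a j) (c a j) =
      ∑ l ∈ G u, (∏ a, ∏ j, c a j (l (a, j))) *
        ∏ a, ∏ j : Fin K, Real.log (β (j + 1) / β j) ^ l (a, j) / ((l (a, j)).factorial : ℝ) := by
    unfold PE
    rw [expand u (fun a j l => c a j l * Real.log (β (j + 1) / β j) ^ l / (l.factorial : ℝ))]
    refine sum_congr rfl fun l _ => ?_
    simp only [← prod_mul_distrib, mul_div_assoc]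
  have e3 : ∏ a, ∏ j : Fin K, PA (Real.log (β (j + 1) / β j)) (u a j) (c a j) =
      ∑ l ∈ G u, |∏ a, ∏ j, c a j (l (a, j))| *
        ∏ a, ∏ j : Fin K, Real.log (β (j + 1) / β j) ^ l (a, j) / ((l (a, j)).factorial : ℝ) := by
    unfold PA
    rw [expand u (fun a j l => |c a j l| * Real.log (β (j + 1) / β j) ^ l / (l.factorial : ℝ))]
    refine sum_congr rfl fun l _ => ?_
    simp only [Finset.abs_prod, ← prod_mul_distrib, mul_div_assoc]
  rw [e1, e2, e3, mul_sum, mul_sum, ← sum_sub_distrib]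
  refine (abs_sum_le_sum_abs _ _).trans (sum_le_sum fun l hl => ?_)
  have h2 := h l hl
  have e4 : (∏ a, ∏ j, c a j (l (a, j))) * (∑ n ∈ W, ∏ a, ∏ j : Fin K,
        ((om (yb β x j) (yb β x (j + 1)) (n + M * i a)).choose (l (a, j)) : ℝ)) -
      (W.card : ℝ) * ((∏ a, ∏ j, c a j (l (a, j))) *
        ∏ a, ∏ j : Fin K, Real.log (β (j + 1) / β j) ^ l (a, j) / ((l (a, j)).factorial : ℝ)) =
      (∏ a, ∏ j, c a j (l (a, j))) * ((∑ n ∈ W, ∏ a, ∏ j : Fin K,
        ((om (yb β x j) (yb β x (j + 1)) (n + M * i a)).choose (l (a, j)) : ℝ)) - (W.card : ℝ) *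
        ∏ a, ∏ j : Fin K, Real.log (β (j + 1) / β j) ^ l (a, j) / ((l (a, j)).factorial : ℝ)) := by
    ring
  rw [e4, abs_mul]
  refine (mul_le_mul_of_nonneg_left h2 (abs_nonneg _)).trans (le_of_eq ?_)
  ring

end Pool.Agent.Lib.MP_3efbeb_nt.ER.SV
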