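import Pool.Agent.Lib.MP_3efbeb_nt.ER.SV.SpecE

/-!
# MP_3efbeb_nt, ER/SV, module MER (helper15): Mertens for blocks
-/

set_option autoImplicit false

namespace Pool.Agent.Lib.MP_3efbeb_nt.ER.SV

open Finset Filter Topology
open scoped Classical

namespace MERM

/-- `∑_{a < p ≤ b} 1 / p` -/
noncomputable def SS (a b : ℕ) : ℝ := ∑ p ∈ (Ioc a b).filter Nat.Prime, 1 / (p : ℝ)

/-- `[a, b)` against `(a, b]` -/
lemma Sp_SS (a b : ℕ) (ha : 2 ≤ a) (hab : a ≤ b) : |Sp a b - SS a b| ≤ 1 / a := by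
  have ha0 : (0 : ℝ) < a := by exact_mod_cast (by omega : 0 < a)
  have hb0 : (0 : ℝ) < b := by exact_mod_cast (by omega : 0 < b)
  have hba : 1 / (b : ℝ) ≤ 1 / a := one_div_le_one_div_of_le ha0 (by exact_mod_cast hab)
  have hb1 : 0 < 1 / (b : ℝ) := by positivity
  have ha1 : 0 < 1 / (a : ℝ) := by positivity
  unfold Sp SS blk
  rw [sum_filter, sum_filter]
  have e1 : ∑ p ∈ Ico a b, (if p.Prime then 1 / (p : ℝ) else 0) + (if b.Prime then 1 / (b : ℝ) else 0) =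
      ∑ p ∈ Ico a (b + 1), (if p.Prime then 1 / (p : ℝ) else 0) := by
    rw [sum_Ico_succ_top hab]
  have e2 : Ico a (b + 1) = insert a (Ioc a b) := by
    ext n
    simp only [mem_Ico, mem_insert, mem_Ioc]
    omega
  rw [e2, sum_insert (by simp)] at e1
  have h1 : 0 ≤ (if a.Prime then 1 / (a : ℝ) else 0) ∧ (if a.Prime then 1 / (a : ℝ) else 0) ≤ 1 / a := by
    split_ifs <;> constructor <;> linarith
  have h2 : 0 ≤ (if b.Prime then 1 / (b : ℝ) else 0) ∧ (if b.Prime then 1 / (b : ℝ) else 0) ≤ 1 / a := by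
    split_ifs <;> constructor <;> linarith
  rw [abs_le]
  constructor <;> linarith [h1.1, h1.2, h2.1, h2.2]

lemma pow_atTop {b : ℝ} (hb : 0 < b) : Tendsto (fun x : ℕ => (x : ℝ) ^ b) atTop atTop :=
  (tendsto_rpow_atTop hb).comp tendsto_natCast_atTop_atTop

lemma ceil_atTop {b : ℝ} (hb : 0 < b) : Tendsto (fun x : ℕ => ⌈(x : ℝ) ^ b⌉₊) atTop atTop :=
  tendsto_nat_ceil_atTop.comp (pow_atTop hb)

lemma logceil {b : ℝ} (hb : 0 < b) :
    Tendsto (fun x : ℕ => Real.log (⌈(x : ℝ) ^ b⌉₊ : ℝ) / Real.log x) atTop (𝓝 b) := by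
  have h1 : Tendsto (fun x : ℕ => Real.log x) atTop atTop :=
    Real.tendsto_log_atTop.comp tendsto_natCast_atTop_atTop
  have h2 : Tendsto (fun x : ℕ => b + Real.log 2 / Real.log x) atTop (𝓝 b) := by
    have h3 : Tendsto (fun x : ℕ => Real.log 2 / Real.log x) atTop (𝓝 0) := h1.const_div_atTop _
    have h4 := tendsto_const_nhds (x := b) |>.add h3
    rwa [add_zero] at h4
  refine tendsto_of_tendsto_of_tendsto_of_le_of_le' tendsto_const_nhds h2 ?_ ?_
  · filter_upwards [h1.eventually_gt_atTop 0, eventually_ge_atTop 2] with x hx hx2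
    have hx0 : (0 : ℝ) < x := by exact_mod_cast (by omega : 0 < x)
    rw [le_div_iff₀ hx, ← Real.log_rpow hx0]
    exact Real.log_le_log (by positivity) (Nat.le_ceil _)
  · filter_upwards [h1.eventually_gt_atTop 0, eventually_ge_atTop 2, (pow_atTop hb).eventually_ge_atTop 1]
      with x hx hx2 hxb
    have hx0 : (0 : ℝ) < x := by exact_mod_cast (by omega : 0 < x)
    rw [div_le_iff₀ hx, add_mul, div_mul_cancel₀ _ hx.ne', ← Real.log_rpow hx0, ← Real.log_mul (by positivity)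
      (by norm_num)]
    refine Real.log_le_log ?_ ?_
    · exact lt_of_lt_of_le (by positivity) (Nat.le_ceil _)
    · have := Nat.ceil_lt_add_one (show 0 ≤ (x : ℝ) ^ b by positivity)
      linarith

end MERM

open MERM in
/-- MER. -/
theorem specMER (hM : SpecMER2) : SpecMER := by
  intro b1 b2 hb1 hb12
  have hb2 : 0 < b2 := hb1.trans hb12
  obtain ⟨C, hC0, hC⟩ := hM
  have h1 : Tendsto (fun x : ℕ => Real.log x) atTop atTop :=
    Real.tendsto_log_atTop.comp tendsto_natCast_atTop_atTop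
  -- the ratio
  have h2 : Tendsto (fun x : ℕ => Real.log (Real.log (⌈(x : ℝ) ^ b2⌉₊ : ℝ) / Real.log (⌈(x : ℝ) ^ b1⌉₊ : ℝ))) atTop
      (𝓝 (Real.log (b2 / b1))) := by
    have h3 := (logceil hb2).div (logceil hb1) hb1.ne'
    have h4 : Tendsto (fun x : ℕ => Real.log (⌈(x : ℝ) ^ b2⌉₊ : ℝ) / Real.log (⌈(x : ℝ) ^ b1⌉₊ : ℝ)) atTop
        (𝓝 (b2 / b1)) := by
      refine h3.congr' ?_
      filter_upwards [h1.eventually_gt_atTop 0] with x hx
      exact div_div_div_cancel_right₀ hx.ne' _ _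
    exact h4.log (by positivity)
  have h6 : Tendsto (fun x : ℕ => C / Real.log (⌈(x : ℝ) ^ b1⌉₊ : ℝ)) atTop (𝓝 0) :=
    (h1.comp (ceil_atTop hb1)).const_div_atTop _
  have h7 : Tendsto (fun x : ℕ => 1 / ((⌈(x : ℝ) ^ b1⌉₊ : ℕ) : ℝ)) atTop (𝓝 0) :=
    (tendsto_natCast_atTop_atTop.comp (ceil_atTop hb1)).const_div_atTop _
  have h8 : Tendsto (fun x : ℕ => Sp ⌈(x : ℝ) ^ b1⌉₊ ⌈(x : ℝ) ^ b2⌉₊ -
      Real.log (Real.log (⌈(x : ℝ) ^ b2⌉₊ : ℝ) / Real.log (⌈(x : ℝ) ^ b1⌉₊ : ℝ))) atTop (𝓝 0) := by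
    have h9 := h6.add h7
    rw [add_zero] at h9
    refine squeeze_zero_norm' ?_ h9
    filter_upwards [(ceil_atTop hb1).eventually_ge_atTop 2, eventually_ge_atTop 1] with x k2 k1
    have hx1 : (1 : ℝ) ≤ x := by exact_mod_cast k1
    have hab : ⌈(x : ℝ) ^ b1⌉₊ ≤ ⌈(x : ℝ) ^ b2⌉₊ := Nat.ceil_le_ceil (Real.rpow_le_rpow_of_exponent_le hx1 hb12.le)
    have m1 := hC _ _ k2 hab
    have m2 := Sp_SS _ _ k2 hab
    unfold SS at m2
    rw [Real.norm_eq_abs]
    rw [abs_le] at *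
    constructor <;> linarith [m1.1, m1.2, m2.1, m2.2]
  have h9 := h8.add h2
  rw [zero_add] at h9
  exact h9.congr fun x => by ring

end Pool.Agent.Lib.MP_3efbeb_nt.ER.SV
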