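import Pool.Agent.Lib.MP_3efbeb_nt.ER.SV.SpecE
import Pool.Agent.Lib.MP_1446ad_nt.SM.MRA
import Pool.Agent.Lib.MP_1446ad_nt.SM.MRB

/-!
# MP_3efbeb_nt, ER/SV, module MER2 (helper15): Mertens, two-sided
-/

set_option autoImplicit false

namespace Pool.Agent.Lib.MP_3efbeb_nt.ER.SV

open Finset Filter Topology
open scoped Classical

namespace MER2M

open Pool.Agent.Lib.MP_1446ad_nt.SM (specMRA)
open Pool.Agent.Lib.MP_1446ad_nt.SM.MRBM (SS)
open Pool.Agent.Lib.MP_1446ad_nt.SM.MRBM renaming AA → AL

lemma lowmain (C : ℝ) (hC : ∀ N : ℕ, 1 ≤ N → |AL N - Real.log N| ≤ C) (a b : ℕ) (ha : 2 ≤ a)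
    (hab : a ≤ b) :
    Real.log (Real.log b / Real.log a) + (AL b - Real.log b) / Real.log b -
      (C + 1) * (1 / Real.log a - 1 / Real.log b) - (AL a - Real.log a) / Real.log a ≤ SS a b := by
  have hla : 0 < Real.log a := Real.log_pos (by exact_mod_cast (by omega : 1 < a))
  induction b, hab using Nat.le_induction with
  | base =>
    unfold SS
    rw [div_self hla.ne']
    simp
  | succ b hb ih =>
    rw [Pool.Agent.Lib.MP_1446ad_nt.SM.MRBM.step a b ha hb]
    have hlb : 0 < Real.log b := Real.log_pos (by exact_mod_cast (by omega : 1 < b))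
    have hlb1 : 0 < Real.log ((b + 1 : ℕ) : ℝ) :=
      Real.log_pos (by exact_mod_cast (by omega : 1 < b + 1))
    have hb0 : (0 : ℝ) < b := by exact_mod_cast (by omega : 0 < b)
    have hmono : Real.log b ≤ Real.log ((b + 1 : ℕ) : ℝ) :=
      Real.log_le_log hb0 (by push_cast; linarith)
    have hstep : Real.log ((b + 1 : ℕ) : ℝ) - Real.log b ≤ 1 := by
      rw [← Real.log_div (by positivity) (by positivity)]
      have h1 := Real.log_le_sub_one_of_pos (show 0 < (((b + 1 : ℕ) : ℝ) / b) by positivity)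
      have h2 : (((b + 1 : ℕ) : ℝ) / b) - 1 = 1 / b := by
        push_cast
        field_simp
        ring
      have h3 : 1 / (b : ℝ) ≤ 1 := by
        rw [div_le_one hb0]
        exact_mod_cast (by omega : 1 ≤ b)
      linarith
    obtain ⟨x, hx⟩ : ∃ x, x = Real.log (b : ℝ) := ⟨_, rfl⟩
    obtain ⟨y, hy⟩ : ∃ y, y = Real.log ((b + 1 : ℕ) : ℝ) := ⟨_, rfl⟩
    obtain ⟨z, hz⟩ : ∃ z, z = Real.log (a : ℝ) := ⟨_, rfl⟩
    have hR := hC b (by omega)
    rw [← hx] at hR hlb hmono ih hstep
    rw [← hy] at hlb1 hmono hstep ⊢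
    rw [← hz] at hla ih ⊢
    have h3 : 0 ≤ 1 / x - 1 / y := by
      rw [sub_nonneg]
      exact one_div_le_one_div_of_le hlb hmono
    -- the logarithm
    have h1 : Real.log (y / x) ≤ (y - x) / y + (1 / x - 1 / y) := by
      have h2 := Real.log_le_sub_one_of_pos (div_pos hlb1 hlb)
      have h4 : y / x - 1 = (y - x) / y + (y - x) * (1 / x - 1 / y) := by
        field_simp
        ring
      have h5 : (y - x) * (1 / x - 1 / y) ≤ 1 * (1 / x - 1 / y) := mul_le_mul_of_nonneg_right hstep h3
      linarith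
    have h2 : Real.log (y / z) = Real.log (x / z) + Real.log (y / x) := by
      rw [← Real.log_mul (div_pos hlb hla).ne' (div_pos hlb1 hlb).ne']
      congr 1
      field_simp
    have h4 : - (C * (1 / x - 1 / y)) ≤ (AL b - x) * (1 / x - 1 / y) := by
      have := mul_le_mul_of_nonneg_right ((abs_le.1 hR).1) h3
      linarith
    have h5 : (AL (b + 1) - AL b) / y = (AL (b + 1) - y) / y - (AL b - x) / x +
        (AL b - x) * (1 / x - 1 / y) + (y - x) / y := by
      field_simp
      ring
    have h6 : (C + 1) * (1 / z - 1 / y) = (C + 1) * (1 / z - 1 / x) + C * (1 / x - 1 / y) + (1 / x - 1 / y) := by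
      ring
    rw [h5, h2, h6]
    linarith

/-- two-sided bound on `(a, b]` -/
lemma two : ∃ C : ℝ, 0 ≤ C ∧ ∀ a b : ℕ, 2 ≤ a → a ≤ b →
    |SS a b - Real.log (Real.log b / Real.log a)| ≤ C / Real.log a := by
  obtain ⟨C, hC0, hC⟩ := specMRA
  refine ⟨2 * C + 1, by positivity, ?_⟩
  intro a b ha hab
  have h0 := Pool.Agent.Lib.MP_1446ad_nt.SM.MRBM.main C hC a b ha hab
  have h1 := lowmain C hC a b ha hab
  have hla : 0 < Real.log a := Real.log_pos (by exact_mod_cast (by omega : 1 < a))
  have hlb : 0 < Real.log b := Real.log_pos (by exact_mod_cast (by omega : 1 < b))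
  have hRb : |AL b - Real.log b| ≤ C := hC b (by omega)
  have hRa : |AL a - Real.log a| ≤ C := hC a (by omega)
  have h2 : (AL b - Real.log b) / Real.log b ≤ C / Real.log b :=
    div_le_div_of_nonneg_right (abs_le.1 hRb).2 hlb.le
  have h2' : -C / Real.log b ≤ (AL b - Real.log b) / Real.log b :=
    div_le_div_of_nonneg_right (abs_le.1 hRb).1 hlb.le
  have h3 : -C / Real.log a ≤ (AL a - Real.log a) / Real.log a :=
    div_le_div_of_nonneg_right (abs_le.1 hRa).1 hla.le
  have h3' : (AL a - Real.log a) / Real.log a ≤ C / Real.log a :=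
    div_le_div_of_nonneg_right (abs_le.1 hRa).2 hla.le
  have h4 : C * (1 / Real.log a - 1 / Real.log b) = C / Real.log a - C / Real.log b := by ring
  have h4' : (C + 1) * (1 / Real.log a - 1 / Real.log b) =
      C / Real.log a - C / Real.log b + (1 / Real.log a - 1 / Real.log b) := by ring
  have h5 : (2 * C + 1) / Real.log a = C / Real.log a + C / Real.log a + 1 / Real.log a := by ring
  have h6 : -C / Real.log a = -(C / Real.log a) := by ring
  have h6' : -C / Real.log b = -(C / Real.log b) := by ring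
  have h7 : 0 < 1 / Real.log b := by positivity
  have h8 : 0 < 1 / Real.log a := by positivity
  have h9 : 0 ≤ C / Real.log a := by positivity
  have h10 : 0 ≤ C / Real.log b := by positivity
  rw [h4] at h0
  rw [h4'] at h1
  rw [h6] at h3
  rw [h6'] at h2'
  rw [h5, abs_le]
  constructor <;> linarith

end MER2M

/-- MER2. -/
theorem specMER2 : SpecMER2 := MER2M.two

end Pool.Agent.Lib.MP_3efbeb_nt.ER.SV
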