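import Pool.Agent.Lib.MP_3efbeb_nt.ER.SV.SpecM

/-! # MP_3efbeb_nt, ER/SV, module MHB (helper32): bounds for the mean of the majorant -/

set_option autoImplicit false

namespace Pool.Agent.Lib.MP_3efbeb_nt.ER.SV

namespace MHBM

open Finset

theorem sum_le (K : ℕ) : ∑ j ∈ range K, (4 : ℝ) / 2 ^ (K - j) ≤ 4 * (1 - 1 / 2 ^ K) := by
  induction K with
  | zero => simp
  | succ K ih =>
    rw [Finset.sum_range_succ']
    have h1 : ∀ j, K + 1 - (j + 1) = K - j := fun j => by omega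
    simp only [h1]
    have h2 : (4 : ℝ) / 2 ^ (K + 1 - 0) = 2 / 2 ^ K := by
      rw [Nat.sub_zero, pow_succ]
      field_simp
      norm_num
    rw [h2]
    have h3 : (1 : ℝ) / 2 ^ (K + 1) = (1 / 2 ^ K) / 2 := by
      rw [pow_succ]
      field_simp
    rw [h3]
    have h4 : (2 : ℝ) / 2 ^ K = 2 * (1 / 2 ^ K) := by ring
    rw [h4]
    linarith

theorem Ps_nonneg (s : ℕ) : 0 ≤ Ps s := by
  unfold Ps
  positivity

end MHBM

open MHBM Finset in
theorem specMHB (hPM0 : SpecPM0) (hPMT : SpecPMT) : SpecMHB := by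
  intro Q s J K hQ hs hJ hJ2
  obtain ⟨⟨a1, a2⟩, -⟩ := hPM0 Q s J hQ hs hJ hJ2
  have hP := Ps_nonneg s
  unfold Mh
  rw [Finset.prod_range_succ']
  have h0 : PE (la s 0) (dg s J K 0) (cc s J K 0) = PE s (s + J) (cb s J) := by
    simp [la, dg, cc]
  have h1 : ∀ j ∈ range K, PE (la s (j + 1)) (dg s J K (j + 1)) (cc s J K (j + 1)) =
      PE (Real.log 2) (2 * (K - j)) (cb 0 (2 * (K - j))) := by
    intro j _
    have : K + 1 - (j + 1) = K - j := by omega
    simp [la, dg, cc, this]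
  rw [h0, Finset.prod_congr rfl h1]
  have hlow : (1 / 2 : ℝ) ^ K ≤
      ∏ j ∈ range K, PE (Real.log 2) (2 * (K - j)) (cb 0 (2 * (K - j))) := by
    have : (1 / 2 : ℝ) ^ K = ∏ _j ∈ range K, (1 / 2 : ℝ) := by
      rw [Finset.prod_const, Finset.card_range]
    rw [this]
    refine Finset.prod_le_prod (fun _ _ => by norm_num) fun j hj => ?_
    exact (hPMT (K - j) (by rw [mem_range] at hj; omega)).1.1
  have hup : ∏ j ∈ range K, PE (Real.log 2) (2 * (K - j)) (cb 0 (2 * (K - j))) ≤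
      (1 / 2 : ℝ) ^ K * Real.exp 4 := by
    have h2 : ∏ j ∈ range K, PE (Real.log 2) (2 * (K - j)) (cb 0 (2 * (K - j))) ≤
        ∏ j ∈ range K, (1 / 2 * Real.exp (4 / 2 ^ (K - j))) := by
      refine Finset.prod_le_prod (fun j hj => ?_) fun j hj => ?_
      · exact le_trans (by norm_num) (hPMT (K - j) (by rw [mem_range] at hj; omega)).1.1
      · exact (hPMT (K - j) (by rw [mem_range] at hj; omega)).1.2
    refine h2.trans ?_
    rw [Finset.prod_mul_distrib, Finset.prod_const, Finset.card_range, ← Real.exp_sum]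
    refine mul_le_mul_of_nonneg_left (Real.exp_le_exp.2 ((sum_le K).trans ?_)) (by positivity)
    have : (0 : ℝ) ≤ 1 / 2 ^ K := by positivity
    linarith
  have hl0 : (0 : ℝ) ≤ (1 / 2 : ℝ) ^ K := by positivity
  constructor
  · rw [mul_comm]
    exact mul_le_mul hlow a1 hP (hl0.trans hlow)
  · have : 2 * Real.exp 4 * Ps s * (1 / 2) ^ K = ((1 / 2 : ℝ) ^ K * Real.exp 4) * (2 * Ps s) := by
      ring
    rw [this]
    exact mul_le_mul hup a2 (hP.trans a1) (by positivity)

end Pool.Agent.Lib.MP_3efbeb_nt.ER.SV
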