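import Pool.Agent.Lib.MP_3efbeb_nt.ER.SV.SpecP

/-!
# MP_3efbeb_nt, ER/SV, module REC (helper15): the sums of the reciprocals
-/

set_option autoImplicit false

namespace Pool.Agent.Lib.MP_3efbeb_nt.ER.P3

open Finset Filter Topology
open scoped Classical
open Pool.Agent.Lib.MP_3efbeb_nt.DL (PR Rgh W1 W2 VV VQ cq Good Del Lam)

namespace RECM

lemma logx_atTop : Tendsto (fun x : ℕ => Real.log x) atTop atTop :=
  Real.tendsto_log_atTop.comp tendsto_natCast_atTop_atTop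

/-- if `log u / log x` tends to `α > 0`, then `u` tends to infinity -/
lemma log_atTop {u : ℕ → ℕ} {α : ℝ} (hα : 0 < α)
    (hu : Tendsto (fun x : ℕ => Real.log (u x) / Real.log x) atTop (𝓝 α)) :
    Tendsto (fun x : ℕ => Real.log (u x)) atTop atTop := by
  have h1 : Tendsto (fun x : ℕ => α / 2 * Real.log x) atTop atTop :=
    logx_atTop.const_mul_atTop (by positivity)
  refine tendsto_atTop_mono' _ ?_ h1
  filter_upwards [hu.eventually_const_lt (show α / 2 < α by linarith), logx_atTop.eventually_gt_atTop 0] with x hx hx0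
  rw [lt_div_iff₀ hx0] at hx
  exact hx.le

/-- the sum of `1/p` over `(u, v]` -/
lemma gen (hM : SV.SpecMER2) {u v : ℕ → ℕ} {α γ : ℝ} (hα : 0 < α) (hαγ : α < γ)
    (hu : Tendsto (fun x : ℕ => Real.log (u x) / Real.log x) atTop (𝓝 α))
    (hv : Tendsto (fun x : ℕ => Real.log (v x) / Real.log x) atTop (𝓝 γ)) :
    Tendsto (fun x : ℕ => ∑ p ∈ (Ioc (u x) (v x)).filter Nat.Prime, 1 / (p : ℝ)) atTop (𝓝 (Real.log (γ / α))) := by
  obtain ⟨C, hC0, hC⟩ := hM
  have hγ : 0 < γ := hα.trans hαγ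
  have hlu := log_atTop hα hu
  have hlv := log_atTop hγ hv
  have h2 : Tendsto (fun x : ℕ => Real.log (Real.log (v x) / Real.log (u x))) atTop (𝓝 (Real.log (γ / α))) := by
    have h3 := hv.div hu hα.ne'
    have h4 : Tendsto (fun x : ℕ => Real.log (v x) / Real.log (u x)) atTop (𝓝 (γ / α)) := by
      refine h3.congr' ?_
      filter_upwards [logx_atTop.eventually_gt_atTop 0] with x hx
      exact div_div_div_cancel_right₀ hx.ne' _ _
    exact h4.log (by positivity)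
  have h6 : Tendsto (fun x : ℕ => C / Real.log (u x)) atTop (𝓝 0) := hlu.const_div_atTop _
  have h8 : Tendsto (fun x : ℕ => (∑ p ∈ (Ioc (u x) (v x)).filter Nat.Prime, 1 / (p : ℝ)) -
      Real.log (Real.log (v x) / Real.log (u x))) atTop (𝓝 0) := by
    refine squeeze_zero_norm' ?_ h6
    have hlt : ∀ᶠ x : ℕ in atTop, Real.log (u x) < Real.log (v x) := by
      obtain ⟨δ, hδ1, hδ2⟩ := exists_between hαγ
      filter_upwards [hu.eventually_lt_const hδ1, hv.eventually_const_lt hδ2, logx_atTop.eventually_gt_atTop 0] with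
        x k1 k2 k3
      have := k1.trans k2
      rwa [div_lt_div_iff_of_pos_right k3] at this
    filter_upwards [hlt, hlu.eventually_ge_atTop (Real.log 2)] with x k1 k2
    have hl2 : 0 < Real.log 2 := Real.log_pos (by norm_num)
    have hu0 : 0 < (u x : ℝ) := by
      rcases Nat.eq_zero_or_pos (u x) with h | h
      · rw [h] at k2
        simp at k2
        linarith
      · exact_mod_cast h
    have hv0 : 0 < (v x : ℝ) := by
      rcases Nat.eq_zero_or_pos (v x) with h | h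
      · rw [h] at k1
        simp at k1
        linarith
      · exact_mod_cast h
    have hu2 : 2 ≤ u x := by
      have h9 : (2 : ℝ) ≤ u x := (Real.log_le_log_iff (by norm_num) hu0).1 k2
      exact_mod_cast h9
    have huv : u x ≤ v x := by
      have h9 : (u x : ℝ) ≤ v x := (Real.log_le_log_iff hu0 hv0).1 k1.le
      exact_mod_cast h9
    rw [Real.norm_eq_abs]
    exact hC _ _ hu2 huv
  have h9 := h8.add h2
  rw [zero_add] at h9
  exact h9.congr fun x => by ring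

lemma pow_atTop {b : ℝ} (hb : 0 < b) : Tendsto (fun x : ℕ => (x : ℝ) ^ b) atTop atTop :=
  (tendsto_rpow_atTop hb).comp tendsto_natCast_atTop_atTop

/-- a function between `c x^b` and `C x^b` -/
lemma logsq {w : ℕ → ℝ} {b c C : ℝ} (hc : 0 < c) (h1 : ∀ᶠ x : ℕ in atTop, c * (x : ℝ) ^ b ≤ w x)
    (h2 : ∀ᶠ x : ℕ in atTop, w x ≤ C * (x : ℝ) ^ b) :
    Tendsto (fun x : ℕ => Real.log (w x) / Real.log x) atTop (𝓝 b) := by
  have hC : 0 < C := by
    obtain ⟨x, k1, k2, k3⟩ := (h1.and (h2.and (eventually_ge_atTop 1))).exists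
    have hx0 : (0 : ℝ) < x := by exact_mod_cast k3
    have h3 : 0 < (x : ℝ) ^ b := by positivity
    have h4 := k1.trans k2
    have h5 := le_of_mul_le_mul_right h4 h3
    linarith
  have e : ∀ a : ℝ, Tendsto (fun x : ℕ => b + Real.log a / Real.log x) atTop (𝓝 b) := by
    intro a
    have h3 : Tendsto (fun x : ℕ => Real.log a / Real.log x) atTop (𝓝 0) := logx_atTop.const_div_atTop _
    have h4 := tendsto_const_nhds (x := b) |>.add h3
    rwa [add_zero] at h4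
  refine tendsto_of_tendsto_of_tendsto_of_le_of_le' (e c) (e C) ?_ ?_
  · filter_upwards [logx_atTop.eventually_gt_atTop 0, eventually_ge_atTop 2, h1] with x hx hx2 k1
    have hx0 : (0 : ℝ) < x := by exact_mod_cast (by omega : 0 < x)
    rw [le_div_iff₀ hx, add_mul, div_mul_cancel₀ _ hx.ne', ← Real.log_rpow hx0, add_comm,
      ← Real.log_mul hc.ne' (by positivity)]
    exact Real.log_le_log (by positivity) k1
  · filter_upwards [logx_atTop.eventually_gt_atTop 0, eventually_ge_atTop 2, h1, h2] with x hx hx2 k1 k2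
    have hx0 : (0 : ℝ) < x := by exact_mod_cast (by omega : 0 < x)
    rw [div_le_iff₀ hx, add_mul, div_mul_cancel₀ _ hx.ne', ← Real.log_rpow hx0, add_comm,
      ← Real.log_mul hC.ne' (by positivity)]
    refine Real.log_le_log (lt_of_lt_of_le (by positivity) k1) k2

/-- the ceiling -/
lemma ceil_bd {b : ℝ} (hb : 0 < b) : ∀ᶠ x : ℕ in atTop, 2 ≤ (x : ℝ) ^ b ∧ (x : ℝ) ^ b ≤ (⌈(x : ℝ) ^ b⌉₊ : ℝ) ∧
    (⌈(x : ℝ) ^ b⌉₊ : ℝ) ≤ (x : ℝ) ^ b + 1 := by
  filter_upwards [(pow_atTop hb).eventually_ge_atTop 2] with x hx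
  exact ⟨hx, Nat.le_ceil _, (Nat.ceil_lt_add_one (by linarith)).le⟩

/-- `2^J` is between `z` and `2z` -/
lemma JJ_bd {β0 : ℝ} (h0 : 0 < β0) : ∀ᶠ x : ℕ in atTop, 1 ≤ JJ β0 x ∧ ⌈(x : ℝ) ^ β0⌉₊ ≤ 2 ^ JJ β0 x ∧
    (x : ℝ) ^ β0 ≤ 2 ^ JJ β0 x ∧ (2 : ℝ) ^ JJ β0 x ≤ 4 * (x : ℝ) ^ β0 := by
  filter_upwards [ceil_bd h0] with x hx
  obtain ⟨k1, k2, k3⟩ := hx
  have hz : 2 ≤ ⌈(x : ℝ) ^ β0⌉₊ := by
    have : (2 : ℝ) ≤ (⌈(x : ℝ) ^ β0⌉₊ : ℝ) := k1.trans k2
    exact_mod_cast this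
  have h1 : 1 ≤ JJ β0 x := Nat.clog_pos (by norm_num) hz
  have h2 : ⌈(x : ℝ) ^ β0⌉₊ ≤ 2 ^ JJ β0 x := Nat.le_pow_clog (by norm_num) _
  have h3 : 2 ^ (JJ β0 x - 1) < ⌈(x : ℝ) ^ β0⌉₊ := by
    have := Nat.pow_pred_clog_lt_self (b := 2) (by norm_num) (x := ⌈(x : ℝ) ^ β0⌉₊) (by omega)
    exact this
  refine ⟨h1, h2, ?_, ?_⟩
  · refine k2.trans ?_
    exact_mod_cast h2
  · have h4 : (2 : ℝ) ^ JJ β0 x = 2 * 2 ^ (JJ β0 x - 1) := by
      rw [← pow_succ']
      congr 1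
      omega
    have h5 : (2 : ℝ) ^ (JJ β0 x - 1) ≤ (⌈(x : ℝ) ^ β0⌉₊ : ℝ) := by exact_mod_cast h3.le
    rw [h4]
    linarith

end RECM

open RECM in
/-- REC. -/
theorem specREC (hM : SV.SpecMER2) : SpecREC := by
  intro β0 β1 h0 h01
  have h1 : 0 < β1 := by linarith
  have hJ : Tendsto (fun x : ℕ => Real.log ((2 ^ JJ β0 x : ℕ) : ℝ) / Real.log x) atTop (𝓝 β0) := by
    refine logsq (c := 1) (C := 4) (by norm_num) ?_ ?_
    · filter_upwards [JJ_bd h0] with x hx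
      push_cast
      linarith [hx.2.2.1]
    · filter_upwards [JJ_bd h0] with x hx
      push_cast
      exact hx.2.2.2
  have hJ3 : Tendsto (fun x : ℕ => Real.log ((2 ^ (3 * JJ β0 x) : ℕ) : ℝ) / Real.log x) atTop (𝓝 (3 * β0)) := by
    have h2 := hJ.const_mul 3
    refine h2.congr fun x => ?_
    push_cast
    rw [Real.log_pow, Real.log_pow]
    push_cast
    ring
  have hT : Tendsto (fun x : ℕ => Real.log ((⌈(x : ℝ) ^ β1⌉₊ - 1 : ℕ) : ℝ) / Real.log x) atTop (𝓝 β1) := by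
    refine logsq (c := 1 / 2) (C := 1) (by norm_num) ?_ ?_
    · filter_upwards [ceil_bd h1] with x hx
      have h2 : 1 ≤ ⌈(x : ℝ) ^ β1⌉₊ := by
        have : (1 : ℝ) ≤ (⌈(x : ℝ) ^ β1⌉₊ : ℝ) := by linarith [hx.1, hx.2.1]
        exact_mod_cast this
      push_cast [h2]
      linarith [hx.1, hx.2.1]
    · filter_upwards [ceil_bd h1] with x hx
      have h2 : 1 ≤ ⌈(x : ℝ) ^ β1⌉₊ := by
        have : (1 : ℝ) ≤ (⌈(x : ℝ) ^ β1⌉₊ : ℝ) := by linarith [hx.1, hx.2.1]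
        exact_mod_cast this
      push_cast [h2]
      linarith [hx.2.2]
  constructor
  · have h2 := gen hM h0 (by linarith : β0 < 3 * β0) hJ hJ3
    have e : 3 * β0 / β0 = 3 := by field_simp
    rw [e] at h2
    exact h2
  · have h2 := gen hM (by linarith : 0 < 3 * β0) h01 hJ3 hT
    refine h2.congr' ?_
    filter_upwards [ceil_bd h1] with x hx
    have h2 : 1 ≤ ⌈(x : ℝ) ^ β1⌉₊ := by
      have : (1 : ℝ) ≤ (⌈(x : ℝ) ^ β1⌉₊ : ℝ) := by linarith [hx.1, hx.2.1]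
      exact_mod_cast this
    unfold SV.Sp SV.blk
    congr 2
    ext p
    simp only [mem_Ioc, mem_Ico]
    omega

end Pool.Agent.Lib.MP_3efbeb_nt.ER.P3
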