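import Pool.Agent.Lib.MP_3efbeb_nt.ER.SV.SpecP
import Pool.Agent.Lib.MP_3efbeb_nt.ER.SV.REC

/-!
# MP_3efbeb_nt, ER/SV, module MT (helper15): the number of the pairs
-/

set_option autoImplicit false

namespace Pool.Agent.Lib.MP_3efbeb_nt.ER.P3

open Finset Filter Topology
open scoped Classical
open Pool.Agent.Lib.MP_3efbeb_nt.DL (PR Rgh W1 W2 VV VQ cq Good Del Lam)

namespace MTM

open RECM

/-- the inverse of `D` modulo `M` -/
lemma inv_exists {M D : ℕ} (hM : 1 ≤ M) (h : Nat.Coprime D M) :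
    ∃ b : ℕ, Nat.Coprime b M ∧ ∀ P : ℕ, P % M = b % M ↔ (D * P) % M = 1 % M := by
  have : NeZero M := ⟨by omega⟩
  refine ⟨((ZMod.unitOfCoprime D h)⁻¹ : (ZMod M)ˣ).val.val, ?_, fun P => ?_⟩
  · exact ZMod.val_coe_unit_coprime _
  · have e1 : P % M = ((ZMod.unitOfCoprime D h)⁻¹ : (ZMod M)ˣ).val.val % M ↔
        (P : ZMod M) = (((ZMod.unitOfCoprime D h)⁻¹ : (ZMod M)ˣ).val.val : ℕ) :=
      (ZMod.natCast_eq_natCast_iff' _ _ _).symm
    have e2 : (D * P) % M = 1 % M ↔ ((D * P : ℕ) : ZMod M) = (1 : ℕ) :=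
      (ZMod.natCast_eq_natCast_iff' _ _ _).symm
    rw [e1, e2, ZMod.natCast_zmod_val]
    push_cast
    have e3 : (D : ZMod M) = (ZMod.unitOfCoprime D h : ZMod M) := (ZMod.coe_unitOfCoprime D h).symm
    rw [e3]
    constructor
    · intro h1
      rw [h1]
      exact Units.mul_inv _
    · intro h1
      calc (P : ZMod M) = ((ZMod.unitOfCoprime D h)⁻¹ : (ZMod M)ˣ) * (ZMod.unitOfCoprime D h * (P : ZMod M)) := by
            rw [Units.inv_mul_cancel_left]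
        _ = _ := by rw [h1, mul_one]

/-- the count for one `D` -/
lemma one {M D X1 X2 u0 x : ℕ} {ε : ℝ} (hM : 1 ≤ M) (hε : 0 < ε) (hε1 : ε ≤ 1)
    (hP : ∀ u v : ℕ, u0 ≤ u → 3 * u ≤ 2 * v → v ≤ 4 * u → ∀ b : ℕ, Nat.Coprime b M →
      (1 - ε) * (((v : ℝ) - u) / ((M.totient : ℝ) * Real.log v)) ≤
        (((Ioc u v).filter (fun P => P.Prime ∧ P % M = b % M)).card : ℝ))
    (hD : 1 ≤ D) (hDM : Nat.Coprime D M) (hu : u0 ≤ X1 / D) (hu1 : 1 ≤ X1 / D) (h32 : 3 * X1 + 2 * D ≤ 2 * X2)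
    (h4 : X2 + 4 * D ≤ 4 * X1) (hx : X2 ≤ x) (hsm : (D : ℝ) ≤ ε * (x / 2) - ((x : ℝ) / 2 - (X2 - X1))) :
    (1 - ε) ^ 2 * ((x : ℝ) / 2 / (M.totient * Real.log x)) * (1 / (D : ℝ)) ≤
      (((Ioc (X1 / D) (X2 / D)).filter (fun P => P.Prime ∧ (D * P) % M = 1 % M)).card : ℝ) := by
  obtain ⟨b, hb, hbP⟩ := inv_exists hM hDM
  have hDR : (0 : ℝ) < D := by exact_mod_cast hD
  set u := X1 / D with hu'
  set v := X2 / D with hv'
  have hdu : D * u ≤ X1 := by rw [mul_comm]; exact Nat.div_mul_le_self _ _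
  have hdu' : X1 < D * (u + 1) := by
    exact Nat.lt_mul_div_succ _ hD
  have hdv : D * v ≤ X2 := by rw [mul_comm]; exact Nat.div_mul_le_self _ _
  have hdv' : X2 < D * (v + 1) := by
    exact Nat.lt_mul_div_succ _ hD
  have e32 : 3 * u ≤ 2 * v := by
    have h1 : D * (3 * u) < D * (2 * v + 1) := by nlinarith
    have := Nat.lt_of_mul_lt_mul_left h1
    omega
  have e4 : v ≤ 4 * u := by
    have h1 : D * v < D * (4 * u + 1) := by nlinarith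
    have := Nat.lt_of_mul_lt_mul_left h1
    omega
  have h1 := hP u v hu e32 e4 b hb
  have e5 : (Ioc u v).filter (fun P => P.Prime ∧ P % M = b % M) =
      (Ioc u v).filter (fun P => P.Prime ∧ (D * P) % M = 1 % M) := by
    refine Finset.filter_congr fun P _ => ?_
    rw [hbP]
  rw [e5] at h1
  refine le_trans ?_ h1
  have hv2 : 2 ≤ v := by omega
  have hvx : v ≤ x := by
    have h2 : v ≤ X2 := Nat.div_le_self _ _
    omega
  have hlv : 0 < Real.log v := Real.log_pos (by exact_mod_cast (by omega : 1 < v))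
  have hlx : Real.log v ≤ Real.log x := Real.log_le_log (by exact_mod_cast (by omega : 0 < v)) (by exact_mod_cast hvx)
  have hφ : (0 : ℝ) < M.totient := by exact_mod_cast Nat.totient_pos.2 (by omega)
  have huv : (0 : ℝ) ≤ (v : ℝ) - u := by
    have : (u : ℝ) ≤ v := by exact_mod_cast (by omega : u ≤ v)
    linarith
  have h6 : ((v : ℝ) - u) / ((M.totient : ℝ) * Real.log x) ≤ ((v : ℝ) - u) / ((M.totient : ℝ) * Real.log v) := by
    gcongr
  have h7 : (1 - ε) * ((x : ℝ) / 2 / D) ≤ (v : ℝ) - u := by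
    have k1 : (D : ℝ) * u ≤ X1 := by exact_mod_cast hdu
    have k2 : (X2 : ℝ) < D * (v + 1) := by exact_mod_cast hdv'
    rw [← mul_div_assoc, div_le_iff₀ hDR]
    nlinarith
  have hlx0 : 0 < Real.log x := hlv.trans_le hlx
  calc (1 - ε) ^ 2 * ((x : ℝ) / 2 / (M.totient * Real.log x)) * (1 / (D : ℝ))
      = (1 - ε) * (((1 - ε) * ((x : ℝ) / 2 / D)) / (M.totient * Real.log x)) := by
        field_simp
    _ ≤ (1 - ε) * (((v : ℝ) - u) / ((M.totient : ℝ) * Real.log x)) := by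
        refine mul_le_mul_of_nonneg_left ?_ (by linarith)
        gcongr
    _ ≤ _ := mul_le_mul_of_nonneg_left h6 (by linarith)

/-- the exponents: `3 β0 < β1`, `3 β0 + (s-1) β1 < κ` -/
lemma exps {κ : ℝ} {s : ℕ} (hκ : 0 < κ) (hs : 2 ≤ s) : 0 < SV.be κ s 0 ∧ 0 < SV.be κ s 1 ∧ 3 * SV.be κ s 0 < SV.be κ s 1 ∧
    3 * SV.be κ s 0 + (s - 1 : ℕ) * SV.be κ s 1 < κ ∧ SV.be κ s 1 ≤ κ ∧
    Real.log (SV.be κ s 1 / (3 * SV.be κ s 0)) = s - Real.log 3 ∧ 0 < (s : ℝ) - Real.log 3 := by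
  have hs0 : (0 : ℝ) < s := by exact_mod_cast (by omega : 0 < s)
  have hs2 : (2 : ℝ) ≤ s := by exact_mod_cast hs
  have e0 : SV.be κ s 0 = κ / s * Real.exp (-(s : ℝ)) := by simp [SV.be]
  have e1 : SV.be κ s 1 = κ / s := by simp [SV.be]
  have hks : 0 < κ / s := by positivity
  have hexp : 3 * Real.exp (-(s : ℝ)) < 1 := by
    have h1 : (3 : ℝ) < Real.exp s := by
      have := Real.add_one_lt_exp (show (s : ℝ) ≠ 0 by linarith)
      linarith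
    rw [Real.exp_neg, ← div_eq_mul_inv, div_lt_one (Real.exp_pos _)]
    exact h1
  have h3 : 3 * SV.be κ s 0 < SV.be κ s 1 := by
    rw [e0, e1]
    nlinarith
  refine ⟨by rw [e0]; positivity, by rw [e1]; positivity, h3, ?_, ?_, ?_, ?_⟩
  · have h4 : (s - 1 : ℕ) * SV.be κ s 1 = κ - SV.be κ s 1 := by
      rw [e1, Nat.cast_sub (by omega)]
      push_cast
      field_simp
    rw [h4]
    linarith
  · rw [e1]
    exact div_le_self hκ.le (by linarith)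
  · rw [e0, e1]
    have h5 : κ / s / (3 * (κ / s * Real.exp (-(s : ℝ)))) = Real.exp s / 3 := by
      rw [Real.exp_neg]
      field_simp
    rw [h5, Real.log_div (Real.exp_pos _).ne' (by norm_num), Real.log_exp]
  · have := Real.log_two_lt_d9
    have h6 : Real.log 3 ≤ 3 - 1 := Real.log_le_sub_one_of_pos (by norm_num)
    have h7 : Real.log 3 < 2 := by
      have := Real.log_lt_sub_one_of_pos (show (0 : ℝ) < 3 by norm_num) (by norm_num)
      linarith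
    linarith

/-- a power beats a constant -/
lemma ev_const {a b C : ℝ} (hab : a < b) : ∀ᶠ x : ℕ in atTop, C * (x : ℝ) ^ a ≤ (x : ℝ) ^ b := by
  filter_upwards [(pow_atTop (show 0 < b - a by linarith)).eventually_ge_atTop C, eventually_ge_atTop 1] with x hx hx1
  have hx0 : (0 : ℝ) < x := by exact_mod_cast hx1
  calc C * (x : ℝ) ^ a ≤ (x : ℝ) ^ (b - a) * (x : ℝ) ^ a := mul_le_mul_of_nonneg_right hx (by positivity)
    _ = (x : ℝ) ^ b := by rw [← Real.rpow_add hx0]; congr 1; ring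

/-- the sizes -/
lemma sizes {κ θ : ℝ} {s : ℕ} (hκ : 0 < κ) (hκθ : 8 * κ ≤ θ) (hθ : θ ≤ 1 / 4) (hs : 2 ≤ s) (M : ℕ) :
    ∀ᶠ x : ℕ in atTop, (SV.yb (SV.be κ s) x 1 : ℝ) ≤ (x : ℝ) ^ (1 - θ) ∧
      (2 : ℝ) ^ (3 * JJ (SV.be κ s 0) x) * (SV.yb (SV.be κ s) x 1 : ℝ) ^ (s - 1) ≤ (x : ℝ) ^ κ ∧
      M ≤ 2 ^ JJ (SV.be κ s 0) x := by
  obtain ⟨h0, h1, h3, h4, h5, -, -⟩ := exps hκ hs
  have hT : ∀ᶠ x : ℕ in atTop, (SV.yb (SV.be κ s) x 1 : ℝ) ≤ 2 * (x : ℝ) ^ (SV.be κ s 1) := by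
    filter_upwards [ceil_bd h1] with x hx
    unfold SV.yb
    linarith [hx.1, hx.2.2]
  filter_upwards [hT, JJ_bd h0, ev_const (C := 2) (show SV.be κ s 1 < 1 - θ by linarith),
    ev_const (C := 64 * 2 ^ (s - 1)) h4, (pow_atTop h0).eventually_ge_atTop (M : ℝ), eventually_ge_atTop 1]
    with x k1 k2 k3 k4 k5 k6
  have hx0 : (0 : ℝ) < x := by exact_mod_cast k6
  refine ⟨k1.trans k3, ?_, ?_⟩
  · refine le_trans ?_ k4
    have m1 : (2 : ℝ) ^ (3 * JJ (SV.be κ s 0) x) ≤ 64 * (x : ℝ) ^ (3 * SV.be κ s 0) := by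
      rw [mul_comm 3, pow_mul]
      calc ((2 : ℝ) ^ JJ (SV.be κ s 0) x) ^ 3 ≤ (4 * (x : ℝ) ^ SV.be κ s 0) ^ 3 :=
            pow_le_pow_left₀ (by positivity) k2.2.2.2 3
        _ = 64 * (x : ℝ) ^ (3 * SV.be κ s 0) := by
            rw [mul_pow, mul_comm 3, Real.rpow_mul hx0.le]
            norm_num
    have m2 : (SV.yb (SV.be κ s) x 1 : ℝ) ^ (s - 1) ≤ 2 ^ (s - 1) * (x : ℝ) ^ ((s - 1 : ℕ) * SV.be κ s 1) := by
      calc (SV.yb (SV.be κ s) x 1 : ℝ) ^ (s - 1) ≤ (2 * (x : ℝ) ^ SV.be κ s 1) ^ (s - 1) :=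
            pow_le_pow_left₀ (by positivity) k1 _
        _ = _ := by
            rw [mul_pow, mul_comm ((s - 1 : ℕ) : ℝ), Real.rpow_mul hx0.le, Real.rpow_natCast]
    calc _ ≤ (64 * (x : ℝ) ^ (3 * SV.be κ s 0)) * (2 ^ (s - 1) * (x : ℝ) ^ ((s - 1 : ℕ) * SV.be κ s 1)) :=
          mul_le_mul m1 m2 (by positivity) (by positivity)
      _ = 64 * 2 ^ (s - 1) * (x : ℝ) ^ (3 * SV.be κ s 0 + (s - 1 : ℕ) * SV.be κ s 1) := by
          rw [Real.rpow_add hx0]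
          ring
  · have h6 : (M : ℝ) ≤ (2 : ℝ) ^ JJ (SV.be κ s 0) x := k5.trans k2.2.2.1
    exact_mod_cast h6

/-- the sizes, second part -/
lemma sizes2 {κ θ ε : ℝ} (hκ : 0 < κ) (hκθ : 8 * κ ≤ θ) (hθ : θ ≤ 1 / 4) (hε : 0 < ε) (M N u0 : ℕ) :
    ∀ᶠ x : ℕ in atTop, ((x : ℝ) ^ (1 - θ) + 1) * (x : ℝ) ^ κ ≤ x / 2 - 1 ∧ (u0 : ℝ) ≤ (x : ℝ) ^ (1 - θ) ∧
      1 ≤ (x : ℝ) ^ (1 - θ) ∧ (x : ℝ) ^ κ ≤ ε / 4 * x ∧ (x : ℝ) ^ κ ≤ x / 32 ∧ (M * N : ℝ) ≤ ε / 4 * x ∧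
      (M * N : ℝ) ≤ x / 32 ∧ 64 ≤ x := by
  have h1 : 0 < 1 - θ := by linarith
  filter_upwards [(pow_atTop h1).eventually_ge_atTop (u0 : ℝ), (pow_atTop h1).eventually_ge_atTop 1,
    ev_const (C := 8) (show 1 - θ + κ < 1 by linarith), ev_const (C := 4 / ε) (show κ < 1 by linarith),
    ev_const (C := 32) (show κ < 1 by linarith),
    (tendsto_natCast_atTop_atTop (R := ℝ)).eventually_ge_atTop (M * N * (4 / ε)),
    (tendsto_natCast_atTop_atTop (R := ℝ)).eventually_ge_atTop (M * N * 32), eventually_ge_atTop 64]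
    with x k1 k2 k3 k4 k5 k6 k7 k8
  have hx0 : (0 : ℝ) < x := by exact_mod_cast (by omega : 0 < x)
  have hx64 : (64 : ℝ) ≤ x := by exact_mod_cast k8
  rw [Real.rpow_one] at k3 k4 k5
  refine ⟨?_, k1, k2, ?_, by linarith, ?_, by linarith, k8⟩
  · have m1 : ((x : ℝ) ^ (1 - θ) + 1) * (x : ℝ) ^ κ ≤ 2 * (x : ℝ) ^ (1 - θ + κ) := by
      rw [Real.rpow_add hx0, ← mul_assoc]
      exact mul_le_mul_of_nonneg_right (by linarith) (by positivity)
    linarith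
  · have m1 := mul_le_mul_of_nonneg_left k4 (show 0 ≤ ε / 4 by positivity)
    have e1 : ε / 4 * (4 / ε * (x : ℝ) ^ κ) = (x : ℝ) ^ κ := by field_simp
    linarith
  · have m1 := mul_le_mul_of_nonneg_left k6 (show 0 ≤ ε / 4 by positivity)
    have e1 : ε / 4 * (M * N * (4 / ε)) = (M * N : ℝ) := by field_simp
    linarith

end MTM

open RECM MTM in
/-- MT. -/
theorem specMT (hPNI : SpecPNI) (hREC : SpecREC) (hESY : SV.SpecESY) (hPAIRS : SpecPAIRS) : SpecMT := by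
  intro κ θ ε s N M hκ hκθ hθ hε hs hM
  obtain ⟨h0, h1, h3, h4, h5, hlogβ, hls⟩ := exps hκ hs
  obtain ⟨ε', hε', hε'1, hε'2⟩ : ∃ ε' : ℝ, 0 < ε' ∧ 3 * ε' ≤ ε ∧ ε' ≤ 1 / 8 :=
    ⟨min (ε / 3) (1 / 8), lt_min (by positivity) (by norm_num), by
      have := min_le_left (ε / 3) (1 / 8 : ℝ)
      linarith, min_le_right _ _⟩
  obtain ⟨u0, hu0⟩ := hPNI M ε' hM hε'
  obtain ⟨hR1, hR2⟩ := hREC (SV.be κ s 0) (SV.be κ s 1) h0 h3
  rw [hlogβ] at hR2
  have hu : Tendsto (fun x : ℕ => 2 ^ (3 * JJ (SV.be κ s 0) x) + 1) atTop atTop := by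
    have e1 : Tendsto (fun x : ℕ => ((2 ^ (3 * JJ (SV.be κ s 0) x) + 1 : ℕ) : ℝ)) atTop atTop := by
      refine tendsto_atTop_mono' _ ?_ (pow_atTop h0)
      filter_upwards [JJ_bd h0] with x hx
      push_cast
      have h6 : (2 : ℝ) ^ (JJ (SV.be κ s 0) x) ≤ 2 ^ (3 * JJ (SV.be κ s 0) x) :=
        pow_le_pow_right₀ (by norm_num) (by omega)
      linarith [hx.2.2.1]
    exact tendsto_natCast_atTop_iff.1 e1
  have hE := hESY (fun x : ℕ => 2 ^ (3 * JJ (SV.be κ s 0) x) + 1) (fun x : ℕ => ⌈(x : ℝ) ^ (SV.be κ s 1)⌉₊)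
    (s - Real.log 3) hu hR2 (s - 1)
  have hLE := hR1.mul hE
  have hΛ : 0 < Real.log 3 * ((s - Real.log 3) ^ (s - 1) / ((s - 1).factorial : ℝ)) := by
    have : 0 < Real.log 3 := Real.log_pos (by norm_num)
    positivity
  have hev : (1 - ε') * (Real.log 3 * ((s - Real.log 3) ^ (s - 1) / ((s - 1).factorial : ℝ))) <
      Real.log 3 * ((s - Real.log 3) ^ (s - 1) / ((s - 1).factorial : ℝ)) := by nlinarith
  obtain ⟨x0, hx0⟩ := eventually_atTop.1 ((hLE.eventually_const_lt hev).and ((sizes hκ hκθ hθ hs M).and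
    (sizes2 hκ hκθ hθ hε' M N u0)))
  refine ⟨x0, fun x hx i hi => ?_⟩
  obtain ⟨k1, ⟨k2, k3, k4⟩, k5, k6, k7, k8, k9, k10, k11, k12⟩ := hx0 x hx
  set J := JJ (SV.be κ s 0) x with hJ
  set T := SV.yb (SV.be κ s) x 1 with hT
  set Z : ℝ := (x : ℝ) ^ (1 - θ) with hZ
  set X1 := x / 2 + M * i with hX1
  set X2 := x - M * N + M * i with hX2
  have hxR : (0 : ℝ) < x := by exact_mod_cast (by omega : 0 < x)
  have hMi : M * i ≤ M * N := Nat.mul_le_mul_left _ hi.le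
  have hMN : 32 * (M * N) ≤ x := by
    have : (32 * (M * N) : ℝ) ≤ x := by linarith
    exact_mod_cast this
  -- the size of `D`
  have hDb : ∀ q ∈ QA J (3 * J), ∀ S ∈ (SV.blk (2 ^ (3 * J) + 1) T).powersetCard (s - 1),
      1 ≤ q * ∏ p ∈ S, p ∧ Nat.Coprime (q * ∏ p ∈ S, p) M ∧ ((q * ∏ p ∈ S, p : ℕ) : ℝ) ≤ (x : ℝ) ^ κ := by
    intro q hq S hS
    unfold QA at hq
    rw [mem_filter, mem_Ioc] at hq
    rw [mem_powersetCard] at hS
    have hSp : ∀ p ∈ S, 2 ^ (3 * J) < p ∧ p < T ∧ p.Prime := by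
      intro p hp
      have h6 := hS.1 hp
      unfold SV.blk at h6
      rw [mem_filter, mem_Ico] at h6
      exact ⟨by omega, h6.1.2, h6.2⟩
    have h2J : 2 ^ J ≤ 2 ^ (3 * J) := Nat.pow_le_pow_right (by norm_num) (by omega)
    have hcop : ∀ p : ℕ, p.Prime → M < p → Nat.Coprime p M := by
      intro p hp hMp
      rw [hp.coprime_iff_not_dvd]
      intro hd
      have := Nat.le_of_dvd (by omega) hd
      omega
    refine ⟨?_, ?_, ?_⟩
    · refine Nat.mul_pos hq.2.pos (Finset.prod_pos fun p hp => (hSp p hp).2.2.pos)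
    · refine Nat.Coprime.mul_left (hcop q hq.2 (by omega)) (Nat.Coprime.prod_left fun p hp => ?_)
      exact hcop p (hSp p hp).2.2 (by have := (hSp p hp).1; omega)
    · refine le_trans ?_ k3
      push_cast
      refine mul_le_mul ?_ ?_ (by positivity) (by positivity)
      · exact_mod_cast hq.1.2
      · have h6 : ∏ p ∈ S, (p : ℝ) ≤ ∏ _p ∈ S, (T : ℝ) := by
          refine Finset.prod_le_prod (fun p _ => by positivity) fun p hp => ?_
          exact_mod_cast (hSp p hp).2.1.le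
        rwa [prod_const, hS.2] at h6
  have hX1n : (x : ℝ) / 2 - 1 ≤ X1 := by
    have h6 : x ≤ 2 * X1 + 1 := by omega
    have h7 : (x : ℝ) ≤ 2 * X1 + 1 := by exact_mod_cast h6
    linarith
  have hdiv : ∀ D : ℕ, 1 ≤ D → (D : ℝ) ≤ (x : ℝ) ^ κ → Z ≤ ((X1 / D : ℕ) : ℝ) := by
    intro D hD hDk
    have hDR : (0 : ℝ) < D := by exact_mod_cast hD
    have h6 : (X1 : ℝ) < D * (((X1 / D : ℕ) : ℝ) + 1) := by
      exact_mod_cast Nat.lt_mul_div_succ X1 hD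
    have h7 : (Z + 1) * D ≤ (Z + 1) * (x : ℝ) ^ κ := mul_le_mul_of_nonneg_left hDk (by linarith)
    have h8 : (Z + 1) * D < (((X1 / D : ℕ) : ℝ) + 1) * D := by linarith
    have := lt_of_mul_lt_mul_right h8 hDR.le
    linarith
  have hpairs := hPAIRS (s - 1) J T X1 X2 M Z k2 (fun q hq S hS => hdiv _ (hDb q hq S hS).1 (hDb q hq S hS).2.2)
  have hpairsR : ∑ q ∈ QA J (3 * J), ∑ S ∈ (SV.blk (2 ^ (3 * J) + 1) T).powersetCard (s - 1),
      ((((Ioc (X1 / (q * ∏ p ∈ S, p)) (X2 / (q * ∏ p ∈ S, p))).filter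
        (fun P => P.Prime ∧ (q * (∏ p ∈ S, p) * P) % M = 1 % M)).card : ℕ) : ℝ)
      ≤ ∑ m ∈ Am (s - 1) J T Z X2,
        (((QA J (3 * J)).filter (fun q => X1 < q * m ∧ q * m ≤ X2 ∧ (q * m) % M = 1 % M)).card : ℝ) := by
    exact_mod_cast hpairs
  refine le_trans ?_ hpairsR
  set Bx : ℝ := (x : ℝ) / 2 / (M.totient * Real.log x) with hBx
  have hlx : 0 < Real.log x := Real.log_pos (by exact_mod_cast (by omega : 1 < x))
  have hφ : (0 : ℝ) < M.totient := by exact_mod_cast Nat.totient_pos.2 (by omega)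
  have hBx0 : 0 < Bx := by positivity
  have hterm : ∀ q ∈ QA J (3 * J), ∀ S ∈ (SV.blk (2 ^ (3 * J) + 1) T).powersetCard (s - 1),
      (1 - ε') ^ 2 * Bx * (1 / (q : ℝ) * ∏ p ∈ S, 1 / (p : ℝ)) ≤
      ((((Ioc (X1 / (q * ∏ p ∈ S, p)) (X2 / (q * ∏ p ∈ S, p))).filter
        (fun P => P.Prime ∧ (q * (∏ p ∈ S, p) * P) % M = 1 % M)).card : ℕ) : ℝ) := by
    intro q hq S hS
    obtain ⟨d1, d2, d3⟩ := hDb q hq S hS
    have hZD := hdiv _ d1 d3
    have e1 : 1 / (q : ℝ) * ∏ p ∈ S, 1 / (p : ℝ) = 1 / ((q * ∏ p ∈ S, p : ℕ) : ℝ) := by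
      push_cast
      rw [prod_div_distrib, prod_const_one, div_mul_div_comm, one_mul]
    rw [e1]
    have hDx : 32 * (q * ∏ p ∈ S, p) ≤ x := by
      have h6 : (32 * ((q * ∏ p ∈ S, p : ℕ) : ℝ)) ≤ x := by linarith
      exact_mod_cast h6
    refine one (u0 := u0) hM hε' (by linarith) hu0 d1 d2 ?_ ?_ ?_ ?_ ?_ ?_
    · have h6 : (u0 : ℝ) ≤ ((X1 / (q * ∏ p ∈ S, p) : ℕ) : ℝ) := k6.trans hZD
      exact_mod_cast h6
    · have h6 : (1 : ℝ) ≤ ((X1 / (q * ∏ p ∈ S, p) : ℕ) : ℝ) := k7.trans hZD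
      exact_mod_cast h6
    · omega
    · omega
    · omega
    · have h6 : X2 - X1 + M * N + x / 2 = x := by omega
      have h7 : X1 ≤ X2 := by omega
      have h8 : ((X2 : ℝ) - X1) + M * N + ((x / 2 : ℕ) : ℝ) = x := by
        rw [← Nat.cast_sub h7]
        exact_mod_cast h6
      have h9 : ((x / 2 : ℕ) : ℝ) ≤ x / 2 := Nat.cast_div_le
      linarith
  have hsum : (1 - ε') ^ 2 * Bx * (Lam (QA J (3 * J)) *
      ∑ S ∈ (SV.blk (2 ^ (3 * J) + 1) T).powersetCard (s - 1), ∏ p ∈ S, 1 / (p : ℝ)) ≤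
      ∑ q ∈ QA J (3 * J), ∑ S ∈ (SV.blk (2 ^ (3 * J) + 1) T).powersetCard (s - 1),
      ((((Ioc (X1 / (q * ∏ p ∈ S, p)) (X2 / (q * ∏ p ∈ S, p))).filter
        (fun P => P.Prime ∧ (q * (∏ p ∈ S, p) * P) % M = 1 % M)).card : ℕ) : ℝ) := by
    unfold Lam
    rw [Finset.sum_mul_sum, Finset.mul_sum]
    refine Finset.sum_le_sum fun q hq => ?_
    rw [Finset.mul_sum]
    exact Finset.sum_le_sum fun S hS => hterm q hq S hS
  refine le_trans ?_ hsum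
  have hk1 : (1 - ε') * (Real.log 3 * ((s - Real.log 3) ^ (s - 1) / ((s - 1).factorial : ℝ))) ≤
      Lam (QA J (3 * J)) * ∑ S ∈ (SV.blk (2 ^ (3 * J) + 1) T).powersetCard (s - 1), ∏ p ∈ S, 1 / (p : ℝ) := k1.le
  have h6 := mul_le_mul_of_nonneg_left hk1 (show 0 ≤ (1 - ε') ^ 2 * Bx by positivity)
  refine le_trans ?_ h6
  have h7 : 1 - ε ≤ (1 - ε') ^ 3 := by nlinarith [sq_nonneg ε', mul_pos hε' hε']
  calc (1 - ε) * (Real.log 3 * (s - Real.log 3) ^ (s - 1) / ((s - 1).factorial : ℝ)) * Bx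
      = (1 - ε) * ((Real.log 3 * ((s - Real.log 3) ^ (s - 1) / ((s - 1).factorial : ℝ))) * Bx) := by ring
    _ ≤ (1 - ε') ^ 3 * ((Real.log 3 * ((s - Real.log 3) ^ (s - 1) / ((s - 1).factorial : ℝ))) * Bx) :=
        mul_le_mul_of_nonneg_right h7 (by positivity)
    _ = _ := by ring

end Pool.Agent.Lib.MP_3efbeb_nt.ER.P3
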