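import Pool.Agent.Lib.MP_3efbeb_nt.ER.SV.SpecM

/-!
# ER/SV, module NUM: growth
-/

set_option autoImplicit false

namespace Pool.Agent.Lib.MP_3efbeb_nt.ER.SV

open Finset Filter Topology

noncomputable section

namespace NUMM

theorem ev (C b : ℝ) (hb : 0 < b) (k : ℕ) :
    ∀ᶠ s : ℕ in atTop, C * (s : ℝ) ^ k ≤ Real.exp (b * s) := by
  have h1 := (isLittleO_pow_exp_pos_mul_atTop k hb).bound (c := 1 / (|C| + 1)) (by positivity)
  have h2 : ∀ᶠ s : ℕ in atTop,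
      ‖((s : ℝ)) ^ k‖ ≤ 1 / (|C| + 1) * ‖Real.exp (b * (s : ℝ))‖ :=
    tendsto_natCast_atTop_atTop.eventually h1
  filter_upwards [h2] with s hs
  rw [Real.norm_of_nonneg (by positivity), Real.norm_of_nonneg (Real.exp_nonneg _)] at hs
  have h3 : C * (s : ℝ) ^ k ≤ |C| * (s : ℝ) ^ k := by
    gcongr
    exact le_abs_self C
  have h4 : |C| * (s : ℝ) ^ k ≤ |C| * (1 / (|C| + 1) * Real.exp (b * s)) := by
    gcongr
  have h5 : |C| * (1 / (|C| + 1) * Real.exp (b * s)) ≤ Real.exp (b * s) := by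
    have h6 : |C| * (1 / (|C| + 1)) ≤ 1 := by
      rw [mul_one_div, div_le_one (by positivity)]
      linarith
    calc |C| * (1 / (|C| + 1) * Real.exp (b * s)) = (|C| * (1 / (|C| + 1))) * Real.exp (b * s) := by
          ring
      _ ≤ 1 * Real.exp (b * s) := by gcongr
      _ = Real.exp (b * s) := one_mul _
  linarith

end NUMM

theorem specNUM : SpecNUM := by
  intro Q A A' hA hA'
  have ha := NUMM.ev (A' ^ Q) (1 / 8) (by norm_num) (2 * Q)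
  have hb1 := NUMM.ev (A ^ 8 * A') 1 (by norm_num) 10
  have hb2 := NUMM.ev (18 * Q) (1 / 2) (by norm_num) 1
  have hc1 := NUMM.ev (A ^ (2 * 4 ^ Q)) 1 (by norm_num) (2 * 4 ^ Q)
  have hc2 := NUMM.ev (Q * (2 * 4 ^ Q + 1)) (1 / 2) (by norm_num) 1
  have hd := NUMM.ev (A' ^ Q * ((2 * A ^ 4 ^ Q) ^ Q + 1)) (1 / 8) (by norm_num)
    (2 * Q + 4 ^ Q * Q)
  have hall := ha.and (hb1.and (hb2.and (hc1.and (hc2.and (hd.and (eventually_ge_atTop 1))))))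
  obtain ⟨s0, hs0⟩ := eventually_atTop.mp hall
  refine ⟨s0, fun s hs K N T hN hK hT0 hT => ?_⟩
  obtain ⟨ha, hb1, hb2, hc1, hc2, hd, hs1⟩ := hs0 s hs
  have hs1' : (1 : ℝ) ≤ s := by exact_mod_cast hs1
  have hs0' : (0 : ℝ) < s := by linarith
  have hNpos : (0 : ℝ) < N := lt_of_lt_of_le (Real.exp_pos _) hN
  have hN4 : Real.exp (1 / 8 * s) ≤ (N : ℝ) ^ (1 / 4 : ℝ) := by
    have h1 : Real.exp (1 / 8 * s) = Real.exp ((s : ℝ) / 2) ^ (1 / 4 : ℝ) := by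
      rw [← Real.exp_mul]
      congr 1
      ring
    rw [h1]
    exact Real.rpow_le_rpow (Real.exp_nonneg _) hN (by norm_num)
  have hTQ : T ^ Q ≤ A' ^ Q * (s : ℝ) ^ (2 * Q) := by
    calc T ^ Q ≤ (A' * (s : ℝ) ^ 2) ^ Q := by gcongr
      _ = A' ^ Q * (s : ℝ) ^ (2 * Q) := by rw [mul_pow, ← pow_mul]
  refine ⟨?_, ?_, ?_⟩
  · exact (hTQ.trans ha).trans hN4
  · -- second inequality
    have hK8 : (2 : ℝ) ^ (8 * K) ≤ (A * s) ^ 8 := by
      rw [mul_comm 8 K, pow_mul]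
      gcongr
    have h1 : Real.exp (8 * s) * 2 ^ (8 * K) * T ≤ Real.exp (9 * s) := by
      calc Real.exp (8 * s) * 2 ^ (8 * K) * T
          ≤ Real.exp (8 * s) * (A * s) ^ 8 * (A' * (s : ℝ) ^ 2) := by gcongr
        _ = Real.exp (8 * s) * (A ^ 8 * A' * (s : ℝ) ^ 10) := by ring
        _ ≤ Real.exp (8 * s) * Real.exp (1 * s) := by gcongr
        _ = Real.exp (9 * s) := by rw [← Real.exp_add]; congr 1; ring
    have h2 : (Real.exp (8 * s) * 2 ^ (8 * K) * T) ^ Q ≤ Real.exp ((N : ℝ) / 2) := by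
      calc (Real.exp (8 * s) * 2 ^ (8 * K) * T) ^ Q ≤ Real.exp (9 * s) ^ Q := by gcongr
        _ = Real.exp (9 * Q * s) := by rw [← Real.exp_nat_mul]; congr 1; ring
        _ ≤ Real.exp ((N : ℝ) / 2) := by
            apply Real.exp_le_exp.mpr
            have h3 : (18 * Q : ℝ) * (s : ℝ) ^ 1 ≤ N := hb2.trans (by
              have : (1 / 2 : ℝ) * s = s / 2 := by ring
              rw [this]; exact hN)
            rw [pow_one] at h3
            linarith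
    have h3 : Real.sqrt N ≤ Real.exp ((N : ℝ) / 2) := by
      rw [Real.sqrt_le_left (Real.exp_nonneg _), ← Real.exp_nat_mul]
      have h4 : ((2 : ℕ) : ℝ) * ((N : ℝ) / 2) = N := by push_cast; ring
      rw [h4]
      linarith [Real.add_one_le_exp (N : ℝ)]
    have hsq : 0 < Real.sqrt N := Real.sqrt_pos.mpr hNpos
    rw [le_div_iff₀ hsq]
    calc Real.exp (-(N : ℝ)) * (Real.exp (8 * s) * 2 ^ (8 * K) * T) ^ Q * Real.sqrt N
        ≤ Real.exp (-(N : ℝ)) * Real.exp ((N : ℝ) / 2) * Real.exp ((N : ℝ) / 2) := by gcongr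
      _ = 1 := by
          rw [← Real.exp_add, ← Real.exp_add, ← Real.exp_zero]
          congr 1
          ring
  · -- third inequality
    have hX : ((2 : ℝ) * 2 ^ (K * 4 ^ Q)) ^ Q ≤ (2 * A ^ 4 ^ Q) ^ Q * (s : ℝ) ^ (4 ^ Q * Q) := by
      have h1 : (2 : ℝ) ^ (K * 4 ^ Q) ≤ (A * s) ^ 4 ^ Q := by
        rw [pow_mul]
        gcongr
      calc ((2 : ℝ) * 2 ^ (K * 4 ^ Q)) ^ Q ≤ (2 * (A * s) ^ 4 ^ Q) ^ Q := by gcongr
        _ = (2 * A ^ 4 ^ Q) ^ Q * (s : ℝ) ^ (4 ^ Q * Q) := by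
            rw [mul_pow A (s : ℝ), ← mul_assoc, mul_pow, ← pow_mul]
    have hY : Real.exp (-(N : ℝ)) * (Real.exp (2 * 4 ^ Q * s) * 2 ^ (2 * 4 ^ Q * K)) ^ Q ≤ 1 := by
      have h1 : (2 : ℝ) ^ (2 * 4 ^ Q * K) ≤ (A * s) ^ (2 * 4 ^ Q) := by
        rw [mul_comm (2 * 4 ^ Q) K, pow_mul]
        gcongr
      have h2 : Real.exp (2 * 4 ^ Q * s) * 2 ^ (2 * 4 ^ Q * K) ≤
          Real.exp ((2 * 4 ^ Q + 1) * s) := by
        calc Real.exp (2 * 4 ^ Q * s) * 2 ^ (2 * 4 ^ Q * K)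
            ≤ Real.exp (2 * 4 ^ Q * s) * (A * s) ^ (2 * 4 ^ Q) := by gcongr
          _ = Real.exp (2 * 4 ^ Q * s) * (A ^ (2 * 4 ^ Q) * (s : ℝ) ^ (2 * 4 ^ Q)) := by
              rw [mul_pow]
          _ ≤ Real.exp (2 * 4 ^ Q * s) * Real.exp (1 * s) := by gcongr
          _ = Real.exp ((2 * 4 ^ Q + 1) * s) := by rw [← Real.exp_add]; congr 1; ring
      have h3 : (Real.exp (2 * 4 ^ Q * s) * 2 ^ (2 * 4 ^ Q * K)) ^ Q ≤ Real.exp N := by
        calc (Real.exp (2 * 4 ^ Q * s) * 2 ^ (2 * 4 ^ Q * K)) ^ Q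
            ≤ Real.exp ((2 * 4 ^ Q + 1) * s) ^ Q := by gcongr
          _ = Real.exp (Q * (2 * 4 ^ Q + 1) * s) := by
              rw [← Real.exp_nat_mul]; congr 1; ring
          _ ≤ Real.exp N := by
              apply Real.exp_le_exp.mpr
              have h5 : (Q * (2 * 4 ^ Q + 1) : ℝ) * (s : ℝ) ^ 1 ≤ N := hc2.trans (by
                have : (1 / 2 : ℝ) * s = s / 2 := by ring
                rw [this]; exact hN)
              rw [pow_one] at h5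
              exact h5
      calc Real.exp (-(N : ℝ)) * (Real.exp (2 * 4 ^ Q * s) * 2 ^ (2 * 4 ^ Q * K)) ^ Q
          ≤ Real.exp (-(N : ℝ)) * Real.exp N := by gcongr
        _ = 1 := by rw [← Real.exp_add, ← Real.exp_zero]; congr 1; ring
    have h1s : (1 : ℝ) ≤ (s : ℝ) ^ (4 ^ Q * Q) := one_le_pow₀ hs1'
    calc T ^ Q * ((2 * 2 ^ (K * 4 ^ Q)) ^ Q
          + Real.exp (-(N : ℝ)) * (Real.exp (2 * 4 ^ Q * s) * 2 ^ (2 * 4 ^ Q * K)) ^ Q)
        ≤ (A' ^ Q * (s : ℝ) ^ (2 * Q)) * ((2 * A ^ 4 ^ Q) ^ Q * (s : ℝ) ^ (4 ^ Q * Q) +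
            (s : ℝ) ^ (4 ^ Q * Q)) := by
          gcongr
          exact hY.trans h1s
      _ = A' ^ Q * ((2 * A ^ 4 ^ Q) ^ Q + 1) * (s : ℝ) ^ (2 * Q + 4 ^ Q * Q) := by
          rw [pow_add]; ring
      _ ≤ Real.exp (1 / 8 * s) := hd
      _ ≤ (N : ℝ) ^ (1 / 4 : ℝ) := hN4

end

end Pool.Agent.Lib.MP_3efbeb_nt.ER.SV
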