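import Pool.Agent.Lib.MP_3efbeb_nt.ER.SV.SpecM

/-! # MP_3efbeb_nt, ER/SV, module NWT (helper32): powers of Bonferroni sums in the binomial basis -/

set_option autoImplicit false

namespace Pool.Agent.Lib.MP_3efbeb_nt.ER.SV

namespace NWTM

open Finset Polynomial

/-- `pol u c` as a polynomial -/
noncomputable def P1 (u : ℕ) (c : ℕ → ℝ) : ℝ[X] :=
  ∑ l ∈ range (u + 1), C (c l / (l.factorial : ℝ)) * descPochhammer ℝ l

theorem P1_eval (u : ℕ) (c : ℕ → ℝ) (w : ℕ) : (P1 u c).eval (w : ℝ) = pol u c w := by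
  unfold P1 pol
  rw [eval_finsetSum]
  refine Finset.sum_congr rfl fun l _ => ?_
  rw [eval_mul, eval_C, descPochhammer_eval_eq_descFactorial, Nat.descFactorial_eq_factorial_mul_choose,
    Nat.cast_mul]
  have : (l.factorial : ℝ) ≠ 0 := by exact_mod_cast l.factorial_ne_zero
  field_simp

theorem P1_deg (u : ℕ) (c : ℕ → ℝ) : (P1 u c).natDegree ≤ u := by
  unfold P1
  refine natDegree_sum_le_of_forall_le _ _ fun l hl => ?_
  have hl' : l ≤ u := Nat.lt_succ_iff.1 (mem_range.1 hl)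
  refine (natDegree_C_mul_le _ _).trans ?_
  rw [descPochhammer_natDegree]
  exact hl'

theorem newton (P : ℝ[X]) (D : ℕ) (hD : P.natDegree ≤ D) (A : ℝ) (hA : 1 ≤ A)
    (hb : ∀ w : ℕ, |P.eval (w : ℝ)| ≤ A ^ w) :
    ∃ c : ℕ → ℝ, (∀ w : ℕ, P.eval (w : ℝ) = pol D c w) ∧ ∀ l, |c l| ≤ (2 * A) ^ l := by
  refine ⟨fun l => (fwdDiff (1 : ℝ))^[l] (fun x => P.eval x) 0, ?_, ?_⟩
  · intro w
    have h1 := shift_eq_sum_fwdDiff_iter (1 : ℝ) (fun x => P.eval x) w 0
    have h2 : (0 : ℝ) + w • (1 : ℝ) = (w : ℝ) := by simp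
    rw [h2] at h1
    rw [h1]
    unfold pol
    have hz : ∀ l, D < l → (fwdDiff (1 : ℝ))^[l] (fun x => P.eval x) 0 = 0 := by
      intro l hl
      have := Polynomial.fwdDiff_iter_eq_zero_of_degree_lt (P := P) (lt_of_le_of_lt hD hl)
      exact congrFun this 0
    have e1 : ∑ k ∈ range (w + 1), w.choose k • (fwdDiff (1 : ℝ))^[k] (fun x => P.eval x) 0 =
        ∑ k ∈ range (w + 1 + (D + 1)), w.choose k • (fwdDiff (1 : ℝ))^[k] (fun x => P.eval x) 0 := by
      refine Finset.sum_subset (Finset.range_subset_range.2 (by omega)) fun k _ hk => ?_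
      rw [Nat.choose_eq_zero_of_lt (by rw [mem_range] at hk; omega), zero_smul]
    have e2 : ∑ l ∈ range (D + 1), (fwdDiff (1 : ℝ))^[l] (fun x => P.eval x) 0 * (w.choose l : ℝ) =
        ∑ l ∈ range (w + 1 + (D + 1)),
          (fwdDiff (1 : ℝ))^[l] (fun x => P.eval x) 0 * (w.choose l : ℝ) := by
      refine Finset.sum_subset (Finset.range_subset_range.2 (by omega)) fun k _ hk => ?_
      rw [hz k (by rw [mem_range] at hk; omega), zero_mul]
    rw [e1, e2]
    refine Finset.sum_congr rfl fun l _ => ?_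
    rw [nsmul_eq_mul, mul_comm]
  · intro l
    simp only
    rw [fwdDiff_iter_eq_sum_shift]
    refine (Finset.abs_sum_le_sum_abs _ _).trans ?_
    have h3 : ∀ k ∈ range (l + 1), |((-1 : ℤ) ^ (l - k) * (l.choose k : ℤ)) •
        P.eval ((0 : ℝ) + k • (1 : ℝ))| ≤ (l.choose k : ℝ) * A ^ l := by
      intro k hk
      have hk' : k ≤ l := Nat.lt_succ_iff.1 (mem_range.1 hk)
      have h2 : (0 : ℝ) + k • (1 : ℝ) = (k : ℝ) := by simp
      rw [h2, zsmul_eq_mul, abs_mul]
      push_cast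
      rw [abs_mul, abs_pow, abs_neg, abs_one, one_pow, one_mul, Nat.abs_cast]
      refine mul_le_mul_of_nonneg_left ((hb k).trans ?_) (Nat.cast_nonneg _)
      exact pow_le_pow_right₀ hA hk'
    refine (Finset.sum_le_sum h3).trans ?_
    rw [← Finset.sum_mul, ← Nat.cast_sum, Nat.sum_range_choose, mul_pow]
    push_cast
    exact le_refl _

end NWTM

open NWTM Polynomial in
theorem specNWT (hBNB : SpecBNB) : SpecNWT := by
  intro s J e he hJ
  have hev : ∀ w : ℕ, ((P1 (s + J) (cb s J)) ^ e).eval (w : ℝ) = bon s J w ^ e := by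
    intro w
    rw [eval_pow, P1_eval]
    rfl
  obtain ⟨c, h1, h2⟩ := newton ((P1 (s + J) (cb s J)) ^ e) (e * (s + J))
    (natDegree_pow_le.trans (Nat.mul_le_mul_left _ (P1_deg _ _))) (4 ^ e)
    (one_le_pow₀ (by norm_num)) (by
      intro w
      rw [hev]
      obtain ⟨b0, -, -, b3⟩ := hBNB s J w hJ
      rw [abs_of_nonneg (pow_nonneg b0 _), ← pow_mul, mul_comm e w, pow_mul]
      exact pow_le_pow_left₀ b0 b3 _)
  exact ⟨c, fun w => by rw [← hev, h1], h2⟩

end Pool.Agent.Lib.MP_3efbeb_nt.ER.SV
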