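import Pool.Agent.Lib.MP_3efbeb_nt.ER.SV.SpecM

/-!
# MP_3efbeb_nt, ER/SV: PAB (helper75)
-/

set_option autoImplicit false

namespace Pool.Agent.Lib.MP_3efbeb_nt.ER.SV

open Finset Filter Topology

theorem specPAB : SpecPAB := by
  intro lam A u c hlam hA hc
  refine ⟨?_, ?_, ?_⟩
  · refine le_trans ?_ (Real.sum_le_exp_of_nonneg (mul_nonneg hA hlam) (u + 1))
    unfold PA
    refine sum_le_sum fun l _ => ?_
    rw [mul_pow]
    gcongr
    exact hc l
  · unfold PA
    exact sum_nonneg fun l _ => by positivity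
  · unfold PE PA
    refine (abs_sum_le_sum_abs _ _).trans (sum_le_sum fun l _ => ?_)
    rw [abs_div, abs_mul, abs_of_nonneg (pow_nonneg hlam l),
      abs_of_nonneg (Nat.cast_nonneg (l.factorial) : (0 : ℝ) ≤ (l.factorial : ℝ))]

end Pool.Agent.Lib.MP_3efbeb_nt.ER.SV
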