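import Pool.Agent.Lib.MP_3efbeb_nt.ER.SV.SpecP

/-!
# MP_3efbeb_nt, ER/SV, module PAIRS (helper50): the pairs from the triples
-/

set_option autoImplicit false

namespace Pool.Agent.Lib.MP_3efbeb_nt.ER.P3

open Finset Filter Topology
open scoped Classical
open Pool.Agent.Lib.MP_3efbeb_nt.DL (PR Rgh W1 W2 VV VQ cq Good Del Lam)

noncomputable section

namespace PAIRSM

theorem prime_of_mem {a T : ℕ} {u : ℕ} {S : Finset ℕ} (hS : S ∈ (SV.blk a T).powersetCard u) :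
    ∀ p ∈ S, p.Prime ∧ a ≤ p ∧ p < T := by
  intro p hp
  have h := (mem_powersetCard.mp hS).1 hp
  simp only [SV.blk, mem_filter, mem_Ico] at h
  exact ⟨h.2, h.1.1, h.1.2⟩

theorem prod_pos' {S : Finset ℕ} (h : ∀ p ∈ S, p.Prime) : 0 < ∏ p ∈ S, p :=
  prod_pos (fun p hp => (h p hp).pos)

theorem sqf {S : Finset ℕ} (h : ∀ p ∈ S, p.Prime) : Squarefree (∏ p ∈ S, p) := by
  apply Finset.squarefree_prod_of_pairwise_isCoprime
  · intro p hp q hq hpq
    simp only [Function.onFun]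
    exact Nat.coprime_iff_isRelPrime.mp ((Nat.coprime_primes (h p hp) (h q hq)).mpr hpq)
  · intro p hp
    exact (h p hp).squarefree

end PAIRSM

open PAIRSM in
theorem specPAIRS : SpecPAIRS := by
  intro u J T X1 X2 M Z hTZ hZ
  set PS := (SV.blk (2 ^ (3 * J) + 1) T).powersetCard u with hPS
  have hR : ∑ m ∈ Am u J T Z X2, ((QA J (3 * J)).filter (fun q => X1 < q * m ∧ q * m ≤ X2 ∧
      (q * m) % M = 1 % M)).card = ((Am u J T Z X2).sigma (fun m => (QA J (3 * J)).filter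
        (fun q => X1 < q * m ∧ q * m ≤ X2 ∧ (q * m) % M = 1 % M))).card := by
    rw [card_sigma]
  have hL : ∑ q ∈ QA J (3 * J), ∑ S ∈ PS,
      ((Ioc (X1 / (q * ∏ p ∈ S, p)) (X2 / (q * ∏ p ∈ S, p))).filter
        (fun P => P.Prime ∧ (q * (∏ p ∈ S, p) * P) % M = 1 % M)).card =
      ((QA J (3 * J)).sigma (fun q => PS.sigma (fun S =>
        (Ioc (X1 / (q * ∏ p ∈ S, p)) (X2 / (q * ∏ p ∈ S, p))).filter
        (fun P => P.Prime ∧ (q * (∏ p ∈ S, p) * P) % M = 1 % M)))).card := by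
    rw [card_sigma]
    apply sum_congr rfl
    intro q _
    rw [card_sigma]
  rw [hL, hR]
  have hmem : ∀ x : (Σ _ : ℕ, Σ _ : Finset ℕ, ℕ), x ∈ ((QA J (3 * J)).sigma (fun q => PS.sigma (fun S =>
        (Ioc (X1 / (q * ∏ p ∈ S, p)) (X2 / (q * ∏ p ∈ S, p))).filter
        (fun P => P.Prime ∧ (q * (∏ p ∈ S, p) * P) % M = 1 % M)))) →
      x.1 ∈ QA J (3 * J) ∧ x.2.1 ∈ PS ∧ x.2.2.Prime ∧ X1 / (x.1 * ∏ p ∈ x.2.1, p) < x.2.2 ∧
        x.2.2 ≤ X2 / (x.1 * ∏ p ∈ x.2.1, p) ∧ (x.1 * (∏ p ∈ x.2.1, p) * x.2.2) % M = 1 % M := by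
    rintro ⟨q, S, P⟩ hx
    simp only [mem_sigma, mem_filter, mem_Ioc] at hx
    exact ⟨hx.1, hx.2.1, hx.2.2.2.1, hx.2.2.1.1, hx.2.2.1.2, hx.2.2.2.2⟩
  have hZP : ∀ q ∈ QA J (3 * J), ∀ S ∈ PS, ∀ P : ℕ, X1 / (q * ∏ p ∈ S, p) < P → Z < P := by
    intro q hq S hS P hP
    refine lt_of_le_of_lt (hZ q hq S hS) ?_
    exact_mod_cast hP
  apply card_le_card_of_injOn (fun x => ⟨(∏ p ∈ x.2.1, p) * x.2.2, x.1⟩)
  · intro x hx
    obtain ⟨h1, h2, h3, h4, h5, h6⟩ := hmem x (mem_coe.mp hx)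
    obtain ⟨q, S, P⟩ := x
    simp only at h1 h2 h3 h4 h5 h6 ⊢
    have hpr : ∀ p ∈ S, p.Prime := fun p hp => (prime_of_mem h2 p hp).1
    have hq : 0 < q := by
      simp only [QA, mem_filter] at h1
      exact h1.2.pos
    have hS0 := prod_pos' hpr
    have hD : 0 < q * ∏ p ∈ S, p := Nat.mul_pos hq hS0
    have h7 : X1 < q * ((∏ p ∈ S, p) * P) := by
      have := (Nat.div_lt_iff_lt_mul hD).mp h4
      calc X1 < P * (q * ∏ p ∈ S, p) := this
        _ = q * ((∏ p ∈ S, p) * P) := by ring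
    have h8 : q * ((∏ p ∈ S, p) * P) ≤ X2 := by
      have := (Nat.le_div_iff_mul_le hD).mp h5
      calc q * ((∏ p ∈ S, p) * P) = P * (q * ∏ p ∈ S, p) := by ring
        _ ≤ X2 := this
    have h9 : (q * ((∏ p ∈ S, p) * P)) % M = 1 % M := by
      rw [← mul_assoc]; exact h6
    rw [mem_coe, mem_sigma, mem_filter]
    refine ⟨?_, h1, h7, h8, h9⟩
    simp only [Am, mem_filter, mem_Icc]
    refine ⟨⟨Nat.mul_pos hS0 h3.pos, ?_⟩, ∏ p ∈ S, p, P, rfl, h3, hZP q h1 S h2 P h4, sqf hpr, ?_, ?_⟩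
    · calc (∏ p ∈ S, p) * P = 1 * ((∏ p ∈ S, p) * P) := (one_mul _).symm
        _ ≤ q * ((∏ p ∈ S, p) * P) := Nat.mul_le_mul_right _ hq
        _ ≤ X2 := h8
    · rw [Nat.primeFactors_prod hpr]
      exact (mem_powersetCard.mp h2).2
    · intro p hp hpd
      have : p ∈ (∏ p ∈ S, p).primeFactors := Nat.mem_primeFactors.mpr ⟨hp, hpd, hS0.ne'⟩
      rw [Nat.primeFactors_prod hpr] at this
      exact (prime_of_mem h2 p this).2
  · intro x hx y hy hxy
    obtain ⟨h1, h2, h3, h4, -, -⟩ := hmem x (mem_coe.mp hx)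
    obtain ⟨g1, g2, g3, g4, -, -⟩ := hmem y (mem_coe.mp hy)
    obtain ⟨q, S, P⟩ := x
    obtain ⟨q', S', P'⟩ := y
    simp only at h1 h2 h3 h4 g1 g2 g3 g4
    simp only [Sigma.mk.injEq, heq_eq_eq] at hxy
    obtain ⟨hm, hq⟩ := hxy
    have hpr : ∀ p ∈ S, p.Prime := fun p hp => (prime_of_mem h2 p hp).1
    have hpr' : ∀ p ∈ S', p.Prime := fun p hp => (prime_of_mem g2 p hp).1
    have hPT : T ≤ P := by
      have := lt_of_le_of_lt hTZ (hZP q h1 S h2 P h4)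
      exact_mod_cast this.le
    have hPP : P = P' := by
      have hd : P ∣ (∏ p ∈ S', p) * P' := by
        rw [← hm]; exact Dvd.intro_left _ rfl
      rcases (Nat.Prime.dvd_mul h3).mp hd with hd | hd
      · exfalso
        have : P ∈ (∏ p ∈ S', p).primeFactors :=
          Nat.mem_primeFactors.mpr ⟨h3, hd, (prod_pos' hpr').ne'⟩
        rw [Nat.primeFactors_prod hpr'] at this
        have := (prime_of_mem g2 P this).2.2
        omega
      · exact (Nat.prime_dvd_prime_iff_eq h3 g3).mp hd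
    subst hPP
    subst hq
    have hSS : S = S' := by
      have h := Nat.eq_of_mul_eq_mul_right h3.pos hm
      rw [← Nat.primeFactors_prod hpr, ← Nat.primeFactors_prod hpr', h]
    subst hSS
    rfl

end

end Pool.Agent.Lib.MP_3efbeb_nt.ER.P3
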