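import Pool.Agent.Lib.MP_3efbeb_nt.ER.SV.SpecM

/-!
# MP_3efbeb_nt, ER/SV: PM0 (helper21), Poisson means of the Bonferroni sums of the block 0
-/

set_option autoImplicit false

namespace Pool.Agent.Lib.MP_3efbeb_nt.ER.SV

open Finset Filter Topology
open scoped Classical

noncomputable section

namespace PM0M

lemma fact_bound (e Q s J t : ℕ) (he : e ≤ Q) (hJ : 16 * 4 ^ Q * s ≤ J) (ht : J < t) :
    ((4 : ℝ) ^ e * s) ^ t / (t.factorial : ℝ) ≤ (3 / 16) ^ t := by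
  have h1 : ((16 : ℝ) * 4 ^ e * s) ≤ t := by
    have h2 : (16 * 4 ^ e * s : ℕ) ≤ t := by
      have h3 : (4 : ℕ) ^ e ≤ 4 ^ Q := Nat.pow_le_pow_right (by norm_num) he
      calc 16 * 4 ^ e * s ≤ 16 * 4 ^ Q * s := by gcongr
        _ ≤ J := hJ
        _ ≤ t := ht.le
    exact_mod_cast h2
  have h0 : (0 : ℝ) ≤ (16 : ℝ) * 4 ^ e * s := by positivity
  have h4 : ((4 : ℝ) ^ e * s) ^ t = (1 / 16) ^ t * ((16 : ℝ) * 4 ^ e * s) ^ t := by
    rw [← mul_pow]; congr 1; ring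
  have h5 : ((16 : ℝ) * 4 ^ e * s) ^ t ≤ (t : ℝ) ^ t := pow_le_pow_left₀ h0 h1 t
  have h6 : (t : ℝ) ^ t / (t.factorial : ℝ) ≤ Real.exp t := Real.pow_div_factorial_le_exp t (Nat.cast_nonneg t) t
  have h7 : Real.exp (t : ℝ) ≤ 3 ^ t := by
    rw [← Real.exp_one_pow t]
    exact pow_le_pow_left₀ (Real.exp_pos 1).le (by have := Real.exp_one_lt_d9; linarith) t
  have hf : (0 : ℝ) < (t.factorial : ℝ) := by exact_mod_cast t.factorial_pos
  calc ((4 : ℝ) ^ e * s) ^ t / (t.factorial : ℝ)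
      = (1 / 16) ^ t * (((16 : ℝ) * 4 ^ e * s) ^ t / (t.factorial : ℝ)) := by rw [h4]; ring
    _ ≤ (1 / 16) ^ t * ((t : ℝ) ^ t / (t.factorial : ℝ)) := by gcongr
    _ ≤ (1 / 16) ^ t * 3 ^ t := by gcongr; exact h6.trans h7
    _ = (3 / 16) ^ t := by rw [← mul_pow]; norm_num

lemma small (t : ℕ) (ht : 4 ≤ t) : ((3 : ℝ) / 16) ^ t ≤ 4 / 5 * (1 / 5) ^ t := by
  have h1 : ((3 : ℝ) / 16) ^ t = (15 / 16) ^ t * (1 / 5) ^ t := by
    rw [← mul_pow]; norm_num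
  have h2 : ((15 : ℝ) / 16) ^ t ≤ (15 / 16) ^ 4 := pow_le_pow_of_le_one (by norm_num) (by norm_num) ht
  have h3 : ((15 : ℝ) / 16) ^ 4 ≤ 4 / 5 := by norm_num
  rw [h1]
  gcongr
  exact h2.trans h3

lemma one_le (s : ℕ) : (1 : ℝ) ≤ (s : ℝ) ^ s / (s.factorial : ℝ) := by
  have hf : (0 : ℝ) < (s.factorial : ℝ) := by exact_mod_cast s.factorial_pos
  rw [le_div_iff₀ hf, one_mul]
  exact_mod_cast Nat.factorial_le_pow s

lemma key (hBNB : SpecBNB) (hPSI : SpecPSI) (Q s J : ℕ) (hs : 1 ≤ s) (hJe : Even J)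
    (hJ : 16 * 4 ^ Q * s ≤ J) (e u : ℕ) (c : ℕ → ℝ) (he : 1 ≤ e) (heQ : e ≤ Q)
    (hc : ∀ w, bon s J w ^ e = pol u c w) :
    Ps s ≤ PE s u c ∧ PE s u c ≤ Ps s + Real.exp (-(s : ℝ)) := by
  have H := hPSI s u c (Nat.cast_nonneg s)
  have hJ4 : 4 ≤ J := by
    have h1 : 1 ≤ 4 ^ Q := Nat.one_le_pow _ _ (by norm_num)
    nlinarith [Nat.mul_le_mul (Nat.mul_le_mul (le_refl 16) h1) hs]
  set a : ℝ := (s : ℝ) ^ s / (s.factorial : ℝ) with ha
  set f : ℕ → ℝ := fun t => pol u c t * ((s : ℝ) ^ t / (t.factorial : ℝ)) with hf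
  have fs : f s = a := by
    simp only [hf]
    rw [← hc s, (hBNB s J s hJe).2.1, one_pow, one_mul]
  have f0 : ∀ t, 0 ≤ f t := by
    intro t
    simp only [hf]
    rw [← hc t]
    have := (hBNB s J t hJe).1
    positivity
  have fz : ∀ t, t ≠ s → t ≤ s + J → f t = 0 := by
    intro t h1 h2
    simp only [hf]
    rw [← hc t, (hBNB s J t hJe).2.2.1 h1 h2, zero_pow (by omega), zero_mul]
  have fb : ∀ t, s + J < t → f t ≤ 4 / 5 * (1 / 5) ^ t := by
    intro t ht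
    have h1 := (hBNB s J t hJe).1
    have h2 := (hBNB s J t hJe).2.2.2
    have h3 : bon s J t ^ e ≤ ((4 : ℝ) ^ e) ^ t := by
      calc bon s J t ^ e ≤ ((4 : ℝ) ^ t) ^ e := pow_le_pow_left₀ h1 h2 e
        _ = ((4 : ℝ) ^ e) ^ t := by rw [← pow_mul, ← pow_mul, mul_comm]
    have h4 : f t ≤ ((4 : ℝ) ^ e * s) ^ t / (t.factorial : ℝ) := by
      simp only [hf]
      rw [← hc t, mul_pow]
      have : (0 : ℝ) ≤ (s : ℝ) ^ t / (t.factorial : ℝ) := by positivity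
      calc bon s J t ^ e * ((s : ℝ) ^ t / (t.factorial : ℝ))
          ≤ ((4 : ℝ) ^ e) ^ t * ((s : ℝ) ^ t / (t.factorial : ℝ)) := by gcongr
        _ = _ := by ring
    exact h4.trans ((fact_bound e Q s J t heQ hJ (by omega)).trans (small t (by omega)))
  have lo : a ≤ Real.exp (s : ℝ) * PE s u c := by
    rw [← fs]
    exact le_hasSum H s (fun t _ => f0 t)
  have hg1 : HasSum (fun t : ℕ => if t = s then a else 0) a := hasSum_ite_eq s a
  have hg2 : HasSum (fun t : ℕ => (4 : ℝ) / 5 * (1 / 5) ^ t) 1 := by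
    have h := (hasSum_geometric_of_lt_one (r := (1 : ℝ) / 5) (by norm_num) (by norm_num)).mul_left (4 / 5)
    have e1 : (4 : ℝ) / 5 * (1 - 1 / 5)⁻¹ = 1 := by norm_num
    rw [e1] at h
    exact h
  have up : Real.exp (s : ℝ) * PE s u c ≤ a + 1 := by
    refine hasSum_le ?_ H (hg1.add hg2)
    intro t
    have hp : (0 : ℝ) ≤ 4 / 5 * (1 / 5) ^ t := by positivity
    by_cases h1 : t = s
    · subst h1
      simp only [if_true]
      have : f t = a := fs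
      simp only [hf] at this
      linarith
    · simp only [if_neg h1, zero_add]
      by_cases h2 : t ≤ s + J
      · have := fz t h1 h2
        simp only [hf] at this
        linarith
      · exact fb t (by omega)
  have hexp : Real.exp (-(s : ℝ)) * Real.exp (s : ℝ) = 1 := by
    rw [← Real.exp_add]; simp
  have hpe : PE s u c = Real.exp (-(s : ℝ)) * (Real.exp (s : ℝ) * PE s u c) := by
    rw [← mul_assoc, hexp, one_mul]
  have hps : Ps s = Real.exp (-(s : ℝ)) * a := by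
    unfold Ps
    rw [ha]; ring
  have hE := Real.exp_pos (-(s : ℝ))
  constructor
  · rw [hpe, hps]
    gcongr
  · rw [hpe, hps]
    calc Real.exp (-(s : ℝ)) * (Real.exp (s : ℝ) * PE s u c) ≤ Real.exp (-(s : ℝ)) * (a + 1) := by gcongr
      _ = _ := by ring

end PM0M

open PM0M in
theorem specPM0 (hBNB : SpecBNB) (hPSI : SpecPSI) (hPSL : SpecPSL) : SpecPM0 := by
  intro Q s J hQ hs hJe hJ
  have hE := Real.exp_pos (-(s : ℝ))
  obtain ⟨p1, p2, _⟩ := hPSL s hs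
  refine ⟨?_, ?_⟩
  · obtain ⟨h1, h2⟩ := key hBNB hPSI Q s J hs hJe hJ 1 (s + J) (cb s J) le_rfl hQ
      (fun w => by rw [pow_one]; rfl)
    exact ⟨h1, by linarith⟩
  · intro e u c he heQ hc
    obtain ⟨h1, h2⟩ := key hBNB hPSI Q s J hs hJe hJ e u c he heQ hc
    have h3 : Real.exp (-(s : ℝ)) ≤ 1 := Real.exp_le_one_iff.mpr (by simp)
    exact ⟨by linarith, by linarith⟩

end

end Pool.Agent.Lib.MP_3efbeb_nt.ER.SV
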