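import Pool.Agent.Lib.MP_3efbeb_nt.ER.SV.SpecM

/-!
# MP_3efbeb_nt, ER/SV, PMT (helper96): Poisson sums of the upper blocks

The lower bound `1/2` is the term `t = 0` of the Poisson sum (PSI, BNB); for the upper bound
`PE (log 2) (2m) (cb 0 (2m)) = ∑_{l ≤ 2m} (- log 2)^l / l!` is compared with `exp (- log 2) = 1/2` by `Real.exp_bound`.
-/

set_option autoImplicit false

namespace Pool.Agent.Lib.MP_3efbeb_nt.ER.SV

open Finset

namespace PMTM

lemma exp_log_two : Real.exp (Real.log 2) = 2 := Real.exp_log (by norm_num)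

lemma log_two_nonneg : (0 : ℝ) ≤ Real.log 2 := Real.log_nonneg (by norm_num)

lemma log_two_le_one : Real.log 2 ≤ 1 := by
  have h := Real.log_two_lt_d9
  linarith

/-- the partial sum of the exponential series -/
lemma PE_cb (m : ℕ) : PE (Real.log 2) (2 * m) (cb 0 (2 * m)) =
    ∑ l ∈ range (2 * m + 1), (-Real.log 2) ^ l / (l.factorial : ℝ) := by
  unfold PE
  refine Finset.sum_congr rfl fun l hl => ?_
  have hl' : l ≤ 2 * m := by
    have := Finset.mem_range.1 hl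
    omega
  have : cb 0 (2 * m) l = (-1 : ℝ) ^ l := by
    unfold cb
    rw [if_pos ⟨Nat.zero_le l, by omega⟩]
    simp
  rw [this, neg_pow (Real.log 2) l]

lemma upper (m : ℕ) (hm : 1 ≤ m) : PE (Real.log 2) (2 * m) (cb 0 (2 * m)) ≤ 1 / 2 * Real.exp (4 / 2 ^ m) := by
  have hlog0 := log_two_nonneg
  have hlog1 := log_two_le_one
  have hb := Real.exp_bound (x := -Real.log 2) (by rw [abs_neg, abs_of_nonneg hlog0]; exact hlog1)
    (n := 2 * m + 1) (by omega)
  rw [abs_neg, abs_of_nonneg hlog0, ← PE_cb m] at hb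
  have he : Real.exp (-Real.log 2) = 1 / 2 := by
    rw [Real.exp_neg, exp_log_two]; norm_num
  rw [he] at hb
  have h1 : PE (Real.log 2) (2 * m) (cb 0 (2 * m)) - 1 / 2 ≤
      Real.log 2 ^ (2 * m + 1) * (((2 * m + 1).succ : ℕ) / (((2 * m + 1).factorial : ℝ) * ((2 * m + 1 : ℕ) : ℝ))) := by
    have h2 := neg_abs_le ((1 : ℝ) / 2 - PE (Real.log 2) (2 * m) (cb 0 (2 * m)))
    linarith
  have hfac : (2 : ℝ) ^ m ≤ ((2 * m + 1).factorial : ℝ) := by
    have a1 : 2 ^ m ≤ (2 * m + 1).factorial := by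
      have a2 := Nat.two_pow_mul_factorial_le_factorial_two_mul m
      have a3 : (2 * m).factorial ≤ (2 * m + 1).factorial := Nat.factorial_le (by omega)
      have a4 : 1 ≤ m.factorial := Nat.factorial_pos m
      nlinarith [Nat.mul_le_mul_left (2 ^ m) a4]
    exact_mod_cast a1
  have hfac0 : (0 : ℝ) < ((2 * m + 1).factorial : ℝ) := by exact_mod_cast Nat.factorial_pos _
  have hp : (0 : ℝ) < (2 : ℝ) ^ m := by positivity
  have h3 : (((2 * m + 1).succ : ℕ) : ℝ) / (((2 * m + 1).factorial : ℝ) * ((2 * m + 1 : ℕ) : ℝ)) ≤ 2 / 2 ^ m := by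
    rw [div_le_div_iff₀ (by positivity) hp]
    have h4 : (((2 * m + 1).succ : ℕ) : ℝ) ≤ 2 * ((2 * m + 1 : ℕ) : ℝ) := by
      push_cast
      have : (1 : ℝ) ≤ m := by exact_mod_cast hm
      linarith
    calc (((2 * m + 1).succ : ℕ) : ℝ) * 2 ^ m ≤ (2 * ((2 * m + 1 : ℕ) : ℝ)) * ((2 * m + 1).factorial : ℝ) :=
          mul_le_mul h4 hfac hp.le (by positivity)
      _ = 2 * (((2 * m + 1).factorial : ℝ) * ((2 * m + 1 : ℕ) : ℝ)) := by ring
  have h5 : Real.log 2 ^ (2 * m + 1) ≤ 1 := pow_le_one₀ hlog0 hlog1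
  have h6 : Real.log 2 ^ (2 * m + 1) * ((((2 * m + 1).succ : ℕ) : ℝ) / (((2 * m + 1).factorial : ℝ) * ((2 * m + 1 : ℕ) : ℝ)))
      ≤ 1 * (2 / 2 ^ m) := mul_le_mul h5 h3 (by positivity) zero_le_one
  have h7 : (4 : ℝ) / 2 ^ m + 1 ≤ Real.exp (4 / 2 ^ m) := Real.add_one_le_exp _
  have h8 : (2 : ℝ) / 2 ^ m = 1 / 2 * (4 / 2 ^ m) := by ring
  linarith

end PMTM

open PMTM in
theorem specPMT (hBNB : SpecBNB) (hPSI : SpecPSI) : SpecPMT := by
  intro m hm
  have hJ : Even (2 * m) := even_two_mul m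
  have hbon : ∀ t, pol (2 * m) (cb 0 (2 * m)) t = bon 0 (2 * m) t := by
    intro t
    unfold bon
    rw [Nat.zero_add]
  refine ⟨⟨?_, upper m hm⟩, ?_⟩
  · have h := hPSI (Real.log 2) (2 * m) (cb 0 (2 * m)) log_two_nonneg
    rw [exp_log_two] at h
    have h0 : pol (2 * m) (cb 0 (2 * m)) 0 * (Real.log 2 ^ 0 / ((Nat.factorial 0 : ℕ) : ℝ)) = 1 := by
      rw [hbon, (hBNB 0 (2 * m) 0 hJ).2.1]
      simp
    have h1 := le_hasSum h 0 (fun t _ => by
      rw [hbon]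
      exact mul_nonneg (hBNB 0 (2 * m) t hJ).1
        (div_nonneg (pow_nonneg log_two_nonneg _) (Nat.cast_nonneg _)))
    rw [h0] at h1
    linarith
  · intro e u c he hc
    have h := hPSI (Real.log 2) u c log_two_nonneg
    rw [exp_log_two] at h
    have hnn : ∀ t : ℕ, 0 ≤ pol u c t * (Real.log 2 ^ t / (t.factorial : ℝ)) := fun t => by
      rw [← hc t]
      exact mul_nonneg (pow_nonneg (hBNB 0 (2 * m) t hJ).1 e)
        (div_nonneg (pow_nonneg log_two_nonneg _) (Nat.cast_nonneg _))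
    have h0 : 0 ≤ 2 * PE (Real.log 2) u c := h.nonneg hnn
    refine ⟨by linarith, ?_⟩
    have hexp : HasSum (fun t : ℕ => (4 ^ e * Real.log 2) ^ t / (t.factorial : ℝ)) (Real.exp (4 ^ e * Real.log 2)) := by
      have := NormedSpace.expSeries_div_hasSum_exp (𝔸 := ℝ) (4 ^ e * Real.log 2)
      rw [← Real.exp_eq_exp_ℝ] at this
      exact this
    have hle := hasSum_le (fun t : ℕ => (?_ : pol u c t * (Real.log 2 ^ t / (t.factorial : ℝ)) ≤
      (4 ^ e * Real.log 2) ^ t / (t.factorial : ℝ))) h hexp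
    · have h2 : Real.exp (4 ^ e * Real.log 2) = 2 ^ (4 ^ e) := by
        rw [mul_comm, Real.exp_mul, exp_log_two]
        have : (4 : ℝ) ^ e = ((4 ^ e : ℕ) : ℝ) := by push_cast; ring
        rw [this, Real.rpow_natCast]
      rw [h2] at hle
      linarith
    · rw [← hc t, mul_pow, mul_div_assoc]
      refine mul_le_mul_of_nonneg_right ?_ (div_nonneg (pow_nonneg log_two_nonneg _) (Nat.cast_nonneg _))
      calc bon 0 (2 * m) t ^ e ≤ (4 ^ t) ^ e :=
            pow_le_pow_left₀ (hBNB 0 (2 * m) t hJ).1 (hBNB 0 (2 * m) t hJ).2.2.2 e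
        _ = (4 ^ e) ^ t := by rw [← pow_mul, ← pow_mul, Nat.mul_comm]

end Pool.Agent.Lib.MP_3efbeb_nt.ER.SV
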