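import Pool.Agent.Lib.MP_3efbeb_nt.ER.SV.SpecP
import Pool.Agent.Lib.PntAP.Main

/-!
# MP_3efbeb_nt, ER/SV, group P: PNI (helper22)

Primes in a class in intervals `(u, v]`, `v/u` between `3/2` and `4`.
-/

set_option autoImplicit false

namespace Pool.Agent.Lib.MP_3efbeb_nt.ER.P3

open Finset Filter Topology
open scoped Classical

noncomputable section

namespace PNIM

/-- the count in `(u, v]` is a difference of two values of `piAP` -/
theorem card_diff (M : ℕ) (u v b : ℕ) (huv : u ≤ v) :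
    (((Ioc u v).filter (fun P => P.Prime ∧ P % M = b % M)).card : ℝ)
      = PntAP.piAP (b : ZMod M) v - PntAP.piAP (b : ZMod M) u := by
  have hf : ∀ s : Finset ℕ, s.filter (fun p : ℕ => p.Prime ∧ (p : ZMod M) = (b : ZMod M))
      = s.filter (fun P => P.Prime ∧ P % M = b % M) := by
    intro s
    refine filter_congr fun p _ => ?_
    rw [ZMod.natCast_eq_natCast_iff']
  have hpi : ∀ w : ℕ, PntAP.piAP (b : ZMod M) w
      = (((Ioc 0 w).filter (fun P => P.Prime ∧ P % M = b % M)).card : ℝ) := by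
    intro w
    unfold PntAP.piAP
    rw [Nat.floor_natCast, ← hf]
    rfl
  rw [hpi, hpi, ← Finset.Ioc_union_Ioc_eq_Ioc (Nat.zero_le u) huv, filter_union,
    card_union_of_disjoint (disjoint_filter_filter (Finset.Ioc_disjoint_Ioc_of_le le_rfl))]
  push_cast
  ring

/-- the real inequality -/
theorem ineq {ε δ φ u v lu lv A B : ℝ} (hε : 0 < ε) (hε1 : ε < 1) (hδ : δ = ε / 20) (hφ : 0 < φ)
    (hu : 0 < u) (h32 : 3 * u ≤ 2 * v) (hlu : 0 < lu) (hlv : 0 < lv) (hl : lv ≤ (1 + δ) * lu)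
    (hA : |A * lv / v - 1 / φ| < δ / φ) (hB : |B * lu / u - 1 / φ| < δ / φ) :
    (1 - ε) * ((v - u) / (φ * lv)) ≤ A - B := by
  have hv : 0 < v := by linarith
  have hδ0 : 0 < δ := by rw [hδ]; linarith
  have hA1 : (1 - δ) * v / (φ * lv) ≤ A := by
    have h1 : (1 - δ) / φ ≤ A * lv / v := by
      have := (abs_lt.1 hA).1
      have h2 : (1 - δ) / φ = 1 / φ - δ / φ := by ring
      linarith
    rw [div_le_div_iff₀ hφ hv] at h1
    rw [div_le_iff₀ (mul_pos hφ hlv)]
    nlinarith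
  have hB1 : B ≤ (1 + δ) * u / (φ * lu) := by
    have h1 : B * lu / u ≤ (1 + δ) / φ := by
      have := (abs_lt.1 hB).2
      have h2 : (1 + δ) / φ = 1 / φ + δ / φ := by ring
      linarith
    rw [div_le_div_iff₀ hu hφ] at h1
    rw [le_div_iff₀ (mul_pos hφ hlu)]
    nlinarith
  have hB2 : (1 + δ) * u / (φ * lu) ≤ (1 + δ) * (1 + δ) * u / (φ * lv) := by
    rw [div_le_div_iff₀ (mul_pos hφ hlu) (mul_pos hφ hlv)]
    have h3 : (1 + δ) * u * φ * lv ≤ (1 + δ) * u * φ * ((1 + δ) * lu) :=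
      mul_le_mul_of_nonneg_left hl (by positivity)
    nlinarith
  have h4 : (1 - ε) * ((v - u) / (φ * lv)) ≤ (1 - δ) * v / (φ * lv) - (1 + δ) * (1 + δ) * u / (φ * lv) := by
    rw [← mul_div_assoc, ← sub_div]
    refine div_le_div_of_nonneg_right ?_ (mul_pos hφ hlv).le
    have h5 : δ * (v + (2 + δ) * u) ≤ ε * (v - u) := by
      rw [hδ]
      have h6 : ε / 20 ≤ 1 := by linarith
      have h7 : v + (2 + ε / 20) * u ≤ 3 * v := by nlinarith
      have h8 : v / 3 ≤ v - u := by linarith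
      have h9 : ε / 20 * (v + (2 + ε / 20) * u) ≤ ε / 20 * (3 * v) :=
        mul_le_mul_of_nonneg_left h7 (by linarith)
      have h10 : ε * (v / 3) ≤ ε * (v - u) := mul_le_mul_of_nonneg_left h8 hε.le
      nlinarith
    nlinarith
  linarith

end PNIM

open PNIM

/-- PNI -/
theorem specPNI : SpecPNI := by
  intro M ε hM hε
  have : NeZero M := ⟨by omega⟩
  by_cases hε1 : 1 ≤ ε
  · refine ⟨1, ?_⟩
    intro u v hu h32 h4 b hb
    have h1 : 0 ≤ ((v : ℝ) - u) / ((M.totient : ℝ) * Real.log v) := by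
      apply div_nonneg
      · have h : u ≤ v := by omega
        have h' : (u : ℝ) ≤ v := by exact_mod_cast h
        linarith
      · exact mul_nonneg (Nat.cast_nonneg _) (Real.log_natCast_nonneg v)
    have h2 : (1 - ε) * (((v : ℝ) - u) / ((M.totient : ℝ) * Real.log v)) ≤ 0 :=
      mul_nonpos_of_nonpos_of_nonneg (by linarith) h1
    exact h2.trans (Nat.cast_nonneg _)
  have hε1' : ε < 1 := not_le.1 hε1
  have hφ : (0 : ℝ) < (M.totient : ℝ) := Nat.cast_pos.2 (Nat.totient_pos.2 (by omega))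
  have hδ : (0 : ℝ) < ε / 20 := by linarith
  have hev : ∀ᶠ x : ℝ in atTop, ∀ a : ZMod M, IsUnit a →
      |PntAP.piAP a x * Real.log x / x - 1 / (M.totient : ℝ)| < ε / 20 / (M.totient : ℝ) := by
    rw [Filter.eventually_all]
    intro a
    by_cases ha : IsUnit a
    · have h := (PntAP.pi_ap ha).eventually (Metric.ball_mem_nhds _ (div_pos hδ hφ))
      filter_upwards [h] with x hx _
      rwa [Real.dist_eq] at hx
    · exact Filter.Eventually.of_forall fun x h => absurd h ha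
  obtain ⟨X0, hX0⟩ := Filter.eventually_atTop.1 hev
  refine ⟨max (max ⌈X0⌉₊ ⌈Real.exp (Real.log 4 / (ε / 20))⌉₊) 3, ?_⟩
  intro u v hu h32 h4 b hb
  have hu1 : ⌈X0⌉₊ ≤ u := (le_max_left _ _).trans ((le_max_left _ _).trans hu)
  have hu2 : ⌈Real.exp (Real.log 4 / (ε / 20))⌉₊ ≤ u := (le_max_right _ _).trans ((le_max_left _ _).trans hu)
  have hu3 : 3 ≤ u := (le_max_right _ _).trans hu
  have huv : u ≤ v := by omega
  have hX : X0 ≤ u := (Nat.le_ceil X0).trans (by exact_mod_cast hu1)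
  have huvR : (u : ℝ) ≤ v := by exact_mod_cast huv
  have huR : (3 : ℝ) ≤ u := by exact_mod_cast hu3
  have hE : Real.exp (Real.log 4 / (ε / 20)) ≤ u := (Nat.le_ceil _).trans (by exact_mod_cast hu2)
  have hlu : Real.log 4 / (ε / 20) ≤ Real.log u := by
    rw [← Real.log_exp (Real.log 4 / (ε / 20))]
    exact Real.log_le_log (Real.exp_pos _) hE
  have hlu' : Real.log 4 ≤ ε / 20 * Real.log u := by
    rw [div_le_iff₀ hδ] at hlu
    linarith
  have hlu0 : 0 < Real.log u := Real.log_pos (by linarith)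
  have hlv0 : 0 < Real.log v := Real.log_pos (by linarith)
  have h4R : (v : ℝ) ≤ 4 * u := by exact_mod_cast h4
  have hl : Real.log v ≤ (1 + ε / 20) * Real.log u := by
    have h5 : Real.log v ≤ Real.log (4 * u) := Real.log_le_log (by linarith) h4R
    rw [Real.log_mul (by norm_num) (by linarith)] at h5
    linarith
  have h32R : 3 * (u : ℝ) ≤ 2 * v := by exact_mod_cast h32
  have hbu : IsUnit (b : ZMod M) := (ZMod.isUnit_iff_coprime b M).2 hb
  rw [card_diff M u v b huv]
  exact ineq hε hε1' rfl hφ (by linarith) h32R hlu0 hlv0 hl (hX0 v (hX.trans huvR) _ hbu) (hX0 u hX _ hbu)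

end

end Pool.Agent.Lib.MP_3efbeb_nt.ER.P3
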