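import Pool.Agent.Lib.MP_3efbeb_nt.ER.SV.SpecM

/-!
# MP_3efbeb_nt, ER/SV: PSI, Poisson sums of polynomials in the binomial basis (helper75)
-/

set_option autoImplicit false

namespace Pool.Agent.Lib.MP_3efbeb_nt.ER.SV

open Finset Filter Topology

namespace PSIM

theorem hasSum_choose (lam : ℝ) (l : ℕ) :
    HasSum (fun t : ℕ => (t.choose l : ℝ) * (lam ^ t / (t.factorial : ℝ)))
      (Real.exp lam * (lam ^ l / (l.factorial : ℝ))) := by
  rw [← hasSum_nat_add_iff' l]
  have h0 : ∑ i ∈ range l, (i.choose l : ℝ) * (lam ^ i / (i.factorial : ℝ)) = 0 := by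
    refine sum_eq_zero fun i hi => ?_
    rw [Nat.choose_eq_zero_of_lt (mem_range.1 hi)]
    simp
  rw [h0, sub_zero]
  have h1 : HasSum (fun t : ℕ => lam ^ t / (t.factorial : ℝ)) (Real.exp lam) := by
    rw [Real.exp_eq_exp_ℝ]
    exact NormedSpace.expSeries_div_hasSum_exp lam
  refine (h1.mul_right (lam ^ l / (l.factorial : ℝ))).congr_fun ?_ 
  intro t
  have h2 : ((t + l).choose l : ℝ) * ((l.factorial : ℝ) * (t.factorial : ℝ)) =
      ((t + l).factorial : ℝ) := by
    have := Nat.add_choose_mul_factorial_mul_factorial t l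
    have h3 : ((((t + l).choose l) * t.factorial * l.factorial : ℕ) : ℝ) =
      ((t + l).factorial : ℝ) := by exact_mod_cast this
    rw [← h3]
    push_cast
    ring
  have h4 : ((t + l).factorial : ℝ) ≠ 0 := by positivity
  have h5 : (l.factorial : ℝ) ≠ 0 := by positivity
  have h6 : (t.factorial : ℝ) ≠ 0 := by positivity
  rw [pow_add]
  field_simp
  rw [← h2]
  ring

end PSIM

theorem specPSI : SpecPSI := by
  intro lam u c _
  have h : HasSum (fun t : ℕ => ∑ l ∈ range (u + 1),
      c l * ((t.choose l : ℝ) * (lam ^ t / (t.factorial : ℝ))))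
      (∑ l ∈ range (u + 1), c l * (Real.exp lam * (lam ^ l / (l.factorial : ℝ)))) :=
    hasSum_sum fun l _ => (PSIM.hasSum_choose lam l).mul_left (c l)
  have e1 : (fun t : ℕ => ∑ l ∈ range (u + 1),
      c l * ((t.choose l : ℝ) * (lam ^ t / (t.factorial : ℝ)))) =
      fun t : ℕ => pol u c t * (lam ^ t / (t.factorial : ℝ)) := by
    funext t
    unfold pol
    rw [sum_mul]
    exact sum_congr rfl fun l _ => by ring
  have e2 : ∑ l ∈ range (u + 1), c l * (Real.exp lam * (lam ^ l / (l.factorial : ℝ))) =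
      Real.exp lam * PE lam u c := by
    unfold PE
    rw [mul_sum]
    exact sum_congr rfl fun l _ => by ring
  rw [e1, e2] at h
  exact h

end Pool.Agent.Lib.MP_3efbeb_nt.ER.SV
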