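import Pool.Agent.Lib.MP_3efbeb_nt.ER.SV.SpecM

/-!
# MP_3efbeb_nt, ER/SV, module PSL: bounds for the Poisson weight `Ps`
-/

set_option autoImplicit false

namespace Pool.Agent.Lib.MP_3efbeb_nt.ER.SV

open Finset Filter Topology

namespace PSLM

/-- `s^(s+1) ≤ e^(-1) (s+1)^(s+1)` -/
theorem pow_step (s : ℕ) :
    (s : ℝ) ^ (s + 1) ≤ Real.exp (-1) * ((s : ℝ) + 1) ^ (s + 1) := by
  have hs : (0 : ℝ) < (s : ℝ) + 1 := by positivity
  have h1 : (s : ℝ) / ((s : ℝ) + 1) ≤ Real.exp (-1 / ((s : ℝ) + 1)) := by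
    have h2 := Real.add_one_le_exp (-1 / ((s : ℝ) + 1))
    have h3 : (s : ℝ) / ((s : ℝ) + 1) = -1 / ((s : ℝ) + 1) + 1 := by
      field_simp
      ring
    rw [h3]
    exact h2
  have h4 : ((s : ℝ) / ((s : ℝ) + 1)) ^ (s + 1) ≤ Real.exp (-1 / ((s : ℝ) + 1)) ^ (s + 1) :=
    pow_le_pow_left₀ (by positivity) h1 _
  rw [← Real.exp_nat_mul, div_pow] at h4
  have h5 : ((s + 1 : ℕ) : ℝ) * (-1 / ((s : ℝ) + 1)) = -1 := by
    push_cast
    field_simp
  rw [h5, div_le_iff₀ (by positivity)] at h4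
  exact h4

theorem lower (s : ℕ) (hs : 1 ≤ s) : Real.exp (-1) ≤ (s : ℝ) * Ps s := by
  induction s, hs using Nat.le_induction with
  | base => simp [Ps]
  | succ n hn ih =>
    refine ih.trans ?_
    have hn0 : (0 : ℝ) < (n : ℝ) := by exact_mod_cast hn
    have hf : (0 : ℝ) < (n.factorial : ℝ) := by exact_mod_cast n.factorial_pos
    have h1 : (n : ℝ) * Ps n = Real.exp (-(n : ℝ)) * (n : ℝ) ^ (n + 1) / (n.factorial : ℝ) := by
      unfold Ps
      rw [pow_succ]
      ring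
    have h2 : ((n + 1 : ℕ) : ℝ) * Ps (n + 1) =
        Real.exp (-(n : ℝ)) * (Real.exp (-1) * ((n : ℝ) + 1) ^ (n + 1)) / (n.factorial : ℝ) := by
      unfold Ps
      rw [Nat.factorial_succ]
      push_cast
      have h3 : Real.exp (-((n : ℝ) + 1)) = Real.exp (-(n : ℝ)) * Real.exp (-1) := by
        rw [← Real.exp_add]
        congr 1
        ring
      rw [h3]
      field_simp
    rw [h1, h2]
    have h4 := pow_step n
    gcongr

end PSLM

open PSLM in
theorem specPSL : SpecPSL := by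
  intro s hs
  have hs0 : (0 : ℝ) < (s : ℝ) := by exact_mod_cast hs
  have hf : (0 : ℝ) < (s.factorial : ℝ) := by exact_mod_cast s.factorial_pos
  refine ⟨?_, ?_, ?_⟩
  · unfold Ps
    rw [mul_div_assoc]
    refine le_mul_of_one_le_right (Real.exp_nonneg _) ?_
    rw [one_le_div hf]
    exact_mod_cast Nat.factorial_le_pow s
  · unfold Ps
    rw [mul_div_assoc]
    have h1 := Real.pow_div_factorial_le_exp (s : ℝ) hs0.le s
    calc Real.exp (-(s : ℝ)) * ((s : ℝ) ^ s / (s.factorial : ℝ))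
        ≤ Real.exp (-(s : ℝ)) * Real.exp (s : ℝ) := by
          exact mul_le_mul_of_nonneg_left h1 (Real.exp_nonneg _)
      _ = 1 := by rw [← Real.exp_add, neg_add_cancel, Real.exp_zero]
  · rw [div_le_iff₀ hs0, mul_comm]
    exact lower s hs

end Pool.Agent.Lib.MP_3efbeb_nt.ER.SV
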