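import Pool.Agent.Lib.MP_3efbeb_nt.ER.SV.SpecP
import Pool.Agent.Lib.MP_3efbeb_nt.DL.SM
import Pool.Agent.Lib.MP_3efbeb_nt.DL.VLB

/-!
# MP_3efbeb_nt, ER/SV, module SMB (helper16): the second moment over `m`, one block, one class, explicit level
-/

set_option autoImplicit false

namespace Pool.Agent.Lib.MP_3efbeb_nt.ER.P3

open Finset Filter Topology
open scoped Classical
open Pool.Agent.Lib.MP_3efbeb_nt.DL
open Pool.Agent.Lib.MP_3efbeb_nt.DL.Base

namespace SMBM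

/-- the estimate for fixed parameters -/
lemma fixed {S : Finset ℤ} {M r z j X : ℕ} {η₁ E : ℝ} (B : Finset ℕ) (hBm : ∀ q ∈ B, q.Prime ∧ 2 ^ j < q) (hM : 1 ≤ M) (hη0 : 0 < η₁) (hη1 : η₁ ≤ 1 / 2) (hE0 : 0 ≤ E)
    (hV1 : 0 < VV 1 M z) (hVk : 0 < VV (S.card + 1) M z) (hVle : VV (S.card + 1) M z ≤ VV 1 M z)
    (hw : ∀ Y : ℕ, |((W1 M r z ∅ 1 Y).card : ℝ) - (Y : ℝ) / M * VV 1 M z| ≤ η₁ * ((Y : ℝ) / M * VV 1 M z) + E)
    (hw1 : ∀ q ∈ B, ∀ Y : ℕ, |((W1 M r z S q Y).card : ℝ) - (Y : ℝ) / M * VV (S.card + 1) M z|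
      ≤ η₁ * ((Y : ℝ) / M * VV (S.card + 1) M z) + E)
    (hw2 : ∀ q ∈ B, ∀ q' ∈ B, q ≠ q' → ∀ Y : ℕ, ((W2 M r z S q q' Y).card : ℝ)
      ≤ (1 + η₁) * ((Y : ℝ) / M) * (VV 1 M z * VQ S M z ^ 2 * DL.hh (2 * (S.card + 1)) M (Del S q q')) + E)
    (hAVG : ∀ q ∈ B, ∑ q' ∈ B.erase q, (DL.hh (2 * (S.card + 1)) M (Del S q q') - 1)
      ≤ η₁ * B.card)
    (hN : 2 ≤ η₁ * VQ S M z ^ 2 * B.card)
    (hE : 4 * E ≤ η₁ * ((X : ℝ) / 2 ^ j / M * (VV 1 M z * VQ S M z ^ 2))) :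
    (∑ m ∈ W1 M r z ∅ 1 X, |∑ q ∈ B.filter (fun q => q * m ≤ X), SMM.ff M z S q m|) ^ 2
      ≤ 16 * η₁ * ((X : ℝ) / 2 ^ j / M * VV (S.card + 1) M z * B.card) ^ 2 := by
  set V1 := VV 1 M z with hV1d
  set Vk := VV (S.card + 1) M z with hVkd
  set V' := VQ S M z with hV'd
  set N := (B.card : ℝ) with hNd
  set Yr := (X : ℝ) / 2 ^ j / M with hYr
  have hk : V1 * V' = Vk := by
    rw [hV'd]; unfold VQ; rw [← hVkd, ← hV1d]; field_simp
  have hV'0 : 0 < V' := by rw [hV'd]; unfold VQ; rw [← hVkd, ← hV1d]; positivity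
  have hV'1 : V' ≤ 1 := by rw [hV'd]; unfold VQ; rw [← hVkd, ← hV1d]; exact (div_le_one hV1).2 hVle
  have hM0 : (0 : ℝ) < M := by exact_mod_cast hM
  have h2j : (0 : ℝ) < 2 ^ j := by positivity
  have hYr0 : 0 ≤ Yr := by positivity
  have hN0 : 0 ≤ N := by positivity
  -- `Y' / M ≤ Yr`
  have hYle : ∀ q q' : ℕ, q ∈ B → (((X / max q q' : ℕ) : ℝ)) / M ≤ Yr := by
    intro q q' hq
    have h1 := (hBm q hq).2
    rw [hYr]
    refine div_le_div_of_nonneg_right ?_ hM0.le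
    refine Nat.cast_div_le.trans ?_
    refine div_le_div_of_nonneg_left (by positivity) h2j ?_
    exact_mod_cast h1.le.trans (le_max_left _ _)
  have hff : ∀ q m, SMM.ff M z S q m ^ 2 ≤ 1 := by
    intro q m
    unfold SMM.ff
    rw [← hV'd]
    split_ifs
    · nlinarith
    · nlinarith
  -- the number of `m`
  have hWn : ((W1 M r z ∅ 1 (X / 2 ^ j)).card : ℝ) ≤ 2 * (Yr * V1) := by
    have h1 : (((X / 2 ^ j : ℕ) : ℝ)) / M ≤ Yr := by
      rw [hYr]
      refine div_le_div_of_nonneg_right ?_ hM0.le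
      refine Nat.cast_div_le.trans (le_of_eq ?_)
      push_cast
      rfl
    have h2 := (abs_le.1 (hw (X / 2 ^ j))).2
    have h3 : (((X / 2 ^ j : ℕ) : ℝ)) / M * V1 ≤ Yr * V1 := mul_le_mul_of_nonneg_right h1 hV1.le
    have h4 : η₁ * ((((X / 2 ^ j : ℕ) : ℝ)) / M * V1) ≤ 1 / 2 * (Yr * V1) :=
      mul_le_mul hη1 h3 (by positivity) (by norm_num)
    have h5 : 4 * E ≤ 1 / 2 * (Yr * V1) := by
      refine hE.trans (mul_le_mul hη1 ?_ (by positivity) (by norm_num))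
      refine mul_le_mul_of_nonneg_left ?_ hYr0
      have : V' ^ 2 ≤ 1 := pow_le_one₀ hV'0.le hV'1
      nlinarith
    linarith
  -- the second moment
  have hsec : ∑ m ∈ W1 M r z ∅ 1 X, (∑ q ∈ B.filter (fun q => q * m ≤ X), SMM.ff M z S q m) ^ 2
      ≤ 8 * η₁ * (Yr * (V1 * V' ^ 2)) * N ^ 2 := by
    rw [SMM.expand M r z S B X (fun q hq => by have := (hBm q hq).1.one_lt; omega)]
    have hq1 : ∀ q ∈ B, ∑ q' ∈ B, ∑ m ∈ W1 M r z ∅ 1 (X / max q q'), SMM.ff M z S q m * SMM.ff M z S q' m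
        ≤ 8 * η₁ * (Yr * (V1 * V' ^ 2)) * N := by
      intro q hq
      rw [← Finset.add_sum_erase B _ hq]
      have hd : ∑ m ∈ W1 M r z ∅ 1 (X / max q q), SMM.ff M z S q m * SMM.ff M z S q m ≤ η₁ * (Yr * (V1 * V' ^ 2)) * N := by
        have h1 : ∑ m ∈ W1 M r z ∅ 1 (X / max q q), SMM.ff M z S q m * SMM.ff M z S q m
            ≤ ((W1 M r z ∅ 1 (X / 2 ^ j)).card : ℝ) := by
          have h2 : ∑ m ∈ W1 M r z ∅ 1 (X / max q q), SMM.ff M z S q m * SMM.ff M z S q m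
              ≤ ∑ _m ∈ W1 M r z ∅ 1 (X / max q q), (1 : ℝ) := Finset.sum_le_sum fun m _ => by
            have := hff q m
            rwa [sq] at this
          rw [Finset.sum_const, nsmul_eq_mul, mul_one] at h2
          refine h2.trans ?_
          have h3 : W1 M r z ∅ 1 (X / max q q) ⊆ W1 M r z ∅ 1 (X / 2 ^ j) := by
            intro m hm
            unfold W1 at hm ⊢
            rw [mem_filter, mem_Icc] at hm ⊢
            refine ⟨⟨hm.1.1, hm.1.2.trans (Nat.div_le_div_left ?_ (by positivity))⟩, hm.2⟩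
            exact (hBm q hq).2.le.trans (le_max_left _ _)
          exact_mod_cast Finset.card_le_card h3
        refine h1.trans (hWn.trans ?_)
        have h4 : 2 * (Yr * V1) ≤ (η₁ * V' ^ 2 * N) * (Yr * V1) := mul_le_mul_of_nonneg_right hN (by positivity)
        refine h4.trans (le_of_eq (by ring))
      have ho : ∑ q' ∈ B.erase q, ∑ m ∈ W1 M r z ∅ 1 (X / max q q'), SMM.ff M z S q m * SMM.ff M z S q' m
          ≤ 7 * η₁ * (Yr * (V1 * V' ^ 2)) * N := by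
        have h1 : ∀ q' ∈ B.erase q, ∑ m ∈ W1 M r z ∅ 1 (X / max q q'), SMM.ff M z S q m * SMM.ff M z S q' m
            ≤ Yr * (V1 * V' ^ 2) * ((1 + η₁) * (DL.hh (2 * (S.card + 1)) M (Del S q q') - 1))
              + (Yr * (V1 * V' ^ 2) * (4 * η₁) + 4 * E) := by
          intro q' hq'
          rw [Finset.mem_erase] at hq'
          rw [SMM.pair_sum, ← hV'd]
          have h2 := SMM.pair_bound hη0.le hV'0.le hV'1 hk hE0 (hw2 q hq q' hq'.2 (Ne.symm hq'.1) (X / max q q'))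
            (hw (X / max q q')) (hw1 q hq (X / max q q')) (hw1 q' hq'.2 (X / max q q'))
          refine h2.trans ?_
          have h3 : 0 ≤ (1 + η₁) * (DL.hh (2 * (S.card + 1)) M (Del S q q') - 1) + 4 * η₁ := by
            have := SMM.hh_ge_one (A := 2 * ((S.card : ℝ) + 1)) (by positivity) M (Del S q q')
            have h4 : 0 ≤ (1 + η₁) * (DL.hh (2 * (S.card + 1)) M (Del S q q') - 1) :=
              mul_nonneg (by linarith) (by linarith)
            linarith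
          have h5 : (((X / max q q' : ℕ) : ℝ)) / M * (V1 * V' ^ 2) *
              ((1 + η₁) * (DL.hh (2 * (S.card + 1)) M (Del S q q') - 1) + 4 * η₁)
              ≤ Yr * (V1 * V' ^ 2) * ((1 + η₁) * (DL.hh (2 * (S.card + 1)) M (Del S q q') - 1) + 4 * η₁) :=
            mul_le_mul_of_nonneg_right (mul_le_mul_of_nonneg_right (hYle q q' hq) (by positivity)) h3
          linarith
        refine (Finset.sum_le_sum h1).trans ?_
        rw [Finset.sum_add_distrib, ← Finset.mul_sum, ← Finset.mul_sum, Finset.sum_const, nsmul_eq_mul]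
        have h6 := hAVG q hq
        have h7 : ((B.erase q).card : ℝ) ≤ N := by
          rw [hNd]
          exact_mod_cast Finset.card_erase_le
        have h8 : Yr * (V1 * V' ^ 2) * ((1 + η₁) * ∑ q' ∈ B.erase q, (DL.hh (2 * (S.card + 1)) M (Del S q q') - 1))
            ≤ Yr * (V1 * V' ^ 2) * (3 / 2 * (η₁ * N)) := by
          refine mul_le_mul_of_nonneg_left ?_ (by positivity)
          refine (mul_le_mul_of_nonneg_left h6 (by linarith)).trans ?_
          exact mul_le_mul_of_nonneg_right (by linarith) (by positivity)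
        have h9 : ((B.erase q).card : ℝ) * (Yr * (V1 * V' ^ 2) * (4 * η₁) + 4 * E)
            ≤ N * (Yr * (V1 * V' ^ 2) * (4 * η₁) + η₁ * (Yr * (V1 * V' ^ 2))) := by
          refine mul_le_mul h7 (by linarith) (by positivity) hN0
        have h10 : 0 ≤ η₁ * (Yr * (V1 * V' ^ 2)) * N := by positivity
        nlinarith
      calc _ ≤ η₁ * (Yr * (V1 * V' ^ 2)) * N + 7 * η₁ * (Yr * (V1 * V' ^ 2)) * N := add_le_add hd ho
        _ = _ := by ring
    refine (Finset.sum_le_sum hq1).trans (le_of_eq ?_)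
    rw [Finset.sum_const, nsmul_eq_mul, ← hNd]
    ring
  -- Cauchy-Schwarz
  have hres : ∑ m ∈ W1 M r z ∅ 1 X, |∑ q ∈ B.filter (fun q => q * m ≤ X), SMM.ff M z S q m|
      = ∑ m ∈ W1 M r z ∅ 1 (X / 2 ^ j), |∑ q ∈ B.filter (fun q => q * m ≤ X), SMM.ff M z S q m| := by
    symm
    refine Finset.sum_subset ?_ ?_
    · intro m hm
      unfold W1 at hm ⊢
      rw [mem_filter, mem_Icc] at hm ⊢
      exact ⟨⟨hm.1.1, hm.1.2.trans (Nat.div_le_self _ _)⟩, hm.2⟩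
    · intro m hm hm'
      have he : B.filter (fun q => q * m ≤ X) = ∅ := by
        rw [Finset.filter_eq_empty_iff]
        intro q hq hqm
        apply hm'
        unfold W1 at hm ⊢
        rw [mem_filter, mem_Icc] at hm ⊢
        refine ⟨⟨hm.1.1, ?_⟩, hm.2⟩
        rw [Nat.le_div_iff_mul_le (by positivity), mul_comm]
        exact (Nat.mul_le_mul_right m (hBm q hq).2.le).trans hqm
      rw [he]
      simp
  rw [hres]
  have hcs := Finset.sum_mul_sq_le_sq_mul_sq (W1 M r z ∅ 1 (X / 2 ^ j))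
    (fun m => |∑ q ∈ B.filter (fun q => q * m ≤ X), SMM.ff M z S q m|) (fun _ => (1 : ℝ))
  simp only [mul_one, sq_abs, one_pow, Finset.sum_const, nsmul_eq_mul] at hcs
  refine hcs.trans ?_
  have hle2 : ∑ m ∈ W1 M r z ∅ 1 (X / 2 ^ j), (∑ q ∈ B.filter (fun q => q * m ≤ X), SMM.ff M z S q m) ^ 2
      ≤ ∑ m ∈ W1 M r z ∅ 1 X, (∑ q ∈ B.filter (fun q => q * m ≤ X), SMM.ff M z S q m) ^ 2 := by
    refine Finset.sum_le_sum_of_subset_of_nonneg ?_ fun _ _ _ => sq_nonneg _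
    intro m hm
    unfold W1 at hm ⊢
    rw [mem_filter, mem_Icc] at hm ⊢
    exact ⟨⟨hm.1.1, hm.1.2.trans (Nat.div_le_self _ _)⟩, hm.2⟩
  calc _ ≤ (8 * η₁ * (Yr * (V1 * V' ^ 2)) * N ^ 2) * (2 * (Yr * V1)) :=
        mul_le_mul (hle2.trans hsec) hWn (by positivity) (by positivity)
    _ = 16 * η₁ * (Yr * (V1 * V') * N) ^ 2 := by ring
    _ = _ := by rw [hk]

lemma M_ne {M : ℕ} (hM : 1 ≤ M) : (M : ℤ) ≠ 0 := by exact_mod_cast (by omega : M ≠ 0)

lemma MS_card {M : ℕ} (hM : 1 ≤ M) (S0 : Finset ℤ) : (MS M S0).card = S0.card := by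
  unfold MS
  refine card_image_of_injective _ fun a b h => ?_
  exact mul_left_cancel₀ (M_ne hM) h

lemma Del_MS {M : ℕ} (hM : 1 ≤ M) (S0 : Finset ℤ) (q q' : ℕ) : ∃ k : ℕ, Del (MS M S0) q q' = (M : ℤ) ^ k * Del S0 q q' := by
  refine ⟨S0.card * S0.card, ?_⟩
  have hinj : ∀ x ∈ S0, ∀ y ∈ S0, (M : ℤ) * x = (M : ℤ) * y → x = y := fun x _ y _ h => mul_left_cancel₀ (M_ne hM) h
  unfold Del MS
  rw [prod_image hinj]
  have h1 : ∀ a ∈ S0, ∏ s' ∈ S0.image (fun a => (M : ℤ) * a), ((M : ℤ) * a * (q' : ℤ) - s' * (q : ℤ))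
      = (M : ℤ) ^ S0.card * ∏ s' ∈ S0, (a * (q' : ℤ) - s' * (q : ℤ)) := by
    intro a _
    rw [prod_image hinj, ← prod_const, ← prod_mul_distrib]
    refine prod_congr rfl fun b _ => ?_
    ring
  rw [prod_congr rfl h1, prod_mul_distrib, prod_const, ← pow_mul]

lemma hh_mul {A : ℝ} {M : ℕ} (hM : 1 ≤ M) (k : ℕ) (n : ℤ) : DL.hh A M ((M : ℤ) ^ k * n) = DL.hh A M n := by
  unfold DL.hh
  congr 1
  ext p
  have hMk : (M : ℤ) ^ k ≠ 0 := pow_ne_zero _ (M_ne hM)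
  simp only [mem_filter, Nat.mem_primeFactors, ne_eq, Int.natAbs_eq_zero, mul_eq_zero, hMk, false_or]
  constructor
  · rintro ⟨⟨hp, h1, h2⟩, h3⟩
    refine ⟨⟨hp, ?_, h2⟩, h3⟩
    rw [Int.natAbs_mul, Int.natAbs_pow, Int.natAbs_natCast] at h1
    rcases hp.dvd_mul.1 h1 with h | h
    · exact absurd (hp.dvd_of_dvd_pow h) h3
    · exact h
  · rintro ⟨⟨hp, h1, h2⟩, h3⟩
    refine ⟨⟨hp, ?_, h2⟩, h3⟩
    rw [Int.natAbs_mul]
    exact Dvd.dvd.mul_left h1 _

lemma good_MS {M P0 : ℕ} (hM : 1 ≤ M) {S0 : Finset ℤ} (hS : ∀ s ∈ S0, s ≠ 0) (hP : ∀ p : ℕ, p.Prime → ¬ p ∣ M → P0 < p)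
    (hsum : 2 * ∑ s ∈ S0, s.natAbs ≤ P0) : Good (MS M S0) P0 M := by
  have hle : ∀ s ∈ S0, s.natAbs ≤ ∑ s ∈ S0, s.natAbs := fun s hs =>
    Finset.single_le_sum (f := fun s : ℤ => s.natAbs) (fun _ _ => Nat.zero_le _) hs
  have key : ∀ p : ℕ, p.Prime → ¬ p ∣ M → ∀ a : ℤ, a ≠ 0 → a.natAbs ≤ P0 → ¬ (p : ℤ) ∣ (M : ℤ) * a := by
    intro p hp hpM a ha hle h
    rcases (Nat.prime_iff_prime_int.1 hp).dvd_or_dvd h with h1 | h1
    · exact hpM (by exact_mod_cast h1)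
    · have h2 : p ∣ a.natAbs := Int.natCast_dvd.1 h1
      have h3 := Nat.le_of_dvd (Int.natAbs_pos.2 ha) h2
      have := hP p hp hpM
      omega
  refine ⟨hM, fun p hp hpM => ⟨hP p hp hpM, ?_, ?_⟩⟩
  · intro s hs
    unfold MS at hs
    rw [mem_image] at hs
    obtain ⟨a, ha, rfl⟩ := hs
    have := hle a ha
    exact key p hp hpM a (hS a ha) (by omega)
  · intro s hs s' hs' hne
    unfold MS at hs hs'
    rw [mem_image] at hs hs'
    obtain ⟨a, ha, rfl⟩ := hs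
    obtain ⟨a', ha', rfl⟩ := hs'
    have h1 := hle a ha
    have h2 := hle a' ha'
    have h3 : a ≠ a' := fun h => hne (by rw [h])
    rw [← mul_sub]
    refine key p hp hpM (a - a') (sub_ne_zero.2 h3) ?_
    have := Int.natAbs_sub_le a a'
    omega

end SMBM

open SMBM in
/-- SMB. -/
theorem specSMB (hC1 : SpecC1U) (hC2 : SpecC2U) (hAVG : SpecAVGB) (hBLK : SpecBLKB) : SpecSMB := by
  intro S0 η b0 hη hS hPar
  obtain ⟨hb0, hPar⟩ := hPar
  obtain ⟨η₁, hη₁⟩ : ∃ e : ℝ, e = min (1 / 2) (η ^ 2 / 64) := ⟨_, rfl⟩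
  rw [← hη₁] at hPar
  have hη0 : 0 < η₁ := by rw [hη₁]; positivity
  have hηh : η₁ ≤ 1 / 2 := by rw [hη₁]; exact min_le_left _ _
  have hη2 : 16 * η₁ ≤ (η / 2) ^ 2 := by
    have : η₁ ≤ η ^ 2 / 64 := by rw [hη₁]; exact min_le_right _ _
    nlinarith
  have hexp : ∀ t : ℝ, t ≤ 38 * ((S0.card : ℝ) + 1) → 3 * Real.exp (t - b0) ≤ η₁ := by
    intro t ht
    refine le_trans ?_ hPar
    have : Real.exp (t - b0) ≤ Real.exp (38 * ((S0.card + 1 : ℕ) : ℝ) - b0) := by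
      rw [Real.exp_le_exp]
      push_cast
      linarith
    linarith
  have hc0 : (0 : ℝ) ≤ S0.card := Nat.cast_nonneg _
  obtain ⟨P0, hAVG⟩ := hAVG S0 η₁ hη0 hS
  refine ⟨P0 + 4 * (S0.card + 1) + 2 * ∑ s ∈ S0, s.natAbs, fun M hM1 hP => ?_⟩
  obtain ⟨S, hSd⟩ : ∃ S : Finset ℤ, S = MS M S0 := ⟨_, rfl⟩
  have hcard : S.card = S0.card := by rw [hSd, MS_card hM1]
  have hM : Good S (P0 + 4 * (S0.card + 1) + 2 * ∑ s ∈ S0, s.natAbs) M := by
    rw [hSd]
    exact good_MS hM1 hS hP (by omega)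
  have hSne : ∀ s ∈ S, s ≠ 0 := by
    intro s hs
    rw [hSd] at hs
    unfold MS at hs
    rw [mem_image] at hs
    obtain ⟨a, ha, rfl⟩ := hs
    exact mul_ne_zero (M_ne hM1) (hS a ha)
  obtain ⟨j0, hj0⟩ := hAVG M hM1 (fun p hp hpM => by have := hP p hp hpM; omega)
  obtain ⟨j1, hj1⟩ := hBLK M hM1
  have htm : ∀ p : ℕ, p.Prime → ¬ p ∣ M → 2 * (S.card + 1) ≤ p := Good.two_mul hM (by omega)
  have htm1 : ∀ p : ℕ, p.Prime → ¬ p ∣ M → 2 * 1 ≤ p := Good.two_mul hM (by omega)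
  obtain ⟨zv, hzv⟩ := specVLP (S.card + 1) M 2 hM1 htm
  obtain ⟨j2, hj2⟩ := SMM.exists_j2 (4 * (M.totient : ℝ) / η₁)
  obtain ⟨zc, hzc⟩ := exists_nat_ge (16 * (M : ℝ) / η₁)
  refine ⟨zv + zc + 2 ^ j0 + 2 ^ j1 + 2 ^ j2 + (∑ s ∈ S, s.natAbs) + 2,
    fun z hz j hj b hb X r hX => ?_⟩
  rw [← hSd, ← hcard]
  have hp0 : 0 < 2 ^ j0 := by positivity
  have hp1 : 0 < 2 ^ j1 := by positivity
  have hp2 : 0 < 2 ^ j2 := by positivity
  have hz2 : 2 ≤ z := by omega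
  have hjj : ∀ i, 2 ^ i ≤ z → i ≤ j := fun i hi => (Nat.pow_le_pow_iff_right (by norm_num)).1 (hi.trans hj)
  have hJ0 : j0 ≤ j := hjj j0 (by omega)
  have hJ1 : j1 ≤ j := hjj j1 (by omega)
  have hJ2 : j2 ≤ j := hjj j2 (by omega)
  have hj1' : 1 ≤ j := by
    by_contra hcon
    have : j = 0 := by omega
    rw [this] at hj
    omega
  have hzr : (2 : ℝ) ≤ z := by exact_mod_cast hz2
  have hz0 : (0 : ℝ) < z := by linarith
  have hz1 : (1 : ℝ) ≤ z := by linarith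
  have hM0 : (0 : ℝ) < M := by exact_mod_cast hM1
  have hmem : ∀ q ∈ bb M b j, q.Prime ∧ 2 ^ j < q ∧ q ≤ 2 ^ (j + 1) := by
    intro q hq
    unfold bb at hq
    rw [mem_filter, mem_Ioc] at hq
    exact ⟨hq.2.1, hq.1.1, hq.1.2⟩
  -- the products
  have hV1 : 0 < VV 1 M z := VV_pos htm1
  have hV1' : VV 1 M z ≤ 1 := VV_le_one htm1
  have hVk : 0 < VV (S.card + 1) M z := VV_pos htm
  have hVle : VV (S.card + 1) M z ≤ VV 1 M z := SMM.VV_le (by omega) htm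
  have hVQ : VV (S.card + 1) M z ≤ VQ S M z := by
    unfold VQ
    rw [le_div_iff₀ hV1]
    nlinarith
  have hVQ2 : (z : ℝ) ^ (-(1 : ℝ) / 4) ≤ VQ S M z ^ 2 :=
    (hzv z (by omega)).trans (pow_le_pow_left₀ hVk.le hVQ 2)
  have hVQ3 : (z : ℝ) ^ (-(1 : ℝ) / 4) ≤ VV 1 M z * VQ S M z ^ 2 := by
    have h3 : VV 1 M z * VQ S M z ^ 2 = VV (S.card + 1) M z * VQ S M z := by
      unfold VQ
      field_simp
    rw [h3]
    refine (hzv z (by omega)).trans ?_
    rw [sq]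
    exact mul_le_mul_of_nonneg_left hVQ hVk.le
  have hkey := fixed (S := S) (M := M) (r := r) (z := z) (j := j) (X := X) (η₁ := η₁) (E := 4 * (z : ℝ) ^ (16 * b0 + 33))
    (bb M b j) (fun q hq => ⟨(hmem q hq).1, (hmem q hq).2.1⟩) hM1 hη0 hηh
    (by positivity) hV1 hVk hVle
    (by
      intro Y
      have hg : Good ∅ (2 * ((∅ : Finset ℤ).card + 1)) M := Good.mono (Good.empty hM) (by simp; omega)
      have h3 := hC1 ∅ b0 M r z 1 Y (by simp; omega) hg hz2 (rgh_one M z)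
      simp only [Finset.card_empty, zero_add, Nat.cast_zero] at h3
      refine h3.trans ?_
      have h4 : 3 * Real.exp (19 * 1 - b0) ≤ η₁ := hexp _ (by nlinarith)
      have h5 : 0 ≤ (Y : ℝ) / M * VV 1 M z := mul_nonneg (by positivity) hV1.le
      have h6 := mul_le_mul_of_nonneg_right h4 h5
      linarith)
    (by
      intro q hq Y
      obtain ⟨hqp, hq1, _⟩ := hmem q hq
      have h3 := hC1 S b0 M r z q Y (by omega) (Good.mono hM (by omega)) hz2 (rgh_prime hqp (by omega))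
      refine h3.trans ?_
      have h4 : 3 * Real.exp (19 * ((S.card : ℝ) + 1) - b0) ≤ η₁ := hexp _ (by rw [hcard]; nlinarith)
      have h5 : 0 ≤ (Y : ℝ) / M * VV (S.card + 1) M z := mul_nonneg (by positivity) hVk.le
      have h6 := mul_le_mul_of_nonneg_right h4 h5
      linarith)
    (by
      intro q hq q' hq' hne Y
      obtain ⟨hqp, hq1, _⟩ := hmem q hq
      obtain ⟨hqp', hq1', _⟩ := hmem q' hq'
      have hD : Del S q q' ≠ 0 := SMM.Del_ne hSne hqp hqp' hne (fun s hs => by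
        have : s.natAbs ≤ ∑ s ∈ S, s.natAbs := Finset.single_le_sum (f := fun s : ℤ => s.natAbs)
          (fun _ _ => Nat.zero_le _) hs
        omega)
      have h3 := hC2 S b0 M r z q q' Y (by omega) (Good.mono hM (by omega)) hz2 (rgh_prime hqp (by omega))
        (rgh_prime hqp' (by omega)) hD
      refine h3.trans ?_
      have h4 : 3 * Real.exp (19 * (2 * (S.card : ℝ) + 1) - b0) ≤ η₁ := hexp _ (by rw [hcard]; nlinarith)
      have h5 : 0 ≤ VV 1 M z * VQ S M z ^ 2 * DL.hh (2 * (S.card + 1)) M (Del S q q') := by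
        refine mul_nonneg (mul_nonneg hV1.le (sq_nonneg _)) ?_
        exact zero_le_one.trans (SMM.hh_ge_one (by positivity) _ _)
      have h6 : (1 + 3 * Real.exp (19 * (2 * (S.card : ℝ) + 1) - b0)) * ((Y : ℝ) / M) ≤ (1 + η₁) * ((Y : ℝ) / M) :=
        mul_le_mul_of_nonneg_right (by linarith) (by positivity)
      have h7 := mul_le_mul_of_nonneg_right h6 h5
      linarith)
    (by
      intro q hq
      have h3 := hj0 j hJ0 b hb q hq
      refine le_trans (le_of_eq ?_) h3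
      refine sum_congr rfl fun q' _ => ?_
      obtain ⟨k, hk⟩ := Del_MS hM1 S0 q q'
      rw [hcard, hSd, hk, hh_mul hM1])
    (by
      have h3 := hj1 j hJ1 b hb
      have h4 := hj2 j hJ2
      have h5 : ((2 : ℝ) ^ j) ^ (-(1 : ℝ) / 4) ≤ VQ S M z ^ 2 := by
        refine le_trans ?_ hVQ2
        exact Real.rpow_le_rpow_of_nonpos hz0 (by exact_mod_cast hj) (by norm_num)
      have h6 : ((2 : ℝ) ^ (3 / 4 : ℝ)) ^ j = ((2 : ℝ) ^ j) ^ (-(1 : ℝ) / 4) * (2 : ℝ) ^ j := by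
        have e1 : ((2 : ℝ) ^ j) ^ (-(1 : ℝ) / 4) * (2 : ℝ) ^ j = ((2 : ℝ) ^ j) ^ ((3 : ℝ) / 4) := by
          rw [← Real.rpow_add_one (by positivity)]
          norm_num
        rw [e1, ← Real.rpow_natCast, ← Real.rpow_natCast, ← Real.rpow_mul (by norm_num), ← Real.rpow_mul (by norm_num)]
        congr 1
        ring
      have ht : (0 : ℝ) < M.totient := by exact_mod_cast Nat.totient_pos.2 hM1
      have hjr : (0 : ℝ) < j := by exact_mod_cast hj1'
      have h7 : (2 : ℝ) ≤ η₁ * (((2 : ℝ) ^ j) ^ (-(1 : ℝ) / 4)) * ((2 : ℝ) ^ j / (2 * (M.totient : ℝ) * j)) := by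
        rw [h6, div_mul_eq_mul_div, div_le_iff₀ hη0] at h4
        have h8 : η₁ * (((2 : ℝ) ^ j) ^ (-(1 : ℝ) / 4)) * ((2 : ℝ) ^ j / (2 * (M.totient : ℝ) * j))
            = (((2 : ℝ) ^ j) ^ (-(1 : ℝ) / 4) * (2 : ℝ) ^ j * η₁) / (2 * (M.totient : ℝ) * j) := by ring
        rw [h8, le_div_iff₀ (by positivity)]
        linarith
      refine h7.trans ?_
      refine mul_le_mul (mul_le_mul_of_nonneg_left h5 hη0.le) h3 (by positivity) (by positivity))
    (by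
      have h3 : (z : ℝ) ^ (16 * b0 + 35) ≤ (X : ℝ) / 2 ^ j := by
        rw [le_div_iff₀ (by positivity)]
        have h4 : z ^ (16 * b0 + 35) * 2 ^ j ≤ X := by
          refine le_trans ?_ hX
          rw [mul_comm]
          exact Nat.mul_le_mul (Nat.pow_le_pow_right (by norm_num) (by omega)) (Nat.pow_le_pow_right (by omega) (by omega))
        exact_mod_cast h4
      have h4 : (z : ℝ)⁻¹ ≤ VV 1 M z * VQ S M z ^ 2 := by
        refine le_trans ?_ hVQ3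
        rw [← Real.rpow_neg_one]
        exact Real.rpow_le_rpow_of_exponent_le hz1 (by norm_num)
      have h5 : 16 * (M : ℝ) ≤ z * η₁ := by
        have h6 : 16 * (M : ℝ) / η₁ ≤ z := hzc.trans (by exact_mod_cast (by omega : zc ≤ z))
        rwa [div_le_iff₀ hη0] at h6
      calc 4 * (4 * (z : ℝ) ^ (16 * b0 + 33)) = 16 * M * (z : ℝ) ^ (16 * b0 + 33) / M := by field_simp; ring
        _ ≤ z * η₁ * (z : ℝ) ^ (16 * b0 + 33) / M := by
            refine div_le_div_of_nonneg_right ?_ hM0.le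
            exact mul_le_mul_of_nonneg_right h5 (by positivity)
        _ = η₁ * ((z : ℝ) ^ (16 * b0 + 35) / M * (z : ℝ)⁻¹) := by
            rw [show 16 * b0 + 35 = 16 * b0 + 33 + 1 + 1 by ring, pow_succ (z : ℝ) (16 * b0 + 33 + 1),
              pow_succ (z : ℝ) (16 * b0 + 33)]
            field_simp
        _ ≤ η₁ * ((X : ℝ) / 2 ^ j / M * (VV 1 M z * VQ S M z ^ 2)) := by
            refine mul_le_mul_of_nonneg_left ?_ hη0.le
            exact mul_le_mul (div_le_div_of_nonneg_right h3 hM0.le) h4 (by positivity) (by positivity))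
  -- the conclusion
  have hT : ∑ m ∈ W1 M r z ∅ 1 X,
      |∑ q ∈ (bb M b j).filter (fun q => q * m ≤ X), ((if cq M z S q m then (1 : ℝ) else 0) - VQ S M z)|
      = ∑ m ∈ W1 M r z ∅ 1 X, |∑ q ∈ (bb M b j).filter (fun q => q * m ≤ X), SMM.ff M z S q m| := rfl
  rw [hT]
  obtain ⟨Z, hZ⟩ : ∃ Z : ℝ, Z = (X : ℝ) / 2 ^ j / M * VV (S.card + 1) M z * (bb M b j).card := ⟨_, rfl⟩
  have hZ0 : 0 ≤ Z := by rw [hZ]; positivity
  rw [← hZ] at hkey
  have h3 : ∑ m ∈ W1 M r z ∅ 1 X, |∑ q ∈ (bb M b j).filter (fun q => q * m ≤ X), SMM.ff M z S q m| ≤ η / 2 * Z := by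
    refine (pow_le_pow_iff_left₀ (Finset.sum_nonneg fun _ _ => abs_nonneg _) (by positivity) two_ne_zero).1 ?_
    refine hkey.trans ?_
    rw [mul_pow]
    exact mul_le_mul_of_nonneg_right hη2 (sq_nonneg _)
  refine h3.trans ?_
  have h4 : ((bb M b j).card : ℝ) / 2 ^ j ≤ 2 * Lam (bb M b j) := by
    unfold Lam
    rw [Finset.mul_sum, div_eq_mul_inv, ← nsmul_eq_mul, ← Finset.sum_const]
    refine Finset.sum_le_sum fun q hq => ?_
    obtain ⟨hqp, hq1, hq2⟩ := hmem q hq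
    have hq0 : (0 : ℝ) < q := by exact_mod_cast hqp.pos
    have h5 : (q : ℝ) ≤ 2 * 2 ^ j := by
      have : (q : ℝ) ≤ 2 ^ (j + 1) := by exact_mod_cast hq2
      rwa [pow_succ, mul_comm] at this
    rw [mul_one_div, inv_eq_one_div, div_le_div_iff₀ (by positivity) hq0]
    linarith
  have h5 : Z = (X : ℝ) / M * VV (S.card + 1) M z * ((bb M b j).card / 2 ^ j) := by
    rw [hZ]; ring
  rw [h5]
  have h6 : (X : ℝ) / M * VV (S.card + 1) M z * ((bb M b j).card / 2 ^ j)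
      ≤ (X : ℝ) / M * VV (S.card + 1) M z * (2 * Lam (bb M b j)) := mul_le_mul_of_nonneg_left h4 (by positivity)
  calc η / 2 * ((X : ℝ) / M * VV (S.card + 1) M z * ((bb M b j).card / 2 ^ j))
      ≤ η / 2 * ((X : ℝ) / M * VV (S.card + 1) M z * (2 * Lam (bb M b j))) := mul_le_mul_of_nonneg_left h6 (by positivity)
    _ = _ := by ring

end Pool.Agent.Lib.MP_3efbeb_nt.ER.P3
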