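import Pool.Agent.Lib.MP_3efbeb_nt.ER.SV.SpecP

/-!
# SMQ: the second moment for all blocks and all classes
-/

set_option autoImplicit false

namespace Pool.Agent.Lib.MP_3efbeb_nt.ER.P3

open Finset Filter Topology
open scoped Classical
open Pool.Agent.Lib.MP_3efbeb_nt.DL (PR Rgh W1 W2 VV VQ cq Good Del Lam)

noncomputable section

namespace SMQM

/-- dyadic splitting -/
lemma sum_dyadic (f : ℕ → ℝ) (J1 J2 : ℕ) (h : J1 ≤ J2) :
    ∑ q ∈ Ioc (2 ^ J1) (2 ^ J2), f q = ∑ j ∈ Ico J1 J2, ∑ q ∈ Ioc (2 ^ j) (2 ^ (j + 1)), f q := by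
  induction J2, h using Nat.le_induction with
  | base => simp
  | succ J2 hJ ih =>
    rw [Finset.sum_Ico_succ_top hJ, ← ih]
    exact (Finset.sum_Ioc_consecutive f (Nat.pow_le_pow_right (by norm_num) hJ)
      (Nat.pow_le_pow_right (by norm_num) (Nat.le_succ _))).symm

/-- inverse classes -/
lemma exists_inv (M : ℕ) (hM : 1 ≤ M) (r : ℕ) (hr : Nat.Coprime r M) :
    ∃ b : ℕ, Nat.Coprime b M ∧ (b * r) % M = 1 % M := by
  have : NeZero M := ⟨by omega⟩
  refine ⟨((ZMod.unitOfCoprime r hr)⁻¹ : (ZMod M)ˣ).val.val, ZMod.val_coe_unit_coprime _, ?_⟩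
  rw [← ZMod.natCast_eq_natCast_iff']
  push_cast
  rw [ZMod.natCast_zmod_val]
  have h1 : ((ZMod.unitOfCoprime r hr : (ZMod M)ˣ) : ZMod M) = r := ZMod.coe_unitOfCoprime r hr
  have h2 := Units.inv_mul (ZMod.unitOfCoprime r hr)
  rw [h1] at h2
  exact h2

lemma class_iff (M m b q : ℕ) (hb : (b * m) % M = 1 % M) :
    (q * m) % M = 1 % M ↔ q % M = b % M := by
  rw [← ZMod.natCast_eq_natCast_iff'] at hb
  rw [← ZMod.natCast_eq_natCast_iff', ← ZMod.natCast_eq_natCast_iff']
  push_cast at hb ⊢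
  constructor
  · intro h
    calc (q : ZMod M) = q * (b * m) := by rw [hb, mul_one]
      _ = b * (q * m) := by ring
      _ = b := by rw [h, mul_one]
  · intro h
    rw [h, hb]

lemma mod_mul_eq (M b m r : ℕ) (hm : m % M = r) (hb : (b * r) % M = 1 % M) :
    (b * m) % M = 1 % M := by
  rw [← hb, ← hm, Nat.mul_mod_mod]

lemma VV_nonneg (k M z : ℕ) (h : ∀ p : ℕ, p.Prime → ¬ p ∣ M → k < p) : 0 ≤ VV k M z := by
  refine Finset.prod_nonneg fun p hp => ?_
  obtain ⟨-, h1, h2⟩ := by simpa [PR] using hp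
  have h3 := h p h1 h2
  have h4 : (0 : ℝ) < p := by exact_mod_cast h1.pos
  have h5 : (k : ℝ) / p ≤ 1 := by
    rw [div_le_one h4]
    exact_mod_cast h3.le
  linarith

end SMQM

open SMQM in
/-- SMQ. -/
theorem specSMQ (hSMB : SpecSMB) : SpecSMQ := by
  intro S0 η b0 hη hS hPar
  obtain ⟨P0, hP0⟩ := hSMB S0 η b0 hη hS hPar
  refine ⟨P0 + (S0.card + 1), fun M hM hpr => ?_⟩
  obtain ⟨z0, hz0⟩ := hP0 M hM (fun p hp hd => lt_of_le_of_lt (Nat.le_add_right _ _) (hpr p hp hd))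
  refine ⟨z0, fun z hz J1 J2 hzJ hJ X hX => ?_⟩
  have : NeZero M := ⟨by omega⟩
  have hVV : 0 ≤ VV (S0.card + 1) M z := VV_nonneg _ _ _ fun p hp hd => by
    have := hpr p hp hd
    omega
  -- the classes
  set R : Finset ℕ := (range M).filter (fun r => Nat.Coprime r M) with hR
  have hb : ∀ r : ℕ, ∃ b : ℕ, r ∈ R → Nat.Coprime b M ∧ (b * r) % M = 1 % M := by
    intro r
    by_cases hr : r ∈ R
    · obtain ⟨b, h1, h2⟩ := exists_inv M hM r (Finset.mem_filter.mp hr).2
      exact ⟨b, fun _ => ⟨h1, h2⟩⟩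
    · exact ⟨0, fun h => absurd h hr⟩
  choose b hb using hb
  set F : Finset ℕ := (Icc 1 X).filter (fun m => Nat.Coprime m M ∧ Rgh M z m) with hF
  set g : ℕ → ℕ → ℝ := fun m q =>
    (if cq M z (MS M S0) q m then (1 : ℝ) else 0) - VQ (MS M S0) M z with hg
  have hmaps : ∀ m ∈ F, m % M ∈ R := by
    intro m hm
    obtain ⟨-, h1, -⟩ := Finset.mem_filter.mp hm
    refine Finset.mem_filter.mpr ⟨Finset.mem_range.mpr (Nat.mod_lt _ hM), ?_⟩
    have h2 : Nat.gcd (m % M) M = Nat.gcd m M := Nat.ModEq.gcd_eq (Nat.mod_modEq m M)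
    exact h2.trans h1
  rw [← Finset.sum_fiberwise_of_maps_to hmaps]
  -- one class
  have hone : ∀ r ∈ R, ∑ m ∈ F.filter (fun m => m % M = r),
      |∑ q ∈ (QA J1 J2).filter (fun q => q * m ≤ X ∧ (q * m) % M = 1 % M), g m q| ≤
      ∑ j ∈ Ico J1 J2, η * Lam (bb M (b r) j) * ((X : ℝ) / M) * VV (S0.card + 1) M z := by
    intro r hr
    obtain ⟨hbc, hbr⟩ := hb r hr
    have hrM : r < M := Finset.mem_range.mp (Finset.mem_filter.mp hr).1
    have h1 : ∀ m ∈ F.filter (fun m => m % M = r),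
        |∑ q ∈ (QA J1 J2).filter (fun q => q * m ≤ X ∧ (q * m) % M = 1 % M), g m q| ≤
        ∑ j ∈ Ico J1 J2, |∑ q ∈ (bb M (b r) j).filter (fun q => q * m ≤ X), g m q| := by
      intro m hm
      have hmr := (Finset.mem_filter.mp hm).2
      have h2 : ∑ q ∈ (QA J1 J2).filter (fun q => q * m ≤ X ∧ (q * m) % M = 1 % M), g m q =
          ∑ j ∈ Ico J1 J2, ∑ q ∈ (bb M (b r) j).filter (fun q => q * m ≤ X), g m q := by
        unfold QA bb
        rw [Finset.filter_filter, Finset.sum_filter, sum_dyadic _ _ _ hJ]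
        refine Finset.sum_congr rfl fun j _ => ?_
        rw [Finset.filter_filter, Finset.sum_filter]
        refine Finset.sum_congr rfl fun q _ => ?_
        have h3 := class_iff M m (b r) q (mod_mul_eq M (b r) m r hmr hbr)
        refine if_congr ?_ rfl rfl
        rw [h3]
        tauto
      rw [h2]
      exact Finset.abs_sum_le_sum_abs _ _
    refine (Finset.sum_le_sum h1).trans ?_
    rw [Finset.sum_comm]
    refine Finset.sum_le_sum fun j hj => ?_
    obtain ⟨hj1, hj2⟩ := Finset.mem_Ico.mp hj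
    have h4 := hz0 z hz j (hzJ.trans (Nat.pow_le_pow_right (by norm_num) hj1)) (b r) hbc X r
      (le_trans (Nat.mul_le_mul_right _ (Nat.pow_le_pow_right (by norm_num) (by omega))) hX)
    refine le_trans (Finset.sum_le_sum_of_subset_of_nonneg ?_ fun _ _ _ => abs_nonneg _) h4
    intro m hm
    obtain ⟨h5, h6⟩ := Finset.mem_filter.mp hm
    obtain ⟨h7, h8, h9⟩ := Finset.mem_filter.mp h5
    refine Finset.mem_filter.mpr ⟨h7, ?_, h9, ?_⟩
    · rw [h6, Nat.mod_eq_of_lt hrM]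
    · intro s hs
      exact absurd hs (Finset.notMem_empty s)
  refine (Finset.sum_le_sum hone).trans ?_
  -- the sum of the reciprocals
  have hLam : ∑ r ∈ R, ∑ j ∈ Ico J1 J2, Lam (bb M (b r) j) ≤ Lam (QA J1 J2) := by
    have h1 : ∀ r ∈ R, ∑ j ∈ Ico J1 J2, Lam (bb M (b r) j) =
        ∑ q ∈ QA J1 J2, if q % M = b r % M then 1 / (q : ℝ) else 0 := by
      intro r _
      unfold QA bb Lam
      rw [Finset.sum_filter, sum_dyadic _ _ _ hJ]
      refine Finset.sum_congr rfl fun j _ => ?_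
      rw [Finset.sum_filter]
      refine Finset.sum_congr rfl fun q _ => ?_
      by_cases hq : q.Prime
      · by_cases hq2 : q % M = b r % M
        · rw [if_pos ⟨hq, hq2⟩, if_pos hq, if_pos hq2]
        · rw [if_neg (fun h => hq2 h.2), if_pos hq, if_neg hq2]
      · rw [if_neg (fun h => hq h.1), if_neg hq]
    rw [Finset.sum_congr rfl h1, Finset.sum_comm]
    unfold Lam
    refine Finset.sum_le_sum fun q _ => ?_
    rw [← Finset.sum_filter, Finset.sum_const, nsmul_eq_mul]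
    have h2 : (R.filter (fun r => q % M = b r % M)).card ≤ 1 := by
      refine Finset.card_le_one.mpr fun r hr r' hr' => ?_
      obtain ⟨h3, h4⟩ := Finset.mem_filter.mp hr
      obtain ⟨h3', h4'⟩ := Finset.mem_filter.mp hr'
      have e1 := (hb r h3).2
      have e2 := (hb r' h3').2
      have e3 : b r % M = b r' % M := h4.symm.trans h4'
      have hlt : r < M := Finset.mem_range.mp (Finset.mem_filter.mp h3).1
      have hlt' : r' < M := Finset.mem_range.mp (Finset.mem_filter.mp h3').1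
      rw [← ZMod.natCast_eq_natCast_iff'] at e1 e2 e3
      push_cast at e1 e2
      have e4 : (r : ZMod M) = r' := by
        calc (r : ZMod M) = (b r' * r' : ZMod M) * r := by rw [e2]; ring
          _ = (b r * r : ZMod M) * r' := by rw [e3]; ring
          _ = r' := by rw [e1]; ring
      have e5 := (ZMod.natCast_eq_natCast_iff' r r' M).mp e4
      rwa [Nat.mod_eq_of_lt hlt, Nat.mod_eq_of_lt hlt'] at e5
    have h3 : (0 : ℝ) ≤ 1 / (q : ℝ) := by positivity
    have h4 : ((R.filter (fun r => q % M = b r % M)).card : ℝ) ≤ 1 := by exact_mod_cast h2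
    nlinarith
  have hfin : ∑ r ∈ R, ∑ j ∈ Ico J1 J2,
      η * Lam (bb M (b r) j) * ((X : ℝ) / M) * VV (S0.card + 1) M z =
      η * (∑ r ∈ R, ∑ j ∈ Ico J1 J2, Lam (bb M (b r) j)) * ((X : ℝ) / M) *
        VV (S0.card + 1) M z := by
    rw [Finset.mul_sum, Finset.sum_mul, Finset.sum_mul]
    refine Finset.sum_congr rfl fun r _ => ?_
    rw [Finset.mul_sum, Finset.sum_mul, Finset.sum_mul]
  rw [hfin]
  have hX0 : (0 : ℝ) ≤ (X : ℝ) / M := by positivity
  gcongr

end

end Pool.Agent.Lib.MP_3efbeb_nt.ER.P3
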