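import Pool.Agent.Lib.MP_3efbeb_nt.ER.SV.SpecM

/-!
# MP_3efbeb_nt, ER/SV: the assembly (helper53)
-/

set_option autoImplicit false

namespace Pool.Agent.Lib.MP_3efbeb_nt.ER.SV

open Finset
open scoped Classical

noncomputable section

namespace SVMM

lemma count_swap (S : Finset ℕ) (N L : ℕ) (hL : ∀ i < L, i < N ∧ 2 * i < N) (A : ℕ → ℕ → Prop) (b : ℝ)
    (h : ∀ i < L, b ≤ ((S.filter (fun n => A n i)).card : ℝ)) :
    (L : ℝ) * b ≤ ∑ n ∈ S, (((range N).filter (fun i => 2 * i < N ∧ A n i)).card : ℝ) := by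
  have h1 : ∀ n ∈ S, (∑ i ∈ range L, if A n i then (1 : ℝ) else 0)
      ≤ (((range N).filter (fun i => 2 * i < N ∧ A n i)).card : ℝ) := by
    intro n _
    rw [sum_boole]
    have : (range L).filter (fun i => A n i) ⊆ (range N).filter (fun i => 2 * i < N ∧ A n i) := by
      intro i hi
      rw [mem_filter, mem_range] at hi
      rw [mem_filter, mem_range]
      exact ⟨(hL i hi.1).1, (hL i hi.1).2, hi.2⟩
    exact_mod_cast card_le_card this
  calc (L : ℝ) * b = ∑ i ∈ range L, b := by simp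
    _ ≤ ∑ i ∈ range L, ((S.filter (fun n => A n i)).card : ℝ) :=
        sum_le_sum (fun i hi => h i (mem_range.mp hi))
    _ = ∑ i ∈ range L, ∑ n ∈ S, if A n i then (1 : ℝ) else 0 := by
        refine sum_congr rfl (fun i _ => ?_)
        rw [sum_boole]
    _ = ∑ n ∈ S, ∑ i ∈ range L, if A n i then (1 : ℝ) else 0 := sum_comm
    _ ≤ _ := sum_le_sum h1

lemma be_zero (κ : ℝ) (s : ℕ) : be κ s 0 = κ / s * Real.exp (-(s : ℝ)) := by unfold be; simp

lemma be_succ (κ : ℝ) (s j : ℕ) : be κ s (j + 1) = κ / s * 2 ^ j := by unfold be; simp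

lemma be_zero_pos {κ : ℝ} {s : ℕ} (hκ : 0 < κ) (hs : 1 ≤ s) : 0 < be κ s 0 := by
  rw [be_zero]
  have : (0 : ℝ) < s := by exact_mod_cast hs
  positivity

lemma be_zero_lt {κ : ℝ} {s : ℕ} (hκ : 0 < κ) (hκ1 : κ ≤ 1 / 8) (hs : 1 ≤ s) : be κ s 0 < 1 := by
  rw [be_zero]
  have h1 : (1 : ℝ) ≤ s := by exact_mod_cast hs
  have h2 : Real.exp (-(s : ℝ)) ≤ 1 := Real.exp_le_one_iff.mpr (by linarith)
  have h3 : κ / s ≤ κ := div_le_self hκ.le h1
  have h4 : 0 ≤ κ / s := by positivity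
  calc κ / s * Real.exp (-(s : ℝ)) ≤ κ / s * 1 := mul_le_mul_of_nonneg_left h2 h4
    _ ≤ 1 / 8 := by linarith
    _ < 1 := by norm_num

/-- the level of the density theorem -/
lemma lev_bound {Q : ℕ} {κ ε : ℝ} {s K N : ℕ} (P : Par Q κ ε s K N) (L : ℕ) (hL : L ≤ N) :
    be κ s 0 * lev L 0 < 1 := by
  have h0 := be_zero_pos P.hκ P.hs
  have h1 : lev L 0 ≤ lev N N := by
    unfold lev
    have : (L : ℝ) ≤ N := by exact_mod_cast hL
    have h2 : (0 : ℝ) ≤ (N : ℝ) := Nat.cast_nonneg _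
    push_cast
    linarith
  have h2 : 0 ≤ (Q : ℝ) * ∑ j ∈ range (K + 1), be κ s (j + 1) * (dg s (16 * 4 ^ Q * s) K j : ℝ) := by
    refine mul_nonneg (Nat.cast_nonneg _) (sum_nonneg (fun j _ => mul_nonneg ?_ (Nat.cast_nonneg _)))
    rw [be_succ]
    have : (0 : ℝ) < s := by exact_mod_cast P.hs
    have := P.hκ
    positivity
  have h3 := P.hlev
  have h4 : be κ s 0 * lev L 0 ≤ be κ s 0 * lev N N := mul_le_mul_of_nonneg_left h1 h0.le
  linarith

/-- the last block ends before `x ^ (1 - θ)` -/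
lemma yb_last {κ ε θ : ℝ} {s K x : ℕ} (hK2 : κ / s * 2 ^ K ≤ ε) (hε1 : ε ≤ 1 / 8) (hθ : θ ≤ 1 / 2) (hx : 8 ≤ x) :
    (yb (be κ s) x (K + 1) : ℝ) ≤ (x : ℝ) ^ (1 - θ) := by
  have hx8 : (8 : ℝ) ≤ x := by exact_mod_cast hx
  have hx1 : (1 : ℝ) ≤ x := by linarith
  have hx0 : (0 : ℝ) < x := by linarith
  unfold yb
  rw [be_succ]
  have h1 : (⌈(x : ℝ) ^ (κ / s * 2 ^ K)⌉₊ : ℝ) ≤ (x : ℝ) ^ (κ / s * 2 ^ K) + 1 :=
    (Nat.ceil_lt_add_one (by positivity)).le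
  have h2 : (x : ℝ) ^ (κ / s * 2 ^ K) ≤ (x : ℝ) ^ (1 / 8 : ℝ) :=
    Real.rpow_le_rpow_of_exponent_le hx1 (hK2.trans hε1)
  have h3 : (1 : ℝ) ≤ (x : ℝ) ^ (1 / 8 : ℝ) := Real.one_le_rpow hx1 (by norm_num)
  have h4 : (2 : ℝ) ≤ (x : ℝ) ^ (3 / 8 : ℝ) := by
    have e : (8 : ℝ) ^ (3 / 8 : ℝ) = 2 ^ ((3 : ℝ) * (3 / 8)) := by
      rw [Real.rpow_mul (by norm_num)]
      norm_num
    have e1 : (2 : ℝ) ^ (1 : ℝ) ≤ 2 ^ ((3 : ℝ) * (3 / 8)) :=
      Real.rpow_le_rpow_of_exponent_le (by norm_num) (by norm_num)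
    rw [Real.rpow_one, ← e] at e1
    exact e1.trans (Real.rpow_le_rpow (by norm_num) hx8 (by norm_num))
  have h5 : (x : ℝ) ^ (1 / 2 : ℝ) = (x : ℝ) ^ (3 / 8 : ℝ) * (x : ℝ) ^ (1 / 8 : ℝ) := by
    rw [← Real.rpow_add hx0]; norm_num
  have h6 : (x : ℝ) ^ (1 / 2 : ℝ) ≤ (x : ℝ) ^ (1 - θ) :=
    Real.rpow_le_rpow_of_exponent_le hx1 (by linarith)
  have h7 : 2 * (x : ℝ) ^ (1 / 8 : ℝ) ≤ (x : ℝ) ^ (3 / 8 : ℝ) * (x : ℝ) ^ (1 / 8 : ℝ) :=
    mul_le_mul_of_nonneg_right h4 (by linarith)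
  linarith

/-- the final inequality -/
lemma final {Q : ℕ} {κ ε : ℝ} {s K N : ℕ} (P : Par Q κ ε s K N)
    (hM : Mh s (16 * 4 ^ Q * s) K ≤ 2 * Real.exp 4 * Ps s * (1 / 2) ^ K) (L : ℕ) (hL : (N : ℝ) ≤ 2 * L) (c : ℝ)
    (hc : 0 ≤ c) :
    ε / (32 * Real.exp 4) * N * c ≤ (Mh s (16 * 4 ^ Q * s) K)⁻¹ *
      (L * (1 / 4 * ((s : ℝ) ^ s / (s.factorial : ℝ)) * be κ s 0 * c)) := by
  set M := Mh s (16 * 4 ^ Q * s) K with hMdef
  have hM0 : 0 < M := P.hM0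
  have hs0 : (0 : ℝ) < s := by exact_mod_cast P.hs
  have hE : 0 < Real.exp (4 : ℝ) := Real.exp_pos _
  set F : ℝ := (s : ℝ) ^ s / (s.factorial : ℝ) with hF
  have hF0 : 0 < F := by
    have : (0 : ℝ) < (s.factorial : ℝ) := by exact_mod_cast s.factorial_pos
    positivity
  have hPs : Ps s = Real.exp (-(s : ℝ)) * F := by
    unfold Ps; rw [hF, mul_div_assoc]
  have hexp : 0 < Real.exp (-(s : ℝ)) := Real.exp_pos _
  -- M * (ε / (4 e^4)) ≤ F * be
  have h1 : M * (ε / (4 * Real.exp 4)) ≤ F * be κ s 0 := by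
    have h2 : M * (ε / (4 * Real.exp 4)) ≤ (2 * Real.exp 4 * Ps s * (1 / 2) ^ K) * (ε / (4 * Real.exp 4)) := by
      have := P.hε
      exact mul_le_mul_of_nonneg_right hM (by positivity)
    have h3 : (2 * Real.exp 4 * Ps s * (1 / 2) ^ K) * (ε / (4 * Real.exp 4))
        = (Ps s * (1 / 2) ^ K) * (ε / 2) := by
      field_simp
      ring
    have h4 : (Ps s * (1 / 2) ^ K) * (ε / 2) ≤ (Ps s * (1 / 2) ^ K) * (κ / s * 2 ^ K) := by
      have hPp : 0 ≤ Ps s * (1 / 2) ^ K := by rw [hPs]; positivity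
      exact mul_le_mul_of_nonneg_left P.hK1.le hPp
    have h5 : (Ps s * (1 / 2) ^ K) * (κ / s * 2 ^ K) = F * be κ s 0 := by
      rw [hPs, be_zero]
      have : ((1 : ℝ) / 2) ^ K * 2 ^ K = 1 := by rw [← mul_pow]; norm_num
      calc Real.exp (-(s : ℝ)) * F * (1 / 2) ^ K * (κ / s * 2 ^ K)
          = F * (κ / s * Real.exp (-(s : ℝ))) * ((1 / 2) ^ K * 2 ^ K) := by ring
        _ = F * (κ / s * Real.exp (-(s : ℝ))) := by rw [this, mul_one]
    linarith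
  have h6 : ε / (4 * Real.exp 4) ≤ M⁻¹ * (F * be κ s 0) := by
    rw [inv_mul_eq_div, le_div_iff₀ hM0, mul_comm]
    exact h1
  have hL0 : (0 : ℝ) ≤ L := Nat.cast_nonneg _
  calc ε / (32 * Real.exp 4) * N * c ≤ ε / (32 * Real.exp 4) * (2 * L) * c := by
        have := P.hε
        have h7 : 0 ≤ ε / (32 * Real.exp 4) := by positivity
        exact mul_le_mul_of_nonneg_right (mul_le_mul_of_nonneg_left hL h7) hc
    _ = (ε / (4 * Real.exp 4)) * (L * (1 / 4) * c) := by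
        field_simp
        ring
    _ ≤ (M⁻¹ * (F * be κ s 0)) * (L * (1 / 4) * c) :=
        mul_le_mul_of_nonneg_right h6 (by positivity)
    _ = M⁻¹ * (L * (1 / 4 * F * be κ s 0 * c)) := by ring

end SVMM

open SVMM in
/-- SVM. -/
theorem specSVM (hPAR : SpecPAR) (hM1 : SpecM1) (hM2 : SpecM2) (hHH : SpecHH) (hAER : SpecAER) (hM3 : SpecM3)
    (hDEN : SpecDEN) (hMHB : SpecMHB) : SpecSVM := by
  intro Q0 θ hθ
  set Q := max Q0 1 with hQdef
  have hQ1 : 1 ≤ Q := le_max_right _ _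
  have hQ0 : Q0 ≤ Q := le_max_left _ _
  set θ' := min θ (1 / 4) with hθ'def
  have hθ' : 0 < θ' := lt_min hθ (by norm_num)
  have hθ'4 : θ' ≤ 1 / 4 := min_le_right _ _
  have hθ'1 : θ' ≤ 1 / 2 := by linarith
  have hθ'2 : θ' ≤ θ := min_le_left _ _
  obtain ⟨κ, ε, hκ, hε, hκθ, hεθ, H⟩ := hPAR Q θ' hQ1 hθ'
  obtain ⟨s1, hs1⟩ := hM3 κ θ' hκ (by linarith) hθ'4
  refine ⟨ε / (32 * Real.exp 4), by positivity, ?_⟩
  intro N0
  obtain ⟨s2, hs2⟩ := H N0
  refine ⟨max s1 s2 + 1, ?_⟩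
  intro r hr
  obtain ⟨s, rfl⟩ : ∃ s, r = s + 1 := ⟨r - 1, by omega⟩
  have hss1 : s1 ≤ s := le_trans (le_max_left _ _) (by omega : max s1 s2 ≤ s)
  have hss2 : s2 ≤ s := le_trans (le_max_right _ _) (by omega : max s1 s2 ≤ s)
  obtain ⟨K, N, hN0, P⟩ := hs2 s hss2
  haveI : NeZero N := ⟨P.hN.ne_zero⟩
  set J0 := 16 * 4 ^ Q * s with hJ0
  have hJe : Even J0 := ⟨8 * 4 ^ Q * s, by rw [hJ0]; ring⟩
  obtain ⟨w0, hw0, hM3'⟩ := hs1 s hss1 N P.hNu
  set w := (2 * N).factorial * w0 with hw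
  have hM0 : 0 < Mh s J0 K := P.hM0
  have hτ1 : 1 ≤ (Mh s J0 K)⁻¹ := (one_le_inv₀ hM0).mpr P.hM
  have hw1 : 1 ≤ w := Nat.mul_pos (Nat.factorial_pos _) hw0
  refine ⟨N, inferInstance, w, (Mh s J0 K)⁻¹, P.hN, hN0, hw1, hτ1,
    (pow_le_pow_right₀ hτ1 hQ0).trans P.hT, ?_⟩
  intro t ht
  set M := w * t with hM
  have hM1' : 1 ≤ M := Nat.mul_pos hw1 ht
  set L := (N + 1) / 2 with hL
  have hN3 := P.hN3
  have hL1 : 1 ≤ L := by omega
  have hLN : L ≤ N := by omega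
  have hNodd : N % 2 = 1 := by
    rcases P.hN.eq_two_or_odd with h | h
    · omega
    · exact h
  have hdvd : ∀ p : ℕ, p.Prime → p ≤ 2 * N → p ∣ M := by
    intro p hp hple
    exact Dvd.dvd.mul_right (Dvd.dvd.mul_right ((Nat.Prime.dvd_factorial hp).mpr hple) w0) t
  have hdvd0 : w0 ∣ M := Dvd.dvd.mul_right (Dvd.intro_left _ rfl) t
  have hGM : GM N M := ⟨hM1', hdvd⟩
  have hGML : GM L M := ⟨hM1', fun p hp hple => hdvd p hp (by omega)⟩
  obtain ⟨xa, hxa⟩ := hM1 Q s K N M κ ε P hGM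
  obtain ⟨xb, hxb⟩ := hM2 Q s K N M κ ε P hGM
  obtain ⟨xc, hxc⟩ := hM3' M hM1' hdvd0
  obtain ⟨xd, hxd⟩ := hDEN L 0 M (be κ s 0) hL1 hGML (be_zero_pos P.hκ P.hs) (lev_bound P L hLN)
  refine ⟨be κ s 0 / 2, L + 1, max (max xa xb) (max xc (max xd (8 * (M * N) + 8))), ?_, ?_⟩
  · have := be_zero_pos P.hκ P.hs
    linarith
  intro x hx
  have hx1 : xa ≤ x := by
    have := le_max_left xa xb
    have := le_max_left (max xa xb) (max xc (max xd (8 * (M * N) + 8)))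
    omega
  have hx2 : xb ≤ x := by
    have := le_max_right xa xb
    have := le_max_left (max xa xb) (max xc (max xd (8 * (M * N) + 8)))
    omega
  have hx3 : xc ≤ x := by
    have := le_max_left xc (max xd (8 * (M * N) + 8))
    have := le_max_right (max xa xb) (max xc (max xd (8 * (M * N) + 8)))
    omega
  have hx4 : xd ≤ x := by
    have := le_max_left xd (8 * (M * N) + 8)
    have := le_max_right xc (max xd (8 * (M * N) + 8))
    have := le_max_right (max xa xb) (max xc (max xd (8 * (M * N) + 8)))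
    omega
  have hx5 : 8 * (M * N) + 8 ≤ x := by
    have := le_max_right xd (8 * (M * N) + 8)
    have := le_max_right xc (max xd (8 * (M * N) + 8))
    have := le_max_right (max xa xb) (max xc (max xd (8 * (M * N) + 8)))
    omega
  have hRg : Rg x (x / 2) (x - M * N) := by
    unfold Rg
    generalize M * N = y at *
    omega
  have hxR : (8 : ℝ) ≤ x := by exact_mod_cast (by omega : 8 ≤ x)
  set S := Win M L (yb (be κ s) x 0) (x / 2) (x - M * N) with hS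
  have hden := (hxd x hx4 (x / 2) (x - M * N) hRg).2
  have hden' : (x : ℝ) / Real.log x ^ (L + 1) ≤ S.card := hden
  have hlog : 0 < Real.log x := Real.log_pos (by linarith)
  have hSpos : (0 : ℝ) < S.card := lt_of_lt_of_le (by positivity) hden'
  have hZ := yb_last (κ := κ) (s := s) (K := K) (x := x) P.hK2 P.hε1 hθ'1 (by omega)
  refine ⟨S, fun n i => nn κ s J0 K M N x n i,
    fun n i => i < L ∧ AA s (yb (be κ s) x 0) (yb (be κ s) x 1) ((x : ℝ) ^ (1 - θ')) (n + M * i),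
    ?_, ?_, hden', ?_, ?_, ?_, ?_, ?_⟩
  · exact card_pos.mp (by exact_mod_cast hSpos)
  · intro n hn
    rw [hS, Win, mem_filter, mem_Ioc] at hn
    obtain ⟨⟨hn1, hn2⟩, _⟩ := hn
    generalize M * N = y at *
    omega
  · intro n _ i
    change 0 ≤ nn κ s J0 K M N x n i
    unfold nn
    split_ifs
    · exact div_nonneg (hHH κ s J0 K x _ hκ P.hs (by omega) hJe).1 hM0.le
    · exact zero_le_one
  · intro n _ i hi hA
    refine ⟨hAER θ θ' (be κ s 0) s x (yb (be κ s) x 1) (n + M * i) (be_zero_pos P.hκ P.hs)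
      (be_zero_lt P.hκ P.hκ1 P.hs) hθ'2 hθ'1 (by omega) hA.2, ?_⟩
    have hval : ((i : ℕ) : ZMod N).val = i := ZMod.val_natCast_of_lt (by omega)
    have hone := (hHH κ s J0 K x (n + M * i) hκ P.hs (by omega) hJe).2 _ hZ hA.2
    have e : nn κ s J0 K M N x n ((i : ℕ) : ZMod N) = (Mh s J0 K)⁻¹ := by
      unfold nn
      rw [hval, if_pos hi, hone, one_div]
    exact e.ge
  · intro T hT
    exact hxa x hx1 (x / 2) (x - M * N) hRg T (hT.trans hQ0)
  · intro m hm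
    exact hxb x hx2 (x / 2) (x - M * N) hRg m (hm.trans hQ0)
  · have hcs := count_swap S N L (fun i hi => ⟨by omega, by omega⟩)
      (fun n i => i < L ∧ AA s (yb (be κ s) x 0) (yb (be κ s) x 1) ((x : ℝ) ^ (1 - θ')) (n + M * i))
      (1 / 4 * ((s : ℝ) ^ s / (s.factorial : ℝ)) * be κ s 0 * S.card)
      (by
        intro i hi
        refine (hxc x hx3 L i hLN hi).trans ?_
        have : S.filter (fun n => AA s (yb (be κ s) x 0) (yb (be κ s) x 1) ((x : ℝ) ^ (1 - θ')) (n + M * i))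
            ⊆ S.filter (fun n => i < L ∧
              AA s (yb (be κ s) x 0) (yb (be κ s) x 1) ((x : ℝ) ^ (1 - θ')) (n + M * i)) := by
          intro n hn
          rw [mem_filter] at hn ⊢
          exact ⟨hn.1, hi, hn.2⟩
        exact_mod_cast card_le_card this)
    have hfin := final P (hMHB Q s J0 K hQ1 P.hs hJe le_rfl).2 L (by
      have : N ≤ 2 * L := by omega
      exact_mod_cast this) (S.card : ℝ) (Nat.cast_nonneg _)
    refine hfin.trans ?_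
    exact mul_le_mul_of_nonneg_left hcs (by linarith)

end

end Pool.Agent.Lib.MP_3efbeb_nt.ER.SV
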