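import Pool.Agent.Lib.MP_3efbeb_nt.ER.SV.SpecP
import Mathlib.NumberTheory.EulerProduct.Basic
import Mathlib.NumberTheory.Harmonic.Bounds

/-!
# MP_3efbeb_nt, ER/SV, module VV1 (helper73): the lower half of Mertens' product
-/

set_option autoImplicit false

namespace Pool.Agent.Lib.MP_3efbeb_nt.ER.P3

open Finset Filter Topology
open scoped Classical
open Pool.Agent.Lib.MP_3efbeb_nt.DL (PR Rgh W1 W2 VV VQ cq Good Del Lam)

namespace VV1M

/-- `n ↦ 1/n` -/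
noncomputable def inv1 : ℕ →* ℝ where
  toFun n := (n : ℝ)⁻¹
  map_one' := by simp
  map_mul' a b := by rw [Nat.cast_mul, mul_inv]

theorem inv1_apply (n : ℕ) : inv1 n = (n : ℝ)⁻¹ := rfl

theorem prod_pos (z : ℕ) : 0 < ∏ p ∈ z.primesBelow, (1 - (p : ℝ)⁻¹) := by
  refine Finset.prod_pos fun p hp => ?_
  have h1 : 1 < p := (Nat.prime_of_mem_primesBelow hp).one_lt
  have h2 : (p : ℝ)⁻¹ < 1 := inv_lt_one_of_one_lt₀ (by exact_mod_cast h1)
  linarith

theorem log_mul_le (z : ℕ) (hz : 1 ≤ z) :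
    Real.log z * ∏ p ∈ z.primesBelow, (1 - (p : ℝ)⁻¹) ≤ 1 := by
  have h1 := (EulerProduct.summable_and_hasSum_smoothNumbers_prod_primesBelow_geometric
    (f := inv1) (by
      intro p hp
      rw [inv1_apply, norm_inv, Real.norm_natCast]
      exact inv_lt_one_of_one_lt₀ (by exact_mod_cast hp.one_lt)) z).2
  have h2 : ∏ p ∈ z.primesBelow, (1 - inv1 p)⁻¹ = (∏ p ∈ z.primesBelow, (1 - (p : ℝ)⁻¹))⁻¹ := by
    rw [← Finset.prod_inv_distrib]
    exact Finset.prod_congr rfl fun p _ => by rw [inv1_apply]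
  rw [h2] at h1
  have h3 : HasSum (Set.indicator (z.smoothNumbers) (fun m : ℕ => inv1 m))
      ((∏ p ∈ z.primesBelow, (1 - (p : ℝ)⁻¹))⁻¹) :=
    (hasSum_subtype_iff_indicator (f := fun m : ℕ => inv1 m)
      (s := (z.smoothNumbers : Set ℕ))).1 h1
  have h4 := sum_le_hasSum (Finset.Icc 1 (z - 1)) (fun n _ => by
    refine Set.indicator_nonneg (fun m _ => ?_) n
    rw [inv1_apply]
    positivity) h3
  have h5 : ∑ n ∈ Finset.Icc 1 (z - 1), Set.indicator (z.smoothNumbers) (fun m : ℕ => inv1 m) n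
      = ∑ n ∈ Finset.Icc 1 (z - 1), (n : ℝ)⁻¹ := by
    refine Finset.sum_congr rfl fun n hn => ?_
    rw [Finset.mem_Icc] at hn
    have h6 : n ∈ z.smoothNumbers := by
      rw [Nat.mem_smoothNumbers]
      refine ⟨by omega, fun p hp => ?_⟩
      have h7 := Nat.le_of_mem_primeFactorsList hp
      omega
    rw [Set.indicator_of_mem h6, inv1_apply]
  rw [h5] at h4
  have h6 : Real.log z ≤ ∑ n ∈ Finset.Icc 1 (z - 1), (n : ℝ)⁻¹ := by
    have h7 := log_add_one_le_harmonic (z - 1)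
    rw [Nat.sub_add_cancel hz] at h7
    refine h7.trans (le_of_eq ?_)
    rw [harmonic_eq_sum_Icc]
    push_cast
    rfl
  have h8 := prod_pos z
  calc Real.log z * ∏ p ∈ z.primesBelow, (1 - (p : ℝ)⁻¹)
      ≤ (∏ p ∈ z.primesBelow, (1 - (p : ℝ)⁻¹))⁻¹ * ∏ p ∈ z.primesBelow, (1 - (p : ℝ)⁻¹) :=
        mul_le_mul_of_nonneg_right (h6.trans h4) h8.le
    _ = 1 := inv_mul_cancel₀ h8.ne'

theorem split (M z : ℕ) (hM : 1 ≤ M) (hz : M < z) :
    ∏ p ∈ z.primesBelow, (1 - (p : ℝ)⁻¹) =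
      VV 1 M z * ∏ p ∈ M.primeFactors, (1 - (p : ℝ)⁻¹) := by
  have h1 : z.primesBelow.filter (fun p => ¬ p ∣ M) = PR M z := by
    ext p
    simp only [Nat.primesBelow, PR, Finset.mem_filter, Finset.mem_range]
    tauto
  have h2 : z.primesBelow.filter (fun p => p ∣ M) = M.primeFactors := by
    ext p
    simp only [Nat.primesBelow, Finset.mem_filter, Finset.mem_range, Nat.mem_primeFactors]
    constructor
    · rintro ⟨⟨_, hp⟩, hd⟩
      exact ⟨hp, hd, by omega⟩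
    · rintro ⟨hp, hd, _⟩
      exact ⟨⟨lt_of_le_of_lt (Nat.le_of_dvd (by omega) hd) hz, hp⟩, hd⟩
  rw [← Finset.prod_filter_mul_prod_filter_not z.primesBelow (fun p => p ∣ M), h1, h2, mul_comm]
  congr 1
  unfold VV
  refine Finset.prod_congr rfl fun p _ => ?_
  simp

end VV1M

theorem specVV1 : SpecVV1 := by
  intro M hM
  refine ⟨M + 1, fun z hz => ?_⟩
  have h1 := VV1M.log_mul_le z (by omega)
  rw [VV1M.split M z hM (by omega)] at h1
  have h2 : (M.totient : ℝ) = M * ∏ p ∈ M.primeFactors, (1 - (p : ℝ)⁻¹) := by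
    have h3 := Nat.totient_eq_mul_prod_factors M
    have h4 : ((M.totient : ℚ) : ℝ) = ((M * ∏ p ∈ M.primeFactors, (1 - (p : ℚ)⁻¹) : ℚ) : ℝ) := by
      rw [h3]
    push_cast at h4
    exact h4
  rw [h2]
  have hM0 : (0 : ℝ) ≤ M := Nat.cast_nonneg M
  calc VV 1 M z * (M * ∏ p ∈ M.primeFactors, (1 - (p : ℝ)⁻¹)) * Real.log z
      = M * (Real.log z * (VV 1 M z * ∏ p ∈ M.primeFactors, (1 - (p : ℝ)⁻¹))) := by ring
    _ ≤ M * 1 := mul_le_mul_of_nonneg_left h1 hM0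
    _ = M := mul_one _

end Pool.Agent.Lib.MP_3efbeb_nt.ER.P3
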