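import Pool.Agent.Lib.MP_3efbeb_nt.ER.SV.SpecP
import Pool.Agent.Lib.MP_3efbeb_nt.DL.AVG1

/-!
# AVG1B: the average of `∏_{p ∣ n} (1 + A/p)`, `n = s q' - s' q`, over the primes `q' = b (mod M)` of a block
-/

set_option autoImplicit false

namespace Pool.Agent.Lib.MP_3efbeb_nt.ER.P3

open Finset
open scoped Classical

noncomputable section

open Pool.Agent.Lib.MP_3efbeb_nt.DL.AVG1M in
/-- AVG1B. -/
theorem specAVG1B (hBTB : SpecBTB) : SpecAVG1B := by
  intro A η s s' hA hη hs hs'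
  obtain ⟨C, hC, hB⟩ := hBTB
  -- the choice of P0
  obtain ⟨P1, hP1⟩ : ∃ P1 : ℕ, 1 ≤ P1 ∧ C * (Real.exp (A / P1) - 1) ≤ η / 2 := by
    have h1 : Filter.Tendsto (fun n : ℕ => C * (Real.exp (A / (n : ℝ)) - 1)) Filter.atTop (nhds (C * (Real.exp 0 - 1))) := by
      have h2 : Filter.Tendsto (fun n : ℕ => A / (n : ℝ)) Filter.atTop (nhds 0) :=
        tendsto_const_div_atTop_nhds_zero_nat A
      exact ((Real.continuous_exp.tendsto 0).comp h2 |>.sub_const 1).const_mul C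
    rw [Real.exp_zero, sub_self, mul_zero] at h1
    have h3 := (h1.eventually (gt_mem_nhds (show (0 : ℝ) < η / 2 by positivity))).and (Filter.eventually_ge_atTop 1)
    obtain ⟨n, hn⟩ := h3.exists
    exact ⟨n, hn.2, hn.1.le⟩
  obtain ⟨P2, hP2⟩ := exists_nat_ge ((1 + A) ^ 8)
  refine ⟨P1 + P2 + s.natAbs, fun M hM1 hM => ?_⟩
  set P0 : ℕ := P1 + P2 + s.natAbs with hP0
  have hP01 : 1 ≤ P0 := by omega
  have hP08 : (1 + A) ^ 8 ≤ (P0 : ℝ) := hP2.trans (by exact_mod_cast (by omega : P2 ≤ P0))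
  have hexp : C * (Real.exp (A / P0) - 1) ≤ η / 2 := by
    refine le_trans ?_ hP1.2
    have h1 : (P1 : ℝ) ≤ P0 := by exact_mod_cast (by omega : P1 ≤ P0)
    have h2 : (0 : ℝ) < P1 := by exact_mod_cast hP1.1
    have h3 : A / (P0 : ℝ) ≤ A / P1 := by gcongr
    have h4 := Real.exp_le_exp.mpr h3
    exact mul_le_mul_of_nonneg_left (by linarith) hC.le
  obtain ⟨j1, hj1⟩ := hB M hM1
  -- j large
  set K : ℝ := (s.natAbs : ℝ) + s'.natAbs with hK
  have hK1 : 1 ≤ K := by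
    have : (1 : ℝ) ≤ s.natAbs := by exact_mod_cast Int.natAbs_pos.mpr hs
    have h2 : (0 : ℝ) ≤ s'.natAbs := Nat.cast_nonneg _
    linarith
  obtain ⟨j2, hj2⟩ : ∃ j2 : ℕ, ∀ j : ℕ, j2 ≤ j → K * 2 ^ (j + 1) ≤ (η / 2) ^ 8 * (2 : ℝ) ^ (4 * j) := by
    obtain ⟨n, hn⟩ := pow_unbounded_of_one_lt (2 * K / (η / 2) ^ 8) (one_lt_two : (1 : ℝ) < 2)
    refine ⟨n, fun j hj => ?_⟩
    have h1 : (2 : ℝ) ^ n ≤ 2 ^ (3 * j) := pow_le_pow_right₀ one_le_two (by omega)
    have h2 : 0 < (η / 2) ^ 8 := by positivity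
    have h3 : 2 * K ≤ (η / 2) ^ 8 * 2 ^ (3 * j) := by
      have h4 := hn.le.trans h1
      rw [div_le_iff₀ h2] at h4
      linarith
    calc K * 2 ^ (j + 1) = 2 * K * 2 ^ j := by rw [pow_succ]; ring
      _ ≤ (η / 2) ^ 8 * 2 ^ (3 * j) * 2 ^ j := mul_le_mul_of_nonneg_right h3 (by positivity)
      _ = (η / 2) ^ 8 * (2 : ℝ) ^ (4 * j) := by rw [mul_assoc, ← pow_add]; congr 2; ring
  refine ⟨j1 + j2, fun j hj b hb q hq => ?_⟩
  set B : ℝ := Real.sqrt (2 ^ j) with hBdef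
  have hB0 : 0 < B := Real.sqrt_pos.mpr (by positivity)
  have hB2 : B ^ 2 = 2 ^ j := Real.sq_sqrt (by positivity)
  have hB8 : B ^ 8 = (2 : ℝ) ^ (4 * j) := by
    calc B ^ 8 = (B ^ 2) ^ 4 := by ring
      _ = (2 : ℝ) ^ (4 * j) := by rw [hB2, ← pow_mul]; congr 1; ring
  set N : ℕ → ℤ := fun q' => s * (q' : ℤ) - s' * (q : ℤ) with hN
  -- the large sets
  have hlarge : ∀ q' ∈ bb M b j, (1 + A) ^ (Pn M (N q')).card / B ≤ η / 2 := by
    intro q' hq'
    rw [div_le_iff₀ hB0]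
    refine le_of_pow_le_pow_left₀ (n := 8) (by norm_num) (by positivity) ?_
    rw [mul_pow, hB8]
    refine (pow_card_le A hA M P0 (N q') hP08 hM).trans (le_trans ?_ (hj2 j (by omega)))
    have hq1 : (q : ℝ) ≤ 2 ^ (j + 1) := by
      have := (Finset.mem_Ioc.mp (Finset.mem_filter.mp hq).1).2
      exact_mod_cast this
    have hq2 : (q' : ℝ) ≤ 2 ^ (j + 1) := by
      have := (Finset.mem_Ioc.mp (Finset.mem_filter.mp hq').1).2
      exact_mod_cast this
    refine max_le ?_ ?_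
    · have : (1 : ℝ) ≤ 2 ^ (j + 1) := one_le_pow₀ one_le_two
      nlinarith
    · have h1 : (N q').natAbs ≤ s.natAbs * q' + s'.natAbs * q := by
        calc (N q').natAbs ≤ (s * (q' : ℤ)).natAbs + (s' * (q : ℤ)).natAbs := Int.natAbs_sub_le _ _
          _ = _ := by rw [Int.natAbs_mul, Int.natAbs_mul, Int.natAbs_natCast, Int.natAbs_natCast]
      have h2 : ((N q').natAbs : ℝ) ≤ s.natAbs * q' + s'.natAbs * q := by exact_mod_cast h1
      refine h2.trans ?_
      rw [hK, add_mul]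
      gcongr
  -- each term
  set T : Finset (Finset ℕ) := ((Pr M (2 ^ j)).powerset.erase ∅).filter (fun t => (((∏ p ∈ t, p : ℕ) : ℝ) ≤ B)) with hT
  have hterm : ∀ q' ∈ bb M b j, DL.hh A M (N q') - 1 ≤
      ∑ t ∈ T, (if ∀ p ∈ t, (p : ℤ) ∣ N q' then g A t else 0) + η / 2 := by
    intro q' hq'
    rw [hh_sub_one, ← Finset.sum_filter_add_sum_filter_not _ (fun t : Finset ℕ => (((∏ p ∈ t, p : ℕ) : ℝ) ≤ B))]
    refine add_le_add ?_ ((large_part A B hA hB0 M (N q')).trans (hlarge q' hq'))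
    rw [← Finset.sum_filter]
    refine Finset.sum_le_sum_of_subset_of_nonneg ?_ (fun t _ _ => g_nonneg hA t)
    intro t ht
    obtain ⟨h1, h2⟩ := Finset.mem_filter.mp ht
    obtain ⟨h3, h4⟩ := Finset.mem_erase.mp h1
    have h5 := Finset.mem_powerset.mp h4
    refine Finset.mem_filter.mpr ⟨Finset.mem_filter.mpr ⟨Finset.mem_erase.mpr ⟨h3, ?_⟩, h2⟩, ?_⟩
    · refine Finset.mem_powerset.mpr fun p hp => mem_Pr.mpr ?_
      have h6 := mem_Pn (h5 hp)
      refine ⟨?_, h6.1, h6.2.2.1⟩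
      have h7 : p ≤ ∏ p ∈ t, p := Nat.le_of_dvd
        (Finset.prod_pos fun p hp => (mem_Pn (h5 hp)).1.pos) (Finset.dvd_prod_of_mem (fun p => p) hp)
      have h8 : (p : ℝ) ≤ B := le_trans (by exact_mod_cast h7) h2
      have h9 : B ≤ 2 ^ j := by
        have h10 : (1 : ℝ) ≤ B := by
          rw [hBdef]; exact Real.one_le_sqrt.mpr (one_le_pow₀ one_le_two)
        calc B ≤ B ^ 2 := by nlinarith
          _ = 2 ^ j := hB2
      exact_mod_cast h8.trans h9
    · intro p hp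
      exact (mem_Pn (h5 hp)).2.1
  -- the count for each small set
  have hcount : ∀ t ∈ T, ((((bb M b j).filter (fun q' => ∀ p ∈ t, (p : ℤ) ∣ N q')).card : ℝ)) ≤
      C * (bb M b j).card / (Nat.totient (∏ p ∈ t, p) : ℝ) := by
    intro t ht
    obtain ⟨h1, h2⟩ := Finset.mem_filter.mp ht
    obtain ⟨h3, h4⟩ := Finset.mem_erase.mp h1
    have h5 : ∀ p ∈ t, p ≤ 2 ^ j ∧ p.Prime ∧ ¬ p ∣ M := fun p hp => mem_Pr.mp (Finset.mem_powerset.mp h4 hp)
    obtain ⟨c, hc⟩ := count_le (bb M b j) s s' q t (fun p hp => (h5 p hp).2.1) (fun p hp hdv => by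
      have h6 := hM p (h5 p hp).2.1 (h5 p hp).2.2
      have h7 := Nat.le_of_dvd (Int.natAbs_pos.mpr hs) (Int.natCast_dvd.mp hdv)
      omega)
    have h8 : 1 ≤ ∏ p ∈ t, p := Finset.prod_pos fun p hp => (h5 p hp).2.1.pos
    have h9 : (∏ p ∈ t, p) ^ 2 ≤ 2 ^ j := by
      have h10 : (((∏ p ∈ t, p : ℕ) : ℝ)) ^ 2 ≤ B ^ 2 := pow_le_pow_left₀ (by positivity) h2 2
      rw [hB2] at h10
      exact_mod_cast h10
    have h11 : Nat.Coprime (∏ p ∈ t, p) M :=
      Nat.Coprime.prod_left fun p hp => ((h5 p hp).2.1.coprime_iff_not_dvd).mpr (h5 p hp).2.2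
    have h12 := hj1 j (by omega) b hb (∏ p ∈ t, p) c h8 h9 h11
    refine le_trans ?_ h12
    exact_mod_cast hc
  -- summation
  calc ∑ q' ∈ (bb M b j).erase q, (DL.hh A M (s * (q' : ℤ) - s' * (q : ℤ)) - 1)
      ≤ ∑ q' ∈ bb M b j, (∑ t ∈ T, (if ∀ p ∈ t, (p : ℤ) ∣ N q' then g A t else 0) + η / 2) := by
        refine (Finset.sum_le_sum fun q' hq' => hterm q' (Finset.mem_of_mem_erase hq')).trans ?_
        refine Finset.sum_le_sum_of_subset_of_nonneg (Finset.erase_subset _ _) fun q' _ _ => ?_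
        refine add_nonneg (Finset.sum_nonneg fun t _ => ?_) (by positivity)
        split_ifs
        · exact g_nonneg hA t
        · exact le_rfl
    _ = ∑ t ∈ T, g A t * ((bb M b j).filter (fun q' => ∀ p ∈ t, (p : ℤ) ∣ N q')).card + (bb M b j).card * (η / 2) := by
        rw [Finset.sum_add_distrib, Finset.sum_const, nsmul_eq_mul, Finset.sum_comm]
        congr 1
        refine Finset.sum_congr rfl fun t _ => ?_
        rw [← Finset.sum_filter, Finset.sum_const, nsmul_eq_mul, mul_comm]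
    _ ≤ ∑ t ∈ T, g A t * (C * (bb M b j).card / (Nat.totient (∏ p ∈ t, p) : ℝ)) + (bb M b j).card * (η / 2) := by
        refine add_le_add (Finset.sum_le_sum fun t ht => ?_) le_rfl
        exact mul_le_mul_of_nonneg_left (hcount t ht) (g_nonneg hA t)
    _ = C * (bb M b j).card * ∑ t ∈ T, g A t / (Nat.totient (∏ p ∈ t, p) : ℝ) + (bb M b j).card * (η / 2) := by
        rw [Finset.mul_sum]
        congr 1
        refine Finset.sum_congr rfl fun t _ => ?_
        ring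
    _ ≤ C * (bb M b j).card * (Real.exp (A / P0) - 1) + (bb M b j).card * (η / 2) := by
        refine add_le_add (mul_le_mul_of_nonneg_left ?_ (by positivity)) le_rfl
        refine le_trans ?_ (small_sum A hA M P0 (2 ^ j) hP01 hM)
        refine Finset.sum_le_sum_of_subset_of_nonneg (Finset.filter_subset _ _) fun t _ _ => ?_
        exact div_nonneg (g_nonneg hA t) (Nat.cast_nonneg _)
    _ = (C * (Real.exp (A / P0) - 1) + η / 2) * (bb M b j).card := by ring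
    _ ≤ η * (bb M b j).card := by
        refine mul_le_mul_of_nonneg_right ?_ (Nat.cast_nonneg _)
        linarith

end

end Pool.Agent.Lib.MP_3efbeb_nt.ER.P3
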