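import Pool.Agent.Lib.MP_3efbeb_nt.ER.SV.SpecM

/-!
# MP_3efbeb_nt, ER/SV, BNB (helper96): bounds for the Bonferroni sums
-/

set_option autoImplicit false

namespace Pool.Agent.Lib.MP_3efbeb_nt.ER.SV

theorem specBNB (hBON : SpecBON) : SpecBNB := by
  intro s J w hJ
  have hb := hBON s J w hJ
  refine ⟨?_, ?_, ?_, ?_⟩
  · rw [hb]
    split_ifs
    · exact le_rfl
    · exact zero_le_one
    · positivity
  · rw [hBON s J s hJ, if_neg (lt_irrefl s), if_pos rfl]
  · intro hne hle
    rw [hb]
    by_cases h1 : w < s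
    · rw [if_pos h1]
    · rw [if_neg h1, if_neg hne, Nat.choose_eq_zero_of_lt (by omega : w - s - 1 < J)]
      simp
  · rw [hb]
    split_ifs with h1 h2
    · positivity
    · exact one_le_pow₀ (by norm_num)
    · have e1 : (w.choose s : ℝ) ≤ 2 ^ w := by exact_mod_cast Nat.choose_le_two_pow w s
      have e2 : ((w - s - 1).choose J : ℝ) ≤ 2 ^ w := by
        have e3 : (w - s - 1).choose J ≤ 2 ^ w :=
          (Nat.choose_le_two_pow (w - s - 1) J).trans (Nat.pow_le_pow_right (by norm_num) (by omega))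
        exact_mod_cast e3
      calc (w.choose s : ℝ) * ((w - s - 1).choose J : ℝ) ≤ 2 ^ w * 2 ^ w :=
            mul_le_mul e1 e2 (Nat.cast_nonneg _) (by positivity)
        _ = 4 ^ w := by rw [← mul_pow]; norm_num

end Pool.Agent.Lib.MP_3efbeb_nt.ER.SV
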