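import Pool.Agent.Lib.MP_3efbeb_nt.ER.SV.SpecP

/-!
# MP_3efbeb_nt, ER/SV: module CST (the constants)
-/

set_option autoImplicit false

namespace Pool.Agent.Lib.MP_3efbeb_nt.ER.P3

open Finset Filter Topology

namespace CSTM

theorem log3 : (1.08 : ℝ) < Real.log 3 := by
  rw [Real.lt_log_iff_exp_lt (by norm_num)]
  have h1 : Real.exp 1 < 2.7182818286 := Real.exp_one_lt_d9
  have h2 : (0.92 : ℝ) ≤ Real.exp (-0.08) := by
    have := Real.add_one_le_exp (-0.08 : ℝ)
    linarith
  have h3 : Real.exp 0.08 ≤ 1 / 0.92 := by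
    have h4 : Real.exp 0.08 * Real.exp (-0.08) = 1 := by
      rw [← Real.exp_add]
      norm_num
    rw [le_div_iff₀ (by norm_num)]
    calc Real.exp 0.08 * 0.92 ≤ Real.exp 0.08 * Real.exp (-0.08) :=
          mul_le_mul_of_nonneg_left h2 (Real.exp_pos _).le
      _ = 1 := h4
  have h5 : Real.exp 1.08 = Real.exp 1 * Real.exp 0.08 := by
    rw [← Real.exp_add]
    norm_num
  rw [h5]
  calc Real.exp 1 * Real.exp 0.08 ≤ 2.7182818286 * (1 / 0.92) :=
        mul_le_mul h1.le h3 (Real.exp_pos _).le (by norm_num)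
    _ < 3 := by norm_num

theorem partA : ∀ᶠ s : ℕ in atTop, 36 / 100 * ((s : ℝ) ^ s / (s.factorial : ℝ)) ≤
    Real.log 3 * (s - Real.log 3) ^ (s - 1) / ((s - 1).factorial : ℝ) := by
  have hl := log3
  have hl3 : Real.log 3 < 2 := by
    have := Real.log_le_sub_one_of_pos (show (0 : ℝ) < 3 by norm_num)
    have h2 : Real.log 3 ≠ 2 := by
      intro h
      have h3 := Real.exp_log (show (0 : ℝ) < 3 by norm_num)
      rw [h] at h3
      have h4 : (2 : ℝ) + 1 < Real.exp 2 := Real.add_one_lt_exp (by norm_num)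
      linarith
    exact lt_of_le_of_ne (by linarith) h2
  have ht := Real.tendsto_one_add_div_pow_exp (-Real.log 3)
  rw [Real.exp_neg, Real.exp_log (by norm_num)] at ht
  have hlt : 36 / 100 / Real.log 3 < (3 : ℝ)⁻¹ := by
    rw [div_lt_iff₀ (by linarith)]
    linarith
  filter_upwards [ht.eventually (lt_mem_nhds hlt), eventually_ge_atTop 3] with s hs hs3
  have hs3' : (3 : ℝ) ≤ s := by exact_mod_cast hs3
  have hs0 : (0 : ℝ) < s := by linarith
  obtain ⟨m, rfl⟩ : ∃ m, s = m + 1 := ⟨s - 1, by omega⟩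
  rw [Nat.add_sub_cancel]
  set S : ℝ := ((m + 1 : ℕ) : ℝ) with hS
  have hfac : ((m + 1).factorial : ℝ) = S * (m.factorial : ℝ) := by
    rw [Nat.factorial_succ, Nat.cast_mul]
  have hmf : (0 : ℝ) < (m.factorial : ℝ) := by exact_mod_cast m.factorial_pos
  have e1 : S ^ (m + 1) / (((m + 1).factorial : ℕ) : ℝ) = S ^ m / (m.factorial : ℝ) := by
    rw [hfac, pow_succ]
    field_simp
  rw [e1]
  have hq0 : 0 ≤ 1 + -Real.log 3 / S := by
    have : Real.log 3 / S ≤ 1 := by
      rw [div_le_one hs0]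
      linarith
    rw [neg_div]
    linarith
  have hq1 : 1 + -Real.log 3 / S ≤ 1 := by
    have : 0 ≤ Real.log 3 / S := by positivity
    rw [neg_div]
    linarith
  have hq : 36 / 100 / Real.log 3 ≤ (1 + -Real.log 3 / S) ^ m :=
    hs.le.trans (pow_le_pow_of_le_one hq0 hq1 (Nat.le_succ m))
  rw [div_le_iff₀ (by linarith)] at hq
  have e2 : (S - Real.log 3) ^ m = S ^ m * (1 + -Real.log 3 / S) ^ m := by
    rw [← mul_pow]
    congr 1
    field_simp
    ring
  rw [e2]
  have hSm : 0 ≤ S ^ m / (m.factorial : ℝ) := by positivity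
  calc 36 / 100 * (S ^ m / (m.factorial : ℝ)) ≤
        ((1 + -Real.log 3 / S) ^ m * Real.log 3) * (S ^ m / (m.factorial : ℝ)) :=
        mul_le_mul_of_nonneg_right hq hSm
    _ = Real.log 3 * (S ^ m * (1 + -Real.log 3 / S) ^ m) / (m.factorial : ℝ) := by ring

theorem log_inv_le (x : ℝ) (hx : 0 < x) : x * Real.log (1 / x) ≤ 2 * Real.sqrt x := by
  have h1 : Real.log (1 / x) ≤ 2 * Real.sqrt (1 / x) := by
    have h2 : Real.log (Real.sqrt (1 / x)) ≤ Real.sqrt (1 / x) - 1 :=
      Real.log_le_sub_one_of_pos (Real.sqrt_pos.2 (by positivity))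
    rw [Real.log_sqrt (by positivity)] at h2
    linarith
  have h3 : x * Real.sqrt (1 / x) = Real.sqrt x := by
    rw [Real.sqrt_div zero_le_one, Real.sqrt_one, mul_one_div, Real.div_sqrt]
  calc x * Real.log (1 / x) ≤ x * (2 * Real.sqrt (1 / x)) := mul_le_mul_of_nonneg_left h1 hx.le
    _ = 2 * (x * Real.sqrt (1 / x)) := by ring
    _ = 2 * Real.sqrt x := by rw [h3]

theorem log_const : Real.log (192 * 10000) ≤ 15 := by
  rw [Real.log_le_iff_le_exp (by norm_num)]
  have h1 : (2.7182818283 : ℝ) < Real.exp 1 := Real.exp_one_gt_d9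
  have h2 : Real.exp 15 = Real.exp 1 ^ 15 := by
    rw [← Real.exp_nat_mul]
    norm_num
  rw [h2]
  calc (192 * 10000 : ℝ) ≤ 2.7182818283 ^ 15 := by norm_num
    _ ≤ Real.exp 1 ^ 15 := by
        gcongr

theorem partB (κ : ℝ) (hκ : 0 < κ) (hκ8 : κ ≤ 1 / 8) (s : ℕ) (hs : 1000 ≤ s) (N : ℕ)
    (hN : (N : ℝ) ≤ 2 * Real.exp (s / 2)) : SV.be κ s 0 * SV.lev N 2 < 1 ∧
    ∃ (η : ℝ) (b0 : ℕ), 0 < η ∧ 100 * η ≤ ((s : ℝ) ^ s / (s.factorial : ℝ)) * SV.be κ s 0 ∧
      SV.be κ s 0 * (16 * b0 + 50) ≤ 1 / 2 ∧ ∀ L : ℕ, 1 ≤ L → L ≤ N → Par L b0 η := by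
  have hs' : (1000 : ℝ) ≤ s := by exact_mod_cast hs
  have hs0 : (0 : ℝ) < s := by linarith
  set u : ℝ := Real.exp (-((s : ℝ) / 2)) with hu
  have hu0 : 0 < u := Real.exp_pos _
  have hinv : u * Real.exp ((s : ℝ) / 2) = 1 := by
    rw [hu, ← Real.exp_add]
    simp
  have hexp : (500 : ℝ) ≤ Real.exp ((s : ℝ) / 2) := by
    have := Real.add_one_le_exp ((s : ℝ) / 2)
    linarith
  have hu1 : u ≤ 1 / 500 := by
    rw [le_div_iff₀ (by norm_num)]
    calc u * 500 ≤ u * Real.exp ((s : ℝ) / 2) := mul_le_mul_of_nonneg_left hexp hu0.le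
      _ = 1 := hinv
  have hu2 : Real.exp (-(s : ℝ)) = u ^ 2 := by
    rw [hu, ← Real.exp_nat_mul]
    congr 1
    push_cast
    ring
  have hβ : SV.be κ s 0 = κ / s * u ^ 2 := by
    unfold SV.be
    rw [if_pos rfl, hu2]
  set β : ℝ := SV.be κ s 0 with hβdef
  have hβ0 : 0 < β := by
    rw [hβ]
    positivity
  have hβ1 : β ≤ u ^ 2 / 8000 := by
    rw [hβ, div_mul_eq_mul_div, div_le_div_iff₀ hs0 (by norm_num)]
    nlinarith [pow_pos hu0 2, mul_le_mul hκ8 hs' (by norm_num) (by norm_num : (0:ℝ) ≤ 1 / 8)]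
  have hNu : u * N ≤ 2 := by
    calc u * N ≤ u * (2 * Real.exp ((s : ℝ) / 2)) := mul_le_mul_of_nonneg_left hN hu0.le
      _ = 2 * (u * Real.exp ((s : ℝ) / 2)) := by ring
      _ = 2 := by rw [hinv, mul_one]
  have hβN : β * N ≤ u / 4000 := by
    calc β * N ≤ u ^ 2 / 8000 * N := mul_le_mul_of_nonneg_right hβ1 (Nat.cast_nonneg _)
      _ = u / 8000 * (u * N) := by ring
      _ ≤ u / 8000 * 2 := mul_le_mul_of_nonneg_left hNu (by positivity)
      _ = u / 4000 := by ring
  have hβu : β ≤ 1 / 8000 := by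
    refine hβ1.trans ?_
    have : u ^ 2 ≤ 1 := pow_le_one₀ hu0.le (by linarith)
    linarith
  refine ⟨?_, ?_⟩
  · unfold SV.lev
    have : β * (304 * (N : ℝ) + 16 * ((2 : ℕ) : ℝ) + 140) = 304 * (β * N) + 172 * β := by
      push_cast
      ring
    rw [this]
    linarith
  -- the ratio
  have hfac : (0 : ℝ) < (s.factorial : ℝ) := by exact_mod_cast s.factorial_pos
  have hR1 : (1 : ℝ) ≤ (s : ℝ) ^ s / (s.factorial : ℝ) := by
    rw [one_le_div hfac]
    exact_mod_cast Nat.factorial_le_pow s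
  have hR2 : (s : ℝ) ^ s / (s.factorial : ℝ) ≤ Real.exp s :=
    Real.pow_div_factorial_le_exp _ hs0.le s
  set R : ℝ := (s : ℝ) ^ s / (s.factorial : ℝ) with hR
  have hR0 : 0 < R := lt_of_lt_of_le one_pos hR1
  set η : ℝ := R * β / 100 with hη
  have hη0 : 0 < η := by positivity
  have hη1 : η ≤ 1 := by
    have h1 : R * β ≤ 1 := by
      calc R * β ≤ Real.exp s * β := mul_le_mul_of_nonneg_right hR2 hβ0.le
        _ = κ / s * (Real.exp s * u ^ 2) := by
            rw [hβ]
            ring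
        _ = κ / s := by
            rw [← hu2, ← Real.exp_add]
            simp
        _ ≤ 1 := by
            rw [div_le_one hs0]
            linarith
    rw [hη]
    linarith
  have hηβ : β / 100 ≤ η := by
    rw [hη]
    have : β ≤ R * β := le_mul_of_one_le_left hβ0.le hR1
    linarith
  have hη2 : η ^ 2 ≤ 1 := pow_le_one₀ hη0.le hη1
  have hlog0 : 0 ≤ Real.log (192 / η ^ 2) := by
    apply Real.log_nonneg
    rw [one_le_div (by positivity)]
    linarith
  have hlog : Real.log (192 / η ^ 2) ≤ 15 + 2 * Real.log (1 / β) := by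
    calc Real.log (192 / η ^ 2) ≤ Real.log (192 * 10000 * (1 / β) ^ 2) := by
          apply Real.log_le_log (by positivity)
          rw [div_le_iff₀ (by positivity)]
          have h1 : (β / 100) ^ 2 ≤ η ^ 2 := pow_le_pow_left₀ (by positivity) hηβ 2
          have h2 : 192 * 10000 * (1 / β) ^ 2 * (β / 100) ^ 2 = 192 := by
            field_simp
            norm_num
          calc (192 : ℝ) = 192 * 10000 * (1 / β) ^ 2 * (β / 100) ^ 2 := h2.symm
            _ ≤ 192 * 10000 * (1 / β) ^ 2 * η ^ 2 :=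
                mul_le_mul_of_nonneg_left h1 (by positivity)
      _ = Real.log (192 * 10000) + 2 * Real.log (1 / β) := by
          rw [Real.log_mul (by norm_num) (by positivity), Real.log_pow]
          norm_num
      _ ≤ 15 + 2 * Real.log (1 / β) := add_le_add log_const le_rfl
  refine ⟨η, 38 * N + ⌈Real.log (192 / η ^ 2)⌉₊, hη0, ?_, ?_, ?_⟩
  · rw [hη]
    linarith
  · have hceil : (⌈Real.log (192 / η ^ 2)⌉₊ : ℝ) ≤ 16 + 2 * Real.log (1 / β) := by
      have := (Nat.ceil_lt_add_one hlog0).le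
      linarith
    have hsq : Real.sqrt β ≤ u / 80 := by
      rw [Real.sqrt_le_left (by positivity)]
      refine hβ1.trans ?_
      have : (u / 80) ^ 2 = u ^ 2 / 6400 := by ring
      rw [this]
      have : 0 < u ^ 2 := by positivity
      linarith
    have hli := log_inv_le β hβ0
    push_cast
    calc β * (16 * (38 * (N : ℝ) + (⌈Real.log (192 / η ^ 2)⌉₊ : ℝ)) + 50) ≤
          β * (16 * (38 * (N : ℝ) + (16 + 2 * Real.log (1 / β))) + 50) := by
          gcongr
      _ = 608 * (β * N) + 306 * β + 32 * (β * Real.log (1 / β)) := by ring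
      _ ≤ 608 * (u / 4000) + 306 * (1 / 8000) + 32 * (2 * (u / 80)) := by
          linarith
      _ ≤ 1 / 2 := by linarith
  · intro L _ hLN
    have hLN' : (L : ℝ) ≤ N := by exact_mod_cast hLN
    refine ⟨?_, ?_⟩
    · calc 38 * L ≤ 38 * N := Nat.mul_le_mul_left _ hLN
        _ ≤ _ := Nat.le_add_right _ _
    · have h1 : 3 * Real.exp (38 * (L : ℝ) - ((38 * N + ⌈Real.log (192 / η ^ 2)⌉₊ : ℕ) : ℝ)) ≤
          η ^ 2 / 64 := by
        calc 3 * Real.exp (38 * (L : ℝ) - ((38 * N + ⌈Real.log (192 / η ^ 2)⌉₊ : ℕ) : ℝ)) ≤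
              3 * Real.exp (-Real.log (192 / η ^ 2)) := by
              have := Nat.le_ceil (Real.log (192 / η ^ 2))
              have h2 : 38 * (L : ℝ) - ((38 * N + ⌈Real.log (192 / η ^ 2)⌉₊ : ℕ) : ℝ) ≤
                  -Real.log (192 / η ^ 2) := by
                push_cast
                linarith
              have := Real.exp_le_exp.2 h2
              linarith
          _ = η ^ 2 / 64 := by
              rw [Real.exp_neg, Real.exp_log (by positivity)]
              field_simp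
              norm_num
      refine le_min (h1.trans ?_) h1
      linarith

end CSTM

open CSTM in
theorem specCST : SpecCST := by
  intro κ hκ hκ8
  obtain ⟨s1, hs1⟩ := eventually_atTop.1 partA
  refine ⟨max s1 1000, le_trans (by norm_num) (le_max_right _ _), fun s hs => ⟨?_, ?_⟩⟩
  · exact hs1 s (le_trans (le_max_left _ _) hs)
  · intro N hN
    exact partB κ hκ hκ8 s (le_trans (le_max_right _ _) hs) N hN

end Pool.Agent.Lib.MP_3efbeb_nt.ER.P3
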