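import Pool.Agent.Lib.MP_3efbeb_nt.ER.Defs
import Pool.Agent.Lib.MP_3efbeb_nt.DL.Base

/-!
# MP_3efbeb_nt, ER/SV: the sieve part (helper33), definitions

`s = r - 1`; `z = x^(β 0) < T = x^(β 1) < x^(β 2) < ... < x^(β (K+1))`; a window is a set of `L` numbers `n + M i`, `i < L`, without
prime factors `< z` (`n = 1 (mod M)`, all primes `≤ 2 L` divide `M`).  The majorant is a product over the blocks of
primes `[x^(β j), x^(β (j+1)))` of Bonferroni sums in the number `om` of the primes of the block that divide `m`.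
-/

set_option autoImplicit false

namespace Pool.Agent.Lib.MP_3efbeb_nt.ER.SV

open Finset
open scoped Classical

noncomputable section

/-- the primes in `[u, v)` -/
def blk (u v : ℕ) : Finset ℕ := (Ico u v).filter Nat.Prime

/-- the number of the primes of `[u, v)` dividing `m` -/
def om (u v m : ℕ) : ℕ := ((blk u v).filter (fun p => p ∣ m)).card

/-- `∑ 1/p` over the block -/
def Sp (u v : ℕ) : ℝ := ∑ p ∈ blk u v, 1 / (p : ℝ)

/-- block boundaries `⌈x ^ β j⌉` -/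
def yb (β : ℕ → ℝ) (x j : ℕ) : ℕ := ⌈(x : ℝ) ^ (β j)⌉₊

/-- polynomials in the binomial basis, `∑_{l ≤ u} c_l C(w, l)` -/
def pol (u : ℕ) (c : ℕ → ℝ) (w : ℕ) : ℝ := ∑ l ∈ range (u + 1), c l * (w.choose l : ℝ)

/-- the Poisson expectation of `pol u c` (parameter `lam`) -/
def PE (lam : ℝ) (u : ℕ) (c : ℕ → ℝ) : ℝ := ∑ l ∈ range (u + 1), c l * lam ^ l / (l.factorial : ℝ)

/-- the same with absolute values -/
def PA (lam : ℝ) (u : ℕ) (c : ℕ → ℝ) : ℝ := ∑ l ∈ range (u + 1), |c l| * lam ^ l / (l.factorial : ℝ)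

/-- coefficients of the Bonferroni sum for `w = s` -/
def cb (s J l : ℕ) : ℝ := if s ≤ l ∧ l ≤ s + J then (-1 : ℝ) ^ (l - s) * (l.choose s : ℝ) else 0

/-- the Bonferroni sum `∑_{i ≤ J} (-1)^i C(s+i,s) C(w,s+i)`, a majorant of the indicator of `w = s` for even `J` -/
def bon (s J w : ℕ) : ℝ := pol (s + J) (cb s J) w

/-- the starting points `n` in `(X1, X2]`, `n = 1 (mod M)`, of the windows `n + M i`, `i < L`, without prime factors `< z` -/
def Win (M L z X1 X2 : ℕ) : Finset ℕ :=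
  (Ioc X1 X2).filter (fun n => n % M = 1 % M ∧ ∀ i < L, ∀ p : ℕ, p.Prime → p < z → ¬ p ∣ M → ¬ p ∣ n + M * i)

/-- `∏ (1 - L/p)` over the primes `p < z`, `p ∤ M` (the same as `DL.VV L M z`) -/
def V (L M z : ℕ) : ℝ := ∏ p ∈ (range z).filter (fun p => p.Prime ∧ ¬ p ∣ M), (1 - (L : ℝ) / p)

/-- all primes `≤ 2 L` divide `M` -/
def GM (L M : ℕ) : Prop := 1 ≤ M ∧ ∀ p : ℕ, p.Prime → p ≤ 2 * L → p ∣ M

/-- families of sets of primes: for each position `a` and each block `j` a set of `l a j` primes of the block -/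
def fam {q K : ℕ} (β : ℕ → ℝ) (x : ℕ) (l : Fin q → Fin K → ℕ) : Finset (Fin q × Fin K → Finset ℕ) :=
  Fintype.piFinset (fun t => (blk (yb β x t.2) (yb β x (t.2 + 1))).powersetCard (l t.1 t.2))

/-- the product of the primes at the position `a` -/
def dd {q K : ℕ} (S : Fin q × Fin K → Finset ℕ) (a : Fin q) : ℕ := ∏ j : Fin K, ∏ p ∈ S (a, j), p

/-- no prime is used at two positions -/
def Dis {q K : ℕ} (S : Fin q × Fin K → Finset ℕ) : Prop := ∀ a a' : Fin q, a ≠ a' → ∀ j, Disjoint (S (a, j)) (S (a', j))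

/-- sample points near `x` -/
def Rg (x X1 X2 : ℕ) : Prop := X1 ≤ X2 ∧ X2 ≤ x ∧ x ≤ 4 * (X2 - X1)

/-- the level condition -/
def lev (L B : ℕ) : ℝ := 304 * L + 16 * B + 140

/-! ## The parameters -/

/-- `β 0 = κ e^(-s) / s`, `β (j+1) = κ 2^j / s` -/
def be (κ : ℝ) (s j : ℕ) : ℝ := if j = 0 then κ / s * Real.exp (-(s : ℝ)) else κ / s * 2 ^ (j - 1)

/-- the degree in the block `j` (`J0` the number of additional terms in the block `0`) -/
def dg (s J0 K j : ℕ) : ℕ := if j = 0 then s + J0 else 2 * (K + 1 - j)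

/-- the coefficients in the block `j` -/
def cc (s J0 K j : ℕ) : ℕ → ℝ := if j = 0 then cb s J0 else cb 0 (2 * (K + 1 - j))

/-- the Poisson parameter of the block `j` -/
def la (s j : ℕ) : ℝ := if j = 0 then (s : ℝ) else Real.log 2

/-- the majorant `h` of the indicator of the `m` with exactly `s` primes of `[z, T)` and no prime of `[T, x^ε)` -/
def hh (κ : ℝ) (s J0 K x m : ℕ) : ℝ :=
  ∏ j ∈ range (K + 1), pol (dg s J0 K j) (cc s J0 K j) (om (yb (be κ s) x j) (yb (be κ s) x (j + 1)) m)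

/-- its mean -/
def Mh (s J0 K : ℕ) : ℝ := ∏ j ∈ range (K + 1), PE (la s j) (dg s J0 K j) (cc s J0 K j)

/-- the weight of `s` under the Poisson law of parameter `s` -/
def Ps (s : ℕ) : ℝ := Real.exp (-(s : ℝ)) * (s : ℝ) ^ s / (s.factorial : ℝ)

/-- `m = a P`, `a` a squarefree product of `s` primes of `[y, T)`, `P > Z` prime -/
def AA (s y T : ℕ) (Z : ℝ) (m : ℕ) : Prop := ∃ a P : ℕ, m = a * P ∧ P.Prime ∧ Z < P ∧ Squarefree a ∧
  a.primeFactors.card = s ∧ ∀ p : ℕ, p.Prime → p ∣ a → y ≤ p ∧ p < T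

end

end Pool.Agent.Lib.MP_3efbeb_nt.ER.SV
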