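import Pool.Agent.Lib.MP_3efbeb_nt.ER.SV.SpecP
import Pool.Agent.Lib.MP_3efbeb_nt.DL.Base

/-!
# MP_3efbeb_nt, ER/SV, module M3 (helper16): the assembly of the lower bound for `AA`
-/

set_option autoImplicit false

namespace Pool.Agent.Lib.MP_3efbeb_nt.ER.P3

open Finset Filter Topology
open scoped Classical
open Pool.Agent.Lib.MP_3efbeb_nt.DL (PR Rgh W1 W2 VV VQ cq Good Del Lam)

namespace M3M

lemma Sh_card {L i : ℕ} (hi : i < L) : (Sh L i).card + 1 = L := by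
  unfold Sh
  rw [card_image_of_injective _ (fun a b h => by simpa using h), card_erase_of_mem (mem_range.2 hi), card_range]
  omega

lemma Sh_ne {L i : ℕ} : ∀ s ∈ Sh L i, s ≠ 0 := by
  intro s hs
  unfold Sh at hs
  rw [mem_image] at hs
  obtain ⟨a, ha, rfl⟩ := hs
  rw [mem_erase] at ha
  intro h
  exact ha.1 (by omega)

lemma MS_card {M : ℕ} (hM : 1 ≤ M) (S0 : Finset ℤ) : (MS M S0).card = S0.card := by
  unfold MS
  refine card_image_of_injective _ fun a b h => ?_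
  exact mul_left_cancel₀ (by exact_mod_cast (by omega : M ≠ 0)) h

/-- the prime factors of an element of `Am` -/
lemma Am_prime {u J T X m p : ℕ} {Z : ℝ} (hT : 2 ^ (3 * J) < T) (hTZ : (T : ℝ) ≤ Z) (hm : m ∈ Am u J T Z X)
    (hp : p.Prime) (hpm : p ∣ m) : 2 ^ (3 * J) < p := by
  unfold Am SV.AA at hm
  rw [mem_filter] at hm
  obtain ⟨_, a, P, rfl, hP, hZP, _, _, ha⟩ := hm
  rcases hp.dvd_mul.1 hpm with h | h
  · have := (ha p hp h).1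
    omega
  · have h1 : p = P := (Nat.prime_dvd_prime_iff_eq hp hP).1 h
    subst h1
    have h2 : (T : ℝ) < p := lt_of_le_of_lt hTZ hZP
    have h3 : T < p := by exact_mod_cast h2
    omega

lemma Am_sub {u J T X M z : ℕ} {Z : ℝ} (hM : 1 ≤ M) (hMJ : M ≤ 2 ^ (3 * J)) (hz : z ≤ 2 ^ J) (hT : 2 ^ (3 * J) < T) (hTZ : (T : ℝ) ≤ Z) :
    ∀ m ∈ Am u J T Z X, Nat.Coprime m M ∧ Rgh M z m := by
  intro m hm
  constructor
  · rw [Nat.coprime_iff_gcd_eq_one]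
    by_contra hne
    obtain ⟨p, hp, hpd⟩ := Nat.exists_prime_and_dvd hne
    have h1 := Am_prime hT hTZ hm hp (hpd.trans (Nat.gcd_dvd_left _ _))
    have h2 := Nat.le_of_dvd (by omega) (hpd.trans (Nat.gcd_dvd_right m M))
    omega
  · intro p hp hpz _ h
    have h1 := Am_prime hT hTZ hm hp (by exact_mod_cast h)
    have h2 : 2 ^ J ≤ 2 ^ (3 * J) := Nat.pow_le_pow_right (by norm_num) (by omega)
    omega

/-- the deterministic part -/
lemma core (hINJ : SpecINJ) {s J z T X1 X2 M L i : ℕ} {Z R E : ℝ} (hs : 1 ≤ s) (hi : i < L) (hM : 1 ≤ M) (hMJ : M ≤ 2 ^ (3 * J))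
    (hz : z ≤ 2 ^ J) (hT : 2 ^ (3 * J) < T) (hTZ : (T : ℝ) ≤ Z) (hX : X1 ≤ X2) (hVQ : 0 ≤ VQ (MS M (Sh L i)) M z)
    (h1 : ∑ m ∈ (Icc 1 (X1 + M * i)).filter (fun m => Nat.Coprime m M ∧ Rgh M z m),
      |∑ q ∈ (QA J (3 * J)).filter (fun q => q * m ≤ X1 + M * i ∧ (q * m) % M = 1 % M),
        ((if cq M z (MS M (Sh L i)) q m then (1 : ℝ) else 0) - VQ (MS M (Sh L i)) M z)| ≤ E)
    (h2 : ∑ m ∈ (Icc 1 (X2 + M * i)).filter (fun m => Nat.Coprime m M ∧ Rgh M z m),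
      |∑ q ∈ (QA J (3 * J)).filter (fun q => q * m ≤ X2 + M * i ∧ (q * m) % M = 1 % M),
        ((if cq M z (MS M (Sh L i)) q m then (1 : ℝ) else 0) - VQ (MS M (Sh L i)) M z)| ≤ E)
    (hR : R ≤ ∑ m ∈ Am (s - 1) J T Z (X2 + M * i),
      (((QA J (3 * J)).filter (fun q => X1 + M * i < q * m ∧ q * m ≤ X2 + M * i ∧ (q * m) % M = 1 % M)).card : ℝ)) :
    VQ (MS M (Sh L i)) M z * R - 2 * E
      ≤ (((SV.Win M L z X1 X2).filter (fun n => SV.AA s z T Z (n + M * i))).card : ℝ) := by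
  obtain ⟨S, hS⟩ : ∃ S, S = MS M (Sh L i) := ⟨_, rfl⟩
  rw [← hS] at hVQ h1 h2 ⊢
  obtain ⟨V, hV⟩ : ∃ V, V = VQ S M z := ⟨_, rfl⟩
  rw [← hV] at hVQ h1 h2 ⊢
  obtain ⟨Y1, hY1⟩ : ∃ Y1, Y1 = X1 + M * i := ⟨_, rfl⟩
  obtain ⟨Y2, hY2⟩ : ∃ Y2, Y2 = X2 + M * i := ⟨_, rfl⟩
  have hY : Y1 ≤ Y2 := by rw [hY1, hY2]; omega
  have hinj := hINJ s J z T X1 X2 M L i Z hs hi hz hT hTZ
  rw [← hS, ← hY1, ← hY2] at hinj
  rw [← hY1] at h1 hR
  rw [← hY2] at h2 hR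
  have hsub := Am_sub (u := s - 1) (X := Y2) hM hMJ hz hT hTZ
  have hinj' : ∑ m ∈ Am (s - 1) J T Z Y2, (((QA J (3 * J)).filter (fun q => Y1 < q * m ∧ q * m ≤ Y2 ∧
      (q * m) % M = 1 % M ∧ cq M z S q m)).card : ℝ)
      ≤ (((SV.Win M L z X1 X2).filter (fun n => SV.AA s z T Z (n + M * i))).card : ℝ) := by
    exact_mod_cast hinj
  refine le_trans ?_ hinj'
  -- the inner sums
  obtain ⟨F, hF⟩ : ∃ F : ℕ → ℕ → ℝ, F = fun Y m => ∑ q ∈ (QA J (3 * J)).filter (fun q => q * m ≤ Y ∧ (q * m) % M = 1 % M),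
      ((if cq M z S q m then (1 : ℝ) else 0) - V) := ⟨_, rfl⟩
  have key : ∀ m ∈ Am (s - 1) J T Z Y2,
      V * (((QA J (3 * J)).filter (fun q => Y1 < q * m ∧ q * m ≤ Y2 ∧ (q * m) % M = 1 % M)).card : ℝ)
        - |F Y2 m| - |F Y1 m|
      ≤ (((QA J (3 * J)).filter (fun q => Y1 < q * m ∧ q * m ≤ Y2 ∧
      (q * m) % M = 1 % M ∧ cq M z S q m)).card : ℝ) := by
    intro m _
    have e1 : (((QA J (3 * J)).filter (fun q => Y1 < q * m ∧ q * m ≤ Y2 ∧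
      (q * m) % M = 1 % M ∧ cq M z S q m)).card : ℝ) = ∑ q ∈ (QA J (3 * J)).filter (fun q => Y1 < q * m ∧ q * m ≤ Y2 ∧
      (q * m) % M = 1 % M), (if cq M z S q m then (1 : ℝ) else 0) := by
      rw [← Finset.sum_filter, Finset.sum_const, nsmul_eq_mul, mul_one, filter_filter]
      congr 2
      ext q
      simp only [mem_filter]
      tauto
    have e2 : F Y2 m = F Y1 m + ∑ q ∈ (QA J (3 * J)).filter (fun q => Y1 < q * m ∧ q * m ≤ Y2 ∧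
      (q * m) % M = 1 % M), ((if cq M z S q m then (1 : ℝ) else 0) - V) := by
      rw [hF]
      simp only
      rw [← sum_union]
      · refine sum_congr ?_ fun _ _ => rfl
        ext q
        simp only [mem_union, mem_filter]
        constructor
        · rintro ⟨h3, h4, h5⟩
          by_cases h6 : q * m ≤ Y1
          · exact Or.inl ⟨h3, h6, h5⟩
          · exact Or.inr ⟨h3, by omega, h4, h5⟩
        · rintro (⟨h3, h4, h5⟩ | ⟨h3, h4, h5, h6⟩)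
          · exact ⟨h3, by omega, h5⟩
          · exact ⟨h3, h5, h6⟩
      · rw [disjoint_left]
        intro q hq hq'
        rw [mem_filter] at hq hq'
        omega
    rw [sum_sub_distrib, ← e1, sum_const, nsmul_eq_mul] at e2
    have h3 := neg_abs_le (F Y2 m)
    have h4 := le_abs_self (F Y1 m)
    linarith
  have hsum := Finset.sum_le_sum key
  refine le_trans ?_ hsum
  rw [sum_sub_distrib, sum_sub_distrib, ← mul_sum]
  have hb2 : ∑ m ∈ Am (s - 1) J T Z Y2, |F Y2 m| ≤ E := by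
    refine le_trans ?_ h2
    rw [hF]
    refine sum_le_sum_of_subset_of_nonneg ?_ fun _ _ _ => abs_nonneg _
    intro m hm
    have h3 := hsub m hm
    unfold Am at hm
    rw [mem_filter] at hm ⊢
    exact ⟨hm.1, h3⟩
  have hb1 : ∑ m ∈ Am (s - 1) J T Z Y2, |F Y1 m| ≤ E := by
    refine le_trans ?_ h1
    have h4 : ∑ m ∈ Am (s - 1) J T Z Y2, |F Y1 m| = ∑ m ∈ (Am (s - 1) J T Z Y2).filter (fun m => m ≤ Y1), |F Y1 m| := by
      symm
      refine sum_subset (filter_subset _ _) ?_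
      intro m hm hm'
      have h5 : Y1 < m := by
        by_contra h
        exact hm' (mem_filter.2 ⟨hm, by omega⟩)
      have h6 : (QA J (3 * J)).filter (fun q => q * m ≤ Y1 ∧ (q * m) % M = 1 % M) = ∅ := by
        rw [filter_eq_empty_iff]
        rintro q hq ⟨h7, _⟩
        have h8 : 1 ≤ q := by
          unfold QA at hq
          rw [mem_filter] at hq
          exact hq.2.one_le
        have h9 : 1 * m ≤ q * m := Nat.mul_le_mul_right m h8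
        omega
      rw [hF]
      simp only
      rw [h6]
      simp
    rw [h4, hF]
    refine sum_le_sum_of_subset_of_nonneg ?_ fun _ _ _ => abs_nonneg _
    intro m hm
    rw [mem_filter] at hm
    have h3 := hsub m hm.1
    have hm1 := hm.1
    unfold Am at hm1
    rw [mem_filter, mem_Icc] at hm1
    rw [mem_filter, mem_Icc]
    exact ⟨⟨hm1.1.1, hm.2⟩, h3⟩
  have hb3 := mul_le_mul_of_nonneg_left hR hVQ
  linarith

/-- the numerical part -/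
lemma numeric {B β0 A Lm η VL V1 φ M x y lz lx D Wn : ℝ} (hB : 0 < B) (hβ : 0 < β0) (hM : 0 < M) (hφ : 0 < φ) (hlx : 0 < lx)
    (hlz : β0 * lx ≤ lz) (hVL : 0 < VL) (hV1 : 0 < V1) (hV : V1 * φ * lz ≤ M) (hA : 36 / 100 * B ≤ A) (hx : 0 ≤ x) (hyx : y ≤ x) (hy : 0 ≤ y)
    (hD : D ≤ x / 2) (hLm : Lm ≤ 6 / 5) (hη0 : 0 < η) (hη : 100 * η ≤ B * β0)
    (hW : |Wn - D / M * VL| ≤ 1 / 10 * Real.exp (-2) * (D / M * VL)) (hD0 : 0 ≤ D) :
    1 / 4 * B * β0 * Wn ≤ VL / V1 * ((1 - 1 / 100) * A * (x / 2 / (φ * lx))) - 2 * (η * Lm * (y / M) * VL) := by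
  obtain ⟨G, hG⟩ : ∃ G, G = x / 2 / M * VL := ⟨_, rfl⟩
  have hG0 : 0 ≤ G := by rw [hG]; positivity
  have hlz0 : 0 < lz := lt_of_lt_of_le (by positivity) hlz
  have h1 : 3564 / 10000 * B * β0 * G ≤ VL / V1 * ((1 - 1 / 100) * A * (x / 2 / (φ * lx))) := by
    have h2 : VL * φ * lz / M ≤ VL / V1 := by
      rw [div_le_div_iff₀ hM hV1]
      nlinarith
    have h3 : 3564 / 10000 * B * (x / 2 / (φ * lx)) ≤ (1 - 1 / 100) * A * (x / 2 / (φ * lx)) :=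
      mul_le_mul_of_nonneg_right (by linarith) (by positivity)
    have h4 : VL * φ * lz / M * (3564 / 10000 * B * (x / 2 / (φ * lx))) ≤ VL / V1 * ((1 - 1 / 100) * A * (x / 2 / (φ * lx))) :=
      mul_le_mul h2 h3 (by positivity) (by positivity)
    refine le_trans ?_ h4
    have h5 : VL * φ * lz / M * (3564 / 10000 * B * (x / 2 / (φ * lx))) = 3564 / 10000 * B * (lz / lx) * G := by
      rw [hG]; field_simp
    rw [h5]
    have h6 : β0 ≤ lz / lx := by rwa [le_div_iff₀ hlx]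
    exact mul_le_mul_of_nonneg_right (mul_le_mul_of_nonneg_left h6 (by positivity)) hG0
  have h2 : 2 * (η * Lm * (y / M) * VL) ≤ 48 / 1000 * B * β0 * G := by
    have h3 : η * Lm * (y / M) * VL ≤ η * (6 / 5) * (x / M) * VL := by
      refine mul_le_mul_of_nonneg_right ?_ hVL.le
      refine mul_le_mul (mul_le_mul_of_nonneg_left hLm hη0.le) (div_le_div_of_nonneg_right hyx hM.le) (by positivity) (by positivity)
    have h4 : η * (6 / 5) * (x / M) * VL = 12 / 5 * η * G := by rw [hG]; ring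
    have h5 : η * G ≤ B * β0 / 100 * G := mul_le_mul_of_nonneg_right (by linarith) hG0
    nlinarith
  have h3 : Wn ≤ 31 / 30 * G := by
    have h4 : D / M * VL ≤ G := by
      rw [hG]
      exact mul_le_mul_of_nonneg_right (div_le_div_of_nonneg_right hD hM.le) hVL.le
    have h5 : Real.exp (-2) ≤ 1 / 3 := by
      rw [Real.exp_neg, inv_eq_one_div]
      exact one_div_le_one_div_of_le (by norm_num) (by linarith [Real.add_one_le_exp (2 : ℝ)])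
    have h6 : 0 ≤ D / M * VL := by positivity
    have h7 : 1 / 10 * Real.exp (-2) * (D / M * VL) ≤ 1 / 30 * (D / M * VL) :=
      mul_le_mul_of_nonneg_right (by linarith) h6
    have h8 := (abs_le.1 hW).2
    linarith
  have h4 : 0 ≤ B * β0 * G := by positivity
  have h5 : 1 / 4 * B * β0 * Wn ≤ 1 / 4 * B * β0 * (31 / 30 * G) := mul_le_mul_of_nonneg_left h3 (by positivity)
  nlinarith

/-! ### facts for large `x` -/

lemma z_tend {β0 : ℝ} (h : 0 < β0) : Tendsto (fun x : ℕ => ⌈(x : ℝ) ^ β0⌉₊) atTop atTop :=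
  tendsto_nat_ceil_atTop.comp ((tendsto_rpow_atTop h).comp tendsto_natCast_atTop_atTop)

lemma rpow_large {a : ℝ} (h : 0 < a) (C : ℝ) : ∀ᶠ x : ℕ in atTop, C ≤ (x : ℝ) ^ a :=
  ((tendsto_rpow_atTop h).comp tendsto_natCast_atTop_atTop).eventually_ge_atTop C

lemma z_le (β0 : ℝ) (x : ℕ) : ⌈(x : ℝ) ^ β0⌉₊ ≤ 2 ^ JJ β0 x := Nat.le_pow_clog (by norm_num) _

lemma two_pow_le {β0 : ℝ} (h : 0 < β0) : ∀ᶠ x : ℕ in atTop, (2 : ℝ) ^ JJ β0 x ≤ 4 * (x : ℝ) ^ β0 ∧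
    ((⌈(x : ℝ) ^ β0⌉₊ : ℕ) : ℝ) ≤ 2 * (x : ℝ) ^ β0 := by
  filter_upwards [rpow_large h 1, (z_tend h).eventually_ge_atTop 2] with x h1 h2
  have h3 : ((⌈(x : ℝ) ^ β0⌉₊ : ℕ) : ℝ) ≤ 2 * (x : ℝ) ^ β0 := by
    have := (Nat.ceil_lt_add_one (by positivity : 0 ≤ (x : ℝ) ^ β0)).le
    linarith
  refine ⟨?_, h3⟩
  obtain ⟨z, hz⟩ : ∃ z, z = ⌈(x : ℝ) ^ β0⌉₊ := ⟨_, rfl⟩
  unfold JJ
  rw [← hz] at h2 h3 ⊢
  have h4 := Nat.pow_pred_clog_lt_self (b := 2) (by norm_num) (x := z) (by omega)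
  have h5 : 0 < Nat.clog 2 z := Nat.clog_pos (by norm_num) h2
  have h6 : 2 ^ Nat.clog 2 z = 2 * 2 ^ (Nat.clog 2 z).pred := by
    rw [mul_comm, ← pow_succ]
    congr 1
    exact (Nat.succ_pred_eq_of_pos h5).symm
  have h7 : 2 ^ Nat.clog 2 z ≤ 2 * z := by omega
  have h8 : (2 : ℝ) ^ Nat.clog 2 z ≤ 2 * z := by exact_mod_cast h7
  linarith

lemma level {β0 : ℝ} {b0 : ℕ} (h : 0 < β0) (hb : β0 * (16 * b0 + 50) ≤ 1 / 2) :
    ∀ᶠ x : ℕ in atTop, 2 ^ (4 * (3 * JJ β0 x)) * ⌈(x : ℝ) ^ β0⌉₊ ^ (16 * b0 + 36) ≤ x / 2 := by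
  filter_upwards [two_pow_le h, rpow_large (show (0 : ℝ) < 1 / 2 by norm_num) (4 * (4 ^ 12 * 2 ^ (16 * b0 + 36))),
    eventually_ge_atTop 2] with x h1 h2 h3
  have hx2 : (2 : ℝ) ≤ x := by exact_mod_cast h3
  have hx0 : (0 : ℝ) < x := by linarith
  obtain ⟨a, ha⟩ : ∃ a, a = (x : ℝ) ^ β0 := ⟨_, rfl⟩
  have ha0 : 0 < a := by rw [ha]; positivity
  have h4 : ((2 : ℝ) ^ (4 * (3 * JJ β0 x)) * ((⌈(x : ℝ) ^ β0⌉₊ : ℕ) : ℝ) ^ (16 * b0 + 36)) ≤
      (4 * a) ^ 12 * (2 * a) ^ (16 * b0 + 36) := by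
    have e1 : (2 : ℝ) ^ (4 * (3 * JJ β0 x)) = ((2 : ℝ) ^ JJ β0 x) ^ 12 := by
      rw [← pow_mul]
      congr 1
      ring
    rw [e1, ha]
    exact mul_le_mul (pow_le_pow_left₀ (by positivity) h1.1 12) (pow_le_pow_left₀ (by positivity) h1.2 _)
      (by positivity) (by positivity)
  have h5 : (4 * a) ^ 12 * (2 * a) ^ (16 * b0 + 36) = (4 ^ 12 * 2 ^ (16 * b0 + 36)) * a ^ (16 * b0 + 48) := by
    rw [mul_pow, mul_pow, show 16 * b0 + 48 = 12 + (16 * b0 + 36) by ring, pow_add a 12]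
    ring
  have h6 : a ^ (16 * b0 + 48) ≤ (x : ℝ) ^ (1 / 2 : ℝ) := by
    rw [ha, ← Real.rpow_natCast, ← Real.rpow_mul hx0.le]
    refine Real.rpow_le_rpow_of_exponent_le (by linarith) ?_
    push_cast
    nlinarith
  have h7 : (x : ℝ) ^ (1 / 2 : ℝ) * (x : ℝ) ^ (1 / 2 : ℝ) = x := by
    rw [← Real.rpow_add hx0]
    norm_num
  have h8 : 0 < (x : ℝ) ^ (1 / 2 : ℝ) := by positivity
  have h9 : (4 ^ 12 * 2 ^ (16 * b0 + 36)) * a ^ (16 * b0 + 48) ≤ (x : ℝ) / 4 := by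
    have h10 : ((4 : ℝ) ^ 12 * 2 ^ (16 * b0 + 36)) * a ^ (16 * b0 + 48) ≤
        ((4 : ℝ) ^ 12 * 2 ^ (16 * b0 + 36)) * (x : ℝ) ^ (1 / 2 : ℝ) := mul_le_mul_of_nonneg_left h6 (by positivity)
    nlinarith
  have h10 : (x : ℝ) / 4 ≤ ((x / 2 : ℕ) : ℝ) := by
    have h11 : x ≤ 4 * (x / 2) := by omega
    have h12 : (x : ℝ) ≤ 4 * ((x / 2 : ℕ) : ℝ) := by exact_mod_cast h11
    linarith
  have h11 : ((2 ^ (4 * (3 * JJ β0 x)) * ⌈(x : ℝ) ^ β0⌉₊ ^ (16 * b0 + 36) : ℕ) : ℝ) ≤ ((x / 2 : ℕ) : ℝ) := by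
    push_cast
    rw [h5] at h4
    linarith
  exact_mod_cast h11

lemma lt_T {β0 β1 : ℝ} (h : 0 < β0) (hb : 3 * β0 < β1) : ∀ᶠ x : ℕ in atTop, 2 ^ (3 * JJ β0 x) < ⌈(x : ℝ) ^ β1⌉₊ := by
  filter_upwards [two_pow_le h, rpow_large (show 0 < β1 - 3 * β0 by linarith) 65, eventually_ge_atTop 2] with x h1 h2 h3
  have hx2 : (2 : ℝ) ≤ x := by exact_mod_cast h3
  have hx0 : (0 : ℝ) < x := by linarith
  rw [Nat.lt_ceil]
  push_cast
  have h4 : (2 : ℝ) ^ (3 * JJ β0 x) ≤ 64 * (x : ℝ) ^ (3 * β0) := by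
    rw [mul_comm 3 (JJ β0 x), pow_mul]
    refine (pow_le_pow_left₀ (by positivity) h1.1 3).trans (le_of_eq ?_)
    rw [mul_pow, mul_comm 3 β0, Real.rpow_mul hx0.le]
    norm_num
  have h5 : (x : ℝ) ^ β1 = (x : ℝ) ^ (3 * β0) * (x : ℝ) ^ (β1 - 3 * β0) := by
    rw [← Real.rpow_add hx0]
    congr 1
    ring
  rw [h5]
  have h6 : 0 < (x : ℝ) ^ (3 * β0) := by positivity
  nlinarith

lemma T_le {β1 γ : ℝ} (h : 0 < β1) (hb : β1 < γ) : ∀ᶠ x : ℕ in atTop, ((⌈(x : ℝ) ^ β1⌉₊ : ℕ) : ℝ) ≤ (x : ℝ) ^ γ := by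
  filter_upwards [two_pow_le h, rpow_large (show 0 < γ - β1 by linarith) 2, eventually_ge_atTop 2] with x h1 h2 h3
  have hx2 : (2 : ℝ) ≤ x := by exact_mod_cast h3
  have hx0 : (0 : ℝ) < x := by linarith
  have h5 : (x : ℝ) ^ γ = (x : ℝ) ^ β1 * (x : ℝ) ^ (γ - β1) := by
    rw [← Real.rpow_add hx0]
    congr 1
    ring
  rw [h5]
  have h6 : 0 < (x : ℝ) ^ β1 := by positivity
  nlinarith [h1.2]

lemma be_pos {κ : ℝ} {s j : ℕ} (hκ : 0 < κ) (hs : 2 ≤ s) : 0 < SV.be κ s j := by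
  have : (0 : ℝ) < s := by exact_mod_cast (by omega : 0 < s)
  unfold SV.be
  split_ifs <;> positivity

lemma be_one (κ : ℝ) (s : ℕ) : SV.be κ s 1 = κ / s := by
  unfold SV.be
  simp

lemma three_be {κ : ℝ} {s : ℕ} (hκ : 0 < κ) (hs : 2 ≤ s) : 3 * SV.be κ s 0 < SV.be κ s 1 := by
  have hs0 : (2 : ℝ) ≤ s := by exact_mod_cast hs
  rw [be_one]
  unfold SV.be
  rw [if_pos rfl]
  have h1 : (s : ℝ) + 1 < Real.exp s := Real.add_one_lt_exp (by linarith)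
  have h2 : 3 * Real.exp (-(s : ℝ)) < 1 := by
    rw [Real.exp_neg, ← div_eq_mul_inv, div_lt_one (Real.exp_pos _)]
    linarith
  have h3 : 0 < κ / s := by positivity
  calc 3 * (κ / s * Real.exp (-(s : ℝ))) = κ / s * (3 * Real.exp (-(s : ℝ))) := by ring
    _ < κ / s * 1 := mul_lt_mul_of_pos_left h2 h3
    _ = κ / s := mul_one _

/-- the result for one `L` and one `i` -/
lemma one (hINJ : SpecINJ) (hMT : SpecMT) (hVV1 : SpecVV1) (hREC : SpecREC) (hDEN : SV.SpecDEN) {κ θ η : ℝ} {s N L i M b0 : ℕ}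
    (hκ : 0 < κ) (h8 : 8 * κ ≤ θ) (hθ : θ ≤ 1 / 4) (hs : 2 ≤ s)
    (h36 : 36 / 100 * ((s : ℝ) ^ s / (s.factorial : ℝ)) ≤ Real.log 3 * (s - Real.log 3) ^ (s - 1) / ((s - 1).factorial : ℝ))
    (hlev : SV.be κ s 0 * SV.lev N 2 < 1) (hη0 : 0 < η) (hη : 100 * η ≤ ((s : ℝ) ^ s / (s.factorial : ℝ)) * SV.be κ s 0)
    (hb0 : SV.be κ s 0 * (16 * b0 + 50) ≤ 1 / 2) (hM : 1 ≤ M) (hGM : ∀ p : ℕ, p.Prime → p ≤ 2 * N → p ∣ M) (hLN : L ≤ N) (hi : i < L)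
    (hSM : ∃ z0 : ℕ, ∀ z : ℕ, z0 ≤ z → ∀ J1 J2 : ℕ, z ≤ 2 ^ J1 → J1 ≤ J2 →
      ∀ X : ℕ, 2 ^ (4 * J2) * z ^ (16 * b0 + 36) ≤ X →
      ∑ m ∈ (Icc 1 X).filter (fun m => Nat.Coprime m M ∧ Rgh M z m),
        |∑ q ∈ (QA J1 J2).filter (fun q => q * m ≤ X ∧ (q * m) % M = 1 % M),
          ((if cq M z (MS M (Sh L i)) q m then (1 : ℝ) else 0) - VQ (MS M (Sh L i)) M z)|
      ≤ η * Lam (QA J1 J2) * ((X : ℝ) / M) * VV ((Sh L i).card + 1) M z) :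
    ∀ᶠ x : ℕ in atTop, 1 / 4 * ((s : ℝ) ^ s / (s.factorial : ℝ)) * SV.be κ s 0 *
      (SV.Win M L (SV.yb (SV.be κ s) x 0) (x / 2) (x - M * N)).card
    ≤ (((SV.Win M L (SV.yb (SV.be κ s) x 0) (x / 2) (x - M * N)).filter (fun n =>
        SV.AA s (SV.yb (SV.be κ s) x 0) (SV.yb (SV.be κ s) x 1) ((x : ℝ) ^ (1 - θ)) (n + M * i))).card : ℝ) := by
  have hL1 : 1 ≤ L := by omega
  have hc : (Sh L i).card + 1 = L := Sh_card hi
  rw [hc] at hSM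
  obtain ⟨z0, hSM⟩ := hSM
  have hs0 : (2 : ℝ) ≤ s := by exact_mod_cast hs
  have hβ0 : 0 < SV.be κ s 0 := be_pos hκ hs
  have hβ1 : 0 < SV.be κ s 1 := be_pos hκ hs
  have h3β := three_be hκ hs
  have hβ1' : SV.be κ s 1 < 1 - θ := by
    rw [be_one]
    have : κ / s ≤ κ := div_le_self hκ.le (by linarith)
    linarith
  have hgm : SV.GM L M := ⟨hM, fun p hp hpL => hGM p hp (by omega)⟩
  have htm : ∀ p : ℕ, p.Prime → ¬ p ∣ M → 2 * L ≤ p := fun p hp hpM => by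
    by_contra h
    exact hpM (hGM p hp (by omega))
  have htm1 : ∀ p : ℕ, p.Prime → ¬ p ∣ M → 2 * 1 ≤ p := fun p hp hpM => by
    have := hp.two_le
    omega
  have hlevL : SV.be κ s 0 * SV.lev L 2 < 1 := by
    refine lt_of_le_of_lt ?_ hlev
    refine mul_le_mul_of_nonneg_left ?_ hβ0.le
    unfold SV.lev
    have : (L : ℝ) ≤ N := by exact_mod_cast hLN
    linarith
  obtain ⟨xd, hxd⟩ := hDEN L 2 M (SV.be κ s 0) hL1 hgm hβ0 hlevL
  obtain ⟨xm, hxm⟩ := hMT κ θ (1 / 100) s N M hκ h8 hθ (by norm_num) hs hM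
  obtain ⟨zv, hzv⟩ := hVV1 M hM
  have hrec := (hREC (SV.be κ s 0) (SV.be κ s 1) hβ0 h3β).1
  have hlog3 : Real.log 3 < 6 / 5 := by
    rw [Real.log_lt_iff_lt_exp (by norm_num)]
    have h1 : (6 / 5 : ℝ) = 1 + 1 / 5 := by norm_num
    rw [h1, Real.exp_add]
    have h2 := Real.add_one_le_exp (1 / 5 : ℝ)
    have h3 := Real.exp_one_gt_d9
    nlinarith
  filter_upwards [eventually_ge_atTop xd, eventually_ge_atTop xm, (z_tend hβ0).eventually_ge_atTop (z0 + zv + M + 2),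
    hrec.eventually_lt_const hlog3, level hβ0 hb0, lt_T hβ0 h3β, T_le hβ1 hβ1', eventually_ge_atTop (8 * (M * N) + 8)] with
    x h1 h2 h3 h4 h5 h6 h7 h9
  have hzle := z_le (SV.be κ s 0) x
  obtain ⟨z, hz⟩ : ∃ z, z = SV.yb (SV.be κ s) x 0 := ⟨_, rfl⟩
  obtain ⟨T, hT⟩ : ∃ T, T = SV.yb (SV.be κ s) x 1 := ⟨_, rfl⟩
  obtain ⟨J, hJ⟩ : ∃ J, J = JJ (SV.be κ s 0) x := ⟨_, rfl⟩
  have hz' : ⌈(x : ℝ) ^ SV.be κ s 0⌉₊ = z := hz.symm
  have hT' : ⌈(x : ℝ) ^ SV.be κ s 1⌉₊ = T := hT.symm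
  have hm := hxm x h2 i (by omega)
  have hd := (hxd x h1 (x / 2) (x - M * N) ⟨by omega, by omega, by omega⟩).1
  rw [← hz, ← hT]
  rw [← hT, ← hJ] at hm
  rw [hz'] at h3 h5 hd hzle
  rw [hT'] at h6 h7
  rw [← hJ] at h4 h5 h6 hzle
  have hx0 : (8 : ℝ) ≤ x := by exact_mod_cast (by omega : 8 ≤ x)
  have hMN : 1 ≤ M * N := Nat.mul_pos hM (by omega)
  have hMi : M * i ≤ M * N := Nat.mul_le_mul_left M (by omega)
  have hM0 : (0 : ℝ) < M := by exact_mod_cast hM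
  have hMJ : M ≤ 2 ^ (3 * J) := by
    have : 2 ^ J ≤ 2 ^ (3 * J) := Nat.pow_le_pow_right (by norm_num) (by omega)
    omega
  have hV1 : 0 < VV 1 M z := DL.Base.VV_pos htm1
  have hVL : 0 < VV L M z := DL.Base.VV_pos htm
  have hVQe : VQ (MS M (Sh L i)) M z = VV L M z / VV 1 M z := by
    unfold VQ
    rw [MS_card hM, hc]
  have hVQ : 0 ≤ VQ (MS M (Sh L i)) M z := by
    rw [hVQe]
    positivity
  have hLm : 0 ≤ Lam (QA J (3 * J)) := DL.Base.Lam_nonneg _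
  have hmono : ∀ X : ℕ, X ≤ x → η * Lam (QA J (3 * J)) * ((X : ℝ) / M) * VV L M z
      ≤ η * Lam (QA J (3 * J)) * ((x : ℝ) / M) * VV L M z := by
    intro X hX
    refine mul_le_mul_of_nonneg_right ?_ hVL.le
    refine mul_le_mul_of_nonneg_left ?_ (by positivity)
    exact div_le_div_of_nonneg_right (by exact_mod_cast hX) hM0.le
  have hs1 := (hSM z (by omega) J (3 * J) hzle (by omega) (x / 2 + M * i) (by omega)).trans (hmono _ (by omega))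
  have hs2 := (hSM z (by omega) J (3 * J) hzle (by omega) (x - M * N + M * i) (by omega)).trans (hmono _ (by omega))
  have hcore := core hINJ (s := s) (by omega) hi hM hMJ hzle h6 h7 (by omega : x / 2 ≤ x - M * N) hVQ hs1 hs2 hm
  refine le_trans ?_ hcore
  rw [hVQe]
  have ht : (0 : ℝ) < M.totient := by exact_mod_cast Nat.totient_pos.2 hM
  have hlx : 0 < Real.log x := Real.log_pos (by linarith)
  have hlz : SV.be κ s 0 * Real.log x ≤ Real.log z := by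
    rw [← Real.log_rpow (by linarith), ← hz']
    exact Real.log_le_log (Real.rpow_pos_of_pos (by linarith) _) (Nat.le_ceil _)
  have hV := hzv z (by omega)
  have hcast : ((x - M * N : ℕ) : ℝ) = (x : ℝ) - M * N := by
    rw [Nat.cast_sub (by omega)]
    push_cast
    ring
  have hhalf1 : ((x / 2 : ℕ) : ℝ) ≤ x / 2 := by
    have : 2 * (x / 2) ≤ x := by omega
    have h10 : 2 * ((x / 2 : ℕ) : ℝ) ≤ x := by exact_mod_cast this
    linarith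
  have hhalf2 : (x : ℝ) / 2 - 1 / 2 ≤ ((x / 2 : ℕ) : ℝ) := by
    have : x ≤ 2 * (x / 2) + 1 := by omega
    have h10 : (x : ℝ) ≤ 2 * ((x / 2 : ℕ) : ℝ) + 1 := by exact_mod_cast this
    linarith
  have hMNr : (1 : ℝ) ≤ M * N := by exact_mod_cast hMN
  have hMN8 : 8 * ((M : ℝ) * N) + 8 ≤ x := by exact_mod_cast h9
  have hB : 0 < (s : ℝ) ^ s / (s.factorial : ℝ) := by positivity
  have hnum := numeric (Wn := ((SV.Win M L z (x / 2) (x - M * N)).card : ℝ)) (D := ((x - M * N : ℕ) : ℝ) - ((x / 2 : ℕ) : ℝ))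
    (y := (x : ℝ)) (Lm := Lam (QA J (3 * J))) hB hβ0 hM0 ht hlx hlz hVL hV1 hV h36 (by linarith) le_rfl (by linarith)
    (by rw [hcast]; linarith) h4.le hη0 hη hd (by rw [hcast]; linarith)
  exact hnum

end M3M

open M3M in
/-- M3. -/
theorem specM3 (hSMQ : SpecSMQ) (hINJ : SpecINJ) (hMT : SpecMT) (hCST : SpecCST) (hVV1 : SpecVV1) (hREC : SpecREC)
    (hDEN : SV.SpecDEN) : SpecM3 := by
  intro κ θ hκ h8 hθ
  obtain ⟨s0, hs2, hs0⟩ := hCST κ hκ (by linarith)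
  refine ⟨s0, fun s hs N hN => ?_⟩
  obtain ⟨h36, hN'⟩ := hs0 s hs
  obtain ⟨hlev, η, b0, hη0, hη, hb0, hPar⟩ := hN' N hN
  have hP : ∀ L i : ℕ, ∃ P0 : ℕ, L ≤ N → i < L → ∀ M : ℕ,
      1 ≤ M → (∀ p : ℕ, p.Prime → ¬ p ∣ M → P0 < p) → ∃ z0 : ℕ, ∀ z : ℕ, z0 ≤ z → ∀ J1 J2 : ℕ, z ≤ 2 ^ J1 → J1 ≤ J2 →
      ∀ X : ℕ, 2 ^ (4 * J2) * z ^ (16 * b0 + 36) ≤ X →
      ∑ m ∈ (Icc 1 X).filter (fun m => Nat.Coprime m M ∧ Rgh M z m),
        |∑ q ∈ (QA J1 J2).filter (fun q => q * m ≤ X ∧ (q * m) % M = 1 % M),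
          ((if cq M z (MS M (Sh L i)) q m then (1 : ℝ) else 0) - VQ (MS M (Sh L i)) M z)|
      ≤ η * Lam (QA J1 J2) * ((X : ℝ) / M) * VV ((Sh L i).card + 1) M z := by
    intro L i
    by_cases h : L ≤ N ∧ i < L
    · obtain ⟨P0, hP0⟩ := hSMQ (Sh L i) η b0 hη0 Sh_ne (by rw [Sh_card h.2]; exact hPar L (by omega) h.1)
      exact ⟨P0, fun _ _ => hP0⟩
    · exact ⟨0, fun h1 h2 => absurd ⟨h1, h2⟩ h⟩
  choose f hf using hP
  obtain ⟨P1, hP1⟩ : ∃ P1, P1 = 2 * N + 1 + ∑ L ∈ range (N + 1), ∑ i ∈ range (N + 1), f L i := ⟨_, rfl⟩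
  refine ⟨P1.factorial, Nat.one_le_iff_ne_zero.2 (Nat.factorial_ne_zero _), fun M hM hdvd => ?_⟩
  have hpr : ∀ p : ℕ, p.Prime → p ≤ P1 → p ∣ M := fun p hp hle => (Nat.dvd_factorial hp.pos hle).trans hdvd
  have hev : ∀ᶠ x : ℕ in atTop, ∀ L ∈ range (N + 1), ∀ i ∈ range L,
      1 / 4 * ((s : ℝ) ^ s / (s.factorial : ℝ)) * SV.be κ s 0 *
      (SV.Win M L (SV.yb (SV.be κ s) x 0) (x / 2) (x - M * N)).card
    ≤ (((SV.Win M L (SV.yb (SV.be κ s) x 0) (x / 2) (x - M * N)).filter (fun n =>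
        SV.AA s (SV.yb (SV.be κ s) x 0) (SV.yb (SV.be κ s) x 1) ((x : ℝ) ^ (1 - θ)) (n + M * i))).card : ℝ) := by
    rw [Filter.eventually_all_finset]
    intro L hL
    rw [Filter.eventually_all_finset]
    intro i hi
    rw [mem_range] at hL hi
    have hle : f L i ≤ P1 := by
      rw [hP1]
      have e1 : f L i ≤ ∑ i ∈ range (N + 1), f L i := single_le_sum (f := fun i => f L i) (fun _ _ => Nat.zero_le _)
        (mem_range.2 (by omega))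
      have e2 : ∑ i ∈ range (N + 1), f L i ≤ ∑ L ∈ range (N + 1), ∑ i ∈ range (N + 1), f L i :=
        single_le_sum (f := fun L => ∑ i ∈ range (N + 1), f L i) (fun _ _ => Nat.zero_le _) (mem_range.2 (by omega))
      omega
    refine one hINJ hMT hVV1 hREC hDEN hκ h8 hθ (by omega) h36 hlev hη0 hη hb0 hM (fun p hp hle => hpr p hp (by omega))
      (by omega) hi (hf L i (by omega) hi M hM fun p hp hpM => ?_)
    by_contra h
    exact hpM (hpr p hp (by omega))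
  obtain ⟨x0, hx0⟩ := eventually_atTop.1 hev
  exact ⟨x0, fun x hx L i hL hi => hx0 x hx L (mem_range.2 (by omega)) i (mem_range.2 hi)⟩

end Pool.Agent.Lib.MP_3efbeb_nt.ER.P3
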