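import Pool.Agent.Lib.MP_3efbeb_nt.ER.SV.SMB
import Pool.Agent.Lib.MP_3efbeb_nt.ER.SV.C1U
import Pool.Agent.Lib.MP_3efbeb_nt.ER.SV.C2U
import Pool.Agent.Lib.MP_3efbeb_nt.ER.SV.BLKB
import Pool.Agent.Lib.MP_3efbeb_nt.ER.SV.BTB
import Pool.Agent.Lib.MP_3efbeb_nt.ER.SV.AVG1B
import Pool.Agent.Lib.MP_3efbeb_nt.ER.SV.AVGB
import Pool.Agent.Lib.MP_3efbeb_nt.ER.SV.SMQ
import Pool.Agent.Lib.MP_3efbeb_nt.ER.SV.VV1
import Pool.Agent.Lib.MP_3efbeb_nt.ER.SV.PNI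
import Pool.Agent.Lib.MP_3efbeb_nt.ER.SV.REC
import Pool.Agent.Lib.MP_3efbeb_nt.ER.SV.PAIRS
import Pool.Agent.Lib.MP_3efbeb_nt.ER.SV.INJ
import Pool.Agent.Lib.MP_3efbeb_nt.ER.SV.MT
import Pool.Agent.Lib.MP_3efbeb_nt.ER.SV.M3
import Pool.Agent.Lib.MP_3efbeb_nt.ER.SV.MER
import Pool.Agent.Lib.MP_3efbeb_nt.ER.SV.MER2
import Pool.Agent.Lib.MP_3efbeb_nt.ER.SV.DEN
import Pool.Agent.Lib.MP_3efbeb_nt.ER.SV.CW
import Pool.Agent.Lib.MP_3efbeb_nt.ER.SV.VL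
import Pool.Agent.Lib.MP_3efbeb_nt.ER.SV.ESY
import Pool.Agent.Lib.MP_3efbeb_nt.ER.SV.CST

/-!
# MP_3efbeb_nt, ER/SV, group P: `SpecM3` from the modules (helper16)
-/

set_option autoImplicit false

namespace Pool.Agent.Lib.MP_3efbeb_nt.ER.P3

/-- `SpecM3` from the constants. -/
theorem m3_of_cst (hCST : SpecCST) : SpecM3 :=
  specM3 (specSMQ (specSMB specC1U specC2U (specAVGB (specAVG1B (specBTB specBLKB))) specBLKB)) specINJ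
    (specMT specPNI (specREC SV.specMER2) SV.specESY specPAIRS) hCST specVV1 (specREC SV.specMER2)
    (SV.specDEN SV.specCW SV.specVL)

/-- `SpecM3`. -/
theorem m3_all : SpecM3 := m3_of_cst specCST

end Pool.Agent.Lib.MP_3efbeb_nt.ER.P3

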