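import Pool.Agent.Lib.MP_3efbeb_nt.ER.SV.SpecM

/-!
# MP_3efbeb_nt, ER/SV, module PAR (helper33): existence of the parameters
-/

set_option autoImplicit false

namespace Pool.Agent.Lib.MP_3efbeb_nt.ER.SV

open Finset Filter Topology
open scoped Classical

noncomputable section

namespace PARM

/-- the largest `K` -/
theorem exists_K {a ε : ℝ} (ha : 0 < a) (hε : a ≤ ε) : ∃ K : ℕ, ε / 2 < a * 2 ^ K ∧ a * 2 ^ K ≤ ε := by
  have h : ∃ n : ℕ, ε < a * 2 ^ n := by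
    obtain ⟨n, hn⟩ := pow_unbounded_of_one_lt (ε / a) (by norm_num : (1 : ℝ) < 2)
    refine ⟨n, ?_⟩
    rw [div_lt_iff₀ ha] at hn
    linarith
  have h0 : Nat.find h ≠ 0 := by
    intro h0
    have h1 := Nat.find_spec h
    rw [h0, pow_zero, mul_one] at h1
    linarith
  refine ⟨Nat.find h - 1, ?_, ?_⟩
  · have h1 := Nat.find_spec h
    have h2 : Nat.find h = (Nat.find h - 1) + 1 := by omega
    rw [h2, pow_succ] at h1
    linarith
  · have h1 := Nat.find_min h (m := Nat.find h - 1) (by omega)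
    exact not_lt.1 h1

/-- a prime near `y` -/
theorem exists_N {y : ℝ} (hy : 1 < y) : ∃ N : ℕ, N.Prime ∧ y ≤ N ∧ (N : ℝ) ≤ 2 * y := by
  have h1 : 1 < ⌈y⌉₊ := by
    have := Nat.le_ceil y
    have h2 : (1 : ℝ) < (⌈y⌉₊ : ℝ) := lt_of_lt_of_le hy this
    exact_mod_cast h2
  obtain ⟨N, hN, h2, h3⟩ := Nat.exists_prime_lt_and_le_two_mul (⌈y⌉₊ - 1) (by omega)
  refine ⟨N, hN, ?_, ?_⟩
  · have h4 : ⌈y⌉₊ ≤ N := by omega
    exact (Nat.le_ceil y).trans (by exact_mod_cast h4)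
  · have h4 : ((⌈y⌉₊ - 1 : ℕ) : ℝ) ≤ y := by
      rw [Nat.cast_sub h1.le]
      have := Nat.ceil_lt_add_one (zero_le_one.trans hy.le)
      push_cast
      linarith
    calc (N : ℝ) ≤ ((2 * (⌈y⌉₊ - 1) : ℕ) : ℝ) := by exact_mod_cast h3
      _ = 2 * ((⌈y⌉₊ - 1 : ℕ) : ℝ) := by push_cast; ring
      _ ≤ 2 * y := by linarith

theorem tend1 (κ : ℝ) (hκ : 0 < κ) (hκ1 : κ ≤ 1 / 64) : ∀ s : ℕ, 20 ≤ s →
    κ / s * Real.exp (-(s : ℝ)) * (320 * (2 * Real.exp ((s : ℝ) / 2)) + 140) ≤ 1 / 2 := by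
  intro s hs
  have hs0 : (20 : ℝ) ≤ s := by exact_mod_cast hs
  have h1 : Real.exp (-(s : ℝ)) = Real.exp (-((s : ℝ) / 2)) * Real.exp (-((s : ℝ) / 2)) := by
    rw [← Real.exp_add]; congr 1; ring
  have h2 : Real.exp (-((s : ℝ) / 2)) * Real.exp ((s : ℝ) / 2) = 1 := by
    rw [← Real.exp_add]; simp
  have h3 : Real.exp (-((s : ℝ) / 2)) ≤ 1 := Real.exp_le_one_iff.2 (by linarith)
  have h4 : 0 < Real.exp (-((s : ℝ) / 2)) := Real.exp_pos _
  have h5 : κ / s ≤ 1 / 64 / 20 := by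
    have : κ / s ≤ κ / 20 := div_le_div_of_nonneg_left hκ.le (by norm_num) hs0
    linarith
  have h6 : 0 < κ / s := div_pos hκ (by linarith)
  have h7 : Real.exp (-(s : ℝ)) * (320 * (2 * Real.exp ((s : ℝ) / 2)) + 140)
      ≤ 780 * Real.exp (-((s : ℝ) / 2)) := by
    rw [h1]
    have : Real.exp (-((s : ℝ) / 2)) * Real.exp (-((s : ℝ) / 2)) * (320 * (2 * Real.exp ((s : ℝ) / 2)) + 140)
        = 640 * Real.exp (-((s : ℝ) / 2)) * (Real.exp (-((s : ℝ) / 2)) * Real.exp ((s : ℝ) / 2))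
          + 140 * (Real.exp (-((s : ℝ) / 2)) * Real.exp (-((s : ℝ) / 2))) := by ring
    rw [this, h2]
    nlinarith
  have h8 : Real.exp (-((s : ℝ) / 2)) ≤ 1 / 11 := by
    have h9 : (11 : ℝ) ≤ Real.exp ((s : ℝ) / 2) := by
      have := Real.add_one_le_exp ((s : ℝ) / 2)
      linarith
    rw [Real.exp_neg, inv_eq_one_div]
    exact div_le_div_of_nonneg_left zero_le_one (by norm_num) h9
  calc κ / s * Real.exp (-(s : ℝ)) * (320 * (2 * Real.exp ((s : ℝ) / 2)) + 140)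
      = κ / s * (Real.exp (-(s : ℝ)) * (320 * (2 * Real.exp ((s : ℝ) / 2)) + 140)) := by ring
    _ ≤ κ / s * (780 * Real.exp (-((s : ℝ) / 2))) := mul_le_mul_of_nonneg_left h7 h6.le
    _ ≤ (1 / 64 / 20) * (780 * (1 / 11)) := by
        apply mul_le_mul h5 _ (by positivity) (by norm_num)
        linarith
    _ ≤ 1 / 2 := by norm_num

end PARM

open PARM in
/-- PAR. -/
theorem specPAR (hMHB : SpecMHB) (hPSL : SpecPSL) (hLEV : SpecLEV) (hNUM : SpecNUM) : SpecPAR := by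
  intro Q θ hQ hθ
  have hQR : (1 : ℝ) ≤ Q := by exact_mod_cast hQ
  set t : ℝ := min θ 1 with ht
  have ht0 : 0 < t := lt_min hθ one_pos
  have ht1 : t ≤ 1 := min_le_right _ _
  have htθ : t ≤ θ := min_le_left _ _
  set D : ℝ := 1 + 16 * 4 ^ Q with hD
  have h4Q : (1 : ℝ) ≤ 4 ^ Q := one_le_pow₀ (by norm_num)
  have hD1 : 1 ≤ D := by rw [hD]; linarith
  set κ : ℝ := t / (64 * Q * D) with hκ
  set ε : ℝ := t / (128 * Q) with hε
  have hκ0 : 0 < κ := by positivity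
  have hε0 : 0 < ε := by positivity
  have hκt : κ ≤ t / 64 := by
    rw [hκ]
    apply div_le_div_of_nonneg_left ht0.le (by norm_num)
    nlinarith
  have hεt : ε ≤ t / 128 := by
    rw [hε]
    apply div_le_div_of_nonneg_left ht0.le (by norm_num)
    linarith
  refine ⟨κ, ε, hκ0, hε0, by linarith, by linarith, fun N0 => ?_⟩
  obtain ⟨s1, hs1⟩ := hNUM Q (ε / κ) (3 * (ε / κ)) (by positivity) (by positivity)
  refine ⟨max (max s1 20) (max (2 * N0) (⌈κ / ε⌉₊ + ⌈4 * Real.exp 4 * κ / ε⌉₊)), fun s hs => ?_⟩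
  have hsa : s1 ≤ s := (le_max_left _ _).trans ((le_max_left _ _).trans hs)
  have hsb : 20 ≤ s := (le_max_right _ _).trans ((le_max_left _ _).trans hs)
  have hsc : 2 * N0 ≤ s := (le_max_left _ _).trans ((le_max_right _ _).trans hs)
  have hsd : ⌈κ / ε⌉₊ + ⌈4 * Real.exp 4 * κ / ε⌉₊ ≤ s := (le_max_right _ _).trans ((le_max_right _ _).trans hs)
  have hsR : (20 : ℝ) ≤ s := by exact_mod_cast hsb
  have hs0 : (0 : ℝ) < s := by linarith
  have hse : κ / ε ≤ s := (Nat.le_ceil _).trans (by exact_mod_cast (le_trans (Nat.le_add_right _ _) hsd))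
  have hsf : 4 * Real.exp 4 * κ / ε ≤ s :=
    (Nat.le_ceil _).trans (by exact_mod_cast (le_trans (Nat.le_add_left _ _) hsd))
  obtain ⟨K, hK1, hK2⟩ := exists_K (a := κ / s) (ε := ε) (by positivity) (by
    rw [div_le_iff₀ hs0]
    rw [div_le_iff₀ hε0] at hse
    linarith)
  have hexp : (11 : ℝ) ≤ Real.exp ((s : ℝ) / 2) := by
    have := Real.add_one_le_exp ((s : ℝ) / 2)
    linarith
  obtain ⟨N, hNp, hNl, hNu⟩ := exists_N (y := Real.exp ((s : ℝ) / 2)) (by linarith)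
  have hN3 : 3 ≤ N := by
    have : (3 : ℝ) ≤ N := by linarith
    exact_mod_cast this
  have hNN0 : N0 ≤ N := by
    have h1 : (N0 : ℝ) ≤ (s : ℝ) / 2 := by
      have : ((2 * N0 : ℕ) : ℝ) ≤ s := by exact_mod_cast hsc
      push_cast at this
      linarith
    have h2 := Real.add_one_le_exp ((s : ℝ) / 2)
    have : (N0 : ℝ) ≤ N := by linarith
    exact_mod_cast this
  have hJe : Even (16 * 4 ^ Q * s) := ⟨8 * 4 ^ Q * s, by ring⟩
  obtain ⟨hM1, hM2⟩ := hMHB Q s (16 * 4 ^ Q * s) K hQ (by omega) hJe le_rfl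
  obtain ⟨hP1, hP2, hP3⟩ := hPSL s (by omega)
  have hP0 : 0 < Ps s := lt_of_lt_of_le (Real.exp_pos _) hP1
  have h2K : (0 : ℝ) < 2 ^ K := by positivity
  have hhalf : ((1 : ℝ) / 2) ^ K = 1 / 2 ^ K := by rw [div_pow, one_pow]
  have hM0 : 0 < Mh s (16 * 4 ^ Q * s) K := lt_of_lt_of_le (by positivity) hM1
  have hKl : (1 : ℝ) / 2 ^ K ≤ 2 * κ / (ε * s) := by
    rw [div_le_div_iff₀ h2K (by positivity)]
    have h1 : ε / 2 * s < κ * 2 ^ K := by
      have := mul_lt_mul_of_pos_right hK1 hs0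
      have e : κ / s * 2 ^ K * s = κ * 2 ^ K := by field_simp
      rw [e] at this
      exact this
    nlinarith
  have hKu : (2 : ℝ) ^ K ≤ ε / κ * s := by
    have h1 : κ * 2 ^ K ≤ ε * s := by
      have := mul_le_mul_of_nonneg_right hK2 hs0.le
      have e : κ / s * 2 ^ K * s = κ * 2 ^ K := by field_simp
      rw [e] at this
      exact this
    rw [div_mul_eq_mul_div, le_div_iff₀ hκ0]
    linarith
  have hMle : Mh s (16 * 4 ^ Q * s) K ≤ 1 := by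
    refine hM2.trans ?_
    rw [hhalf]
    have h4 : 4 * Real.exp 4 * κ ≤ s * ε := by
      rwa [div_le_iff₀ hε0] at hsf
    calc 2 * Real.exp 4 * Ps s * (1 / 2 ^ K) ≤ 2 * Real.exp 4 * 1 * (2 * κ / (ε * s)) := by
          apply mul_le_mul _ hKl (by positivity) (by positivity)
          exact mul_le_mul_of_nonneg_left hP2 (by positivity)
      _ = 4 * Real.exp 4 * κ / (s * ε) := by ring
      _ ≤ 1 := by
          rw [div_le_one (by positivity)]
          exact h4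
  have hT0 : 0 ≤ (Mh s (16 * 4 ^ Q * s) K)⁻¹ := by positivity
  have hT : (Mh s (16 * 4 ^ Q * s) K)⁻¹ ≤ 3 * (ε / κ) * (s : ℝ) ^ 2 := by
    have h1 : (Mh s (16 * 4 ^ Q * s) K)⁻¹ ≤ (Ps s * (1 / 2) ^ K)⁻¹ :=
      inv_anti₀ (by positivity) hM1
    refine h1.trans ?_
    rw [hhalf, mul_inv, one_div, inv_inv]
    have h2 : (Ps s)⁻¹ ≤ 3 * s := by
      have h3 : (Ps s)⁻¹ ≤ (Real.exp (-1) / s)⁻¹ := inv_anti₀ (by positivity) hP3
      refine h3.trans ?_
      rw [inv_div, Real.exp_neg, div_inv_eq_mul]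
      have : Real.exp 1 ≤ 3 := by
        have := Real.exp_one_lt_d9
        linarith
      nlinarith
    calc (Ps s)⁻¹ * 2 ^ K ≤ (3 * s) * (ε / κ * s) := by
          apply mul_le_mul h2 hKu (by positivity) (by positivity)
      _ = 3 * (ε / κ) * (s : ℝ) ^ 2 := by ring
  obtain ⟨n1, n2, n3⟩ := hs1 s hsa K N (Mh s (16 * 4 ^ Q * s) K)⁻¹ hNl hKu hT0 hT
  refine ⟨K, N, hNN0, ⟨hQ, hκ0, by linarith, hε0, by linarith, by omega, hNp, hN3, hNl, hNu, hK1, hK2, ?_,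
    hMle, hM0, n1, n2, n3⟩⟩
  have hl := hLEV Q s K κ ε hκ0 (by omega) hK2
  have h1 : be κ s 0 * lev N N ≤ 1 / 2 := by
    unfold be lev
    rw [if_pos rfl]
    have h2 : (304 : ℝ) * N + 16 * N + 140 ≤ 320 * (2 * Real.exp ((s : ℝ) / 2)) + 140 := by linarith
    calc κ / s * Real.exp (-(s : ℝ)) * (304 * (N : ℝ) + 16 * N + 140)
        ≤ κ / s * Real.exp (-(s : ℝ)) * (320 * (2 * Real.exp ((s : ℝ) / 2)) + 140) :=
          mul_le_mul_of_nonneg_left h2 (by positivity)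
      _ ≤ 1 / 2 := tend1 κ hκ0 (by linarith) s hsb
  have h2 : (Q : ℝ) * ∑ j ∈ range (K + 1), be κ s (j + 1) * (dg s (16 * 4 ^ Q * s) K j : ℝ)
      ≤ Q * (κ * (1 + 16 * 4 ^ Q) + 8 * ε) := mul_le_mul_of_nonneg_left hl (by positivity)
  have h3 : (Q : ℝ) * (κ * (1 + 16 * 4 ^ Q) + 8 * ε) = t / 64 + t / 16 := by
    rw [← hD, hκ, hε]
    field_simp
    ring
  rw [h3] at h2
  linarith

end

end Pool.Agent.Lib.MP_3efbeb_nt.ER.SV
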