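import Pool.Agent.Lib.MP_3efbeb_nt.ER.SV.Defs
import Pool.Agent.Lib.MP_3efbeb_nt.ER.CNTU

/-!
# MP_3efbeb_nt, ER/SV, group E (helper33): the means of block polynomials over the windows

Every module: file `ER/SV/<NAME>.lean`, imports this file, theorem `specNAME (hXXX : SpecXXX) ... : SpecNAME`, own lemmas in the
namespace `Pool.Agent.Lib.MP_3efbeb_nt.ER.SV.<NAME>M`. All statements are for fixed `L, M, K, β, l, c` and `x → ∞`.
-/

set_option autoImplicit false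

namespace Pool.Agent.Lib.MP_3efbeb_nt.ER.SV

open Finset Filter Topology
open scoped Classical

noncomputable section

/-- CW (from `ER.specCNTU` of helper15, proved in `ER/CNTU.lean`). Windows with given divisors `D a ∣ n + M i_a`, the `D a` pairwise coprime, coprime to `M`, with all prime
factors `≥ z`. PROOF. Put `D = ∏ D a`. The conditions `n = 1 (mod M)`, `n = -M i_a (mod D a)` are one class `r` modulo
`M D` (Chinese remainder theorem; `D a` coprime to `M` and to each other; if `q = 0` then `D = 1`). For a prime `p < z`: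
`p ∤ M` iff `p ∤ M D`. So the set is the set of the `n ∈ (X1, X2]`, `n % (M D) = r % (M D)`, `∀ i < L, Rgh (M D) z (n + M i)`: the
set of CNTU for `Y0 = X1`, `Y1 = X2` with modulus `M D`, `k = L`, forms `1 * y + M i`
(`1 ≤ M D`; the primes not dividing `M D` do not divide `M`, so are `> 2 L`; `p ∤ a i = 1`). For a prime `p ∤ M`
the classes `-M i`, `i < L`, are distinct modulo `p` (`p > L`), so `DL.nu = L` and the product is `V L M z`
(the primes `< z` not dividing `M D` are those not dividing `M`). -/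
def SpecCW : Prop := ∀ (L b M z X1 X2 q : ℕ) (i D : Fin q → ℕ), 1 ≤ L → 19 * L ≤ b → GM L M → 2 ≤ z → X1 ≤ X2 →
  (∀ a, 1 ≤ D a ∧ Nat.Coprime (D a) M ∧ ∀ p : ℕ, p.Prime → p ∣ D a → z ≤ p) →
  (∀ a a', a ≠ a' → Nat.Coprime (D a) (D a')) →
  |(((Win M L z X1 X2).filter (fun n => ∀ a, D a ∣ n + M * i a)).card : ℝ)
      - ((X2 : ℝ) - X1) / (M * ∏ a, (D a : ℝ)) * V L M z|
    ≤ 3 * Real.exp (19 * L - b) * (((X2 : ℝ) - X1) / (M * ∏ a, (D a : ℝ))) * V L M z + 4 * (z : ℝ) ^ (16 * b + 33)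

/-- VL (from `DL.VLB` and `1 - L/p ≥ 1/2` for `p ∤ M`): `0 < V ≤ 1` and the lower bound. `V L M z = DL.VV L M z`; `DL.SpecVLB` is
proved in `DL/VLB.lean` (its hypothesis: the primes not dividing `M` are `≥ 2 L`). -/
def SpecVL : Prop := ∀ L M : ℕ, GM L M → ∃ c : ℝ, 0 < c ∧ ∀ z : ℕ, 2 ≤ z → c / Real.log z ^ L ≤ V L M z ∧ V L M z ≤ 1

/-- BIN (no hypotheses): `C(om, l)` counts the sets of `l` primes of the block dividing `m`.
PROOF. `Finset.card_powersetCard` for the filtered block; a subset of `blk` all of whose elements divide `m` is a subset of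
`(blk u v).filter (· ∣ m)` and conversely. -/
def SpecBIN : Prop := ∀ u v m l : ℕ, (om u v m).choose l =
  (((blk u v).powersetCard l).filter (fun S => ∀ p ∈ S, p ∣ m)).card

/-- MER2 (Mertens). `MRA` (Mertens' first theorem, `|∑_{p ≤ N} log p/p - log N| ≤ C`) is proved in
`Pool/Agent/Lib/MP_1446ad_nt/SM` (SpecMRA), compare `SpecMRB` there. PROOF. `A(t) = ∑_{p ≤ t} log p/p = log t + R(t)`, `|R| ≤ C`.
`∑_{a < p ≤ b} 1/p = ∑_{a < t ≤ b} (A(t) - A(t-1))/log t`. The part of `R`: partial summation, at most `3C/log a`. The part of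
`log`: `(log t - log (t-1))/log t` lies between `f(t) - (1/(t-1)^2)·(1/log(t-1))·(1/ log t)..` and `f(t)`,
`f(t) = log log t - log log (t-1)` (as `f(t) = log (log t/log (t-1))` lies between `1 - log(t-1)/log t` and
`log t/log(t-1) - 1`), and the sum of `(log t - log (t-1))^2/(log t log (t-1)) ≤ ∑_{t > a} 1/(t-1)^2 · 1/log a ≤ C/log a`. -/
def SpecMER2 : Prop := ∃ C : ℝ, 0 ≤ C ∧ ∀ a b : ℕ, 2 ≤ a → a ≤ b →
  |(∑ p ∈ (Ioc a b).filter Nat.Prime, 1 / (p : ℝ)) - Real.log (Real.log b / Real.log a)| ≤ C / Real.log a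

/-- MER (from MER2): block sums. `blk u v` and `(Ioc u v).filter Prime` differ by at most the elements `u`, `v`; `u = ⌈x^α⌉`,
`log u = α log x + O(1)` (`x^α ≤ u ≤ x^α + 1`), `log v = γ log x + O(1)`; so `log (log v/log u) → log (γ/α)`. -/
def SpecMER : Prop := ∀ α γ : ℝ, 0 < α → α < γ →
  Tendsto (fun x : ℕ => Sp ⌈(x : ℝ) ^ α⌉₊ ⌈(x : ℝ) ^ γ⌉₊) atTop (𝓝 (Real.log (γ / α)))

/-- ESY (no hypotheses). Elementary symmetric sums. PROOF. Let `B = blk (u x) (v x)`, `σ = Sp (u x) (v x)`,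
`e_l = ∑_{S ⊆ B, |S| = l} ∏_{p ∈ S} 1/p`. Newton's inequality by double counting: `(l+1) e_{l+1} = ∑_{S, |S| = l} ∏_S 1/p ·
∑_{p ∈ B, p ∉ S} 1/p`, so `(l+1) e_{l+1} ≤ σ e_l` and `σ e_l - (l+1) e_{l+1} = ∑_S ∏_S (1/p) ∑_{p ∈ S} 1/p ≤ (l/u) e_l` (every
element is `≥ u`). With `u → ∞`, `σ → lam`: induction on `l`: `e_l → lam^l/l!`. -/
def SpecESY : Prop := ∀ (u v : ℕ → ℕ) (lam : ℝ), Tendsto u atTop atTop →
  Tendsto (fun x => Sp (u x) (v x)) atTop (𝓝 lam) → ∀ l : ℕ,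
  Tendsto (fun x => ∑ S ∈ (blk (u x) (v x)).powersetCard l, ∏ p ∈ S, 1 / (p : ℝ)) atTop (𝓝 (lam ^ l / (l.factorial : ℝ)))

/-- ES (from MER, ESY): the sum over the families with pairwise disjoint sets at different positions.
PROOF. `∏_a 1/dd S a = ∏_{t = (a,j)} ∏_{p ∈ S t} 1/p`. Over the whole of `fam`: `Finset.prod_univ_sum` gives
`∏_t e_{l t}(blk_j)`, which tends to the limit by MER and ESY. The families with a common prime `p` at `(a,j)` and `(a',j)`,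
`a ≠ a'`: union over `a, a', j` and `p ∈ blk_j`; they form the `Fintype.piFinset` in which the sets at the two places
are restricted to those containing `p`; `∑_{S ∋ p, |S| = l} ∏_S 1/p' ≤ (1/p) e_{l-1}(blk_j)` (erase `p`; empty for
`l = 0`); so the sum is at most `∑_{a,a',j} ∑_{p ≥ y_j} p^(-2) · C` with bounded `C` (all `e_l` converge), and
`∑_{p ≥ y} p^(-2) ≤ 2/y → 0`. -/
def SpecES : Prop := ∀ (q K : ℕ) (β : ℕ → ℝ) (l : Fin q → Fin K → ℕ), (∀ j : Fin K, 0 < β j ∧ β j < β (j + 1)) →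
  Tendsto (fun x : ℕ => ∑ S ∈ (fam β x l).filter Dis, ∏ a, (1 / (dd S a : ℝ))) atTop
    (𝓝 (∏ a, ∏ j : Fin K, Real.log (β (j + 1) / β j) ^ l a j / ((l a j).factorial : ℝ)))

/-- DEN (from CW with `q = 0`, `b = 19 L + B + 6`, and VL): the number of windows. PROOF. `z = ⌈x^(β0)⌉ ≤ 2 x^(β0)`,
`b = 19 L + B + 6`: `4 z^(16 b + 33) ≤ 4 · 2^.. x^(β0 (304 L + 16 B + 129))`, and `β0 lev < 1`, so this is
`≤ x^(1 - 10 β0)` for large `x`, `o(x/(log x)^(L+1))`. Main term `(X2-X1)/M · V ≥ (x/(4M)) c/(log z)^L`. The first error: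
`3 exp(-B-6)` times the main term; `3 exp(-6) < 0.01`. -/
def SpecDEN : Prop := ∀ (L B M : ℕ) (β0 : ℝ), 1 ≤ L → GM L M → 0 < β0 → β0 * lev L B < 1 → ∃ x0 : ℕ, ∀ x : ℕ, x0 ≤ x →
  ∀ X1 X2 : ℕ, Rg x X1 X2 →
  |((Win M L ⌈(x : ℝ) ^ β0⌉₊ X1 X2).card : ℝ) - ((X2 : ℝ) - X1) / M * V L M ⌈(x : ℝ) ^ β0⌉₊|
    ≤ 1 / 10 * Real.exp (-(B : ℝ)) * (((X2 : ℝ) - X1) / M * V L M ⌈(x : ℝ) ^ β0⌉₊) ∧
  (x : ℝ) / Real.log x ^ (L + 1) ≤ (Win M L ⌈(x : ℝ) ^ β0⌉₊ X1 X2).card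

/-- BM (from CW, VL, BIN, ES, DEN): the binomial moments. PROOF. Let `z = y_0`, `m_a = n + M i_a`, `Λ` the product on the
right (positive). By BIN `∏_{a,j} C(om_j(m_a), l a j)` is the number of the `S ∈ fam` with `p ∣ m_a` for all `p ∈ S (a,j)`
(`Finset.prod_univ_sum` for indicators, or cardinality of `piFinset`), i.e. (distinct primes) `dd S a ∣ m_a` for all `a`. For `n`
in `Win` and `x` large only `S` with `Dis S` occur: a common prime `p` at `a ≠ a'` divides `M (i_a - i_a')`, but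
`p ≥ z > max(M, L)`, `0 < |i_a - i_a'| < L`. So the sum is `∑_{S, Dis} #{n ∈ Win : dd S a ∣ m_a ∀ a}`; CW with `D = dd S`
(blocks for different `j` are disjoint, so `dd S a` are pairwise coprime; all primes `≥ z > M`, so coprime to `M`),
`b = 19 L + B + 6`, gives `(X2-X1)/M V ∑_{S, Dis} ∏ 1/dd S a` up to the factor `1 ± 0.01 exp(-B)`
and up to `|fam| 4 z^(16b+33)`; `|fam| ≤ ∏ y_{j+1}^(l a j)`, `y_j ≤ 2 x^(β_j)`: this is `≤ C x^(1 - 10 β_0)` by the level condition,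
so `o(x/(log x)^(L+1))`. By ES the sum over `S` tends to `Λ`. Divide by `Win.card` (DEN): the quotient is
`Λ (1 ± 0.01 e)(1 ± 0.1 e)^(-1) (1 + o(1))`, `e = exp(-B) ≤ 1`: between `Λ (1 - e)` and `Λ (1 + e)`. -/
def SpecBM : Prop := ∀ (L B q K M : ℕ) (β : ℕ → ℝ) (l : Fin q → Fin K → ℕ) (i : Fin q → ℕ), 1 ≤ L → GM L M → 1 ≤ K →
  0 < β 0 → (∀ j < K, β j < β (j + 1)) → Function.Injective i → (∀ a, i a < L) →
  β 0 * lev L B + ∑ a, ∑ j : Fin K, β (j + 1) * (l a j : ℝ) < 1 → ∃ x0 : ℕ, ∀ x : ℕ, x0 ≤ x → ∀ X1 X2 : ℕ, Rg x X1 X2 →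
  |(∑ n ∈ Win M L (yb β x 0) X1 X2, ∏ a, ∏ j : Fin K,
        ((om (yb β x j) (yb β x (j + 1)) (n + M * i a)).choose (l a j) : ℝ))
      - (Win M L (yb β x 0) X1 X2).card *
        ∏ a, ∏ j : Fin K, Real.log (β (j + 1) / β j) ^ l a j / ((l a j).factorial : ℝ)|
    ≤ Real.exp (-(B : ℝ)) * (Win M L (yb β x 0) X1 X2).card *
        ∏ a, ∏ j : Fin K, Real.log (β (j + 1) / β j) ^ l a j / ((l a j).factorial : ℝ)

/-- MEAN (from BM): block polynomials. PROOF. `∏_{a,j} pol (u a j) (c a j) (om ..) = ∑_l ∏_{a,j} c a j (l a j) C(om.., l a j)`, the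
sum over all `l` with `l a j ≤ u a j` (`Finset.prod_univ_sum` over `Fin q × Fin K`, `piFinset` of the `range (u+1)`);
BM for each of the finitely many `l` (the level condition holds as `l ≤ u` and `β > 0`), `x0` the maximum; the sum of the main
terms is the product of the `PE`, the sum of the `|∏ c|` times main terms is the product of the `PA`
(`log (β (j+1)/β j) > 0`). -/
def SpecMEAN : Prop := ∀ (L B q K M : ℕ) (β : ℕ → ℝ) (u : Fin q → Fin K → ℕ) (c : Fin q → Fin K → ℕ → ℝ) (i : Fin q → ℕ),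
  1 ≤ L → GM L M → 1 ≤ K → 0 < β 0 → (∀ j < K, β j < β (j + 1)) → Function.Injective i → (∀ a, i a < L) →
  β 0 * lev L B + ∑ a, ∑ j : Fin K, β (j + 1) * (u a j : ℝ) < 1 → ∃ x0 : ℕ, ∀ x : ℕ, x0 ≤ x → ∀ X1 X2 : ℕ, Rg x X1 X2 →
  |(∑ n ∈ Win M L (yb β x 0) X1 X2, ∏ a, ∏ j : Fin K,
        pol (u a j) (c a j) (om (yb β x j) (yb β x (j + 1)) (n + M * i a)))
      - (Win M L (yb β x 0) X1 X2).card * ∏ a, ∏ j : Fin K, PE (Real.log (β (j + 1) / β j)) (u a j) (c a j)|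
    ≤ Real.exp (-(B : ℝ)) * (Win M L (yb β x 0) X1 X2).card *
        ∏ a, ∏ j : Fin K, PA (Real.log (β (j + 1) / β j)) (u a j) (c a j)

end

end Pool.Agent.Lib.MP_3efbeb_nt.ER.SV
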