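import Pool.Agent.Lib.MP_3efbeb_nt.ER.SV.SpecE

/-!
# MP_3efbeb_nt, ER/SV, group M (helper33): the majorant, its moments, the parameters, and the assembly

Every module: file `ER/SV/<NAME>.lean`, imports this file, theorem `specNAME (hXXX : SpecXXX) ... : SpecNAME`, own lemmas in the
namespace `Pool.Agent.Lib.MP_3efbeb_nt.ER.SV.<NAME>M`.
Conventions: `J0 = 16 * 4 ^ Q * s`, `T = Mh⁻¹ = τ`.  The Poisson law of parameter `lam` gives `t` the weight `exp (-lam) lam^t/t!`.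
-/

set_option autoImplicit false

namespace Pool.Agent.Lib.MP_3efbeb_nt.ER.SV

open Finset Filter Topology
open scoped Classical

noncomputable section

/-! ## Bonferroni sums -/

/-- BON (no hypotheses). PROOF. `C(w,l) C(l,s) = C(w,s) C(w-s,l-s)` (`Nat.choose_mul`), so `bon s J w = C(w,s) ∑_{i ≤ J} (-1)^i C(w-s,i)`
(index `l = s + i`). `w < s`: `C(w,s) = 0`. `w = s`: only `i = 0`. `w > s`, `n = w - s - 1`: `∑_{i ≤ J} (-1)^i C(n+1,i) = (-1)^J C(n,J)`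
(`Int.alternating_sum_range_choose_eq_choose` or induction on `J` by Pascal), `J` even. -/
def SpecBON : Prop := ∀ s J w : ℕ, Even J → bon s J w =
  if w < s then 0 else if w = s then 1 else (w.choose s : ℝ) * ((w - s - 1).choose J : ℝ)

/-- BNB (from BON). `C(w,s) ≤ 2^w`, `C(w-s-1,J) ≤ 2^w`, and `C(w-s-1,J) = 0` for `s < w ≤ s + J`. -/
def SpecBNB : Prop := ∀ s J w : ℕ, Even J → 0 ≤ bon s J w ∧ bon s J s = 1 ∧ (w ≠ s → w ≤ s + J → bon s J w = 0) ∧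
  bon s J w ≤ 4 ^ w

/-- NWT (from BNB). Powers of `bon` are polynomials in the binomial basis. PROOF. `P w = bon s J w ^ e` is the value at
`w` of a real polynomial of degree `≤ e (s+J)` (`C(w,l)` is a polynomial in `w` of degree `l`), so its forward differences
of order `> e (s+J)` vanish and Newton's formula gives `P w = ∑_{l ≤ e(s+J)} C(w,l) c l` with
`c l = (Δ^l P)(0) = ∑_{v ≤ l} (-1)^(l-v) C(l,v) P v` (Mathlib: `fwdDiff`, `shift_eq_sum_fwdDiff_iter`, `fwdDiff_iter_eq_sum_shift`,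
vanishing for polynomials: `Polynomial` / `fwdDiff_iter_...`; alternatively products
`C(w,a) C(w,b) = ∑_{l ≤ a+b} C(l,a) C(a,l-b) C(w,l)` show that the functions `pol u c` are closed under products with
`u` added, and the coefficients of any `pol u c` are recovered by Newton's formula from the values `v ≤ l`).
`|c l| ≤ 2^l max_{v ≤ l} |P v| ≤ 2^l 4^(e l)` (take `c l` given by the formula for all `l`). -/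
def SpecNWT : Prop := ∀ s J e : ℕ, 1 ≤ e → Even J → ∃ c : ℕ → ℝ, (∀ w, bon s J w ^ e = pol (e * (s + J)) c w) ∧
  ∀ l, |c l| ≤ (2 * 4 ^ e) ^ l

/-! ## Poisson sums -/

/-- PSI (no hypotheses). `∑_t C(t,l) lam^t/t! = (lam^l/l!) exp lam` (`C(t,l)/t! = 1/(l! (t-l)!)`, shift `t = l + t'`,
`NormedSpace.expSeries` / `Real.hasSum_exp`), linear combination over `l ≤ u`. -/
def SpecPSI : Prop := ∀ (lam : ℝ) (u : ℕ) (c : ℕ → ℝ), 0 ≤ lam →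
  HasSum (fun t : ℕ => pol u c t * (lam ^ t / (t.factorial : ℝ))) (Real.exp lam * PE lam u c)

/-- PAB (no hypotheses). `∑_l (A lam)^l/l! ≤ exp (A lam)`. -/
def SpecPAB : Prop := ∀ (lam A : ℝ) (u : ℕ) (c : ℕ → ℝ), 0 ≤ lam → 0 ≤ A → (∀ l, |c l| ≤ A ^ l) →
  PA lam u c ≤ Real.exp (A * lam) ∧ 0 ≤ PA lam u c ∧ |PE lam u c| ≤ PA lam u c

/-- PSL (no hypotheses). PROOF. `Ps s ≥ exp (-s)` as `s! ≤ s^s`; `Ps s ≤ 1` as `s^s/s! ≤ exp s`. Lower bound: `s Ps s` is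
nondecreasing in `s ≥ 1`: `(s+1) Ps (s+1)/(s Ps s) = e^(-1) (1 + 1/s)^(s+1) ≥ 1` because `log (1 + 1/s) ≥ 1/(s+1)`
(`Real.one_sub_inv_le_log_of_pos`); `1 * Ps 1 = e^(-1)`. -/
def SpecPSL : Prop := ∀ s : ℕ, 1 ≤ s → Real.exp (-(s : ℝ)) ≤ Ps s ∧ Ps s ≤ 1 ∧ Real.exp (-1) / s ≤ Ps s

/-- PM0 (from BNB, PSI, PSL). The block `0`, Poisson parameter `s`. PROOF. By PSI `PE s u c = e^(-s) ∑_t (bon s J t)^e s^t/t!`. The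
terms `t ≤ s + J` vanish except `t = s`, which gives `Ps s`. For `t > s + J`: `0 ≤ bon^e ≤ 4^(e t)`, and
`(4^e s)^t/t! ≤ (4^e s e/t)^t` (`t! ≥ (t/e)^t`: `t^t/t! ≤ exp t`) with `t > J ≥ 16 · 4^Q s`, so the base is `≤ e/16 < 1/5`: the tail is
`≤ e^(-s) ∑_{t > J} 5^(-t) ≤ e^(-s)/4 ≤ Ps s`. (`e = 1`, `c = cb s J`, `u = s + J` for the first part; `bon` is `pol` by definition.) -/
def SpecPM0 : Prop := ∀ (Q s J : ℕ), 1 ≤ Q → 1 ≤ s → Even J → 16 * 4 ^ Q * s ≤ J →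
  (Ps s ≤ PE s (s + J) (cb s J) ∧ PE s (s + J) (cb s J) ≤ 2 * Ps s) ∧
  ∀ (e u : ℕ) (c : ℕ → ℝ), 1 ≤ e → e ≤ Q → (∀ w, bon s J w ^ e = pol u c w) → 0 ≤ PE s u c ∧ PE s u c ≤ 2

/-- PMT (from BNB, PSI). The upper blocks, Poisson parameter `log 2`, `J = 2 m`. PROOF. `e^(-lam) = 1/2`, the term `t = 0` gives `1/2`.
For `t > J`: `bon 0 J t = C(t-1,J) ≤ 2^t`, so the rest is `≤ (1/2) ∑_{t > 2m} (2 log 2)^t/t! ≤ (1/2) e^(1.3863) (1.3863)^(2m+1)/(2m+1)!`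
and `(1.3863)^(2m+1)/(2m+1)! ≤ 2^(-m)` (induction on `m ≥ 1`), `e^(1.3863) = 4`: so `PE ≤ (1/2)(1 + 4/2^m) ≤ (1/2) exp (4/2^m)`.
Second part: `bon^e ≤ 4^(e t)`: `PE ≤ (1/2) ∑ (4^e log 2)^t/t! = (1/2) 2^(4^e) ≤ 2^(4^e)`. -/
def SpecPMT : Prop := ∀ m : ℕ, 1 ≤ m →
  (1 / 2 ≤ PE (Real.log 2) (2 * m) (cb 0 (2 * m)) ∧
    PE (Real.log 2) (2 * m) (cb 0 (2 * m)) ≤ 1 / 2 * Real.exp (4 / 2 ^ m)) ∧
  ∀ (e u : ℕ) (c : ℕ → ℝ), 1 ≤ e → (∀ w, bon 0 (2 * m) w ^ e = pol u c w) →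
    0 ≤ PE (Real.log 2) u c ∧ PE (Real.log 2) u c ≤ 2 ^ (4 ^ e)

/-- MHB (from PM0, PMT). The product over `j ≤ K`: `j = 0` from PM0, `1 ≤ j ≤ K` from PMT with `m = K + 1 - j ∈ [1, K]`;
`∑_{m ≥ 1} 4/2^m ≤ 4`. -/
def SpecMHB : Prop := ∀ Q s J K : ℕ, 1 ≤ Q → 1 ≤ s → Even J → 16 * 4 ^ Q * s ≤ J →
  Ps s * (1 / 2) ^ K ≤ Mh s J K ∧ Mh s J K ≤ 2 * Real.exp 4 * Ps s * (1 / 2) ^ K

/-! ## The parameters -/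

/-- all conditions on the parameters; `N` is a prime near `e^(s/2)` -/
structure Par (Q : ℕ) (κ ε : ℝ) (s K N : ℕ) : Prop where
  hQ : 1 ≤ Q
  hκ : 0 < κ
  hκ1 : κ ≤ 1 / 8
  hε : 0 < ε
  hε1 : ε ≤ 1 / 8
  hs : 1 ≤ s
  hN : N.Prime
  hN3 : 3 ≤ N
  hNl : Real.exp ((s : ℝ) / 2) ≤ N
  hNu : (N : ℝ) ≤ 2 * Real.exp ((s : ℝ) / 2)
  hK1 : ε / 2 < κ / s * 2 ^ K
  hK2 : κ / s * 2 ^ K ≤ ε
  hlev : be κ s 0 * lev N N + Q * ∑ j ∈ range (K + 1), be κ s (j + 1) * (dg s (16 * 4 ^ Q * s) K j : ℝ) < 1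
  hM : Mh s (16 * 4 ^ Q * s) K ≤ 1
  hM0 : 0 < Mh s (16 * 4 ^ Q * s) K
  hT : ((Mh s (16 * 4 ^ Q * s) K)⁻¹) ^ Q ≤ (N : ℝ) ^ (1 / 4 : ℝ)
  h1 : Real.exp (-(N : ℝ)) * (Real.exp (8 * s) * 2 ^ (8 * K) * (Mh s (16 * 4 ^ Q * s) K)⁻¹) ^ Q ≤ 1 / Real.sqrt N
  h2 : ((Mh s (16 * 4 ^ Q * s) K)⁻¹) ^ Q * ((2 * 2 ^ (K * 4 ^ Q)) ^ Q
    + Real.exp (-(N : ℝ)) * (Real.exp (2 * 4 ^ Q * s) * 2 ^ (2 * 4 ^ Q * K)) ^ Q) ≤ (N : ℝ) ^ (1 / 4 : ℝ)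

/-- LEV (no hypotheses): the levels of the blocks. PROOF. `j = 0`: `be κ s 1 = κ/s`, `dg = s + 16 4^Q s`, product `κ (1 + 16 4^Q)`.
`1 ≤ j ≤ K`: `be κ s (j+1) = κ/s 2^j`, `dg = 2 (K+1-j)`, so with `i = K - j`: `(κ/s 2^K) 2^(-i) 2 (i+1)`, and
`∑_{i ≥ 0} (i+1) 2^(-i) = 4` (finite sum `≤ 4`: `∑_{i < n} (i+1)/2^i = 4 - (n+2)/2^(n-1)`). -/
def SpecLEV : Prop := ∀ (Q s K : ℕ) (κ ε : ℝ), 0 < κ → 1 ≤ s → κ / s * 2 ^ K ≤ ε →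
  ∑ j ∈ range (K + 1), be κ s (j + 1) * (dg s (16 * 4 ^ Q * s) K j : ℝ) ≤ κ * (1 + 16 * 4 ^ Q) + 8 * ε

/-- NUM (no hypotheses): growth. PROOF. `s ≤ 2 log N`, so everything of the form `C s^C'` is `≤ N^η` for large `s`, and `exp (C s) s^C'
≤ N^(2C+1)` which is beaten by `exp (-N)`. (With `2^K ≤ A s`, `T ≤ A' s^2`.) -/
def SpecNUM : Prop := ∀ (Q : ℕ) (A A' : ℝ), 0 < A → 0 < A' → ∃ s0 : ℕ, ∀ s : ℕ, s0 ≤ s → ∀ (K N : ℕ) (T : ℝ),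
  Real.exp ((s : ℝ) / 2) ≤ N → (2 : ℝ) ^ K ≤ A * s → 0 ≤ T → T ≤ A' * (s : ℝ) ^ 2 →
  T ^ Q ≤ (N : ℝ) ^ (1 / 4 : ℝ) ∧
  Real.exp (-(N : ℝ)) * (Real.exp (8 * s) * 2 ^ (8 * K) * T) ^ Q ≤ 1 / Real.sqrt N ∧
  T ^ Q * ((2 * 2 ^ (K * 4 ^ Q)) ^ Q
    + Real.exp (-(N : ℝ)) * (Real.exp (2 * 4 ^ Q * s) * 2 ^ (2 * 4 ^ Q * K)) ^ Q) ≤ (N : ℝ) ^ (1 / 4 : ℝ)

/-- PAR (from MHB, PSL, LEV, NUM): existence of the parameters. PROOF. `κ = min θ 1/(64 Q (1 + 16 4^Q))`, `ε = min θ 1/(128 Q)`: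
the level is `≤ be κ s 0 · lev N N + Q κ (1 + 16 4^Q) + 8 Q ε ≤ be κ s 0 · lev N N + 1/64 + 1/16`, and
`be κ s 0 · lev N N ≤ κ e^(-s) (320 · 2 e^(s/2) + 140)/s → 0`. `K` is the largest with `κ/s 2^K ≤ ε` (exists for `s ≥ κ/ε`; then
`κ/s 2^(K+1) > ε`). `N`: Bertrand (`Nat.exists_prime_lt_and_le_two_mul`) for `n = ⌈e^(s/2)⌉ - 1 ≥ 1` gives `n < N ≤ 2 n`,
so `e^(s/2) ≤ N` (integers) and `N ≤ 2 n ≤ 2 e^(s/2)`. `2^K ≤ (ε/κ) s`, `2^(-K) < 2κ/(ε s)`. With MHB, PSL: `Mh > 0`,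
`Mh ≤ 2 e^4 · 2κ/(ε s) ≤ 1` for large `s`, `Mh⁻¹ ≤ 2^K/Ps ≤ (ε/κ) s · e s`. The remaining fields from NUM with `A = ε/κ`,
`A' = 3 ε/κ`. `N ≥ N0` as `N ≥ e^(s/2)`. -/
def SpecPAR : Prop := ∀ (Q : ℕ) (θ : ℝ), 1 ≤ Q → 0 < θ → ∃ κ ε : ℝ, 0 < κ ∧ 0 < ε ∧ κ ≤ θ / 8 ∧ ε ≤ θ / 8 ∧
  ∀ N0 : ℕ, ∃ s0 : ℕ, ∀ s : ℕ, s0 ≤ s → ∃ K N : ℕ, N0 ≤ N ∧ Par Q κ ε s K N

/-! ## The moments of the majorant -/

/-- the normalised majorant: `h/E h` at the positions `2 i < N`, `1` at the others -/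
def nn (κ : ℝ) (s J0 K M N x n : ℕ) (i : ZMod N) : ℝ :=
  if 2 * i.val < N then hh κ s J0 K x (n + M * i.val) / Mh s J0 K else 1

/-- M1 (from MEAN, PAB). PROOF. `L = (N+1)/2`, so `2 i < N` iff `i < L` (`N` odd). Let `T' = T.filter (2 val < N)`, `q = T'.card ≤ Q`,
`i : Fin q → ℕ` the injective enumeration of the `val`s. `∏_{i ∈ T} nn = Mh^(-q) ∏_a hh (n + M i_a)`. MEAN with `K + 1` blocks,
`β = be κ s` (increasing: `be 0 < be 1 < ..`), `B = N`, `u a j = dg s J0 K j`, `c a j = cc s J0 K j`; `log (β 1/β 0) = s`, `log (β (j+1)/β j) =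
log 2` for `j ≥ 1`, i.e. `la s j`; level: `L ≤ N`, `q ≤ Q` and `hlev`. So `|∑ - card| ≤ e^(-N) card (PAT/Mh)^q` with
`PAT = ∏_j PA (la s j) .. ≤ exp (8 s) 2^(8K)` (PAB with `A = 8`: `|cb s J l| ≤ C(l,s) ≤ 2^l ≤ 8^l`, `exp (8 log 2) = 2^8`), and
`exp(8s) 2^(8K) Mh⁻¹ ≥ 1`, so the `q`-th power is at most the `Q`-th power; field `h1`. Finitely many `T`: `x0` = maximum. -/
def SpecM1 : Prop := ∀ (Q s K N M : ℕ) (κ ε : ℝ), Par Q κ ε s K N → GM N M → ∃ x0 : ℕ, ∀ x : ℕ, x0 ≤ x →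
  ∀ X1 X2 : ℕ, Rg x X1 X2 → ∀ T : Finset (ZMod N), T.card ≤ Q →
  |(∑ n ∈ Win M ((N + 1) / 2) (yb (be κ s) x 0) X1 X2, ∏ i ∈ T, nn κ s (16 * 4 ^ Q * s) K M N x n i)
      - (Win M ((N + 1) / 2) (yb (be κ s) x 0) X1 X2).card|
    ≤ (Win M ((N + 1) / 2) (yb (be κ s) x 0) X1 X2).card / Real.sqrt N

/-- M2 (from MEAN, PAB, NWT, PM0, PMT, BNB). PROOF. Let `T' = {i : 2 i.val < N, m i > 0}`, `q = T'.card ≤ Q`, exponents `e_a = m i_a ≥ 1`,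
`∑ e_a ≤ Q`. `∏_i nn^(m i) = Mh^(-∑ e_a) ∏_a hh (n + M i_a)^(e_a)`, `hh^e = ∏_j (bon ..)^e = ∏_j pol (e · dg) c_j` by NWT (for `j = 0`:
`bon s J0`, for `j ≥ 1`: `bon 0 (2(K+1-j))`, `0 + J = J`), `|c_j l| ≤ (2 4^e)^l`. MEAN with `u a j = e_a · dg j`: level
`∑_a e_a ∑_j ≤ Q ∑_j` ok. Main term `∏_a (PE_0 ∏_{j ≥ 1} PE_j) ≤ ∏_a (2 · 2^(K 4^(e_a))) ≤ (2 · 2^(K 4^Q))^Q` (PM0, PMT), error
`e^(-N) ∏_a ∏_j PA ≤ e^(-N) (exp (2 4^Q s) 2^(2 4^Q K))^Q` (PAB with `A = 2 4^e ≤ 2 4^Q`; bases `≥ 1`), `Mh⁻¹ ≥ 1`; field `h2`.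
Finitely many `m`. -/
def SpecM2 : Prop := ∀ (Q s K N M : ℕ) (κ ε : ℝ), [NeZero N] → Par Q κ ε s K N → GM N M → ∃ x0 : ℕ, ∀ x : ℕ, x0 ≤ x →
  ∀ X1 X2 : ℕ, Rg x X1 X2 → ∀ m : ZMod N → ℕ, ∑ i, m i ≤ Q →
  ∑ n ∈ Win M ((N + 1) / 2) (yb (be κ s) x 0) X1 X2, ∏ i, nn κ s (16 * 4 ^ Q * s) K M N x n i ^ m i
    ≤ (N : ℝ) ^ (1 / 4 : ℝ) * (Win M ((N + 1) / 2) (yb (be κ s) x 0) X1 X2).card

/-- HH (from BNB). PROOF. `hh ≥ 0` as a product of `bon`s. On `AA`: the primes of `[y_0, y_1)` dividing `m = a P` are exactly the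
`s` primes of `a` (`P > Z ≥ y_{K+1} ≥ y_1`), so the factor `j = 0` is `bon s J s = 1`. A prime of `[y_j, y_{j+1})`, `1 ≤ j ≤ K`, dividing
`a P` would be a prime of `a`, `< y_1 ≤ y_j`, or `P ≥ y_{K+1} ≥ y_{j+1}`: none, factor `bon 0 J 0 = 1`. (`yb (be κ s) x` is monotone
for `x ≥ 1`.) -/
def SpecHH : Prop := ∀ (κ : ℝ) (s J K x m : ℕ), 0 < κ → 1 ≤ s → 1 ≤ x → Even J → 0 ≤ hh κ s J K x m ∧
  ∀ Z : ℝ, (yb (be κ s) x (K + 1) : ℝ) ≤ Z → AA s (yb (be κ s) x 0) (yb (be κ s) x 1) Z m → hh κ s J K x m = 1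

/-- AER (no hypotheses): the numbers of `AA` have exactly `s + 1` prime factors, large. PROOF. `m = a P`, `a` squarefree with `s`
prime factors, `P` prime: `(a P).primeFactorsList.length = s + 1` (`ArithmeticFunction.cardFactors` of a product; `cardFactors a =
a.primeFactors.card` for squarefree `a`). A prime `p ∣ m` divides `a`, so `p ≥ ⌈x^β⌉ ≥ x^β > x^(β/2)` (`x ≥ 2`), or is
`P > x^(1-θ') ≥ x^(1/2) > x^(β/2)` (`θ' ≤ 1/2`, `β < 1`). `P > x^(1-θ') ≥ x^(1-θ)` as `θ' ≤ θ`. -/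
def SpecAER : Prop := ∀ (θ θ' β : ℝ) (s x T m : ℕ), 0 < β → β < 1 → θ' ≤ θ → θ' ≤ 1 / 2 → 2 ≤ x →
  AA s ⌈(x : ℝ) ^ β⌉₊ T ((x : ℝ) ^ (1 - θ')) m → Er (s + 1) θ (β / 2) x m

/-- M3 (helper16, `ER/SV/SpecP.lean`: the same statement as `ER.P3.SpecM3`): the lower bound by primes. -/
def SpecM3 : Prop := ∀ κ θ : ℝ, 0 < κ → 8 * κ ≤ θ → θ ≤ 1 / 4 → ∃ s0 : ℕ, ∀ s : ℕ, s0 ≤ s → ∀ N : ℕ,
  (N : ℝ) ≤ 2 * Real.exp (s / 2) → ∃ w0 : ℕ, 1 ≤ w0 ∧ ∀ M : ℕ, 1 ≤ M → w0 ∣ M → ∃ x0 : ℕ, ∀ x : ℕ, x0 ≤ x →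
  ∀ L i : ℕ, L ≤ N → i < L →
  1 / 4 * ((s : ℝ) ^ s / (s.factorial : ℝ)) * be κ s 0 *
      (Win M L (yb (be κ s) x 0) (x / 2) (x - M * N)).card
    ≤ (((Win M L (yb (be κ s) x 0) (x / 2) (x - M * N)).filter (fun n =>
        AA s (yb (be κ s) x 0) (yb (be κ s) x 1) ((x : ℝ) ^ (1 - θ)) (n + M * i))).card : ℝ)

/-- SVM (from PAR, M1, M2, HH, AER, M3, DEN, MHB): the assembly. PROOF. Given `Q` (replace it by `max Q 1`: all conclusions for `max Q 1`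
give those for `Q`; `τ ≥ 1`), `θ`. `θ' = min θ (1/4)`, PAR for `θ'`: `κ, ε` (`8 κ ≤ θ'`). `δ = ε/(32 e^4)`. Given `N0`: `s0` the maximum of those of PAR and M3
(for `θ'`, `κ`), `r0 = s0 + 1`, `s = r - 1`; `K, N` from PAR; `w = (2N)! w0` (`w0` from M3), `τ = Mh⁻¹ ≥ 1`. Given `t`: `M = w t`; all
primes `≤ 2N` divide `M`, `w0 ∣ M`. `c = be κ s 0/2`, `C = L + 1`, `L = (N+1)/2`. `S = Win M L (yb (be κ s) x 0) (x/2) (x - M N)`,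
`Rg x (x/2) (x - M N)` for `x ≥ 8 M N + 8`. `ν = nn`, `A n i` = `i < L` and `AA s y_0 y_1 (x^(1-θ')) (n + M i)`. `n ∈ S`: `1 ≤ n` (`n > x/2`),
`n + M N ≤ x`; `S` nonempty and `≥ x/(log x)^C` by DEN (`B = 0`, `β0 = be κ s 0`, `be κ s 0 · lev L 0 < 1` from `hlev`). `ν ≥ 0` by HH.
`A n i → Er r θ c x (n + M i)` by AER (`β = be κ s 0 < 1`); `τ ≤ ν`: `hh = 1` by HH, `Z = x^(1-θ') ≥ yb (be κ s) x (K+1)` as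
`be κ s (K+1) = κ/s 2^K ≤ ε ≤ 1/8 < 1/2 ≤ 1-θ'` and `x` large (`x^(1/8) + 1 ≤ x^(1/2)`); `(i : ZMod N).val = i` for `i < N`. M1, M2. Last line: by M3
for each `i < L`, sum over `i`: `∑_n #{..} ≥ L (1/4)(s^s/s!) be κ s 0 |S|`, `L ≥ N/2`, and by MHB (upper bound)
`τ ≥ 1/(2 e^4 Ps s 2^(-K))`, `2^(-K) < 2κ/(ε s)`, `Ps s = e^(-s) s^s/s!`, `be κ s 0 = κ/s e^(-s)`: the product is
`≥ N |S| ε/(32 e^4)`. -/
def SpecSVM : Prop := ER.SpecSV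

end

end Pool.Agent.Lib.MP_3efbeb_nt.ER.SV
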