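import Pool.Agent.Lib.MP_3efbeb_nt.ER.SV.SpecE

/-!
# MP_3efbeb_nt, ER/SV, group P (helper16): the primes (M3)

`SpecM3`: in the windows `n + M i`, `i < L`, without prime factors `< z`, the number `n + M i` is `a P`, `P` prime, `a` a squarefree product
of `s` primes of `[z, T)`, for a proportion `≥ (1/4) (s^s/s!) β_0` of the windows. All statements are for fixed `κ, s, N, L, i, M` and
`x → ∞`; only the level of the sieve (`16 b0 + 36`, `b0 ≥ 38 L`) is explicit in `L`.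

PLAN. `n + M i = q m`, `q` a prime of `(2^J, 2^(3J)]`, `2^(J-1) < z ≤ 2^J`, `m = a' P`, `a'` a product of `s - 1` primes of `(2^(3J), T)`. For
given `m` the numbers `q m + M (i' - i)`, `i' ≠ i`, are `z`-rough for the right proportion `VQ` of the `q`, on average over ALL
`z`-rough `m` (SMQ, second moment; as `DL/SM.lean` with `ER.SpecCNTU` and with primes `q` in a class mod `M`), with a total error
`η`, `η` much smaller than the density of the `m = a' P`. The number of the `(q, m)` by the prime number theorem in progressions mod `M`.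

Every module: file `Pool/Agent/Lib/MP_3efbeb_nt/ER/SV/<NAME>.lean`, imports this file, namespace `Pool.Agent.Lib.MP_3efbeb_nt.ER.P3`, theorem
`specNAME (hXXX : SpecXXX) ... : SpecNAME` (hypotheses in the order of the docstring), own lemmas in the namespace
`Pool.Agent.Lib.MP_3efbeb_nt.ER.P3.<NAME>M`. The file may import proved files of `DL/` (adapt their proofs).
-/

set_option autoImplicit false

namespace Pool.Agent.Lib.MP_3efbeb_nt.ER.P3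

open Finset Filter Topology
open scoped Classical
open Pool.Agent.Lib.MP_3efbeb_nt.DL (PR Rgh W1 W2 VV VQ cq Good Del Lam)

noncomputable section

/-! ## Definitions -/

/-- the primes `q = b (mod M)` in `(2^j, 2^(j+1)]` -/
def bb (M b j : ℕ) : Finset ℕ := (Ioc (2 ^ j) (2 ^ (j + 1))).filter (fun q => q.Prime ∧ q % M = b % M)

/-- the primes in `(2^J1, 2^J2]` -/
def QA (J1 J2 : ℕ) : Finset ℕ := (Ioc (2 ^ J1) (2 ^ J2)).filter Nat.Prime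

/-- the shifts `M a`, `a ∈ S0` -/
def MS (M : ℕ) (S0 : Finset ℤ) : Finset ℤ := S0.image (fun a => (M : ℤ) * a)

/-- the differences `i' - i`, `i' < L`, `i' ≠ i` -/
def Sh (L i : ℕ) : Finset ℤ := ((range L).erase i).image (fun i' : ℕ => (i' : ℤ) - i)

/-- the parameter `b0` of the sieve for `2 k - 1` forms and relative error `η² / 64` -/
def Par (k b0 : ℕ) (η : ℝ) : Prop := 38 * k ≤ b0 ∧ 3 * Real.exp (38 * k - b0) ≤ min (1 / 2) (η ^ 2 / 64)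

/-- `2^J` is the power of 2 above `⌈x^β0⌉` -/
def JJ (β0 : ℝ) (x : ℕ) : ℕ := Nat.clog 2 ⌈(x : ℝ) ^ β0⌉₊

/-- the cofactors `m = a' P ≤ X`: `a'` a squarefree product of `u` primes of `(2^(3J), T)`, `P > Z` prime -/
def Am (u J T : ℕ) (Z : ℝ) (X : ℕ) : Finset ℕ := (Icc 1 X).filter (fun m => SV.AA u (2 ^ (3 * J) + 1) T Z m)

/-! ## Counts with explicit level -/

/-- C1U (from `ER.specCNTU`, proved in `ER/CNTU.lean`; adapt `DL.specC1` in `DL/C12.lean`, which gives `nu = |S| + 1`). `Y0 = 0`, `Y1 = Y`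
(`Ioc 0 Y = Icc 1 Y`), `k = |S| + 1` forms. -/
def SpecC1U : Prop := ∀ (S : Finset ℤ) (b M r z d Y : ℕ), 19 * (S.card + 1) ≤ b → Good S (2 * (S.card + 1)) M → 2 ≤ z →
  Rgh M z d →
  |((W1 M r z S d Y).card : ℝ) - (Y : ℝ) / M * VV (S.card + 1) M z|
    ≤ 3 * Real.exp (19 * ((S.card : ℝ) + 1) - b) * ((Y : ℝ) / M * VV (S.card + 1) M z) + 4 * (z : ℝ) ^ (16 * b + 33)

/-- C2U (from `ER.specCNTU`; adapt `DL.specC2` in `DL/C12.lean`): `2 |S| + 1` forms, upper bound. -/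
def SpecC2U : Prop := ∀ (S : Finset ℤ) (b M r z d d' Y : ℕ), 19 * (2 * S.card + 1) ≤ b → Good S (4 * (S.card + 1)) M → 2 ≤ z →
  Rgh M z d → Rgh M z d' → Del S d d' ≠ 0 →
  ((W2 M r z S d d' Y).card : ℝ)
    ≤ (1 + 3 * Real.exp (19 * (2 * (S.card : ℝ) + 1) - b)) * ((Y : ℝ) / M) *
        (VV 1 M z * VQ S M z ^ 2 * DL.hh (2 * (S.card + 1)) M (Del S d d')) + 4 * (z : ℝ) ^ (16 * b + 33)

/-! ## Primes in the blocks, in a class mod `M` -/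

/-- BLKB (from `PntAP.pi_ap_interval`; adapt `DL.specBLK` in `DL/BLK.lean`): `b % M` takes finitely many values, `j0` the maximum. -/
def SpecBLKB : Prop := ∀ M : ℕ, 1 ≤ M → ∃ j0 : ℕ, ∀ j : ℕ, j0 ≤ j → ∀ b : ℕ, Nat.Coprime b M →
  (2 : ℝ) ^ j / (2 * (M.totient : ℝ) * j) ≤ (bb M b j).card

/-- BTB (from BLKB; adapt `DL.specBT` in `DL/BT.lean`): Brun-Titchmarsh; the class mod `M d` by the Chinese remainder theorem. -/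
def SpecBTB : Prop := ∃ C : ℝ, 0 < C ∧ ∀ M : ℕ, 1 ≤ M → ∃ j0 : ℕ, ∀ j : ℕ, j0 ≤ j → ∀ b : ℕ, Nat.Coprime b M →
  ∀ d c : ℕ, 1 ≤ d → d ^ 2 ≤ 2 ^ j → Nat.Coprime d M →
  (((bb M b j).filter (fun q => q % d = c % d)).card : ℝ) ≤ C * (bb M b j).card / (d.totient : ℝ)

/-- AVG1B (from BTB; adapt `DL.specAVG1` in `DL/AVG1.lean`). -/
def SpecAVG1B : Prop := ∀ (A η : ℝ) (s s' : ℤ), 0 ≤ A → 0 < η → s ≠ 0 → s' ≠ 0 → ∃ P0 : ℕ, ∀ M : ℕ, 1 ≤ M →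
  (∀ p : ℕ, p.Prime → ¬ p ∣ M → P0 < p) → ∃ j0 : ℕ, ∀ j : ℕ, j0 ≤ j → ∀ b : ℕ, Nat.Coprime b M → ∀ q ∈ bb M b j,
  ∑ q' ∈ (bb M b j).erase q, (DL.hh A M (s * (q' : ℤ) - s' * (q : ℤ)) - 1) ≤ η * (bb M b j).card

/-- AVGB (from AVG1B; adapt `DL.specAVG` in `DL/AVG.lean`). -/
def SpecAVGB : Prop := ∀ (S : Finset ℤ) (η : ℝ), 0 < η → (∀ s ∈ S, s ≠ 0) → ∃ P0 : ℕ, ∀ M : ℕ, 1 ≤ M →
  (∀ p : ℕ, p.Prime → ¬ p ∣ M → P0 < p) → ∃ j0 : ℕ, ∀ j : ℕ, j0 ≤ j → ∀ b : ℕ, Nat.Coprime b M → ∀ q ∈ bb M b j,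
  ∑ q' ∈ (bb M b j).erase q, (DL.hh (2 * (S.card + 1)) M (Del S q q') - 1) ≤ η * (bb M b j).card

/-! ## The second moment -/

/-- SMB (from C1U, C2U, AVGB, BLKB and `DL.specVLP`; adapt `DL.specSM` in `DL/SM.lean`). One block, shifts `MS M S0`.
PROOF. `|MS M S0| = |S0|`. `P0` = (the one of AVGB for `S0` and `η₁ = min (1/2) (η²/64)`) `+ 4 (|S0| + 1) + 2 ∑ |s|`; then
`Good (MS M S0) P0 M`: a prime `p ∤ M` is `> P0`, so does not divide `M a`, `M (a - a')` (`0 < |a|, |a - a'| ≤ P0`). The primes not dividing `M`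
which divide `Del (MS M S0) q q' = M^(|S0|²) Del S0 q q'` are those which divide `Del S0 q q'`, so
`hh (Del (MS M S0) q q') = hh (Del S0 q q')`, and AVGB for `S0` is the hypothesis `hAVG` of `DL.SMM.fixed`. The rest is the proof of `specSM` with
`E = 4 z ^ (16 b0 + 33)`, C1U for `MS M S0` and for `∅` and C2U with `b = b0` (the relative errors are `≤ 3 exp (38 k - b0) ≤ η₁`,
`k = |S0| + 1`), `16 z^(16 b0 + 33) ≤ η₁ X/(2^j M) · z⁻¹` for `z² ≥ 16 M/η₁`. -/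
def SpecSMB : Prop := ∀ (S0 : Finset ℤ) (η : ℝ) (b0 : ℕ), 0 < η → (∀ s ∈ S0, s ≠ 0) → Par (S0.card + 1) b0 η → ∃ P0 : ℕ, ∀ M : ℕ,
  1 ≤ M → (∀ p : ℕ, p.Prime → ¬ p ∣ M → P0 < p) → ∃ z0 : ℕ, ∀ z : ℕ, z0 ≤ z → ∀ j : ℕ, z ≤ 2 ^ j →
  ∀ b : ℕ, Nat.Coprime b M → ∀ X r : ℕ, 2 ^ (4 * j) * z ^ (16 * b0 + 36) ≤ X →
  ∑ m ∈ W1 M r z ∅ 1 X, |∑ q ∈ (bb M b j).filter (fun q => q * m ≤ X),
      ((if cq M z (MS M S0) q m then (1 : ℝ) else 0) - VQ (MS M S0) M z)|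
    ≤ η * Lam (bb M b j) * ((X : ℝ) / M) * VV (S0.card + 1) M z

/-- SMQ (from SMB): all blocks, all classes. PROOF. Same `P0`, `z0`. Split the sum over `m` according to `r = m % M` (`r < M`, coprime to `M`): this
is the sum over `W1 M r z ∅ 1 X`. For each such `r` choose `b_r` with `b_r r = 1 (mod M)`; for `m % M = r`:
`(q m) % M = 1 % M` iff `q % M = b_r % M`; so the inner sum is `∑_{J1 ≤ j < J2} ∑_{q ∈ bb M b_r j, q m ≤ X}`. Triangle inequality and SMB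
(`4 j ≤ 4 J2`): the total is at most `η ((X : ℝ)/M) VV · ∑_r ∑_j Lam (bb M b_r j)`; different `r` have different `b_r % M` (if `b r = b r' = 1` then
`r = r'`), so the sets `bb M b_r j` are disjoint parts of `QA J1 J2` and the last sum is `≤ Lam (QA J1 J2)`. (`b_r` is coprime to `M`; for `M = 1` all is
trivial.) -/
def SpecSMQ : Prop := ∀ (S0 : Finset ℤ) (η : ℝ) (b0 : ℕ), 0 < η → (∀ s ∈ S0, s ≠ 0) → Par (S0.card + 1) b0 η → ∃ P0 : ℕ, ∀ M : ℕ,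
  1 ≤ M → (∀ p : ℕ, p.Prime → ¬ p ∣ M → P0 < p) → ∃ z0 : ℕ, ∀ z : ℕ, z0 ≤ z → ∀ J1 J2 : ℕ, z ≤ 2 ^ J1 → J1 ≤ J2 →
  ∀ X : ℕ, 2 ^ (4 * J2) * z ^ (16 * b0 + 36) ≤ X →
  ∑ m ∈ (Icc 1 X).filter (fun m => Nat.Coprime m M ∧ Rgh M z m),
      |∑ q ∈ (QA J1 J2).filter (fun q => q * m ≤ X ∧ (q * m) % M = 1 % M),
        ((if cq M z (MS M S0) q m then (1 : ℝ) else 0) - VQ (MS M S0) M z)|
    ≤ η * Lam (QA J1 J2) * ((X : ℝ) / M) * VV (S0.card + 1) M z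

/-! ## Prime number theory -/

/-- VV1 (no hypotheses). PROOF. For `z > M` the primes dividing `M` are `< z`, so
`∏_{p < z} (1 - 1/p) = VV 1 M z · ∏_{p ∣ M} (1 - 1/p) = VV 1 M z · φ(M)/M` (`Nat.totient_eq_mul_prod_factors`). And
`∏_{p < z} (1 - 1/p)⁻¹ ≥ ∑_{1 ≤ n < z} 1/n ≥ log z` (geometric series, every `n < z` is a product of primes `< z`;
Mathlib: `EulerProduct.summable_and_hasSum_smoothNumbers_prod_primesBelow_geometric`, `log_le_harmonic_floor` or `Real.log_le_harmonic`). -/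
def SpecVV1 : Prop := ∀ M : ℕ, 1 ≤ M → ∃ z0 : ℕ, ∀ z : ℕ, z0 ≤ z → VV 1 M z * (M.totient : ℝ) * Real.log z ≤ M

/-- PNI (from `PntAP.pi_ap`): primes in a class in intervals `(u, v]`, `v/u` between `3/2` and `4`. PROOF. Finitely many classes. By
`pi_ap` with `δ = ε/20`: `π(v) ≥ (1 - δ) v/(φ log v)`, `π(u) ≤ (1 + δ) u/(φ log u) ≤ (1 + 2δ) u /(φ log v)·(1+δ)` as
`log v ≤ log u + log 4`, so `π(v) - π(u) ≥ (v - u - 5 δ v)/(φ log v)` and `v ≤ 3 (v - u)`. (`δ ≤ 1`; for `ε ≥ 1` trivial.) -/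
def SpecPNI : Prop := ∀ (M : ℕ) (ε : ℝ), 1 ≤ M → 0 < ε → ∃ u0 : ℕ, ∀ u v : ℕ, u0 ≤ u → 3 * u ≤ 2 * v → v ≤ 4 * u →
  ∀ b : ℕ, Nat.Coprime b M →
  (1 - ε) * (((v : ℝ) - u) / ((M.totient : ℝ) * Real.log v)) ≤ (((Ioc u v).filter (fun P => P.Prime ∧ P % M = b % M)).card : ℝ)

/-- REC (from `SV.SpecMER2`). PROOF. `J = JJ β0 x → ∞`, `z ≤ 2^J ≤ 2 z`, `z = ⌈x^β0⌉`. MER2 with `a = 2^J`, `b = 2^(3J)`: `log b/log a = 3`, error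
`C/(J log 2) → 0`. MER2 with `a = 2^(3J)`, `b = ⌈x^β1⌉ - 1` (`Ioc a b = Ico (a+1) (b+1)`, so `SV.blk (a + 1) ⌈x^β1⌉`), `log a = 3 β0 log x + O(1)`,
`log b = β1 log x + O(1)`, `a ≤ b` for large `x`. -/
def SpecREC : Prop := ∀ β0 β1 : ℝ, 0 < β0 → 3 * β0 < β1 →
  Tendsto (fun x : ℕ => Lam (QA (JJ β0 x) (3 * JJ β0 x))) atTop (𝓝 (Real.log 3)) ∧
  Tendsto (fun x : ℕ => SV.Sp (2 ^ (3 * JJ β0 x) + 1) ⌈(x : ℝ) ^ β1⌉₊) atTop (𝓝 (Real.log (β1 / (3 * β0))))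

/-! ## The combinatorics -/

/-- PAIRS (no hypotheses). The pairs `(q, m)` from the triples `(q, S, P)`, `m = (∏ S) P`. PROOF. The right side is the number of the pairs
`(q, m)`. With `a = ∏ S`: `X1/(q a) < P ≤ X2/(q a)` iff `X1 < q a P ≤ X2` (`Nat.div_lt_iff_lt_mul`, `Nat.le_div_iff_mul_le`). `P > X1/(q a) ≥ Z ≥ T`. So
`m = a P ≤ X2`, `m ≥ 1`, `SV.AA u (2^(3J)+1) T Z m` (`a` squarefree with `primeFactors a = S`). Injective: `P` is the only prime factor `≥ T` of `m` (those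
of `a` are `< T`), then `a = m/P` and `S = primeFactors a`. -/
def SpecPAIRS : Prop := ∀ (u J T X1 X2 M : ℕ) (Z : ℝ), (T : ℝ) ≤ Z →
  (∀ q ∈ QA J (3 * J), ∀ S ∈ (SV.blk (2 ^ (3 * J) + 1) T).powersetCard u, Z ≤ ((X1 / (q * ∏ p ∈ S, p) : ℕ) : ℝ)) →
  ∑ q ∈ QA J (3 * J), ∑ S ∈ (SV.blk (2 ^ (3 * J) + 1) T).powersetCard u,
      ((Ioc (X1 / (q * ∏ p ∈ S, p)) (X2 / (q * ∏ p ∈ S, p))).filter
        (fun P => P.Prime ∧ (q * (∏ p ∈ S, p) * P) % M = 1 % M)).card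
    ≤ ∑ m ∈ Am u J T Z X2, ((QA J (3 * J)).filter (fun q => X1 < q * m ∧ q * m ≤ X2 ∧ (q * m) % M = 1 % M)).card

/-- INJ (no hypotheses). The map `(q, m) ↦ n = q m - M i`. PROOF. `n % M = (q m) % M = 1 % M`, `X1 < n ≤ X2`. For `i' < L`, `i' ≠ i`:
`n + M i' = q m + M (i' - i)`, rough by `cq` (`M (i' - i) ∈ MS M (Sh L i)`); `n + M i = q m`: its prime factors are `≥ z`
(`q > 2^J ≥ z`; those of `m = a' P`: of `a'` `> 2^(3J) ≥ 2^J ≥ z`, `P > Z ≥ T > 2^(3J)`). `SV.AA s z T Z (q m)` with `a = q a'`: squarefree as `q ≤ 2^(3J)` does not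
divide `a'`, `s` prime factors, all in `[z, T)`. Injective: `q` is the only prime `≤ 2^(3J)` dividing `q m = n + M i`. -/
def SpecINJ : Prop := ∀ (s J z T X1 X2 M L i : ℕ) (Z : ℝ), 1 ≤ s → i < L → z ≤ 2 ^ J → 2 ^ (3 * J) < T → (T : ℝ) ≤ Z →
  ∑ m ∈ Am (s - 1) J T Z (X2 + M * i), ((QA J (3 * J)).filter (fun q => X1 + M * i < q * m ∧ q * m ≤ X2 + M * i ∧
      (q * m) % M = 1 % M ∧ cq M z (MS M (Sh L i)) q m)).card
    ≤ ((SV.Win M L z X1 X2).filter (fun n => SV.AA s z T Z (n + M * i))).card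

/-- MT (from PNI, REC, `SV.SpecESY`, PAIRS). The number of the pairs. PROOF. Let `β0 = be κ s 0`, `β1 = be κ s 1 = κ/s`, `J = JJ β0 x`, `T = ⌈x^β1⌉`,
`Z = x^(1-θ)`, `X1 = x/2 + M i`, `X2 = x - M N + M i`; `3 β0 < β1` as `e^s > 3`. For `q ∈ QA`, `S`: `D = q ∏ S ≤ 2^(3J) T^(s-1) ≤ C x^(3 β0 + (s-1) β1) ≤ C x^κ`
(`2^J ≤ 2 z ≤ 4 x^β0`, `T ≤ 2 x^β1`; elements of `S` are `< T`; `3 β0 ≤ β1`), `κ ≤ 1/32`. So `u = X1/D ≥ x^(1-κ)/(4C) ≥ x^(1-θ) = Z` for large `x` (`8 κ ≤ θ`), `T ≤ Z` (`θ ≤ 1/4`,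
`β1 ≤ 1/64`), `u ≥ u0`, and `3u ≤ 2v ≤ 8u` for `v = X2/D` (as `X2 ≥ 1.9 X1` and `X2 ≤ 2 X1`, `u` large). `D` is coprime to `M` (its primes are `> M`), so there is `b` coprime to `M` with
`D b = 1 (mod M)` and `(D P) % M = 1 % M` iff `P % M = b % M`. PNI with `ε/4`: the inner count of PAIRS is at least
`(1 - ε/4) (v - u)/(φ(M) log x) ≥ (1 - ε/2) (x/2)/(D φ(M) log x)` (`v - u ≥ (X2 - X1)/D - 1`, `X2 - X1 = x - x/2 - M N`, `v ≤ x`). The sum of `1/D` is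
`Lam (QA J (3J)) · ∑_S ∏_S 1/p`, which tends by REC, ESY (`u x = 2^(3J) + 1`, `v x = T`) to `log 3 · (s - log 3)^(s-1)/(s-1)!` (`log (β1/(3 β0)) = s - log 3 > 0`). PAIRS gives the result for
all `i < N` at once. -/
def SpecMT : Prop := ∀ (κ θ ε : ℝ) (s N M : ℕ), 0 < κ → 8 * κ ≤ θ → θ ≤ 1 / 4 → 0 < ε → 2 ≤ s → 1 ≤ M →
  ∃ x0 : ℕ, ∀ x : ℕ, x0 ≤ x → ∀ i < N,
  (1 - ε) * (Real.log 3 * (s - Real.log 3) ^ (s - 1) / ((s - 1).factorial : ℝ)) * ((x : ℝ) / 2 / (M.totient * Real.log x)) ≤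
   ∑ m ∈ Am (s - 1) (JJ (SV.be κ s 0) x) (SV.yb (SV.be κ s) x 1) ((x : ℝ) ^ (1 - θ)) (x - M * N + M * i),
      (((QA (JJ (SV.be κ s 0) x) (3 * JJ (SV.be κ s 0) x)).filter (fun q => x / 2 + M * i < q * m ∧ q * m ≤ x - M * N + M * i ∧
        (q * m) % M = 1 % M)).card : ℝ)

/-! ## The result -/

/-- CST (no hypotheses): the constants. PROOF. (1) `log 3 · (s - log 3)^(s-1)/(s-1)! ÷ (s^s/s!) = log 3 · (1 - log 3/s)^(s-1) → (log 3)/3 = 0.3662..`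
(`s^s/s! = s^(s-1)/(s-1)!`; Mathlib `Real.tendsto_one_add_div_pow_exp` or `tendsto_one_plus_div_pow_exp`; `(1 - c/s)^(s-1) ≥ (1 - c/s)^s`). (2) With `η = (s^s/s!) β0/100` (`≤ 1` as
`s^s/s! ≤ e^s`, `β0 = κ e^(-s)/s`) and `b0 = 38 N + ⌈log (192/η²)⌉`: `Par L b0 η` for `1 ≤ L ≤ N` (`192/η² ≥ 192`, so `η²/64 ≤ 1/2`); `η ≥ β0/100`, so
`b0 ≤ 76 e^(s/2) + 2 s + 2 log (s/κ) + 20`, and `β0 (16 b0 + 60) → 0`. (3) `β0 (304 N + 200) → 0`. -/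
def SpecCST : Prop := ∀ κ : ℝ, 0 < κ → κ ≤ 1 / 8 → ∃ s0 : ℕ, 2 ≤ s0 ∧ ∀ s : ℕ, s0 ≤ s →
  36 / 100 * ((s : ℝ) ^ s / (s.factorial : ℝ)) ≤ Real.log 3 * (s - Real.log 3) ^ (s - 1) / ((s - 1).factorial : ℝ) ∧
  ∀ N : ℕ, (N : ℝ) ≤ 2 * Real.exp (s / 2) → SV.be κ s 0 * SV.lev N 2 < 1 ∧
    ∃ (η : ℝ) (b0 : ℕ), 0 < η ∧ 100 * η ≤ ((s : ℝ) ^ s / (s.factorial : ℝ)) * SV.be κ s 0 ∧
      SV.be κ s 0 * (16 * b0 + 50) ≤ 1 / 2 ∧ ∀ L : ℕ, 1 ≤ L → L ≤ N → Par L b0 η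

/-- M3 (from SMQ, INJ, MT, CST, VV1, REC, `SV.SpecDEN`). PROOF. `s0` from CST (and `κ ≤ 1/32`). Let `w0 = (P1)!`, `P1 ≥ 2 N + 1` and `≥` all `P0` of SMQ for
`S0 = Sh L i`, `1 ≤ L ≤ N`, `i < L`, and `η, b0` of CST (`|Sh L i| + 1 = L`, the elements are `≠ 0`). If `w0 ∣ M` then all primes `≤ P1` divide `M`: `GM L M` for `L ≤ N`, and the
hypothesis of SMQ. Fix `L`, `i < L` (finitely many). For large `x`: `z = yb (be κ s) x 0`, `T = yb .. x 1`, `J = JJ (be κ s 0) x`, `Z = x^(1-θ)`, `X1 = x/2`, `X2 = x - M N`,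
`X1' = X1 + M i`, `X2' = X2 + M i ≤ x`, `W = ((X2 - X1)/M) VV L M z`, `S = MS M (Sh L i)`. INJ (`2^(3J) < T ≤ Z`, `z ≤ 2^J`): the number of the `n` is
`≥ ∑_{m ∈ Am} ∑_{q, X1' < q m ≤ X2', q m = 1 (M)} 1_cq = VQ · (number of pairs) + ∑_m ∑_q (1_cq - VQ)`, where
`|∑_m ∑_q (1_cq - VQ)| ≤ ∑_{m ∈ Am} |∑_{q m ≤ X2'} ..| + ∑_{m ∈ Am} |∑_{q m ≤ X1'} ..| ≤ 2 η Lam(QA) (x/M) VV L M z` by SMQ for `X = X2'` and `X = X1'` (`J1 = J`, `J2 = 3J`; the `m ∈ Am` are coprime to `M`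
and rough, their primes are `> 2^(3J) ≥ z > M`; the terms `m > X1'` of the second sum vanish; level: `2^(12 J) z^(16 b0 + 36) ≤ 2^12 z^(16 b0 + 48) ≤ x/4` for large `x`, `2^J ≤ 2z ≤ 4 x^β0`, by
`β0 (16 b0 + 50) ≤ 1/2`). `VQ = VV L/VV 1 ≥ VV L · φ(M) log z/M` (VV1), `log z ≥ β0 log x`; MT with `ε = 1/100`: `VQ · (number of pairs) ≥ 0.99 · 0.36 (s^s/s!) β0 (x/(2M)) VV L ≥ 0.35 (s^s/s!) β0 W`.
The error is `≤ 2 η · 1.2 · 2.1 W ≤ 0.06 (s^s/s!) β0 W` (`Lam (QA) → log 3 < 1.2` by REC, `x ≤ 2.1 (X2 - X1)`). DEN with `B = 2`: `|Win| ≤ 1.02 W`, and `0.25 · 1.02 ≤ 0.35 - 0.06`. -/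
def SpecM3 : Prop := ∀ κ θ : ℝ, 0 < κ → 8 * κ ≤ θ → θ ≤ 1 / 4 → ∃ s0 : ℕ, ∀ s : ℕ, s0 ≤ s → ∀ N : ℕ,
  (N : ℝ) ≤ 2 * Real.exp (s / 2) → ∃ w0 : ℕ, 1 ≤ w0 ∧ ∀ M : ℕ, 1 ≤ M → w0 ∣ M → ∃ x0 : ℕ, ∀ x : ℕ, x0 ≤ x →
  ∀ L i : ℕ, L ≤ N → i < L →
  1 / 4 * ((s : ℝ) ^ s / (s.factorial : ℝ)) * SV.be κ s 0 *
      (SV.Win M L (SV.yb (SV.be κ s) x 0) (x / 2) (x - M * N)).card
    ≤ (((SV.Win M L (SV.yb (SV.be κ s) x 0) (x / 2) (x - M * N)).filter (fun n =>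
        SV.AA s (SV.yb (SV.be κ s) x 0) (SV.yb (SV.be κ s) x 1) ((x : ℝ) ^ (1 - θ)) (n + M * i))).card : ℝ)

end

end Pool.Agent.Lib.MP_3efbeb_nt.ER.P3
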