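import Pool.Agent.Lib.MP_3efbeb_nt.ER.SV.SpecE
import Pool.Agent.Lib.MP_3efbeb_nt.DL.VLB

/-!
# MP_3efbeb_nt, ER/SV: module VL (helper99), from `DL.specVLB` (file `DL/VLB.lean`)
-/

set_option autoImplicit false

namespace Pool.Agent.Lib.MP_3efbeb_nt.ER.SV

open Finset Filter Topology
open scoped Classical

noncomputable section

namespace VLM

/-- the product is the one of group DL -/
lemma V_eq (L M z : ℕ) : V L M z = DL.VV L M z := by
  unfold V DL.VV DL.PR
  refine Finset.prod_congr ?_ (fun _ _ => rfl)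
  ext p
  simp

/-- the factors lie in `[0, 1]` -/
lemma fac (L M p : ℕ) (hM : GM L M) (hp : p.Prime) (hd : ¬ p ∣ M) :
    0 ≤ 1 - (L : ℝ) / p ∧ 1 - (L : ℝ) / p ≤ 1 := by
  have h1 : 2 * L < p := by
    by_contra h
    exact hd (hM.2 p hp (not_lt.mp h))
  have hp0 : (0 : ℝ) < p := by exact_mod_cast hp.pos
  have h2 : (L : ℝ) ≤ p := by
    have : L ≤ p := by omega
    exact_mod_cast this
  constructor
  · have : (L : ℝ) / p ≤ 1 := (div_le_one hp0).2 h2
    linarith
  · have : 0 ≤ (L : ℝ) / p := by positivity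
    linarith

end VLM

open VLM in
/-- module VL -/
theorem specVL : SpecVL := by
  intro L M hM
  obtain ⟨c, hc, h⟩ := DL.specVLB L M hM.1 (fun p hp hd => by
    by_contra hlt
    exact hd (hM.2 p hp (by omega)))
  refine ⟨c, hc, fun z hz => ⟨?_, ?_⟩⟩
  · rw [V_eq]
    exact h z hz
  · unfold V
    refine Finset.prod_le_one ?_ ?_
    · intro p hp
      simp only [mem_filter] at hp
      exact (fac L M p hM hp.2.1 hp.2.2).1
    · intro p hp
      simp only [mem_filter] at hp
      exact (fac L M p hM hp.2.1 hp.2.2).2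

end

end Pool.Agent.Lib.MP_3efbeb_nt.ER.SV
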